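import Mathlib

/-!
# Quantum ergodicity for holomorphic Hecke forms on compact arithmetic surfaces (MP_d2a4bb_nt)

Definitions used in the final statement.
-/

open UpperHalfPlane MeasureTheory Matrix
open scoped MatrixGroups Manifold Topology ComplexConjugate

namespace HQ

/-- An order `O` in a quaternion division algebra `M` over `ℚ` which splits at infinity, together with
an identification `M ⊗ ℝ = M₂(ℝ)`: a subring of `M₂(ℝ)` which is the set of integer combinations of an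
`ℝ`-basis of `M₂(ℝ)` and in which every nonzero element has nonzero determinant (reduced norm). -/
structure QuatOrder where
  O : Subring (Matrix (Fin 2) (Fin 2) ℝ)
  basis : Module.Basis (Fin 4) ℝ (Matrix (Fin 2) (Fin 2) ℝ)
  mem_iff : ∀ x : Matrix (Fin 2) (Fin 2) ℝ, x ∈ O ↔ ∃ c : Fin 4 → ℤ, x = ∑ i, (c i : ℝ) • basis i
  det_ne_zero : ∀ x ∈ O, x ≠ 0 → x.det ≠ 0

/-- The factor of automorphy `c z + d`. -/
noncomputable def jj (g : SL(2, ℝ)) (z : ℍ) : ℂ := ((g 1 0 : ℝ) : ℂ) * (z : ℂ) + ((g 1 1 : ℝ) : ℂ)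

namespace QuatOrder
variable (Q : QuatOrder)

/-- The group `Γ` of units of `O` of reduced norm one. -/
def Γ : Subgroup SL(2, ℝ) where
  carrier := {g | (g : Matrix (Fin 2) (Fin 2) ℝ) ∈ Q.O ∧ ((g⁻¹ : SL(2, ℝ)) : Matrix (Fin 2) (Fin 2) ℝ) ∈ Q.O}
  mul_mem' := by
    rintro a b ⟨ha, ha'⟩ ⟨hb, hb'⟩
    have h1 : ((a * b : SL(2, ℝ)) : Matrix (Fin 2) (Fin 2) ℝ) = (a : Matrix (Fin 2) (Fin 2) ℝ) * b := rfl
    have h2 : (((a * b)⁻¹ : SL(2, ℝ)) : Matrix (Fin 2) (Fin 2) ℝ) =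
        ((b⁻¹ : SL(2, ℝ)) : Matrix (Fin 2) (Fin 2) ℝ) * ((a⁻¹ : SL(2, ℝ)) : Matrix (Fin 2) (Fin 2) ℝ) := by
      rw [_root_.mul_inv_rev]; rfl
    exact ⟨h1 ▸ Q.O.mul_mem ha hb, h2 ▸ Q.O.mul_mem hb' ha'⟩
  one_mem' := by
    have h1 : ((1 : SL(2, ℝ)) : Matrix (Fin 2) (Fin 2) ℝ) = 1 := rfl
    have h2 : (((1 : SL(2, ℝ))⁻¹ : SL(2, ℝ)) : Matrix (Fin 2) (Fin 2) ℝ) = 1 := by
      rw [inv_one]; rfl
    exact ⟨h1 ▸ Q.O.one_mem, h2 ▸ Q.O.one_mem⟩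
  inv_mem' := by
    rintro a ⟨ha, ha'⟩
    exact ⟨ha', by rw [inv_inv]; exact ha⟩

/-- The elements of `O` of reduced norm `p`, divided by `√p`. -/
def E (p : ℕ) : Set SL(2, ℝ) := {g | Real.sqrt p • (g : Matrix (Fin 2) (Fin 2) ℝ) ∈ Q.O}

/-- Equivalence modulo left multiplication by `Γ` on the elements of reduced norm `p`. -/
def heckeSetoid (p : ℕ) : Setoid (Q.E p) where
  r x y := ∃ γ ∈ Q.Γ, (y : SL(2, ℝ)) = γ * (x : SL(2, ℝ))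
  iseqv := by
    refine ⟨fun x => ⟨1, Q.Γ.one_mem, by rw [one_mul]⟩, ?_, ?_⟩
    · rintro x y ⟨γ, hγ, h⟩
      exact ⟨γ⁻¹, Q.Γ.inv_mem hγ, by rw [h, inv_mul_cancel_left]⟩
    · rintro x y z ⟨γ, hγ, h⟩ ⟨γ', hγ', h'⟩
      exact ⟨γ' * γ, Q.Γ.mul_mem hγ' hγ, by rw [h', h, mul_assoc]⟩

/-- The number of classes `Γ \ {x ∈ O : nrd x = p}`; it is `p + 1` for a maximal order `O` and a prime
`p` at which `M` splits (Eichler). -/
noncomputable def index (p : ℕ) : ℕ := Nat.card (Quotient (Q.heckeSetoid p))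

/-- `M` splits at `p` and `O` is maximal at `p`: the ring `O / p O` is isomorphic to `M₂(𝔽_p)`. -/
def Good (p : ℕ) : Prop := ∃ φ : Q.O →+* Matrix (Fin 2) (Fin 2) (ZMod p), Function.Surjective φ ∧
  ∀ x : Q.O, φ x = 0 ↔ ∃ y : Q.O, x = (p : Q.O) * y

/-- Holomorphic forms of weight `k` on `X = Γ \ ℍ`. -/
def IsForm (k : ℕ) (f : ℍ → ℂ) : Prop :=
  MDifferentiable 𝓘(ℂ) 𝓘(ℂ) f ∧ ∀ γ ∈ Q.Γ, ∀ z : ℍ, f (γ • z) = jj γ z ^ k * f z

/-- The Hecke operator `T_p` in weight `k` (normalised): the sum of `(c z + d)⁻ᵏ f (g z)` over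
representatives `g` of `Γ \ {x / √p : x ∈ O, nrd x = p}`. -/
noncomputable def T (p k : ℕ) (f : ℍ → ℂ) (z : ℍ) : ℂ :=
  ∑ᶠ c : Quotient (Q.heckeSetoid p), f (((Quotient.out c : Q.E p) : SL(2, ℝ)) • z) /
    jj ((Quotient.out c : Q.E p) : SL(2, ℝ)) z ^ k

/-- `f` is an eigenfunction of `T_p` (or zero). -/
def IsEigen (p k : ℕ) (f : ℍ → ℂ) : Prop := ∃ l : ℂ, ∀ z, Q.T p k f z = l * f z

/-- A measurable set which meets every orbit of `Γ` in exactly one point. -/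
def IsFund (F : Set ℍ) : Prop := MeasurableSet F ∧ ∀ z : ℍ, ∃! w : ℍ, w ∈ F ∧ ∃ γ ∈ Q.Γ, γ • z = w

/-- A continuous function on `X`, as a `Γ`-invariant function on `ℍ`. -/
def IsTest (ψ : ℍ → ℝ) : Prop := Continuous ψ ∧ ∀ γ ∈ Q.Γ, ∀ z : ℍ, ψ (γ • z) = ψ z

/-- `B` is an orthonormal basis of the space of forms of weight `k` which consists of eigenfunctions
of `T_p`; the inner product is `∫_X f ḡ y^k dμ`, `X` represented by the fundamental domain `F`. -/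
structure IsHeckeBasis (F : Set ℍ) (p k : ℕ) (B : Finset (ℍ → ℂ)) : Prop where
  form : ∀ f ∈ B, Q.IsForm k f
  eigen : ∀ f ∈ B, Q.IsEigen p k f
  ortho : ∀ f ∈ B, ∀ g ∈ B, f ≠ g → ∫ z in F, f z * conj (g z) * ((z.im : ℝ) : ℂ) ^ k = 0
  norm : ∀ f ∈ B, ∫ z in F, ‖f z‖ ^ 2 * z.im ^ k = 1
  span : ∀ h, Q.IsForm k h → h ∈ Submodule.span ℂ (B : Set (ℍ → ℂ))

end QuatOrder

/-- THEOREM QE: almost all Hecke forms equidistribute. -/
def Main : Prop := ∀ (Q : QuatOrder) (p : ℕ), p.Prime → Q.Good p → 3 ≤ Q.index p →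
  ∀ F : Set ℍ, Q.IsFund F → ∀ B : ℕ → Finset (ℍ → ℂ), (∀ m, 0 < m → Q.IsHeckeBasis F p (2 * m) (B m)) →
  ∃ G : ℕ → Finset (ℍ → ℂ), (∀ m, G m ⊆ B m) ∧
    Filter.Tendsto (fun m => ((G m).card : ℝ) / ((B m).card : ℝ)) Filter.atTop (𝓝 1) ∧
    ∀ ψ : ℍ → ℝ, Q.IsTest ψ → ∀ ε > (0 : ℝ), ∀ᶠ m in Filter.atTop, ∀ f ∈ G m,
      |(∫ z in F, ψ z * (‖f z‖ ^ 2 * z.im ^ (2 * m))) - (∫ z in F, ψ z) / (volume F).toReal| < ε

end HQ
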