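import Pool.Agent.Work.MP_d2a4bb_nt.NC.I_BrE
import Pool.Agent.Work.MP_d2a4bb_nt.NC.I_ExQ
import Pool.Agent.Work.MP_d2a4bb_nt.NC.I_ExQO
import Pool.Agent.Work.MP_d2a4bb_nt.NC.I_ExE
import Pool.Agent.Work.MP_d2a4bb_nt.NC.I_ExR
import Pool.Agent.Work.MP_d2a4bb_nt.NC.I_Ct

/-!
# The maximal order of discriminant 6

All primes `p > 3` are good and have index `p + 1`, so the hypotheses of the theorems on almost all
forms hold for this order and all these primes.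
-/

set_option autoImplicit false

open Matrix

namespace HQ

/-- `p` divides `x` in `O`: the two formulations. -/
theorem Example6_dv (Q : QuatOrder) (p : ℕ) (x : Q.O) :
    (∃ y : Q.O, x = (p : Q.O) * y) ↔ Pool.Agent.HoloQUE.Dv Q.O p (x : Matrix (Fin 2) (Fin 2) ℝ) := by
  constructor
  · rintro ⟨y, hy⟩
    refine ⟨y, y.2, ?_⟩
    have h := congrArg (Subtype.val : Q.O → Matrix (Fin 2) (Fin 2) ℝ) hy
    rw [h]
    show ((p : Q.O) : Matrix (Fin 2) (Fin 2) ℝ) * (y : Matrix (Fin 2) (Fin 2) ℝ) = _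
    rw [Subring.coe_natCast, ← nsmul_eq_mul, Nat.cast_smul_eq_nsmul ℝ]
  · rintro ⟨y, hy, h⟩
    refine ⟨⟨y, hy⟩, Subtype.ext ?_⟩
    rw [h]
    show _ = ((p : Q.O) : Matrix (Fin 2) (Fin 2) ℝ) * y
    rw [Subring.coe_natCast, ← nsmul_eq_mul, Nat.cast_smul_eq_nsmul ℝ]

/-- The maximal order of discriminant `6` (the quaternions `(a + b i + c j + d i j) / 2`, `i² = -1`,
`j² = 3`, with integers `a, b, c, d` of the same parity). -/
theorem example6 : ∃ Q : QuatOrder, ∀ p : ℕ, p.Prime → 3 < p → Q.Good p ∧ Q.index p = p + 1 := by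
  obtain ⟨Q, hQ⟩ := Pool.Agent.HoloQUE.prf_ExQO
  refine ⟨Q, fun p hp h3 => ?_⟩
  obtain ⟨O, hO, hOO⟩ := Pool.Agent.HoloQUE.prf_ExQ
  have hOQ : O = Q.O := by
    ext x
    rw [hO x, hQ x]
  rw [hOQ] at hOO
  obtain ⟨ρ, hs, hρ⟩ := Pool.Agent.HoloQUE.prf_ExR Q.O p hQ hp h3
  obtain ⟨hL, he⟩ := Pool.Agent.HoloQUE.prf_ExE Q.O hQ
  obtain ⟨A, hA, hcard⟩ := Pool.Agent.HoloQUE.prf_Ct Q.O p hOO hp hL he ⟨ρ, hs, hρ⟩
  refine ⟨⟨ρ, hs, fun x => ?_⟩, ?_⟩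
  · rw [hρ x, Example6_dv]
  · rw [Pool.Agent.HoloQUE.prf_BrE Q p A hOO hp hA, hcard]

end HQ
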