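import Pool.Agent.Work.MP_d2a4bb_nt.QE.Asm
import Pool.Agent.Work.MP_d2a4bb_nt.QA.Final

/-!
# Theorem QE, without hypotheses
-/

namespace HQ

theorem main : Main := main_of prGAM prCOC prFIW prSTP

end HQ
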