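import Pool.Agent.Work.MP_d2a4bb_nt.QE.Main

/-!
# Closed forms of all statements of block QE: `HQ.clXXX : StXXX`
-/

namespace HQ

theorem clINT : StINT := prINT
theorem clGAM : StGAM := prGAM
theorem clDSC : StDSC := prDSC
theorem clCOC : StCOC := prCOC
theorem clFIW : StFIW := prFIW
theorem clREP : StREP := prREP
theorem clSTP : StSTP := prSTP
theorem clVOL : StVOL := prVOL
theorem clJJ : StJJ := prJJ
theorem clPHA : StPHA := prPHA clJJ
theorem clPHB : StPHB := prPHB clJJ
theorem clWRD : StWRD := prWRD
theorem clEXT : StEXT := prEXT clPHA clPHB clWRD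
theorem clREC : StREC := prREC clWRD clEXT clPHB
theorem clREV : StREV := prREV
theorem clMTP : StMTP := prMTP clVOL
theorem clSYM : StSYM := prSYM clMTP clREV clWRD clPHA clPHB
theorem clRED : StRED := prRED clSYM clWRD clPHA clPHB
theorem clBAS : StBAS := prBAS clWRD clEXT clSYM clPHA clPHB
theorem clIDN : StIDN := prIDN clREC clSYM clBAS
theorem clTFI : StTFI := prTFI clMTP
theorem clSMV : StSMV := prSMV
theorem clPCK : StPCK := prPCK clVOL clPHA clPHB
theorem clBND : StBND := prBND
theorem clBAD : StBAD := prBAD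
theorem clLIN : StLIN := prLIN
theorem clBES : StBES := prBES clLIN clPHB
theorem clPTW : StPTW := prPTW clSMV clPCK clBES clPHA
theorem clTRC : StTRC := prTRC clPTW clBAD clBND clPHB
theorem clCSI : StCSI := prCSI clIDN clWRD clPHA clPHB clRED
theorem clVAR : StVAR := prVAR clCSI clTRC clWRD
theorem clUNI : StUNI := prUNI
theorem clWLK : StWLK := prWLK
theorem clMOD : StMOD := prMOD
theorem clERG : StERG := prERG clUNI clWLK clMOD clTFI
theorem clCOB : StCOB := prCOB clERG clMOD
theorem clQEV : StQEV := prQEV clVAR clCOB clMOD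
theorem clWGT : StWGT := prWGT
theorem clFUN : StFUN := prFUN clVOL clGAM clFIW clCOC
theorem clRHO : StRHO := prRHO
theorem clSUM : StSUM := prSUM clRHO
theorem clPOI : StPOI := prPOI clSUM clRHO clJJ
theorem clTWO : StTWO := prTWO clPOI clSUM clRHO
theorem clMOI : StMOI := prMOI
theorem clDIM : StDIM := prDIM clTWO clMOI clLIN
theorem clSEL : StSEL := prSEL
theorem clSEP : StSEP := prSEP
theorem clEQD : StEQD := prEQD clSTP clWGT clFIW clCOC clFUN clQEV clPHA clPHB

end HQ
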