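import Pool.Agent.Work.MP_d2a4bb_nt.QE.Stmts

/-!
# Item BAD of the block [d2a4bb QE]
-/

open UpperHalfPlane MeasureTheory Matrix
open scoped MatrixGroups Manifold Topology ComplexConjugate

namespace HQ

namespace IBAD

/-! ### Fixed points -/

theorem fix_eqs {g : SL(2, ℝ)} {z : ℍ} (h : g • z = z) :
    g 0 0 = 2 * g 1 0 * z.re + g 1 1 ∧
      g 0 0 * z.re + g 0 1 = g 1 0 * z.re ^ 2 + g 1 1 * z.re - g 1 0 * z.im ^ 2 := by
  have h1 := coe_specialLinearGroup_apply g z
  rw [h] at h1
  have hz : (z : ℂ) ≠ 0 := z.ne_zero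
  have hd : ((algebraMap ℝ ℝ (g 1 0) : ℂ) * z + (algebraMap ℝ ℝ (g 1 1) : ℂ)) ≠ 0 := by
    intro h0
    rw [h0, div_zero] at h1
    exact hz h1
  rw [eq_div_iff hd] at h1
  have hre := congrArg Complex.re h1
  have him := congrArg Complex.im h1
  simp at hre him
  have hy := z.im_pos
  constructor
  · have h3 : (g 0 0 - (2 * g 1 0 * z.re + g 1 1)) * z.im = 0 := by linear_combination -him
    rcases mul_eq_zero.1 h3 with h4 | h4
    · linarith
    · exact absurd h4 hy.ne'
  · linear_combination -hre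

theorem fix_sub {g : SL(2, ℝ)} (h1 : g ≠ 1) (h2 : g ≠ -1) : {z : ℍ | g • z = z}.Subsingleton := by
  intro z hz w hw
  obtain ⟨a1, a2⟩ := fix_eqs hz
  obtain ⟨b1, b2⟩ := fix_eqs hw
  have hdet : g 0 0 * g 1 1 - g 0 1 * g 1 0 = 1 := by
    have := g.det_coe
    rwa [Matrix.det_fin_two] at this
  by_cases hc : g 1 0 = 0
  · exfalso
    rw [hc] at a1 a2 hdet
    have hb : g 0 1 = 0 := by
      have : g 0 0 = g 1 1 := by linarith
      rw [this] at a2
      linarith
    have had : g 0 0 = g 1 1 := by linarith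
    have hsq : g 1 1 * g 1 1 = 1 := by rw [had, hb] at hdet; linarith
    rcases mul_self_eq_one_iff.1 hsq with h | h
    · apply h1
      ext i j
      fin_cases i <;> fin_cases j
      · simpa using had.trans h
      · simpa using hb
      · simpa using hc
      · simpa using h
    · apply h2
      ext i j
      fin_cases i <;> fin_cases j
      · simpa using had.trans h
      · simpa using hb
      · simpa using hc
      · simpa using h
  · have hx : z.re = w.re := by
      have : g 1 0 * (z.re - w.re) = 0 := by linarith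
      rcases mul_eq_zero.1 this with h | h
      · exact absurd h hc
      · linarith
    have hy : z.im = w.im := by
      rw [← hx] at b2
      have h3 : g 1 0 * (z.im ^ 2 - w.im ^ 2) = 0 := by linarith
      rcases mul_eq_zero.1 h3 with h | h
      · exact absurd h hc
      · have hz' := z.im_pos
        have hw' := w.im_pos
        nlinarith
    exact UpperHalfPlane.ext (Complex.ext hx hy)

theorem vol_sub {s : Set ℍ} (hs : s.Subsingleton) : volume s = 0 := by
  rw [volume_eq_lintegral]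
  exact setLIntegral_measure_zero _ _ ((hs.image _).measure_zero _)

/-! ### Walks -/

variable {S : Setup}

theorem walk_mul {n m : ℕ} {x y : SL(2, ℝ)} (hx : Walk S.Γ S.E n x) (hy : Walk S.Γ S.E m y) :
    Walk S.Γ S.E (n + m) (x * y) := by
  obtain ⟨l, hl, hl', rfl⟩ := hx
  obtain ⟨k, hk, hk', rfl⟩ := hy
  refine ⟨l ++ k, by rw [List.length_append, hl, hk], ?_, List.prod_append⟩
  intro e he
  rcases List.mem_append.1 he with h | h
  · exact hl' e h
  · exact hk' e h

theorem walk_inv {n : ℕ} {x : SL(2, ℝ)} (hx : Walk S.Γ S.E n x) : Walk S.Γ S.E n x⁻¹ := by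
  obtain ⟨l, hl, hl', rfl⟩ := hx
  refine ⟨(l.map (fun x => x⁻¹)).reverse, by simp [hl], ?_, by rw [List.prod_inv_reverse]⟩
  intro e he
  rw [List.mem_reverse, List.mem_map] at he
  obtain ⟨d, hd, rfl⟩ := he
  rcases hl' d hd with h | h
  · exact Or.inl (S.E_inv d h)
  · exact Or.inr (S.Γ.inv_mem h)

theorem walk_mem {x : SL(2, ℝ)} (hx : x ∈ S.Γ) : Walk S.Γ S.E 1 x :=
  ⟨[x], rfl, by simpa using Or.inr hx, by simp⟩

theorem walk_one (n : ℕ) : Walk S.Γ S.E n 1 := by
  refine ⟨List.replicate n 1, by simp, ?_, by simp⟩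
  intro e he
  rw [List.eq_of_mem_replicate he]
  exact Or.inr S.Γ.one_mem

theorem walk_le {n m : ℕ} (h : n ≤ m) {x : SL(2, ℝ)} (hx : Walk S.Γ S.E n x) :
    Walk S.Γ S.E m x := by
  obtain ⟨k, rfl⟩ := Nat.exists_eq_add_of_le h
  have := walk_mul hx (walk_one (S := S) k)
  rwa [mul_one] at this

theorem walk_unif (V : Finset (List SL(2, ℝ))) (hV : ∀ a ∈ V, ∃ n, Walk S.Γ S.E n a.prod) :
    ∃ N, ∀ a ∈ V, Walk S.Γ S.E N a.prod := by
  classical
  induction V using Finset.induction_on with
  | empty => exact ⟨0, by simp⟩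
  | insert a V ha ih =>
    obtain ⟨N, hN⟩ := ih fun b hb => hV b (Finset.mem_insert_of_mem hb)
    obtain ⟨n, hn⟩ := hV a (Finset.mem_insert_self a V)
    refine ⟨max n N, fun b hb => ?_⟩
    rcases Finset.mem_insert.1 hb with rfl | h
    · exact walk_le (le_max_left _ _) hn
    · exact walk_le (le_max_right _ _) (hN b h)

/-! ### The exceptional set -/

/-- The points of `K` moved by at most `2 / (n + 1)`. -/
def As (K : Set ℍ) (g : SL(2, ℝ)) (n : ℕ) : Set ℍ := {z | z ∈ K ∧ dist (g • z) z ≤ 2 / ((n : ℝ) + 1)}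

theorem As_closed {K : Set ℍ} (hK : IsCompact K) (g : SL(2, ℝ)) (n : ℕ) : IsClosed (As K g n) := by
  have h1 : IsClosed {z : ℍ | dist (g • z) z ≤ 2 / ((n : ℝ) + 1)} :=
    isClosed_le ((continuous_const_smul g).dist continuous_id) continuous_const
  exact hK.isClosed.inter h1

theorem As_anti (K : Set ℍ) (g : SL(2, ℝ)) : Antitone (As K g) := by
  intro n m h z hz
  refine ⟨hz.1, hz.2.trans ?_⟩
  have : (n : ℝ) ≤ m := Nat.cast_le.2 h
  gcongr

theorem As_tendsto {K : Set ℍ} (hK : IsCompact K) {g : SL(2, ℝ)} (h1 : g ≠ 1) (h2 : g ≠ -1) :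
    Filter.Tendsto (fun n => volume (As K g n)) Filter.atTop (𝓝 0) := by
  have h := tendsto_measure_iInter_atTop (μ := (volume : Measure ℍ)) (s := As K g)
    (fun n => (As_closed hK g n).measurableSet.nullMeasurableSet) (As_anti K g)
    ⟨0, ((measure_mono (fun z hz => hz.1)).trans_lt hK.measure_lt_top).ne⟩
  have h0 : volume (⋂ n, As K g n) = 0 := by
    refine measure_mono_null ?_ (vol_sub (fix_sub h1 h2))
    intro z hz
    rw [Set.mem_iInter] at hz
    have h3 : dist (g • z) z ≤ 0 := by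
      have h4 : Filter.Tendsto (fun n : ℕ => 2 / ((n : ℝ) + 1)) Filter.atTop (𝓝 0) := by
        have := (tendsto_one_div_add_atTop_nhds_zero_nat (𝕜 := ℝ)).const_mul 2
        simpa [div_eq_mul_inv] using this
      exact ge_of_tendsto' h4 fun n => (hz n).2
    exact dist_le_zero.1 h3
  rw [h0] at h
  exact h

end IBAD

open IBAD in
/-- Item BAD. -/
theorem prBAD : StBAD := by
  intro S V hV hinj K hK ε hε
  classical
  obtain ⟨N, hN⟩ := walk_unif V hV
  have hK1 : IsCompact (Metric.cthickening 2 K) := hK.cthickening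
  have hfin := S.fin (N + 1 + N) (Metric.cthickening 2 K) hK1
  -- the finite set of elements
  let F : Finset SL(2, ℝ) := hfin.toFinset.filter fun g => g ≠ 1 ∧ g ≠ -1
  have hlim : Filter.Tendsto (fun n => ∑ g ∈ F, volume (As K g n)) Filter.atTop (𝓝 0) := by
    have h := tendsto_finsetSum (f := fun (g : SL(2, ℝ)) (n : ℕ) => volume (As K g n))
      (a := fun _ => 0) (x := Filter.atTop) F (fun g hg => by
        obtain ⟨-, h1, h2⟩ := Finset.mem_filter.1 hg
        exact As_tendsto hK h1 h2)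
    simpa using h
  obtain ⟨n, hn⟩ := (hlim.eventually (gt_mem_nhds (ENNReal.ofReal_pos.2 hε))).exists
  have hr : (0 : ℝ) < 1 / ((n : ℝ) + 1) := by positivity
  have hr1 : 1 / ((n : ℝ) + 1) ≤ 1 := by
    rw [div_le_one (by positivity)]
    have : (0 : ℝ) ≤ n := Nat.cast_nonneg n
    linarith
  refine ⟨1 / ((n : ℝ) + 1), hr, hr1, ⋃ g ∈ F, As K g n, ?_, ?_, ?_, ?_⟩
  · exact F.finite_toSet.isClosed_biUnion fun g _ => As_closed hK g n
  · exact Set.iUnion₂_subset fun g _ z hz => hz.1
  · exact (measure_biUnion_finset_le F _).trans hn.le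
  · intro z hzK hzA u
    rcases Set.eq_empty_or_nonempty {p : SL(2, ℝ) × List SL(2, ℝ) |
      p.1 ∈ S.Γ ∧ p.2 ∈ V ∧ dist (p.1 • u) (p.2.prod • z) < 1 / ((n : ℝ) + 1)} with he | ⟨⟨γ, a⟩, hγ, ha, hd⟩
    · rw [he, Set.encard_empty]
      exact zero_le
    · have hsub : {p : SL(2, ℝ) × List SL(2, ℝ) |
          p.1 ∈ S.Γ ∧ p.2 ∈ V ∧ dist (p.1 • u) (p.2.prod • z) < 1 / ((n : ℝ) + 1)} ⊆
          {(γ, a), (-γ, a)} := by
        rintro ⟨γ', a'⟩ ⟨hγ', ha', hd'⟩
        simp only at hγ ha hd hγ' ha' hd'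
        -- the element `δ`
        have hδd : dist (((a'.prod)⁻¹ * (γ' * γ⁻¹) * a.prod) • z) z ≤ 2 / ((n : ℝ) + 1) := by
          have e1 : dist (((a'.prod)⁻¹ * (γ' * γ⁻¹) * a.prod) • z) z =
              dist ((γ' * γ⁻¹) • (a.prod • z)) (a'.prod • z) := by
            rw [← dist_smul a'.prod]
            simp only [← mul_smul, ← mul_assoc, mul_inv_cancel, one_mul]
          have e2 : dist ((γ' * γ⁻¹) • (a.prod • z)) (γ' • u) = dist (γ • u) (a.prod • z) := by
            have : γ' • u = (γ' * γ⁻¹) • (γ • u) := by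
              rw [← mul_smul, mul_assoc, inv_mul_cancel, mul_one]
            rw [this, dist_smul, dist_comm]
          rw [e1]
          calc dist ((γ' * γ⁻¹) • (a.prod • z)) (a'.prod • z)
              ≤ dist ((γ' * γ⁻¹) • (a.prod • z)) (γ' • u) + dist (γ' • u) (a'.prod • z) :=
                dist_triangle _ _ _
            _ ≤ 1 / ((n : ℝ) + 1) + 1 / ((n : ℝ) + 1) := by rw [e2]; exact add_le_add hd.le hd'.le
            _ = 2 / ((n : ℝ) + 1) := by ring
        have hδw : Walk S.Γ S.E (N + 1 + N) ((a'.prod)⁻¹ * (γ' * γ⁻¹) * a.prod) :=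
          walk_mul (walk_mul (walk_inv (hN a' ha'))
            (walk_mem (S.Γ.mul_mem hγ' (S.Γ.inv_mem hγ)))) (hN a ha)
        have h2n : 2 / ((n : ℝ) + 1) ≤ 2 := by
          have : 2 / ((n : ℝ) + 1) = 2 * (1 / ((n : ℝ) + 1)) := by ring
          rw [this]
          linarith
        have hδ : (a'.prod)⁻¹ * (γ' * γ⁻¹) * a.prod = 1 ∨
            (a'.prod)⁻¹ * (γ' * γ⁻¹) * a.prod = -1 := by
          by_contra hcon
          push Not at hcon
          apply hzA
          refine Set.mem_iUnion₂.2 ⟨(a'.prod)⁻¹ * (γ' * γ⁻¹) * a.prod, ?_, hzK, hδd⟩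
          refine Finset.mem_filter.2 ⟨?_, hcon⟩
          rw [Set.Finite.mem_toFinset]
          refine ⟨hδw, z, Metric.self_subset_cthickening K hzK, ?_⟩
          exact Metric.mem_cthickening_of_dist_le _ z _ _ hzK (hδd.trans h2n)
        -- conclusion
        have key : ∀ s : SL(2, ℝ), s ∈ S.Γ → (∀ x : SL(2, ℝ), s * x = x * s) →
            (a'.prod)⁻¹ * (γ' * γ⁻¹) * a.prod = s → a' = a ∧ γ' = s * γ := by
          intro s hs hcomm he
          have h5 : (γ' * γ⁻¹) * a.prod = s * a'.prod := by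
            rw [hcomm, ← he]
            simp only [← mul_assoc, mul_inv_cancel, one_mul]
          have h6 : a'.prod * (a.prod)⁻¹ = s⁻¹ * (γ' * γ⁻¹) := by
            have : γ' * γ⁻¹ = s * (a'.prod * (a.prod)⁻¹) := by
              rw [← mul_assoc, ← h5, mul_assoc, mul_inv_cancel, mul_one]
            rw [this, ← mul_assoc, inv_mul_cancel, one_mul]
          have h7 : a' = a := hinj a' ha' a ha (by
            rw [h6]
            exact S.Γ.mul_mem (S.Γ.inv_mem hs) (S.Γ.mul_mem hγ' (S.Γ.inv_mem hγ)))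
          refine ⟨h7, ?_⟩
          rw [h7] at h5
          have h8 : γ' * γ⁻¹ = s := mul_right_cancel h5
          rw [← h8, mul_assoc, inv_mul_cancel, mul_one]
        rcases hδ with h | h
        · obtain ⟨h1, h2⟩ := key 1 S.Γ.one_mem (fun x => by rw [one_mul, mul_one]) h
          rw [one_mul] at h2
          left
          rw [h1, h2]
        · obtain ⟨h1, h2⟩ := key (-1) S.neg_mem (fun x => by simp) h
          right
          rw [h1, h2, neg_one_mul]
          rfl
      refine (Set.encard_le_encard hsub).trans ?_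
      refine (Set.encard_insert_le _ _).trans ?_
      rw [Set.encard_singleton]
      norm_num

end HQ
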