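import Pool.Agent.Work.MP_d2a4bb_nt.QE.Stmts

/-!
# Item BAS: the first case of the exact identity
-/

open UpperHalfPlane MeasureTheory Matrix
open scoped MatrixGroups Manifold Topology ComplexConjugate

namespace HQ

namespace IBAS

theorem intgC {Γ : Subgroup SL(2, ℝ)} (W : Weight Γ) {h : ℍ → ℂ} (hh : Continuous h) :
    Integrable fun z : ℍ => (W.w z : ℂ) * h z := by
  apply Continuous.integrable_of_hasCompactSupport
  · exact (Complex.continuous_ofReal.comp W.cont).mul hh
  · have h1 : HasCompactSupport fun z : ℍ => (W.w z : ℂ) :=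
      HasCompactSupport.comp_left W.supp Complex.ofReal_zero
    exact h1.mul_right

theorem intgR {Γ : Subgroup SL(2, ℝ)} (W : Weight Γ) {h : ℍ → ℝ} (hh : Continuous h) :
    Integrable fun z : ℍ => W.w z * h z := by
  apply Continuous.integrable_of_hasCompactSupport
  · exact W.cont.mul hh
  · exact W.supp.mul_right

open Classical in
theorem sum1 (hWRD : StWRD) (S : Setup) (h : List SL(2, ℝ) → ℂ) :
    ∑ a ∈ words S.Γ S.R 1, h a = ∑ α ∈ S.R, h [α] := by
  rw [(hWRD S).2.1 0 h]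
  simp [words]

open Classical in
theorem sum2 (hWRD : StWRD) (S : Setup) (h : List SL(2, ℝ) → ℂ) :
    ∑ a ∈ words S.Γ S.R 2, h a =
      ∑ α ∈ S.R, ∑ β ∈ S.R, (if β * α ∈ S.Γ then 0 else h [β, α]) := by
  rw [(hWRD S).2.1 1 h, sum1 hWRD]
  refine Finset.sum_congr rfl fun α _ => Finset.sum_congr rfl fun β _ => ?_
  by_cases hc : β * α ∈ S.Γ
  · simp [hc]
  · simp [hc]

end IBAS

open IBAS

open Classical in
theorem prBAS (hWRD : StWRD) (hEXT : StEXT) (hSYM : StSYM) (hPHA : StPHA) (hPHB : StPHB) :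
    StBAS := by
  intro S W m f l y hf he hy
  obtain ⟨hfc, hFc⟩ := hPHB.2.2.1 S.Γ m f hf
  have hph : ∀ g, Continuous fun z => phi m f z g := fun g => hPHB.2.1 m f hfc g
  have hyc : Continuous y := hy.1
  have hsq : ∀ z, phi m f z 1 * conj (phi m f z 1) = ((FF m f z ^ 2 : ℝ) : ℂ) := by
    intro z
    rw [Complex.mul_conj, Complex.normSq_eq_norm_sq, hPHA.2.2.1, one_smul]
  have hQ : ∀ u : ℍ → ℝ, ∫ z : ℍ, (W.w z : ℂ) * ((u z : ℂ) *
      (phi m f z 1 * conj (phi m f z 1))) =
      ((∫ z : ℍ, W.w z * (u z * FF m f z ^ 2) : ℝ) : ℂ) := by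
    intro u
    rw [← integral_complex_ofReal]
    refine integral_congr_ae (Filter.Eventually.of_forall fun z => ?_)
    simp only [hsq]
    push_cast
    ring
  have hEig : ∀ z, ∑ α ∈ S.R, phi m f z α = l * phi m f z 1 := by
    intro z
    have h := hPHB.1 S.R m f l he z 1
    simpa using h
  have hE : ∀ α ∈ S.R, ∀ z, ∑ β ∈ S.R, (if β * α ∈ S.Γ then 0 else phi m f z (β * α)) =
      l * phi m f z α - phi m f z 1 := by
    intro α hα z
    have h := hEXT S m f l hf he α hα z 1
    simpa using h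
  -- paths of length one
  have h10 : NN S W m f y 1 0 = l * ((∫ z : ℍ, W.w z * (y z * FF m f z ^ 2) : ℝ) : ℂ) := by
    rw [← hQ y, ← integral_const_mul]
    unfold NN
    refine integral_congr_ae (Filter.Eventually.of_forall fun z => ?_)
    show (W.w z : ℂ) * ∑ a ∈ words S.Γ S.R 1, (y (vtx a 0 • z) : ℂ) *
      (phi m f z 1 * conj (phi m f z a.prod)) = l * ((W.w z : ℂ) * ((y z : ℂ) *
      (phi m f z 1 * conj (phi m f z 1))))
    rw [sum1 hWRD]
    have h1 : ∀ α : SL(2, ℝ), vtx [α] 0 • z = z := fun α => by simp [vtx]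
    simp only [h1, List.prod_singleton]
    rw [← Finset.mul_sum, ← Finset.mul_sum, ← map_sum, hEig z, map_mul, Complex.conj_ofReal]
    ring
  have h11 : NN S W m f y 1 1 = l * ((∫ z : ℍ, W.w z * (y z * FF m f z ^ 2) : ℝ) : ℂ) := by
    rw [hSYM S W m f y hf hy 1 1 le_rfl, Nat.sub_self, h10, map_mul, Complex.conj_ofReal,
      Complex.conj_ofReal]
  -- paths of length two
  have h20 : NN S W m f y 2 0 =
      ((l : ℂ) ^ 2 - (S.R.card : ℂ)) * ((∫ z : ℍ, W.w z * (y z * FF m f z ^ 2) : ℝ) : ℂ) := by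
    rw [← hQ y, ← integral_const_mul]
    unfold NN
    refine integral_congr_ae (Filter.Eventually.of_forall fun z => ?_)
    show (W.w z : ℂ) * ∑ a ∈ words S.Γ S.R 2, (y (vtx a 0 • z) : ℂ) *
      (phi m f z 1 * conj (phi m f z a.prod)) = ((l : ℂ) ^ 2 - (S.R.card : ℂ)) *
      ((W.w z : ℂ) * ((y z : ℂ) * (phi m f z 1 * conj (phi m f z 1))))
    rw [sum2 hWRD]
    have h1 : ∀ α ∈ S.R, ∑ β ∈ S.R, (if β * α ∈ S.Γ then (0 : ℂ) else
        (y (vtx [β, α] 0 • z) : ℂ) * (phi m f z 1 * conj (phi m f z [β, α].prod))) =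
        (y z : ℂ) * (phi m f z 1 * conj (l * phi m f z α - phi m f z 1)) := by
      intro α hα
      rw [← hE α hα z, map_sum, Finset.mul_sum, Finset.mul_sum]
      refine Finset.sum_congr rfl fun β _ => ?_
      by_cases hc : β * α ∈ S.Γ
      · simp [hc]
      · simp [hc, vtx]
    rw [Finset.sum_congr rfl h1, ← Finset.mul_sum, ← Finset.mul_sum, ← map_sum,
      Finset.sum_sub_distrib, ← Finset.mul_sum, hEig z, Finset.sum_const, nsmul_eq_mul,
      map_sub, map_mul, map_mul, map_mul, Complex.conj_ofReal, map_natCast]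
    ring
  have h21 : NN S W m f y 2 1 = l * NN S W m f y 1 1 -
      ((∫ z : ℍ, W.w z * (Tf S.R y z * FF m f z ^ 2) : ℝ) : ℂ) := by
    rw [← hQ (Tf S.R y)]
    have hi1 : Integrable fun z : ℍ => (l : ℂ) * ((W.w z : ℂ) *
        ∑ a ∈ words S.Γ S.R 1, (y (vtx a 1 • z) : ℂ) *
          (phi m f z 1 * conj (phi m f z a.prod))) := by
      refine (intgC W ?_).const_mul _
      refine continuous_finsetSum _ fun a _ => ?_
      refine (Complex.continuous_ofReal.comp (hyc.comp (continuous_const_smul _))).mul ?_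
      exact (hph 1).mul (Complex.continuous_conj.comp (hph _))
    have hi2 : Integrable fun z : ℍ => (W.w z : ℂ) * ((Tf S.R y z : ℂ) *
        (phi m f z 1 * conj (phi m f z 1))) := by
      refine intgC W ?_
      refine (Complex.continuous_ofReal.comp ?_).mul
        ((hph 1).mul (Complex.continuous_conj.comp (hph _)))
      exact continuous_finsetSum _ fun a _ => hyc.comp (continuous_const_smul _)
    unfold NN
    rw [← integral_const_mul, ← integral_sub hi1 hi2]
    refine integral_congr_ae (Filter.Eventually.of_forall fun z => ?_)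
    show (W.w z : ℂ) * ∑ a ∈ words S.Γ S.R 2, (y (vtx a 1 • z) : ℂ) *
      (phi m f z 1 * conj (phi m f z a.prod)) = l * ((W.w z : ℂ) *
        ∑ a ∈ words S.Γ S.R 1, (y (vtx a 1 • z) : ℂ) *
          (phi m f z 1 * conj (phi m f z a.prod))) - (W.w z : ℂ) * ((Tf S.R y z : ℂ) *
        (phi m f z 1 * conj (phi m f z 1)))
    rw [sum2 hWRD, sum1 hWRD]
    have h1 : ∀ α ∈ S.R, ∑ β ∈ S.R, (if β * α ∈ S.Γ then (0 : ℂ) else
        (y (vtx [β, α] 1 • z) : ℂ) * (phi m f z 1 * conj (phi m f z [β, α].prod))) =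
        (y (α • z) : ℂ) * (phi m f z 1 * conj (l * phi m f z α - phi m f z 1)) := by
      intro α hα
      rw [← hE α hα z, map_sum, Finset.mul_sum, Finset.mul_sum]
      refine Finset.sum_congr rfl fun β _ => ?_
      by_cases hc : β * α ∈ S.Γ
      · simp [hc]
      · simp [hc, vtx]
    have h2 : ∀ α : SL(2, ℝ), vtx [α] 1 • z = α • z := fun α => by simp [vtx]
    rw [Finset.sum_congr rfl h1]
    simp only [h2, List.prod_singleton, Tf]
    rw [Complex.ofReal_sum, Finset.sum_mul, Finset.mul_sum, Finset.mul_sum, Finset.mul_sum,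
      Finset.mul_sum, ← Finset.sum_sub_distrib]
    refine Finset.sum_congr rfl fun α _ => ?_
    rw [map_sub, map_mul, Complex.conj_ofReal]
    ring
  have hA : Integrable fun z : ℍ => (S.R.card : ℝ) * (W.w z * (y z * FF m f z ^ 2)) :=
    (intgR W (hyc.mul (hFc.pow 2))).const_mul _
  have hB : Integrable fun z : ℍ => W.w z * (Tf S.R y z * FF m f z ^ 2) := by
    refine intgR W (Continuous.mul ?_ (hFc.pow 2))
    exact continuous_finsetSum _ fun a _ => hyc.comp (continuous_const_smul _)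
  have hR : ∫ z : ℍ, W.w z * (((S.R.card : ℝ) * y z - Tf S.R y z) * FF m f z ^ 2) =
      (S.R.card : ℝ) * (∫ z : ℍ, W.w z * (y z * FF m f z ^ 2)) -
        ∫ z : ℍ, W.w z * (Tf S.R y z * FF m f z ^ 2) := by
    rw [← integral_const_mul, ← integral_sub hA hB]
    refine integral_congr_ae (Filter.Eventually.of_forall fun z => ?_)
    show W.w z * (((S.R.card : ℝ) * y z - Tf S.R y z) * FF m f z ^ 2) =
      (S.R.card : ℝ) * (W.w z * (y z * FF m f z ^ 2)) - W.w z * (Tf S.R y z * FF m f z ^ 2)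
    ring
  have h3 : NN S W m f y 2 1 - NN S W m f y 2 0 =
      (((S.R.card : ℝ) * (∫ z : ℍ, W.w z * (y z * FF m f z ^ 2)) -
        ∫ z : ℍ, W.w z * (Tf S.R y z * FF m f z ^ 2) : ℝ) : ℂ) := by
    rw [h21, h20, h11]
    push_cast
    ring
  rw [hR, ← Complex.sub_re, h3, Complex.ofReal_re]

end HQ
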