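import Pool.Agent.Work.MP_d2a4bb_nt.QE.Stmts

/-!
# Block [d2a4bb QE], item BND: uniform bound for the multiplicities
-/

set_option autoImplicit false

open UpperHalfPlane MeasureTheory Matrix
open scoped MatrixGroups Manifold Topology ComplexConjugate

namespace HQ

theorem prBND : StBND := by
  classical
  intro S V K hK
  -- the compact neighbourhood
  set B : Set ℍ := K ∪ ⋃ a ∈ V, (fun z : ℍ => a.prod • z) '' K with hB
  have hBc : IsCompact B := by
    refine hK.union (V.isCompact_biUnion fun a _ => hK.image ?_)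
    exact continuous_const_smul a.prod
  set K₁ : Set ℍ := Metric.cthickening 1 B with hK₁
  have hK₁c : IsCompact K₁ := hBc.cthickening
  have hf := S.fin 1 K₁ hK₁c
  refine ⟨(hf.toFinset ×ˢ V).card, fun z hz u hu r hr => ?_⟩
  rw [← Set.encard_coe_eq_coe_finsetCard]
  apply Set.encard_le_encard
  rintro ⟨γ, a⟩ ⟨hγ, ha, hd⟩
  have huK : u ∈ K₁ := Metric.self_subset_cthickening B (Or.inl hu)
  have hzB : a.prod • z ∈ B := Or.inr (Set.mem_biUnion (show a ∈ V from ha) ⟨z, hz, rfl⟩)
  have hγu : γ • u ∈ K₁ := by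
    have h1 : dist (γ • u) (a.prod • z) ≤ 1 := (le_of_lt hd).trans hr
    exact Metric.mem_cthickening_of_dist_le _ _ _ _ hzB h1
  rw [Finset.coe_product, Set.mem_prod]
  refine ⟨?_, ha⟩
  rw [Finset.mem_coe, Set.Finite.mem_toFinset]
  exact ⟨⟨[γ], rfl, by simpa using Or.inr hγ, by simp⟩, u, huK, hγu⟩

end HQ
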