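import Pool.Agent.Work.MP_d2a4bb_nt.QE.Stmts

/-!
# Block [d2a4bb QE], item COB: every test function of mean zero is a coboundary up to a small error
-/

open UpperHalfPlane MeasureTheory Matrix
open scoped MatrixGroups Manifold Topology ComplexConjugate

namespace HQ

namespace ICOB

/-- the telescoping sum -/
theorem tel (R : Finset SL(2, ℝ)) (hR : (R.card : ℝ) ≠ 0) (ψ : ℍ → ℝ) (n : ℕ) (z : ℍ) :
    (R.card : ℝ) * (∑ j ∈ Finset.range n, ((Tf R)^[j] ψ) z / (R.card : ℝ) ^ (j + 1)) -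
      Tf R (fun z => ∑ j ∈ Finset.range n, ((Tf R)^[j] ψ) z / (R.card : ℝ) ^ (j + 1)) z =
      ψ z - ((Tf R)^[n] ψ) z / (R.card : ℝ) ^ n := by
  have h1 : Tf R (fun z => ∑ j ∈ Finset.range n, ((Tf R)^[j] ψ) z / (R.card : ℝ) ^ (j + 1)) z =
      ∑ j ∈ Finset.range n, ((Tf R)^[j + 1] ψ) z / (R.card : ℝ) ^ (j + 1) := by
    unfold Tf
    rw [Finset.sum_comm]
    refine Finset.sum_congr rfl fun j _ => ?_
    rw [← Finset.sum_div, Function.iterate_succ_apply']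
  have h2 : (R.card : ℝ) * (∑ j ∈ Finset.range n, ((Tf R)^[j] ψ) z / (R.card : ℝ) ^ (j + 1)) =
      ∑ j ∈ Finset.range n, ((Tf R)^[j] ψ) z / (R.card : ℝ) ^ j := by
    rw [Finset.mul_sum]
    refine Finset.sum_congr rfl fun j _ => ?_
    rw [pow_succ]
    field_simp
  rw [h1, h2, ← Finset.sum_sub_distrib,
    Finset.sum_range_sub' (fun j => ((Tf R)^[j] ψ) z / (R.card : ℝ) ^ j) n]
  simp

end ICOB

theorem prCOB (hERG : StERG) (hMOD : StMOD) : StCOB := by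
  intro S W ψ hψ hmean ε hε
  have hd : (0 : ℝ) < (S.R.card : ℝ) := by
    have := S.card
    exact_mod_cast (by omega : 0 < S.R.card)
  obtain ⟨n, hn⟩ := hERG S W ψ hψ hmean ε hε
  obtain ⟨-, hT, -, -⟩ := hMOD S ψ hψ
  refine ⟨fun z => ∑ j ∈ Finset.range (2 * n), ((Tf S.R)^[j] ψ) z / (S.R.card : ℝ) ^ (j + 1),
    ⟨?_, ?_⟩, ?_⟩
  · exact continuous_finset_sum _ fun j _ => (hT j).1.div_const _
  · intro γ hγ z
    exact Finset.sum_congr rfl fun j _ => by rw [(hT j).2 γ hγ z]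
  · intro z
    show |ψ z - ((S.R.card : ℝ) * (∑ j ∈ Finset.range (2 * n),
      ((Tf S.R)^[j] ψ) z / (S.R.card : ℝ) ^ (j + 1)) - _)| ≤ ε
    rw [ICOB.tel S.R hd.ne' ψ (2 * n) z, sub_sub_cancel, abs_div, abs_of_pos (pow_pos hd _),
      div_le_iff₀ (pow_pos hd _)]
    exact hn z

end HQ
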