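import Pool.Agent.Work.MP_d2a4bb_nt.QE.Stmts

/-!
# Item CSI: from the exact identity to an inequality
-/

set_option autoImplicit false

open UpperHalfPlane MeasureTheory Matrix
open scoped MatrixGroups Manifold Topology ComplexConjugate

namespace HQ

namespace ICSI

variable {Γ : Subgroup SL(2, ℝ)}

theorem intR (W : Weight Γ) {h : ℍ → ℝ} (hh : Continuous h) :
    Integrable (fun z : ℍ => W.w z * h z) :=
  (W.cont.mul hh).integrable_of_hasCompactSupport W.supp.mul_right

theorem suppC (W : Weight Γ) : HasCompactSupport (fun z : ℍ => (W.w z : ℂ)) :=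
  W.supp.comp_left (g := (fun x : ℝ => (x : ℂ))) Complex.ofReal_zero

theorem contC (W : Weight Γ) : Continuous (fun z : ℍ => (W.w z : ℂ)) :=
  Complex.continuous_ofReal.comp W.cont

theorem intC (W : Weight Γ) {h : ℍ → ℂ} (hh : Continuous h) :
    Integrable (fun z : ℍ => (W.w z : ℂ) * h z) :=
  ((contC W).mul hh).integrable_of_hasCompactSupport (suppC W).mul_right

/-- Cauchy-Schwarz in the form which is needed -/
theorem cs (W : Weight Γ) (P G : ℍ → ℂ) (hP : Continuous P) (hG : Continuous G)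
    (h1 : ∫ z : ℍ, W.w z * ‖P z‖ ^ 2 = 1) (I : ℝ)
    (hI : ∫ z : ℍ, W.w z * (P z * conj (G z)).re = I) :
    I ^ 2 ≤ ∫ z : ℍ, W.w z * ‖G z‖ ^ 2 := by
  have c1 : Continuous fun z : ℍ => ‖P z‖ ^ 2 := hP.norm.pow 2
  have c2 : Continuous fun z : ℍ => ‖G z‖ ^ 2 := hG.norm.pow 2
  have c3 : Continuous fun z : ℍ => (P z * conj (G z)).re :=
    Complex.continuous_re.comp (hP.mul (Complex.continuous_conj.comp hG))
  have e : ∀ z : ℍ, W.w z * ‖(I : ℂ) * P z - G z‖ ^ 2 =
      I ^ 2 * (W.w z * ‖P z‖ ^ 2) - 2 * I * (W.w z * (P z * conj (G z)).re) +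
        W.w z * ‖G z‖ ^ 2 := by
    intro z
    rw [← Complex.normSq_eq_norm_sq, ← Complex.normSq_eq_norm_sq, ← Complex.normSq_eq_norm_sq,
      Complex.normSq_sub, Complex.normSq_mul, Complex.normSq_ofReal, mul_assoc (I : ℂ),
      Complex.re_ofReal_mul]
    ring
  have h0 : 0 ≤ ∫ z : ℍ, W.w z * ‖(I : ℂ) * P z - G z‖ ^ 2 :=
    integral_nonneg fun z => mul_nonneg (W.nonneg z) (by positivity)
  have h2 : ∫ z : ℍ, W.w z * ‖(I : ℂ) * P z - G z‖ ^ 2 =
      I ^ 2 * 1 - 2 * I * I + ∫ z : ℍ, W.w z * ‖G z‖ ^ 2 := by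
    have i1 : Integrable (fun z : ℍ => I ^ 2 * (W.w z * ‖P z‖ ^ 2)) := (intR W c1).const_mul _
    have i3 : Integrable (fun z : ℍ => 2 * I * (W.w z * (P z * conj (G z)).re)) :=
      (intR W c3).const_mul _
    have i13 : Integrable (fun z : ℍ => I ^ 2 * (W.w z * ‖P z‖ ^ 2) -
        2 * I * (W.w z * (P z * conj (G z)).re)) := i1.sub i3
    simp_rw [e]
    rw [integral_add i13 (intR W c2), integral_sub i1 i3,
      integral_const_mul, integral_const_mul, h1, hI]
  rw [h2] at h0
  nlinarith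

end ICSI

open ICSI in
theorem prCSI (hIDN : StIDN) (hWRD : StWRD) (hPHA : StPHA) (hPHB : StPHB) (hRED : StRED) :
    StCSI := by
  intro S W y hy N hN m f l hf hl hn
  have hl0 := hRED S W m f l hf hl hn
  have hl' : l = (l.re : ℂ) := by
    apply Complex.ext
    · simp
    · simp [hl0]
  rw [hl'] at hl
  have hyc : Continuous y := hy.1
  have hfc : Continuous f := (hPHB.2.2.1 S.Γ m f hf).1
  have hphi : ∀ g : SL(2, ℝ), Continuous fun z : ℍ => phi m f z g := hPHB.2.1 m f hfc
  have hNpos : (0 : ℝ) < N := by exact_mod_cast hN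
  have hcard : (3 : ℝ) ≤ (S.R.card : ℝ) := by exact_mod_cast S.card
  have hq : (S.R.card : ℝ) - 1 ≠ 0 := by
    have : (0 : ℝ) < (S.R.card : ℝ) - 1 := by linarith
    exact this.ne'
  have hcv : ∀ g : SL(2, ℝ), Continuous fun z : ℍ => y (g • z) := fun g =>
    hyc.comp (continuous_const_smul g)
  refine cs W (fun z => phi m f z 1) _ (hphi 1) ?_ ?_ _ ?_
  · refine continuous_finsetSum _ fun a _ => ?_
    refine (Complex.continuous_ofReal.comp ?_).mul (hphi a.prod)
    exact continuous_const.mul ((hcv _).sub (hcv _))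
  · simp_rw [hPHA.2.2.1 m f, one_smul]
    exact hn
  · -- the real part of the averaged identity
    set c : ℕ → ℝ := fun n => (1 / (N : ℝ)) * ((S.R.card : ℝ) - 1) / ((S.R.card : ℝ) - 1) ^ n
      with hc
    have hdisj : Set.PairwiseDisjoint ((Finset.Icc 1 N : Finset ℕ) : Set ℕ)
        (fun n => words S.Γ S.R (2 * n)) := by
      intro n _ n' _ hnn
      rw [Function.onFun, Finset.disjoint_left]
      intro a ha ha'
      have h1 := ((hWRD S).1 (2 * n) a).1 ha
      have h2 := ((hWRD S).1 (2 * n') a).1 ha'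
      omega
    have hpt : ∀ z : ℍ, (W.w z : ℂ) * (phi m f z 1 * conj
        (∑ a ∈ (Finset.Icc 1 N).biUnion (fun n => words S.Γ S.R (2 * n)),
      (((1 / (N : ℝ)) * ((S.R.card : ℝ) - 1) / ((S.R.card : ℝ) - 1) ^ (a.length / 2) *
        (y (vtx a (a.length / 2) • z) - y (vtx a (a.length / 2 - 1) • z)) : ℝ) : ℂ) *
          phi m f z a.prod)) =
        ∑ n ∈ Finset.Icc 1 N, (c n : ℂ) *
          ((W.w z : ℂ) * (∑ a ∈ words S.Γ S.R (2 * n), (y (vtx a n • z) : ℂ) *
            (phi m f z 1 * conj (phi m f z a.prod))) -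
          (W.w z : ℂ) * (∑ a ∈ words S.Γ S.R (2 * n), (y (vtx a (n - 1) • z) : ℂ) *
            (phi m f z 1 * conj (phi m f z a.prod)))) := by
      intro z
      rw [Finset.sum_biUnion hdisj, map_sum, Finset.mul_sum, Finset.mul_sum]
      refine Finset.sum_congr rfl fun n _ => ?_
      rw [map_sum, Finset.mul_sum, Finset.mul_sum, ← mul_sub, ← Finset.sum_sub_distrib,
        Finset.mul_sum, Finset.mul_sum]
      refine Finset.sum_congr rfl fun a ha => ?_
      have hlen := (((hWRD S).1 (2 * n) a).1 ha).1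
      have hlen2 : a.length / 2 = n := by omega
      rw [hlen2, map_mul, Complex.conj_ofReal, hc]
      push_cast
      ring
    have hcont : ∀ n i : ℕ, Continuous fun z : ℍ =>
        ∑ a ∈ words S.Γ S.R (2 * n), (y (vtx a i • z) : ℂ) *
            (phi m f z 1 * conj (phi m f z a.prod)) := by
      intro n i
      refine continuous_finsetSum _ fun a _ => ?_
      exact (Complex.continuous_ofReal.comp (hcv _)).mul
        ((hphi 1).mul (Complex.continuous_conj.comp (hphi a.prod)))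
    have hcx : ∫ z : ℍ, (W.w z : ℂ) * (phi m f z 1 * conj
        (∑ a ∈ (Finset.Icc 1 N).biUnion (fun n => words S.Γ S.R (2 * n)),
      (((1 / (N : ℝ)) * ((S.R.card : ℝ) - 1) / ((S.R.card : ℝ) - 1) ^ (a.length / 2) *
        (y (vtx a (a.length / 2) • z) - y (vtx a (a.length / 2 - 1) • z)) : ℝ) : ℂ) *
          phi m f z a.prod)) =
        ∑ n ∈ Finset.Icc 1 N, (c n : ℂ) *
          (NN S W m f y (2 * n) n - NN S W m f y (2 * n) (n - 1)) := by
      simp_rw [hpt]
      rw [integral_finsetSum]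
      · refine Finset.sum_congr rfl fun n _ => ?_
        rw [integral_const_mul, integral_sub (intC W (hcont n n)) (intC W (hcont n (n - 1)))]
        rfl
      · intro n _
        exact ((intC W (hcont n n)).sub (intC W (hcont n (n - 1)))).const_mul _
    have hre : ∀ z : ℍ, W.w z * (phi m f z 1 * conj
        (∑ a ∈ (Finset.Icc 1 N).biUnion (fun n => words S.Γ S.R (2 * n)),
      (((1 / (N : ℝ)) * ((S.R.card : ℝ) - 1) / ((S.R.card : ℝ) - 1) ^ (a.length / 2) *
        (y (vtx a (a.length / 2) • z) - y (vtx a (a.length / 2 - 1) • z)) : ℝ) : ℂ) *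
          phi m f z a.prod)).re = ((W.w z : ℂ) * (phi m f z 1 * conj
        (∑ a ∈ (Finset.Icc 1 N).biUnion (fun n => words S.Γ S.R (2 * n)),
      (((1 / (N : ℝ)) * ((S.R.card : ℝ) - 1) / ((S.R.card : ℝ) - 1) ^ (a.length / 2) *
        (y (vtx a (a.length / 2) • z) - y (vtx a (a.length / 2 - 1) • z)) : ℝ) : ℂ) *
          phi m f z a.prod))).re := by
      intro z
      rw [Complex.re_ofReal_mul]
    have hGc : Continuous fun z : ℍ => phi m f z 1 * conj
        (∑ a ∈ (Finset.Icc 1 N).biUnion (fun n => words S.Γ S.R (2 * n)),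
      (((1 / (N : ℝ)) * ((S.R.card : ℝ) - 1) / ((S.R.card : ℝ) - 1) ^ (a.length / 2) *
        (y (vtx a (a.length / 2) • z) - y (vtx a (a.length / 2 - 1) • z)) : ℝ) : ℂ) *
          phi m f z a.prod) := by
      refine (hphi 1).mul (Complex.continuous_conj.comp ?_)
      refine continuous_finsetSum _ fun a _ => ?_
      refine (Complex.continuous_ofReal.comp ?_).mul (hphi a.prod)
      exact continuous_const.mul ((hcv _).sub (hcv _))
    simp_rw [hre]
    have hk := Complex.reCLM.integral_comp_comm (intC W hGc)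
    simp only [Complex.reCLM_apply] at hk
    rw [hk, hcx, Complex.re_sum]
    have hterm : ∀ n ∈ Finset.Icc 1 N, ((c n : ℂ) *
        (NN S W m f y (2 * n) n - NN S W m f y (2 * n) (n - 1))).re = (1 / (N : ℝ)) *
        ∫ z : ℍ, W.w z * (((S.R.card : ℝ) * y z - Tf S.R y z) * FF m f z ^ 2) := by
      intro n hn'
      rw [Finset.mem_Icc] at hn'
      rw [Complex.re_ofReal_mul, Complex.sub_re, hIDN S W m f l.re y hf hl hy n hn'.1]
      obtain ⟨j, rfl⟩ : ∃ j, n = j + 1 := ⟨n - 1, by omega⟩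
      have hcj : c (j + 1) = (1 / (N : ℝ)) * ((S.R.card : ℝ) - 1) /
          (((S.R.card : ℝ) - 1) ^ j * ((S.R.card : ℝ) - 1)) := by
        simp only [hc, pow_succ]
      rw [Nat.add_sub_cancel, hcj]
      have hqj : ((S.R.card : ℝ) - 1) ^ j ≠ 0 := pow_ne_zero _ hq
      field_simp
    rw [Finset.sum_congr rfl hterm, Finset.sum_const, Nat.card_Icc, Nat.add_sub_cancel,
      nsmul_eq_mul, ← mul_assoc, mul_one_div_cancel hNpos.ne', one_mul]

end HQ
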