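import Pool.Agent.Work.MP_d2a4bb_nt.QE.Stmts

/-!
# Item DIM: the dimension grows linearly
-/

open UpperHalfPlane MeasureTheory Matrix
open scoped MatrixGroups Manifold Topology ComplexConjugate

namespace HQ

/-- Item DIM. -/
theorem prDIM (hTWO : StTWO) (hMOI : StMOI) (hLIN : StLIN) : StDIM := by
  intro Q
  obtain ⟨m₀', hm₀'⟩ := hTWO Q
  set m₀ := max m₀' 1 with hm₀
  have hpos : 1 ≤ m₀ := le_max_right _ _
  have hle : m₀' ≤ m₀ := le_max_left _ _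
  have hposr : (0 : ℝ) < m₀ := by exact_mod_cast hpos
  obtain ⟨P₀, P₁, hP₀, hP₁, hind⟩ := hm₀' m₀ hle
  refine ⟨1 / (2 * m₀), by positivity, 2 * m₀, fun m hm => ?_⟩
  set q := m / m₀ with hq
  set s := m % m₀ with hs
  have hdm : m₀ * q + s = m := Nat.div_add_mod m m₀
  have hslt : s < m₀ := Nat.mod_lt _ (by omega)
  have hq2 : 2 ≤ q := (Nat.le_div_iff_mul_le (by omega)).2 hm
  obtain ⟨n, hn⟩ : ∃ n, q = n + 1 := ⟨q - 1, by omega⟩
  obtain ⟨h, h', hh, -, hhind⟩ := hm₀' (m₀ + s) (by omega)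
  have hne : h ≠ 0 := by
    intro h0
    have := (hhind 1 0 (fun z => by rw [h0]; simp)).1
    exact one_ne_zero this
  refine ⟨n + 1, ?_, fun i z => P₀ z ^ (i : ℕ) * P₁ z ^ (n - (i : ℕ)) * h z, fun i => ?_, ?_⟩
  · rw [← hn, div_mul_eq_mul_div, one_mul, div_le_iff₀ (by positivity)]
    have h1 : m ≤ q * (2 * m₀) := by
      have h2 : m₀ * q + m₀ ≤ q * (2 * m₀) := by nlinarith
      omega
    exact_mod_cast h1
  · have h1 := (hLIN Q.Γ).2.2 m₀ (i : ℕ) P₀ hP₀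
    have h2 := (hLIN Q.Γ).2.2 m₀ (n - (i : ℕ)) P₁ hP₁
    have h3 := (hLIN Q.Γ).2.1 _ _ _ _ h1 h2
    have h4 := (hLIN Q.Γ).2.1 _ _ _ _ h3 hh
    have h5 : (i : ℕ) * m₀ + (n - (i : ℕ)) * m₀ + (m₀ + s) = m := by
      have hi : (i : ℕ) ≤ n := by
        have := i.isLt
        omega
      rw [← add_mul, Nat.add_sub_cancel' hi, ← hdm, hn]
      ring
    rw [h5] at h4
    exact h4
  · exact hMOI P₀ P₁ h hP₀.1 hP₁.1 hh.1 hne hind n

end HQ
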