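import Pool.Agent.Work.MP_d2a4bb_nt.QE.Stmts

open UpperHalfPlane MeasureTheory Matrix
open scoped MatrixGroups Manifold Topology ComplexConjugate

namespace HQ
namespace IEQD

/-- the conclusion of `StFUN` for a group equal to `Q.Γ` -/
theorem fun_of_eq (hFUN : StFUN) (Q : QuatOrder) (Γ : Subgroup SL(2, ℝ)) (h : Γ = Q.Γ) (W : Weight Γ) (F : Set ℍ) (hF : Q.IsFund F) :
    volume F < ⊤ ∧ 0 < (∫ z : ℍ, W.w z) ∧ (volume F).toReal = 2 * ∫ z : ℍ, W.w z ∧
    (∀ h : ℍ → ℝ, Continuous h → (∀ γ ∈ Q.Γ, ∀ z : ℍ, h (γ • z) = h z) → ∫ z in F, h z = 2 * ∫ z : ℍ, W.w z * h z) ∧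
    ∀ h : ℍ → ℂ, Continuous h → (∀ γ ∈ Q.Γ, ∀ z : ℍ, h (γ • z) = h z) → ∫ z in F, h z = 2 * ∫ z : ℍ, (W.w z : ℂ) * h z := by
  subst h
  exact hFUN Q W F hF

theorem bdd (Γ : Subgroup SL(2, ℝ)) (K : Set ℍ) (hK : IsCompact K) (hc : ∀ z : ℍ, ∃ γ ∈ Γ, γ • z ∈ K) (h : ℍ → ℝ)
    (hh : Continuous h) (hi : ∀ γ ∈ Γ, ∀ z : ℍ, h (γ • z) = h z) : ∃ C : ℝ, ∀ z, |h z| ≤ C := by
  obtain ⟨C, hC⟩ := hK.exists_bound_of_continuousOn hh.continuousOn
  refine ⟨C, fun z => ?_⟩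
  obtain ⟨γ, hγ, hz⟩ := hc z
  have := hC _ hz
  rwa [hi γ hγ z, Real.norm_eq_abs] at this

theorem intOn (Γ : Subgroup SL(2, ℝ)) (K : Set ℍ) (hK : IsCompact K) (hc : ∀ z : ℍ, ∃ γ ∈ Γ, γ • z ∈ K) (F : Set ℍ)
    (hv : volume F < ⊤) (h : ℍ → ℝ)
    (hh : Continuous h) (hi : ∀ γ ∈ Γ, ∀ z : ℍ, h (γ • z) = h z) : IntegrableOn h F volume := by
  obtain ⟨C, hC⟩ := bdd Γ K hK hc h hh hi
  exact Measure.integrableOn_of_bounded (M := C) hv.ne hh.aestronglyMeasurable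
    (Filter.Eventually.of_forall fun z => by rw [Real.norm_eq_abs]; exact hC z)

/-- the density of `f` as a square -/
theorem dens_eq (m : ℕ) (f : ℍ → ℂ) (z : ℍ) : ‖f z‖ ^ 2 * z.im ^ (2 * m) = FF m f z ^ 2 := by
  unfold FF
  rw [mul_pow, ← pow_mul, mul_comm 2 m]

/-- invariance of the sesquilinear density -/
theorem inv_sesq (hPHA : StPHA) (Γ : Subgroup SL(2, ℝ)) (m : ℕ) (f g : ℍ → ℂ) (hf : Form Γ m f) (hg : Form Γ m g) :
    ∀ γ ∈ Γ, ∀ z : ℍ, f (γ • z) * conj (g (γ • z)) * (((γ • z).im : ℝ) : ℂ) ^ (2 * m) = f z * conj (g z) * ((z.im : ℝ) : ℂ) ^ (2 * m) := by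
  intro γ hγ z
  obtain ⟨h1, h2, -, -, h5⟩ := hPHA
  obtain ⟨u, hu, hu'⟩ := h2 m γ z
  have key : ∀ h : ℍ → ℂ, Form Γ m h → phi m h z 1 = u * phi m h (γ • z) 1 := by
    intro h hh
    have e1 := hu' h 1
    rw [one_mul] at e1
    have e2 := h1 Γ m h hh γ hγ z 1
    rw [mul_one] at e2
    rw [← e2, e1]
  have sq : ∀ w : ℍ, f w * conj (g w) * ((w.im : ℝ) : ℂ) ^ (2 * m) = phi m f w 1 * conj (phi m g w 1) := by
    intro w
    rw [h5 m f w, h5 m g w, map_mul, map_pow, Complex.conj_ofReal, two_mul, pow_add]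
    ring
  rw [sq, sq, key f hf, key g hg, map_mul]
  have hu2 : u * conj u = 1 := by
    rw [Complex.mul_conj, Complex.normSq_eq_norm_sq, hu]; norm_num
  calc phi m f (γ • z) 1 * conj (phi m g (γ • z) 1) = (u * conj u) * (phi m f (γ • z) 1 * conj (phi m g (γ • z) 1)) := by rw [hu2, one_mul]
    _ = _ := by ring

theorem FF_smul (m : ℕ) (f : ℍ → ℂ) (z : ℍ) : FF m (fun u => ((Real.sqrt 2 : ℝ) : ℂ) * f u) z ^ 2 = 2 * FF m f z ^ 2 := by
  unfold FF
  rw [norm_mul, Complex.norm_real, Real.norm_eq_abs, abs_of_nonneg (Real.sqrt_nonneg 2), mul_assoc, mul_pow, Real.sq_sqrt (by norm_num)]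

end IEQD

open Classical in
theorem prEQD (hSTP : StSTP) (hWGT : StWGT) (hFIW : StFIW) (hCOC : StCOC) (hFUN : StFUN) (hQEV : StQEV) (hPHA : StPHA) (hPHB : StPHB) : StEQD := by
  intro Q p hp hg hidx F hF B hB ψ hψ ε hε
  obtain ⟨K, hK, hKc⟩ := hCOC Q
  obtain ⟨S, hSΓ, -, hST⟩ := hSTP Q p hp hg hidx
  have hfin : ∀ K : Set ℍ, IsCompact K → {γ : SL(2, ℝ) | γ ∈ S.Γ ∧ ∃ z ∈ K, γ • z ∈ K}.Finite := by
    intro K hK
    refine (hFIW Q p 1 hp.pos K hK).subset ?_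
    rintro γ ⟨hγ, h⟩
    refine ⟨⟨[γ], rfl, ?_, ?_⟩, h⟩
    · intro e he
      rw [List.mem_singleton] at he
      exact Or.inr (he ▸ hSΓ ▸ hγ)
    · simp
  obtain ⟨W⟩ := hWGT S.Γ hfin ⟨K, hK, by rw [hSΓ]; exact hKc⟩
  obtain ⟨hv, hwp, hvw, hR, hC⟩ := IEQD.fun_of_eq hFUN Q S.Γ hSΓ W F hF
  have hvpos : 0 < (volume F).toReal := by rw [hvw]; linarith
  have hI : ∀ h : ℍ → ℝ, Continuous h → (∀ γ ∈ Q.Γ, ∀ z : ℍ, h (γ • z) = h z) → IntegrableOn h F volume := fun h a b =>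
    IEQD.intOn Q.Γ K hK hKc F hv h a b
  set c : ℝ := (∫ z in F, ψ z) / (volume F).toReal with hc
  have hT0 : Test S.Γ (fun z => ψ z - c) := by
    refine ⟨hψ.1.sub continuous_const, ?_⟩
    intro γ hγ z
    rw [hSΓ] at hγ
    simp only [hψ.2 γ hγ z]
  have hT0' : ∀ γ ∈ Q.Γ, ∀ z : ℍ, (fun z => ψ z - c) (γ • z) = (fun z => ψ z - c) z := by
    intro γ hγ z
    exact hT0.2 γ (by rw [hSΓ]; exact hγ) z
  have hz0 : ∫ z : ℍ, W.w z * (ψ z - c) = 0 := by
    have e1 := hR (fun z => ψ z - c) hT0.1 hT0'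
    have e2 : ∫ z in F, (ψ z - c) = 0 := by
      rw [integral_sub (hI ψ hψ.1 hψ.2) (integrableOn_const hv.ne), setIntegral_const, smul_eq_mul]
      have e3 : volume.real F = (volume F).toReal := rfl
      rw [e3, hc]
      field_simp
      ring
    simp only [e2] at e1
    linarith
  obtain ⟨m₀, hm₀⟩ := hQEV S W (fun z => ψ z - c) hT0 hz0 ε hε
  filter_upwards [Filter.eventually_ge_atTop m₀, Filter.eventually_gt_atTop 0] with m hm hm0
  have hb := hB m hm0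
  have hform : ∀ f ∈ B m, Form Q.Γ m f := fun f hf => hb.form f hf
  have hcont : ∀ f ∈ B m, Continuous f ∧ Continuous (FF m f) := fun f hf => hPHB.2.2.1 Q.Γ m f (hform f hf)
  have hinv : ∀ f ∈ B m, ∀ γ ∈ Q.Γ, ∀ z : ℍ, FF m f (γ • z) = FF m f z := fun f hf => hPHA.2.2.2.1 Q.Γ m f (hform f hf)
  have hnorm : ∀ f ∈ B m, ∫ z in F, FF m f z ^ 2 = 1 := by
    intro f hf
    rw [← hb.norm f hf]
    exact integral_congr_ae (Filter.Eventually.of_forall fun z => (IEQD.dens_eq m f z).symm)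
  -- the value of the discrepancy
  have hval : ∀ f ∈ B m, (∫ z in F, ψ z * (‖f z‖ ^ 2 * z.im ^ (2 * m))) - c =
      ∫ z : ℍ, W.w z * ((ψ z - c) * FF m (fun u => ((Real.sqrt 2 : ℝ) : ℂ) * f u) z ^ 2) := by
    intro f hf
    have e1 := hR (fun z => (ψ z - c) * FF m f z ^ 2) (hT0.1.mul ((hcont f hf).2.pow 2)) (by
      intro γ hγ z
      have := hT0' γ hγ z
      simp only at this ⊢
      rw [this, hinv f hf γ hγ z])
    have e2 : ∫ z in F, (ψ z - c) * FF m f z ^ 2 = (∫ z in F, ψ z * (‖f z‖ ^ 2 * z.im ^ (2 * m))) - c := by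
      have i1 : IntegrableOn (fun z => ψ z * FF m f z ^ 2) F volume := hI _ (hψ.1.mul ((hcont f hf).2.pow 2)) (by
        intro γ hγ z; simp only [hψ.2 γ hγ z, hinv f hf γ hγ z])
      have i3 : IntegrableOn (fun z => FF m f z ^ 2) F volume := hI _ ((hcont f hf).2.pow 2) (by
        intro γ hγ z; simp only [hinv f hf γ hγ z])
      calc ∫ z in F, (ψ z - c) * FF m f z ^ 2 = ∫ z in F, (ψ z * FF m f z ^ 2 - c * FF m f z ^ 2) := by
            refine integral_congr_ae (Filter.Eventually.of_forall fun z => ?_)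
            simp only; ring
        _ = (∫ z in F, ψ z * FF m f z ^ 2) - c := by
            rw [integral_sub i1 (i3.const_mul c), integral_const_mul, hnorm f hf, mul_one]
        _ = _ := by
            congr 1
            refine integral_congr_ae (Filter.Eventually.of_forall fun z => ?_)
            simp only [IEQD.dens_eq]
    rw [← e2, e1, ← integral_const_mul]
    refine integral_congr_ae (Filter.Eventually.of_forall fun z => ?_)
    simp only [IEQD.FF_smul]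
    ring
  have hOrt : Ortho S.Γ W m (fun (i : {f : ℍ → ℂ // f ∈ B m}) u => ((Real.sqrt 2 : ℝ) : ℂ) * i.1 u) := by
    refine ⟨?_, ?_, ?_⟩
    · intro i
      obtain ⟨h1, h2⟩ := hform i.1 i.2
      refine ⟨?_, ?_⟩
      · exact mdifferentiable_const.mul h1
      · intro γ hγ z
        rw [hSΓ] at hγ
        simp only [h2 γ hγ z]
        ring
    · intro i j hij
      have e1 := hC (fun z => i.1 z * conj (j.1 z) * ((z.im : ℝ) : ℂ) ^ (2 * m)) (by
        have a1 := (hcont i.1 i.2).1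
        have a2 := (hcont j.1 j.2).1
        have a3 : Continuous fun z : ℍ => ((z.im : ℝ) : ℂ) := Complex.continuous_ofReal.comp UpperHalfPlane.continuous_im
        exact (a1.mul (Complex.continuous_conj.comp a2)).mul (a3.pow _))
        (fun γ hγ z => IEQD.inv_sesq hPHA Q.Γ m i.1 j.1 (hform i.1 i.2) (hform j.1 j.2) γ hγ z)
      rw [hb.ortho i.1 i.2 j.1 j.2 (fun h => hij (Subtype.ext h))] at e1
      have e2 : ∫ z : ℍ, (W.w z : ℂ) * (i.1 z * conj (j.1 z) * ((z.im : ℝ) : ℂ) ^ (2 * m)) = 0 := by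
        have := e1.symm
        rwa [mul_eq_zero, or_iff_right (by norm_num : (2 : ℂ) ≠ 0)] at this
      calc ∫ z : ℍ, (W.w z : ℂ) * (((Real.sqrt 2 : ℝ) : ℂ) * i.1 z * conj (((Real.sqrt 2 : ℝ) : ℂ) * j.1 z) * ((z.im : ℝ) : ℂ) ^ (2 * m))
          = ∫ z : ℍ, 2 * ((W.w z : ℂ) * (i.1 z * conj (j.1 z) * ((z.im : ℝ) : ℂ) ^ (2 * m))) := by
            refine integral_congr_ae (Filter.Eventually.of_forall fun z => ?_)
            simp only [map_mul, Complex.conj_ofReal]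
            have hs : ((Real.sqrt 2 : ℝ) : ℂ) * ((Real.sqrt 2 : ℝ) : ℂ) = 2 := by
              rw [← Complex.ofReal_mul, Real.mul_self_sqrt (by norm_num)]; norm_num
            linear_combination ((W.w z : ℂ) * (i.1 z * conj (j.1 z) * ((z.im : ℝ) : ℂ) ^ (2 * m))) * hs
        _ = 0 := by rw [integral_const_mul, e2, mul_zero]
    · intro i
      have e1 := hR (fun z => FF m i.1 z ^ 2) ((hcont i.1 i.2).2.pow 2) (by
        intro γ hγ z
        simp only [hinv i.1 i.2 γ hγ z])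
      rw [hnorm i.1 i.2, ← integral_const_mul] at e1
      rw [e1]
      refine integral_congr_ae (Filter.Eventually.of_forall fun z => ?_)
      simp only [IEQD.FF_smul]
      ring
  have hEig : ∀ i : {f : ℍ → ℂ // f ∈ B m}, ∃ l : ℂ, Eigen S.R m (fun u => ((Real.sqrt 2 : ℝ) : ℂ) * i.1 u) l := by
    intro i
    obtain ⟨l, hl⟩ := hb.eigen i.1 i.2
    refine ⟨l, fun z => ?_⟩
    have e1 := hl z
    rw [hST (2 * m) i.1 z] at e1
    calc ∑ β ∈ S.R, ((Real.sqrt 2 : ℝ) : ℂ) * i.1 (β • z) / jj β z ^ (2 * m)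
        = ((Real.sqrt 2 : ℝ) : ℂ) * ∑ β ∈ S.R, i.1 (β • z) / jj β z ^ (2 * m) := by
          rw [Finset.mul_sum]
          exact Finset.sum_congr rfl fun β _ => by rw [mul_div_assoc]
      _ = _ := by rw [e1]; ring
  have hmain := hm₀ m hm {f : ℍ → ℂ // f ∈ B m} (fun i u => ((Real.sqrt 2 : ℝ) : ℂ) * i.1 u) hOrt hEig
  refine le_trans (le_of_eq ?_) hmain
  norm_cast
  rw [← Set.ncard_image_of_injective _ Subtype.val_injective, ← Set.ncard_coe_finset]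
  congr 1
  ext f
  simp only [Finset.coe_filter, Set.mem_ofPred_eq, Set.mem_image, Subtype.exists, exists_and_right, exists_eq_right]
  constructor
  · rintro ⟨h1, h2⟩
    refine ⟨h1, ?_⟩
    rw [← hval f h1]
    exact h2
  · rintro ⟨h1, h2⟩
    refine ⟨h1, ?_⟩
    rw [← hval f h1] at h2
    exact h2

end HQ
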