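import Pool.Agent.Work.MP_d2a4bb_nt.QE.Stmts

/-!
# Item ERG: soft ergodicity
-/

open UpperHalfPlane MeasureTheory Matrix
open scoped MatrixGroups Manifold Topology ComplexConjugate

namespace HQ

namespace IERG

theorem iter_neg (R : Finset SL(2, ℝ)) (y : ℍ → ℝ) (n : ℕ) :
    (Tf R)^[n] (fun z => -y z) = fun z => -((Tf R)^[n] y z) := by
  induction n with
  | zero => rfl
  | succ n ih =>
    rw [Function.iterate_succ_apply', Function.iterate_succ_apply', ih]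
    funext z
    simp only [Tf, Finset.sum_neg_distrib]

theorem test_neg {Γ : Subgroup SL(2, ℝ)} {y : ℍ → ℝ} (hy : Test Γ y) : Test Γ (fun z => -y z) :=
  ⟨hy.1.neg, fun γ hγ z => by
    show -y (γ • z) = -y z
    rw [hy.2 γ hγ z]⟩

theorem int_iter (hTFI : StTFI) (S : Setup) (W : Weight S.Γ) (y : ℍ → ℝ) (hy : Test S.Γ y)
    (n : ℕ) : Test S.Γ ((Tf S.R)^[n] y) ∧
      ∫ z : ℍ, W.w z * ((Tf S.R)^[n] y) z = (S.R.card : ℝ) ^ n * ∫ z : ℍ, W.w z * y z := by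
  induction n with
  | zero => exact ⟨hy, by simp⟩
  | succ n ih =>
    rw [Function.iterate_succ_apply']
    obtain ⟨h1, h2⟩ := hTFI S W _ ih.1
    refine ⟨h1, ?_⟩
    rw [h2, ih.2]
    ring

theorem vol_pos (U : Set ℍ) (hU : IsOpen U) (hne : U.Nonempty) : 0 < (volume : Measure ℍ) U := by
  rw [volume_eq_lintegral, setLIntegral_pos_iff]
  · have h1 : IsOpen ((↑) '' U : Set ℂ) := isOpenEmbedding_coe.isOpenMap U hU
    have h2 : Function.support (fun z : ℂ => (((1 / ‖z.im‖₊) ^ 2 : NNReal) : ENNReal)) ∩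
        ((↑) '' U : Set ℂ) = ((↑) '' U : Set ℂ) := by
      apply Set.inter_eq_right.2
      rintro _ ⟨z, -, rfl⟩
      have h3 : z.im ≠ 0 := z.im_ne_zero
      simp [Function.mem_support, h3]
    rw [h2]
    exact h1.measure_pos volume (hne.image _)
  · fun_prop

theorem int_pos (S : Setup) (W : Weight S.Γ) : 0 < ∫ z : ℍ, W.w z := by
  have hop : (volume : Measure ℍ).IsOpenPosMeasure :=
    ⟨fun U hU hne => (vol_pos U hU hne).ne'⟩
  have hne : ∃ z, W.w z ≠ 0 := by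
    by_contra hcon
    push Not at hcon
    have h1 := W.sum I
    simp [hcon] at h1
  obtain ⟨z, hz⟩ := hne
  exact W.cont.integral_pos_of_hasCompactSupport_nonneg_nonzero W.supp W.nonneg hz

theorem low (hWLK : StWLK) (S : Setup) (y : ℍ → ℝ) (hy : Test S.Γ y) (L : ℕ) (δ m q K : ℝ)
    (hL : ∀ z w : ℍ, ∃ l : List SL(2, ℝ), l.length = 2 * L ∧ (∀ e ∈ l, e ∈ S.E) ∧
      ∃ γ ∈ S.Γ, dist (γ • (l.prod • z)) w < δ)
    (hb : ∀ z, y z ≤ m) (hq : ∀ z w : ℍ, dist z w < δ → |y z - y w| ≤ q) (z : ℍ)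
    (hK : K < ((Tf S.R)^[2 * L] y) z) (w : ℍ) :
    K - ((S.R.card : ℝ) ^ (2 * L) - 1) * m - q ≤ y w := by
  obtain ⟨l, hl, hlE, γ, hγ, hd⟩ := hL z w
  have h1 := hWLK S y hy m hb l hlE z
  rw [hl] at h1
  have h2 := hq _ _ hd
  rw [hy.2 γ hγ] at h2
  have h3 := (abs_le.1 h2).2
  linarith

theorem int_low (S : Setup) (W : Weight S.Γ) (y : ℍ → ℝ) (hy : Test S.Γ y) (c : ℝ)
    (hc : ∀ z, c ≤ y z) : c * ∫ z : ℍ, W.w z ≤ ∫ z : ℍ, W.w z * y z := by
  rw [← integral_const_mul]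
  apply integral_mono
  · exact (W.cont.integrable_of_hasCompactSupport W.supp).const_mul c
  · exact (W.cont.mul hy.1).integrable_of_hasCompactSupport W.supp.mul_right
  · intro z
    have h1 := mul_le_mul_of_nonneg_left (hc z) (W.nonneg z)
    show c * W.w z ≤ W.w z * y z
    linarith

/-- One of the two signs leads to a contradiction. -/
theorem contra (hWLK : StWLK) (S : Setup) (W : Weight S.Γ) (y : ℍ → ℝ)
    (hy : Test S.Γ y) (h0 : ∫ z : ℍ, W.w z * y z = 0) (L : ℕ) (δ m q K : ℝ)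
    (hL : ∀ z w : ℍ, ∃ l : List SL(2, ℝ), l.length = 2 * L ∧ (∀ e ∈ l, e ∈ S.E) ∧
      ∃ γ ∈ S.Γ, dist (γ • (l.prod • z)) w < δ)
    (hb : ∀ z, y z ≤ m) (hq : ∀ z w : ℍ, dist z w < δ → |y z - y w| ≤ q) (z : ℍ)
    (hK : K < ((Tf S.R)^[2 * L] y) z)
    (hpos : 0 < K - ((S.R.card : ℝ) ^ (2 * L) - 1) * m - q) : False := by
  have h1 := int_low S W y hy _ (low hWLK S y hy L δ m q K hL hb hq z hK)
  rw [h0] at h1
  have h2 := mul_pos hpos (int_pos S W)
  linarith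

end IERG

open IERG

theorem prERG (hUNI : StUNI) (hWLK : StWLK) (hMOD : StMOD) (hTFI : StTFI) : StERG := by
  intro S W ψ hψ hψ0 ε hε
  by_contra hcon
  push Not at hcon
  have hd : (3 : ℝ) ≤ (S.R.card : ℝ) := by exact_mod_cast S.card
  set d : ℝ := (S.R.card : ℝ) with hdd
  have hdpos : 0 < d := by linarith
  obtain ⟨⟨B, hB⟩, -, hmod, -⟩ := hMOD S ψ hψ
  set A : Set ℝ := {m | 0 ≤ m ∧ ∃ n : ℕ, ∀ z, |((Tf S.R)^[2 * n] ψ) z| ≤ m * d ^ (2 * n)} with hA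
  have hAne : A.Nonempty := by
    refine ⟨B, (abs_nonneg _).trans (hB I), 0, fun z => ?_⟩
    simpa using hB z
  have hAlow : ∀ m ∈ A, ε ≤ m := by
    rintro m ⟨-, n, hn⟩
    by_contra hlt
    push Not at hlt
    obtain ⟨z, hz⟩ := hcon n
    have h1 := hn z
    have h2 : m * d ^ (2 * n) < ε * d ^ (2 * n) :=
      mul_lt_mul_of_pos_right hlt (pow_pos hdpos _)
    linarith
  have hbdd : BddBelow A := ⟨ε, hAlow⟩
  set M := sInf A with hM
  have hMpos : 0 < M := lt_of_lt_of_le hε (le_csInf hAne hAlow)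
  obtain ⟨δ, hδ, hδm⟩ := hmod (M / 4) (by positivity)
  obtain ⟨L, hL⟩ := hUNI S δ hδ
  have hDpos : 0 < d ^ (2 * L) := pow_pos hdpos _
  have hD1 : 1 ≤ d ^ (2 * L) := one_le_pow₀ (by linarith)
  set τ := M / (8 * d ^ (2 * L)) with hτ
  have hτpos : 0 < τ := by positivity
  have hτe : τ * d ^ (2 * L) = M / 8 := by
    rw [hτ]; field_simp
  have hτM : τ < M := by nlinarith
  obtain ⟨m, ⟨hm0, n, hn⟩, hmlt⟩ := exists_lt_of_csInf_lt hAne (show sInf A < M + τ by linarith)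
  have hnot : M - τ ∉ A := fun h => by
    have := csInf_le hbdd h
    linarith
  have hex : ∃ z, (M - τ) * d ^ (2 * (L + n)) < |((Tf S.R)^[2 * (L + n)] ψ) z| := by
    by_contra hno
    push Not at hno
    exact hnot ⟨by linarith, L + n, hno⟩
  obtain ⟨z, hz⟩ := hex
  have hcomp : (Tf S.R)^[2 * (L + n)] ψ = (Tf S.R)^[2 * L] ((Tf S.R)^[2 * n] ψ) := by
    rw [← Function.iterate_add_apply, mul_add]
  rw [hcomp] at hz
  obtain ⟨hy, hy0⟩ := int_iter hTFI S W ψ hψ (2 * n)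
  rw [hψ0, mul_zero] at hy0
  set y := (Tf S.R)^[2 * n] ψ with hyd
  have hPpos : 0 < d ^ (2 * n) := pow_pos hdpos _
  have hpow : d ^ (2 * (L + n)) = d ^ (2 * L) * d ^ (2 * n) := by rw [mul_add, pow_add]
  have hpos : 0 < (M - τ) * d ^ (2 * (L + n)) - (d ^ (2 * L) - 1) * (m * d ^ (2 * n)) -
      M / 4 * d ^ (2 * n) := by
    rw [hpow]
    have h1 : (M - τ) * (d ^ (2 * L) * d ^ (2 * n)) - (d ^ (2 * L) - 1) * (m * d ^ (2 * n)) -
        M / 4 * d ^ (2 * n) =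
        ((M - τ) * d ^ (2 * L) - (d ^ (2 * L) - 1) * m - M / 4) * d ^ (2 * n) := by ring
    rw [h1]
    apply mul_pos _ hPpos
    have h2 : (d ^ (2 * L) - 1) * m ≤ (d ^ (2 * L) - 1) * (M + τ) :=
      mul_le_mul_of_nonneg_left hmlt.le (by linarith)
    nlinarith
  have hq : ∀ z w : ℍ, dist z w < δ → |y z - y w| ≤ M / 4 * d ^ (2 * n) :=
    fun z w h => hδm (2 * n) z w h
  rcases abs_cases (((Tf S.R)^[2 * L] y) z) with ⟨he, -⟩ | ⟨he, -⟩
  · rw [he] at hz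
    exact contra hWLK S W y hy hy0 L δ (m * d ^ (2 * n)) (M / 4 * d ^ (2 * n)) _ hL
      (fun z => (le_abs_self _).trans (hn z)) hq z hz hpos
  · rw [he] at hz
    refine contra hWLK S W (fun z => -y z) (test_neg hy) ?_ L δ (m * d ^ (2 * n))
      (M / 4 * d ^ (2 * n)) _ hL (fun z => (neg_le_abs _).trans (hn z)) ?_ z ?_ hpos
    · simp only [mul_neg, integral_neg, hy0, neg_zero]
    · intro z w h
      have h1 := hq z w h
      rw [← abs_neg] at h1
      have h2 : -y z - -y w = -(y z - y w) := by ring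
      rw [h2]; exact h1
    · rw [iter_neg]; exact hz

end HQ
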