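import Pool.Agent.Work.MP_d2a4bb_nt.QE.Stmts

/-!
# Item EXT: extension of a path at the far end
-/

open UpperHalfPlane MeasureTheory Matrix
open scoped MatrixGroups Manifold Topology ComplexConjugate

namespace HQ

open Classical in
/-- Item EXT. -/
theorem prEXT (hPHA : StPHA) (hPHB : StPHB) (hWRD : StWRD) : StEXT := by
  intro S m f l hf hE α hα z g
  obtain ⟨β₀, hβ₀, hβΓ, huniq⟩ := (hWRD S).2.2.1 α hα
  have h1 : ∑ β ∈ S.R, phi m f z (β * (α * g)) = l * phi m f z (α * g) :=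
    hPHB.1 S.R m f l hE z (α * g)
  have h2 : ∑ β ∈ S.R, (if β * α ∈ S.Γ then phi m f z (β * (α * g)) else 0) = phi m f z g := by
    rw [Finset.sum_eq_single β₀]
    · rw [if_pos hβΓ, ← mul_assoc]
      exact hPHA.1 S.Γ m f hf (β₀ * α) hβΓ z g
    · intro β hβ hne
      rw [if_neg fun h => hne (huniq β hβ h)]
    · intro h
      exact absurd hβ₀ h
  have h3 : ∑ β ∈ S.R, (if β * α ∈ S.Γ then 0 else phi m f z (β * (α * g))) =
      ∑ β ∈ S.R, phi m f z (β * (α * g)) -
        ∑ β ∈ S.R, (if β * α ∈ S.Γ then phi m f z (β * (α * g)) else 0) := by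
    rw [← Finset.sum_sub_distrib]
    refine Finset.sum_congr rfl fun β _ => ?_
    split_ifs
    · rw [sub_self]
    · rw [sub_zero]
  rw [h3, h1, h2]

end HQ
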