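import Pool.Agent.Work.MP_d2a4bb_nt.QE.Stmts

/-!
# Item FUN (helper9): fundamental domains and weights
-/

open UpperHalfPlane MeasureTheory Matrix
open scoped MatrixGroups Manifold Topology ComplexConjugate

namespace HQ

namespace IFUN

open scoped ENNReal

/-! ### the measure of the upper half-plane -/

theorem vol_countable {s : Set ℍ} (hs : s.Countable) : volume s = 0 := by
  rw [volume_eq_lintegral]
  have h : (volume : Measure ℂ) (UpperHalfPlane.coe '' s) = 0 := (hs.image _).measure_zero _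
  exact setLIntegral_measure_zero _ _ h

instance openPos : Measure.IsOpenPosMeasure (volume : Measure ℍ) := by
  constructor
  intro U hU hne h0
  rw [volume_eq_lintegral] at h0
  have hO : IsOpen (UpperHalfPlane.coe '' U) := isOpenEmbedding_coe.isOpenMap _ hU
  have hm : Measurable (fun z : ℂ => (((1 / ‖z.im‖₊) ^ 2 : NNReal) : ℝ≥0∞)) := by
    refine Measurable.coe_nnreal_ennreal ?_
    refine Measurable.pow_const ?_ 2
    exact measurable_const.div (Complex.measurable_im.nnnorm)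
  rw [lintegral_eq_zero_iff hm, Filter.EventuallyEq, ae_restrict_iff' hO.measurableSet] at h0
  have h1 : (volume : Measure ℂ) (UpperHalfPlane.coe '' U) = 0 := by
    refine measure_mono_null ?_ (ae_iff.1 h0)
    rintro _ ⟨z, hz, rfl⟩
    simp only [Set.mem_ofPred_eq, Classical.not_imp, Pi.zero_apply]
    refine ⟨⟨z, hz, rfl⟩, ?_⟩
    have h2 : (0 : NNReal) < (1 / ‖(z : ℂ).im‖₊) ^ 2 := by
      have h3 : (z : ℂ).im ≠ 0 := z.im_ne_zero
      exact pow_pos (div_pos one_pos (nnnorm_pos.2 h3)) 2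
    exact (ENNReal.coe_pos.2 h2).ne'
  exact (hO.measure_pos volume (hne.image _)).ne' h1

/-! ### fixed points -/

theorem fixed_eq {g : SL(2, ℝ)} {z : ℍ} (h : g • z = z) :
    ((g 0 0 : ℝ) : ℂ) * z + ((g 0 1 : ℝ) : ℂ) =
      (z : ℂ) * (((g 1 0 : ℝ) : ℂ) * z + ((g 1 1 : ℝ) : ℂ)) := by
  have h1 := coe_specialLinearGroup_apply g z
  rw [h] at h1
  simp only [Algebra.algebraMap_self, RingHom.id_apply] at h1
  have hd : (((g 1 0 : ℝ) : ℂ) * z + ((g 1 1 : ℝ) : ℂ)) ≠ 0 := by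
    intro h0
    rw [h0, div_zero] at h1
    have h2 := congrArg Complex.im h1
    rw [Complex.zero_im] at h2
    exact z.im_ne_zero h2
  rw [eq_div_iff hd] at h1
  exact h1.symm

theorem fixed_sub {g : SL(2, ℝ)} (h1 : g ≠ 1) (h2 : g ≠ -1) :
    {z : ℍ | g • z = z}.Subsingleton := by
  intro z hz w hw
  by_contra hne
  have ez := fixed_eq hz
  have ew := fixed_eq hw
  have hne' : (z : ℂ) - w ≠ 0 := by
    intro h
    exact hne (UpperHalfPlane.ext (sub_eq_zero.1 h))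
  have e1 : ((z : ℂ) - w) * (((g 1 0 : ℝ) : ℂ) * (z + w) + (((g 1 1 : ℝ) : ℂ) - ((g 0 0 : ℝ) : ℂ))) = 0 := by
    linear_combination ew - ez
  have e2 := (mul_eq_zero.1 e1).resolve_left hne'
  have e3 := congrArg Complex.im e2
  simp only [Complex.add_im, Complex.mul_im, Complex.ofReal_re, Complex.ofReal_im, Complex.sub_im,
    zero_mul, add_zero, sub_zero, Complex.zero_im] at e3
  have c0 : g 1 0 = 0 := by
    have h4 : 0 < (z : ℂ).im + (w : ℂ).im := add_pos z.im_pos w.im_pos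
    rcases mul_eq_zero.1 e3 with h5 | h5
    · exact h5
    · exact absurd h5 h4.ne'
  have d0 : g 1 1 = g 0 0 := by
    rw [c0] at e2
    have e4 := congrArg Complex.re e2
    simp only [Complex.ofReal_zero, zero_mul, zero_add, Complex.sub_re, Complex.ofReal_re,
      Complex.zero_re] at e4
    linarith
  have b0 : g 0 1 = 0 := by
    rw [c0, d0] at ez
    have e5 : ((g 0 1 : ℝ) : ℂ) = 0 := by
      simp only [Complex.ofReal_zero] at ez
      linear_combination ez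
    exact_mod_cast e5
  have hdet := g.det_coe
  rw [Matrix.det_fin_two, c0, d0, b0, zero_mul, sub_zero] at hdet
  have ha : g 0 0 = 1 ∨ g 0 0 = -1 := mul_self_eq_one_iff.1 hdet
  rcases ha with ha | ha
  · apply h1
    ext i j
    fin_cases i <;> fin_cases j <;> simp [c0, d0, b0, ha]
  · apply h2
    ext i j
    fin_cases i <;> fin_cases j <;> simp [c0, d0, b0, ha]

theorem ne_neg (g : SL(2, ℝ)) : g ≠ (-1) * g := by
  intro h
  have h2 : (1 : SL(2, ℝ)) = -1 := mul_right_cancel (b := g) (by rw [one_mul]; exact h)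
  have h3 := congrArg (fun x : SL(2, ℝ) => x 0 0) h2
  simp at h3
  norm_num at h3

/-! ### the group -/

variable {Q : QuatOrder}

theorem fin_set (hFIW : StFIW) (Q : QuatOrder) {K : Set ℍ} (hK : IsCompact K) :
    {γ : SL(2, ℝ) | γ ∈ Q.Γ ∧ ∃ z ∈ K, γ • z ∈ K}.Finite := by
  refine (hFIW Q 1 1 one_pos K hK).subset ?_
  rintro γ ⟨hγ, h⟩
  exact ⟨⟨[γ], rfl, by simp [hγ], by simp⟩, h⟩

theorem countable_G (hFIW : StFIW) (Q : QuatOrder) : (Q.Γ : Set SL(2, ℝ)).Countable := by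
  have h : (Q.Γ : Set SL(2, ℝ)) ⊆ ⋃ n : ℕ, {γ : SL(2, ℝ) | γ ∈ Q.Γ ∧
      ∃ z ∈ Metric.closedBall I (n : ℝ), γ • z ∈ Metric.closedBall I (n : ℝ)} := by
    intro γ hγ
    obtain ⟨n, hn⟩ := exists_nat_ge (dist (γ • I) I)
    refine Set.mem_iUnion.2 ⟨n, hγ, I, ?_, ?_⟩
    · exact Metric.mem_closedBall_self (Nat.cast_nonneg n)
    · exact Metric.mem_closedBall.2 hn
  exact (Set.countable_iUnion fun n =>
    (fin_set hFIW Q (isCompact_closedBall _ _)).countable).mono h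

/-- the points with a nontrivial stabilizer -/
def P (Q : QuatOrder) : Set ℍ := ⋃ γ ∈ {γ : SL(2, ℝ) | γ ∈ Q.Γ ∧ γ ≠ 1 ∧ γ ≠ -1}, {z : ℍ | γ • z = z}

theorem P_null (hFIW : StFIW) (Q : QuatOrder) : volume (P Q) = 0 := by
  refine vol_countable (Set.Countable.biUnion ((countable_G hFIW Q).mono fun γ h => h.1) ?_)
  intro γ h
  exact (fixed_sub h.2.1 h.2.2).countable

theorem tsum_F (hGAM : StGAM) {F : Set ℍ} (hF : Q.IsFund F) {z : ℍ} (hz : z ∉ P Q) :
    ∑' γ : Q.Γ, F.indicator (1 : ℍ → ℝ≥0∞) ((γ : SL(2, ℝ)) • z) = 2 := by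
  obtain ⟨w, ⟨hwF, γ₀, hγ₀, hw⟩, huniq⟩ := hF.2 z
  have hneg : (-1 : SL(2, ℝ)) ∈ Q.Γ := (hGAM Q).2.1
  have hact : ∀ x : ℍ, (-1 : SL(2, ℝ)) • x = x := by
    intro x
    ext1
    rw [coe_specialLinearGroup_apply]
    simp
  let a : Q.Γ := ⟨γ₀, hγ₀⟩
  let b : Q.Γ := ⟨(-1) * γ₀, Q.Γ.mul_mem hneg hγ₀⟩
  have hab : a ≠ b := by
    intro h
    exact ne_neg γ₀ (congrArg Subtype.val h)
  classical
  rw [tsum_eq_sum (s := {a, b})]
  · rw [Finset.sum_pair hab]
    have ea : F.indicator (1 : ℍ → ℝ≥0∞) ((a : SL(2, ℝ)) • z) = 1 := by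
      show F.indicator (1 : ℍ → ℝ≥0∞) (γ₀ • z) = 1
      rw [hw, Set.indicator_of_mem hwF, Pi.one_apply]
    have eb : F.indicator (1 : ℍ → ℝ≥0∞) ((b : SL(2, ℝ)) • z) = 1 := by
      show F.indicator (1 : ℍ → ℝ≥0∞) (((-1) * γ₀) • z) = 1
      rw [mul_smul, hact, hw, Set.indicator_of_mem hwF, Pi.one_apply]
    rw [ea, eb, one_add_one_eq_two]
  · intro γ hγ
    rw [Set.indicator_of_notMem]
    intro hmem
    apply hγ
    have h1 : (γ : SL(2, ℝ)) • z = w := huniq _ ⟨hmem, γ, γ.2, rfl⟩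
    have h2 : (γ₀⁻¹ * (γ : SL(2, ℝ))) • z = z := by
      rw [mul_smul, h1, ← hw, inv_smul_smul]
    have h3 : γ₀⁻¹ * (γ : SL(2, ℝ)) = 1 ∨ γ₀⁻¹ * (γ : SL(2, ℝ)) = -1 := by
      by_contra hcon
      rw [not_or] at hcon
      apply hz
      rw [P, Set.mem_iUnion₂]
      exact ⟨_, ⟨Q.Γ.mul_mem (Q.Γ.inv_mem hγ₀) γ.2, hcon.1, hcon.2⟩, h2⟩
    rw [Finset.mem_insert, Finset.mem_singleton]
    rcases h3 with h3 | h3
    · left
      apply Subtype.ext
      show (γ : SL(2, ℝ)) = γ₀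
      rw [inv_mul_eq_one] at h3
      exact h3.symm
    · right
      apply Subtype.ext
      show (γ : SL(2, ℝ)) = (-1) * γ₀
      rw [inv_mul_eq_iff_eq_mul] at h3
      rw [h3]
      simp

/-! ### the weight -/

theorem sumW (W : Weight Q.Γ) (z : ℍ) :
    ∑' γ : Q.Γ, ENNReal.ofReal (W.w ((γ : SL(2, ℝ)) • z)) = 1 := by
  have hfin : (Function.support fun γ : Q.Γ => W.w ((γ : SL(2, ℝ)) • z)).Finite := by
    have h := W.fin {z} isCompact_singleton
    refine Set.Finite.of_finite_image (f := Subtype.val) (h.subset ?_)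
      Subtype.val_injective.injOn
    rintro _ ⟨γ, hγ, rfl⟩
    exact ⟨γ.2, z, rfl, hγ⟩
  have h1 := W.sum z
  rw [finsum_eq_sum_of_support_subset (s := hfin.toFinset) _ (by simp)] at h1
  rw [tsum_eq_sum (s := hfin.toFinset)]
  · rw [← ENNReal.ofReal_sum_of_nonneg (fun γ _ => W.nonneg _), h1, ENNReal.ofReal_one]
  · intro γ hγ
    rw [Set.Finite.mem_toFinset, Function.mem_support, not_not] at hγ
    rw [hγ, ENNReal.ofReal_zero]

theorem unfold (hVOL : StVOL) (hGAM : StGAM) (hFIW : StFIW) (W : Weight Q.Γ) {F : Set ℍ}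
    (hF : Q.IsFund F) {H : ℍ → ℝ≥0∞} (hH : Measurable H)
    (hinv : ∀ γ ∈ Q.Γ, ∀ z : ℍ, H (γ • z) = H z) :
    ∫⁻ z in F, H z = 2 * ∫⁻ z : ℍ, ENNReal.ofReal (W.w z) * H z := by
  haveI : Countable Q.Γ := (countable_G hFIW Q).to_subtype
  have hm : ∀ g : SL(2, ℝ), Measurable fun z : ℍ => g • z := fun g => (hVOL.1 g).measurable
  have hw : Measurable fun z : ℍ => ENNReal.ofReal (W.w z) :=
    W.cont.measurable.ennreal_ofReal
  have hFH : Measurable (F.indicator H) := hH.indicator hF.1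
  have hF1 : Measurable (F.indicator (1 : ℍ → ℝ≥0∞)) := measurable_one.indicator hF.1
  calc ∫⁻ z in F, H z = ∫⁻ z : ℍ, F.indicator H z := (lintegral_indicator hF.1 H).symm
    _ = ∫⁻ z : ℍ, ∑' γ : Q.Γ, F.indicator H z * ENNReal.ofReal (W.w ((γ : SL(2, ℝ)) • z)) := by
        refine lintegral_congr fun z => ?_
        rw [ENNReal.tsum_mul_left, sumW W z, mul_one]
    _ = ∑' γ : Q.Γ, ∫⁻ z : ℍ, F.indicator H z * ENNReal.ofReal (W.w ((γ : SL(2, ℝ)) • z)) :=
        lintegral_tsum fun γ => (hFH.mul (hw.comp (hm γ))).aemeasurable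
    _ = ∑' γ : Q.Γ, ∫⁻ z : ℍ, F.indicator (1 : ℍ → ℝ≥0∞) (((γ⁻¹ : Q.Γ) : SL(2, ℝ)) • z) *
          (ENNReal.ofReal (W.w z) * H z) := by
        refine tsum_congr fun γ => ?_
        rw [← (hVOL.1 ((γ⁻¹ : Q.Γ) : SL(2, ℝ))).lintegral_comp
          (f := fun z => F.indicator H z * ENNReal.ofReal (W.w ((γ : SL(2, ℝ)) • z)))
          (hFH.mul (hw.comp (hm γ)))]
        refine lintegral_congr fun z => ?_
        have e1 : (γ : SL(2, ℝ)) • (((γ⁻¹ : Q.Γ) : SL(2, ℝ)) • z) = z := by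
          rw [InvMemClass.coe_inv, smul_inv_smul]
        rw [e1]
        have e2 : F.indicator H (((γ⁻¹ : Q.Γ) : SL(2, ℝ)) • z) =
            F.indicator (1 : ℍ → ℝ≥0∞) (((γ⁻¹ : Q.Γ) : SL(2, ℝ)) • z) * H z := by
          by_cases h : ((γ⁻¹ : Q.Γ) : SL(2, ℝ)) • z ∈ F
          · rw [Set.indicator_of_mem h, Set.indicator_of_mem h, Pi.one_apply, one_mul,
              hinv _ (γ⁻¹).2]
          · rw [Set.indicator_of_notMem h, Set.indicator_of_notMem h, zero_mul]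
        rw [e2]
        ring
    _ = ∑' γ : Q.Γ, ∫⁻ z : ℍ, F.indicator (1 : ℍ → ℝ≥0∞) ((γ : SL(2, ℝ)) • z) *
          (ENNReal.ofReal (W.w z) * H z) :=
        (Equiv.inv Q.Γ).tsum_eq (fun γ : Q.Γ => ∫⁻ z : ℍ,
          F.indicator (1 : ℍ → ℝ≥0∞) ((γ : SL(2, ℝ)) • z) * (ENNReal.ofReal (W.w z) * H z))
    _ = ∫⁻ z : ℍ, ∑' γ : Q.Γ, F.indicator (1 : ℍ → ℝ≥0∞) ((γ : SL(2, ℝ)) • z) *
          (ENNReal.ofReal (W.w z) * H z) := by
        rw [lintegral_tsum]
        exact fun γ => ((hF1.comp (hm γ)).mul (hw.mul hH)).aemeasurable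
    _ = ∫⁻ z : ℍ, 2 * (ENNReal.ofReal (W.w z) * H z) := by
        refine lintegral_congr_ae ?_
        have h0 : ∀ᵐ z : ℍ ∂volume, z ∉ P Q := by
          rw [ae_iff]
          simpa using P_null hFIW Q
        filter_upwards [h0] with z hz
        rw [ENNReal.tsum_mul_right, tsum_F hGAM hF hz]
    _ = 2 * ∫⁻ z : ℍ, ENNReal.ofReal (W.w z) * H z := lintegral_const_mul _ (hw.mul hH)

theorem intW (W : Weight Q.Γ) {E : Type} [NormedAddCommGroup E] [NormedSpace ℝ E] {h : ℍ → E}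
    (hc : Continuous h) : Integrable fun z => W.w z • h z :=
  (W.cont.smul hc).integrable_of_hasCompactSupport W.supp.smul_right

theorem nonneg_case (hVOL : StVOL) (hGAM : StGAM) (hFIW : StFIW) (W : Weight Q.Γ) {F : Set ℍ}
    (hF : Q.IsFund F) {h : ℍ → ℝ} (hc : Continuous h) (h0 : ∀ z, 0 ≤ h z)
    (hinv : ∀ γ ∈ Q.Γ, ∀ z : ℍ, h (γ • z) = h z) :
    ∫ z in F, h z = 2 * ∫ z : ℍ, W.w z * h z := by
  rw [integral_eq_lintegral_of_nonneg_ae (Filter.Eventually.of_forall h0)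
      hc.aestronglyMeasurable,
    integral_eq_lintegral_of_nonneg_ae
      (Filter.Eventually.of_forall fun z => mul_nonneg (W.nonneg z) (h0 z))
      (W.cont.mul hc).aestronglyMeasurable]
  have h1 := unfold hVOL hGAM hFIW W hF (H := fun z => ENNReal.ofReal (h z))
    hc.measurable.ennreal_ofReal (fun γ hγ z => by rw [hinv γ hγ z])
  rw [h1, ENNReal.toReal_mul, ENNReal.toReal_ofNat]
  congr 2
  refine lintegral_congr fun z => ?_
  rw [ENNReal.ofReal_mul (W.nonneg z)]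

theorem bdd (hCOC : StCOC) (Q : QuatOrder) {E : Type} [NormedAddCommGroup E] {h : ℍ → E}
    (hc : Continuous h) (hinv : ∀ γ ∈ Q.Γ, ∀ z : ℍ, h (γ • z) = h z) : ∃ C, ∀ z, ‖h z‖ ≤ C := by
  obtain ⟨K, hK, hcov⟩ := hCOC Q
  obtain ⟨C, hC⟩ := hK.exists_bound_of_continuousOn hc.continuousOn
  refine ⟨C, fun z => ?_⟩
  obtain ⟨γ, hγ, hz⟩ := hcov z
  rw [← hinv γ hγ z]
  exact hC _ hz

theorem intF (hCOC : StCOC) {F : Set ℍ} (hv : volume F < ⊤) {E : Type} [NormedAddCommGroup E]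
    [NormedSpace ℝ E] [SecondCountableTopology E] {h : ℍ → E}
    (hc : Continuous h) (hinv : ∀ γ ∈ Q.Γ, ∀ z : ℍ, h (γ • z) = h z) : IntegrableOn h F := by
  obtain ⟨C, hC⟩ := bdd hCOC Q hc hinv
  haveI : IsFiniteMeasure (volume.restrict F) := ⟨by rwa [Measure.restrict_apply_univ]⟩
  exact Integrable.of_bound hc.aestronglyMeasurable C (Filter.Eventually.of_forall hC)

theorem real_case (hVOL : StVOL) (hGAM : StGAM) (hFIW : StFIW) (hCOC : StCOC) (W : Weight Q.Γ)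
    {F : Set ℍ} (hF : Q.IsFund F) (hv : volume F < ⊤) {h : ℍ → ℝ} (hc : Continuous h)
    (hinv : ∀ γ ∈ Q.Γ, ∀ z : ℍ, h (γ • z) = h z) :
    ∫ z in F, h z = 2 * ∫ z : ℍ, W.w z * h z := by
  have c1 : Continuous fun z => max (h z) 0 := hc.max continuous_const
  have c2 : Continuous fun z => max (-h z) 0 := hc.neg.max continuous_const
  have i1 : ∀ γ ∈ Q.Γ, ∀ z : ℍ, max (h (γ • z)) 0 = max (h z) 0 := fun γ hγ z => by
    rw [hinv γ hγ z]
  have i2 : ∀ γ ∈ Q.Γ, ∀ z : ℍ, max (-h (γ • z)) 0 = max (-h z) 0 := fun γ hγ z => by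
    rw [hinv γ hγ z]
  have e1 := nonneg_case hVOL hGAM hFIW W hF c1 (fun z => le_max_right _ _) i1
  have e2 := nonneg_case hVOL hGAM hFIW W hF c2 (fun z => le_max_right _ _) i2
  have hd : ∀ z, h z = max (h z) 0 - max (-h z) 0 := by
    intro z
    rcases le_total (h z) 0 with h1 | h1
    · rw [max_eq_right h1, max_eq_left (neg_nonneg.2 h1)]
      ring
    · rw [max_eq_left h1, max_eq_right (neg_nonpos.2 h1)]
      ring
  have hl : ∫ z in F, h z = ∫ z in F, (max (h z) 0 - max (-h z) 0) :=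
    integral_congr_ae (Filter.Eventually.of_forall fun z => hd z)
  have hr : ∫ z : ℍ, W.w z * h z = ∫ z : ℍ, (W.w z * max (h z) 0 - W.w z * max (-h z) 0) :=
    integral_congr_ae (Filter.Eventually.of_forall fun z => by
      show W.w z * h z = W.w z * max (h z) 0 - W.w z * max (-h z) 0
      rw [← mul_sub, ← hd z])
  rw [hl, hr, integral_sub (intF hCOC hv c1 i1) (intF hCOC hv c2 i2), integral_sub, e1, e2]
  · ring
  · exact intW W c1
  · exact intW W c2

theorem complex_case (hVOL : StVOL) (hGAM : StGAM) (hFIW : StFIW) (hCOC : StCOC) (W : Weight Q.Γ)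
    {F : Set ℍ} (hF : Q.IsFund F) (hv : volume F < ⊤) {h : ℍ → ℂ} (hc : Continuous h)
    (hinv : ∀ γ ∈ Q.Γ, ∀ z : ℍ, h (γ • z) = h z) :
    ∫ z in F, h z = 2 * ∫ z : ℍ, (W.w z : ℂ) * h z := by
  have hW : Integrable fun z => (W.w z : ℂ) * h z := by
    have h1 := intW W hc
    refine h1.congr (Filter.Eventually.of_forall fun z => ?_)
    show W.w z • h z = _
    rw [Complex.real_smul]
  rw [← integral_re_add_im (intF hCOC hv hc hinv), ← integral_re_add_im hW]
  have e1 := real_case hVOL hGAM hFIW hCOC W hF hv (h := fun z => (h z).re)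
    (Complex.continuous_re.comp hc) (fun γ hγ z => by rw [hinv γ hγ z])
  have e2 := real_case hVOL hGAM hFIW hCOC W hF hv (h := fun z => (h z).im)
    (Complex.continuous_im.comp hc) (fun γ hγ z => by rw [hinv γ hγ z])
  have e3 : ∀ z, ((W.w z : ℂ) * h z).re = W.w z * (h z).re := fun z => by
    rw [Complex.re_ofReal_mul]
  have e4 : ∀ z, ((W.w z : ℂ) * h z).im = W.w z * (h z).im := fun z => by
    rw [Complex.im_ofReal_mul]
  simp only [RCLike.re_to_complex, RCLike.im_to_complex, RCLike.I_to_complex, e3, e4]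
  rw [e1, e2]
  push_cast
  ring

end IFUN

open IFUN in
theorem prFUN (hVOL : StVOL) (hGAM : StGAM) (hFIW : StFIW) (hCOC : StCOC) : StFUN := by
  intro Q W F hF
  have hwint : Integrable fun z => W.w z := W.cont.integrable_of_hasCompactSupport W.supp
  have h1 := unfold hVOL hGAM hFIW W hF (H := fun _ => 1) measurable_const (fun _ _ _ => rfl)
  have h2 : volume F = 2 * ENNReal.ofReal (∫ z : ℍ, W.w z) := by
    rw [ofReal_integral_eq_lintegral_ofReal hwint (Filter.Eventually.of_forall W.nonneg)]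
    simpa using h1
  have hpos : 0 < ∫ z : ℍ, W.w z := by
    obtain ⟨γ, hγ⟩ : ∃ γ : Q.Γ, W.w ((γ : SL(2, ℝ)) • I) ≠ 0 := by
      by_contra hcon
      simp only [not_exists, not_not] at hcon
      have h3 := W.sum I
      rw [finsum_congr hcon, finsum_zero] at h3
      exact zero_ne_one h3
    exact W.cont.integral_pos_of_hasCompactSupport_nonneg_nonzero W.supp W.nonneg hγ
  have hv : volume F < ⊤ := by
    rw [h2]
    exact ENNReal.mul_lt_top (by simp) ENNReal.ofReal_lt_top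
  refine ⟨hv, hpos, ?_, ?_, ?_⟩
  · rw [h2, ENNReal.toReal_mul, ENNReal.toReal_ofReal hpos.le, ENNReal.toReal_ofNat]
  · intro h hc hinv
    exact real_case hVOL hGAM hFIW hCOC W hF hv hc hinv
  · intro h hc hinv
    exact complex_case hVOL hGAM hFIW hCOC W hF hv hc hinv

end HQ
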