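import Pool.Agent.Work.MP_d2a4bb_nt.QE.Stmts

/-!
# Item IDN of the block [d2a4bb QE]: the exact identity
-/

open UpperHalfPlane MeasureTheory Matrix
open scoped MatrixGroups Manifold Topology ComplexConjugate

namespace HQ

namespace IIDN

theorem sym_re (hSYM : StSYM) (S : Setup) (W : Weight S.Γ) (m : ℕ) (f : ℍ → ℂ) (y : ℍ → ℝ)
    (hf : Form S.Γ m f) (hy : Test S.Γ y) (L i j : ℕ) (hij : i + j = L) :
    (NN S W m f y L i).re = (NN S W m f y L j).re := by
  have h := hSYM S W m f y hf hy L i (by omega)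
  have hj : L - i = j := by omega
  rw [h, hj, Complex.conj_re]

theorem rec_re (hREC : StREC) (S : Setup) (W : Weight S.Γ) (m : ℕ) (f : ℍ → ℂ) (l : ℝ)
    (y : ℍ → ℝ) (hf : Form S.Γ m f) (hE : Eigen S.R m f (l : ℂ)) (hy : Test S.Γ y) (L i : ℕ)
    (hL : 2 ≤ L) (hi : i + 1 ≤ L) :
    (NN S W m f y (L + 1) i).re = l * (NN S W m f y L i).re -
      ((S.R.card : ℝ) - 1) * (NN S W m f y (L - 1) i).re := by
  rw [hREC S W m f l y hf hE hy L i hL hi]
  have h1 : ((S.R.card : ℂ) - 1) = (((S.R.card : ℝ) - 1 : ℝ) : ℂ) := by push_cast; ring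
  rw [h1, Complex.sub_re, Complex.re_ofReal_mul, Complex.re_ofReal_mul]

end IIDN

open IIDN

/-- IDN. -/
theorem prIDN (hREC : StREC) (hSYM : StSYM) (hBAS : StBAS) : StIDN := by
  intro S W m f l y hf hE hy n hn
  induction n, hn using Nat.le_induction with
  | base =>
    have h := hBAS S W m f l y hf hE hy
    rw [Nat.sub_self, pow_zero, one_mul]
    exact h
  | succ n hn ih =>
    have h1 := rec_re hREC S W m f l y hf hE hy (2 * n + 1) (n + 1) (by omega) (by omega)
    have h2 := rec_re hREC S W m f l y hf hE hy (2 * n + 1) n (by omega) (by omega)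
    have h3 := sym_re hSYM S W m f y hf hy (2 * n + 1) (n + 1) n (by omega)
    have h4 := sym_re hSYM S W m f y hf hy (2 * n) (n + 1) (n - 1) (by omega)
    have e1 : 2 * (n + 1) = 2 * n + 1 + 1 := by ring
    have e2 : 2 * n + 1 - 1 = 2 * n := by omega
    have e3 : n + 1 - 1 = (n - 1) + 1 := by omega
    have e4 : n - 1 + 1 = n := by omega
    rw [e2] at h1 h2
    rw [e1, Nat.add_sub_cancel, h1, h2, h3, h4]
    have e5 : ((S.R.card : ℝ) - 1) ^ n = ((S.R.card : ℝ) - 1) * ((S.R.card : ℝ) - 1) ^ (n - 1) := by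
      conv_lhs => rw [← e4]
      rw [pow_succ]; ring
    rw [e5, mul_assoc, ← ih]
    ring

end HQ
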