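import Pool.Agent.Work.MP_d2a4bb_nt.QE.Defs

/-!
# Statements of the block [d2a4bb QE].  Captain helper41.

THEOREM QE (`Main` in `QE/Defs.lean`): density one quantum unique ergodicity for holomorphic Hecke forms on compact arithmetic surfaces.
Each `def StXXX : Prop` is one item; its docstring contains the complete proof.  Two halves: TREE / ANALYSIS for an abstract `Setup` and ARITHMETIC (a `Setup` for a `QuatOrder`).

CONVENTIONS.  `SL(2, ℝ)` acts on `ℍ` (Mathlib `UpperHalfPlane`) by isometries (`dist_smul`), properly (`ProperSMul SL(2, ℝ) ℍ`), preserving `volume` (item `StVOL`).  `phi m f z g = f (g z) (c z + d)^(-2m) y^m`.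
Words: lists `a = [α_L, …, α_1]` of elements of `R` (the LAST letter is the head), `a.prod = α_L ⋯ α_1`; `vtx a i` = product of the first `i` letters `α_i ⋯ α_1` = `(a.drop (a.length - i)).prod`.
-/

open UpperHalfPlane MeasureTheory Matrix
open scoped MatrixGroups Manifold Topology ComplexConjugate

namespace HQ

/-- Non-backtracking words in the letters `R` (last letter first): consecutive letters satisfy `β * α ∉ Γ`. -/
def IsWord (Γ : Subgroup SL(2, ℝ)) (R : Finset SL(2, ℝ)) (a : List SL(2, ℝ)) : Prop :=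
  (∀ α ∈ a, α ∈ R) ∧ a.IsChain (fun β α => β * α ∉ Γ)

/-- `x` is a product of `n` elements of `E ∪ Γ`. -/
def Walk (Γ : Subgroup SL(2, ℝ)) (E : Set SL(2, ℝ)) (n : ℕ) (x : SL(2, ℝ)) : Prop :=
  ∃ l : List SL(2, ℝ), l.length = n ∧ (∀ e ∈ l, e ∈ E ∨ e ∈ Γ) ∧ l.prod = x

/-- A cocompact discrete group with a Hecke correspondence whose Hecke graph is a regular tree. -/
structure Setup where
  Γ : Subgroup SL(2, ℝ)
  E : Set SL(2, ℝ)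
  R : Finset SL(2, ℝ)
  neg_mem : (-1 : SL(2, ℝ)) ∈ Γ
  E_inv : ∀ x ∈ E, x⁻¹ ∈ E
  E_mul : ∀ γ ∈ Γ, ∀ x ∈ E, γ * x ∈ E
  R_mem : ∀ α ∈ R, α ∈ E
  R_rep : ∀ x ∈ E, ∃ α ∈ R, x * α⁻¹ ∈ Γ
  R_inj : ∀ α ∈ R, ∀ β ∈ R, α * β⁻¹ ∈ Γ → α = β
  card : 3 ≤ R.card
  inj : ∀ a b : List SL(2, ℝ), IsWord Γ R a → IsWord Γ R b → a.prod * b.prod⁻¹ ∈ Γ → a = b
  fin : ∀ (n : ℕ) (K : Set ℍ), IsCompact K → {x : SL(2, ℝ) | Walk Γ E n x ∧ ∃ z ∈ K, x • z ∈ K}.Finite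
  K : Set ℍ
  K_compact : IsCompact K
  K_cover : ∀ z : ℍ, ∃ γ ∈ Γ, γ • z ∈ K
  dense : ∀ z w : ℍ, ∀ ε > (0 : ℝ), ∃ l : List SL(2, ℝ), Even l.length ∧ (∀ e ∈ l, e ∈ E) ∧ dist (l.prod • z) w < ε

/-- A partition function: integrals over `X = Γ \ ℍ` are `∫ w Φ` up to the factor 2 (`-1 ∈ Γ`). -/
structure Weight (Γ : Subgroup SL(2, ℝ)) where
  w : ℍ → ℝ
  cont : Continuous w
  nonneg : ∀ z, 0 ≤ w z
  supp : HasCompactSupport w
  fin : ∀ K : Set ℍ, IsCompact K → {γ : SL(2, ℝ) | γ ∈ Γ ∧ ∃ z ∈ K, w (γ • z) ≠ 0}.Finite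
  sum : ∀ z : ℍ, ∑ᶠ γ : Γ, w ((γ : SL(2, ℝ)) • z) = 1

open Classical in
/-- The finite set of non-backtracking words of length `n`. -/
noncomputable def words (Γ : Subgroup SL(2, ℝ)) (R : Finset SL(2, ℝ)) : ℕ → Finset (List SL(2, ℝ))
  | 0 => {[]}
  | n + 1 => ((R ×ˢ words Γ R n).filter (fun p => ∀ α ∈ p.2.head?, p.1 * α ∉ Γ)).image (fun p => p.1 :: p.2)

/-- The product of the first `i` letters of a word (the last `i` entries of the list). -/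
noncomputable def vtx (a : List SL(2, ℝ)) (i : ℕ) : SL(2, ℝ) := (a.drop (a.length - i)).prod

/-- `phi_z(g) = (f|g)(z) y^m`. -/
noncomputable def phi (m : ℕ) (f : ℍ → ℂ) (z : ℍ) (g : SL(2, ℝ)) : ℂ :=
  f (g • z) / jj g z ^ (2 * m) * ((z.im : ℝ) : ℂ) ^ m

/-- `F(z) = |f(z)| y^m`. -/
noncomputable def FF (m : ℕ) (f : ℍ → ℂ) (z : ℍ) : ℝ := ‖f z‖ * z.im ^ m

/-- Holomorphic forms of weight `2m` for the group `Γ`. -/
def Form (Γ : Subgroup SL(2, ℝ)) (m : ℕ) (f : ℍ → ℂ) : Prop :=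
  MDifferentiable 𝓘(ℂ) 𝓘(ℂ) f ∧ ∀ γ ∈ Γ, ∀ z : ℍ, f (γ • z) = jj γ z ^ (2 * m) * f z

/-- Continuous `Γ`-invariant functions. -/
def Test (Γ : Subgroup SL(2, ℝ)) (ψ : ℍ → ℝ) : Prop := Continuous ψ ∧ ∀ γ ∈ Γ, ∀ z : ℍ, ψ (γ • z) = ψ z

/-- `f` is an eigenfunction of the Hecke operator with eigenvalue `l`. -/
def Eigen (R : Finset SL(2, ℝ)) (m : ℕ) (f : ℍ → ℂ) (l : ℂ) : Prop :=
  ∀ z : ℍ, ∑ β ∈ R, f (β • z) / jj β z ^ (2 * m) = l * f z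

/-- The Hecke operator on functions. -/
noncomputable def Tf (R : Finset SL(2, ℝ)) (y : ℍ → ℝ) (z : ℍ) : ℝ := ∑ β ∈ R, y (β • z)

/-- The correlation integral over non-backtracking paths of length `L`, weighted by the value of `y` at the `i`-th vertex. -/
noncomputable def NN (S : Setup) (W : Weight S.Γ) (m : ℕ) (f : ℍ → ℂ) (y : ℍ → ℝ) (L i : ℕ) : ℂ :=
  ∫ z : ℍ, (W.w z : ℂ) * ∑ a ∈ words S.Γ S.R L, (y (vtx a i • z) : ℂ) * (phi m f z 1 * conj (phi m f z a.prod))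

/-- Orthonormal families of forms (with respect to the weight). -/
def Ortho (Γ : Subgroup SL(2, ℝ)) (W : Weight Γ) (m : ℕ) {ι : Type} [Fintype ι] (f : ι → ℍ → ℂ) : Prop :=
  (∀ i, Form Γ m (f i)) ∧ (∀ i j, i ≠ j → ∫ z : ℍ, (W.w z : ℂ) * (f i z * conj (f j z) * ((z.im : ℝ) : ℂ) ^ (2 * m)) = 0) ∧
    ∀ i, ∫ z : ℍ, W.w z * FF m (f i) z ^ 2 = 1

/-- The velocity of the vector field of `X` at `z`: derivative at `t = 0` of `exp(tX) z`. -/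
noncomputable def ev (X : Matrix (Fin 2) (Fin 2) ℝ) (z : ℍ) : ℂ :=
  ((X 0 1 : ℝ) : ℂ) + ((X 0 0 - X 1 1 : ℝ) : ℂ) * (z : ℂ) - ((X 1 0 : ℝ) : ℂ) * (z : ℂ) ^ 2

/-- `4 y y₀ / |z - conj z₀|²`, a number in `(0, 1]`, equal to `1` only for `z = z₀`. -/
noncomputable def rho (z₀ z : ℍ) : ℝ := 4 * z.im * z₀.im / ‖(z : ℂ) - conj (z₀ : ℂ)‖ ^ 2

/-- `R` is a set of representatives of `Γ \ E`. -/
def Reps (Γ : Subgroup SL(2, ℝ)) (E : Set SL(2, ℝ)) (R : Finset SL(2, ℝ)) : Prop :=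
  (∀ α ∈ R, α ∈ E) ∧ (∀ x ∈ E, ∃ α ∈ R, x * α⁻¹ ∈ Γ) ∧ ∀ α ∈ R, ∀ β ∈ R, α * β⁻¹ ∈ Γ → α = β

/-! ## A. Basic facts -/

/-- VOL (EASY; no hypotheses).  The action of `SL(2, ℝ)` preserves `volume`.  Proof: Mathlib has `SMulInvariantMeasure (GL (Fin 2) ℝ) ℍ volume` and the action of `g : SL(2, ℝ)` is the action of its image in `GL` (`MulAction.compHom_smul_def` / `sl_moeb`, definitional:
`(g • z : ℍ) = ((Matrix.SpecialLinearGroup.mapGL ℝ g : GL (Fin 2) ℝ) • z)` ); use `measurePreserving_smul`. Integral version: `MeasurePreserving.integral_comp'` with the measurable equivalence `MeasurableEquiv.smul g` or the homeomorphism `Homeomorph.smul g`. -/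
def StVOL : Prop := (∀ g : SL(2, ℝ), MeasurePreserving (fun z : ℍ => g • z) volume volume) ∧
  (∀ (g : SL(2, ℝ)) (h : ℍ → ℂ), ∫ z : ℍ, h (g • z) = ∫ z : ℍ, h z) ∧ ∀ (g : SL(2, ℝ)) (h : ℍ → ℝ), ∫ z : ℍ, h (g • z) = ∫ z : ℍ, h z

/-- JJ (EASY; no hypotheses).  `jj g z = denom (g : GL) z`; non-vanishing, cocycle rule, imaginary part, continuity.  Mathlib: `UpperHalfPlane.denom_ne_zero`, `denom_cocycle`, `im_smul_eq_div_normSq`, `coe_specialLinearGroup_apply`; or by hand from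
`(g • z : ℂ) = (a z + b)/(c z + d)`, `a d - b c = 1`. -/
def StJJ : Prop := (∀ (g : SL(2, ℝ)) (z : ℍ), jj g z ≠ 0) ∧ (∀ (g h : SL(2, ℝ)) (z : ℍ), jj (g * h) z = jj g (h • z) * jj h z) ∧
  (∀ (g : SL(2, ℝ)) (z : ℍ), (g • z).im = z.im / ‖jj g z‖ ^ 2) ∧ (∀ g : SL(2, ℝ), Continuous fun z : ℍ => jj g z) ∧
  (∀ (g : SL(2, ℝ)) (z : ℍ), jj (-g) z = - jj g z) ∧ (∀ (g : SL(2, ℝ)) (z : ℍ), (-g) • z = g • z) ∧ ∀ z : ℍ, jj 1 z = 1

/-- PHA (EASY; uses StJJ).  (1) `f (γ g z) = jj γ (g z)^(2m) f (g z)` and the cocycle rule.  (2) `u = (‖jj h z‖² / jj h z²)^m`: `phi m f z (g h) = f(g h z) / (jj g (h z) jj h z)^(2m) y^m` and `(h z).im = y/‖jj h z‖²`.  (3) `‖phi m f z g‖ = ‖f (g z)‖ y^m / ‖jj g z‖^(2m)`.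
(4) from (1) and (3). (5) `phi m f z 1 = f z y^m`. -/
def StPHA : Prop := (∀ (Γ : Subgroup SL(2, ℝ)) (m : ℕ) (f : ℍ → ℂ), Form Γ m f → ∀ γ ∈ Γ, ∀ (z : ℍ) (g : SL(2, ℝ)), phi m f z (γ * g) = phi m f z g) ∧
  (∀ (m : ℕ) (h : SL(2, ℝ)) (z : ℍ), ∃ u : ℂ, ‖u‖ = 1 ∧ ∀ (f : ℍ → ℂ) (g : SL(2, ℝ)), phi m f z (g * h) = u * phi m f (h • z) g) ∧
  (∀ (m : ℕ) (f : ℍ → ℂ) (z : ℍ) (g : SL(2, ℝ)), ‖phi m f z g‖ = FF m f (g • z)) ∧
  (∀ (Γ : Subgroup SL(2, ℝ)) (m : ℕ) (f : ℍ → ℂ), Form Γ m f → ∀ γ ∈ Γ, ∀ z : ℍ, FF m f (γ • z) = FF m f z) ∧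
  ∀ (m : ℕ) (f : ℍ → ℂ) (z : ℍ), phi m f z 1 = f z * ((z.im : ℝ) : ℂ) ^ m

/-- PHB (EASY; uses StJJ).  (1) `Eigen` at the point `g z`, divided by `jj g z^(2m)`, cocycle rule, times `y^m`.  (2) (3) continuity (`Form` gives `MDifferentiable`, so `f` is continuous), (4) linearity. -/
def StPHB : Prop := (∀ (R : Finset SL(2, ℝ)) (m : ℕ) (f : ℍ → ℂ) (l : ℂ), Eigen R m f l → ∀ (z : ℍ) (g : SL(2, ℝ)), ∑ β ∈ R, phi m f z (β * g) = l * phi m f z g) ∧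
  (∀ (m : ℕ) (f : ℍ → ℂ), Continuous f → ∀ g : SL(2, ℝ), Continuous fun z : ℍ => phi m f z g) ∧
  (∀ (Γ : Subgroup SL(2, ℝ)) (m : ℕ) (f : ℍ → ℂ), Form Γ m f → Continuous f ∧ Continuous (FF m f)) ∧
  ∀ (m : ℕ) (ι : Type) (s : Finset ι) (c : ι → ℂ) (f : ι → ℍ → ℂ) (z : ℍ) (g : SL(2, ℝ)),
    phi m (fun u => ∑ i ∈ s, c i * f i u) z g = ∑ i ∈ s, c i * phi m (f i) z g

open Classical in
/-- WRD (MEDIUM; no hypotheses).  (1) induction on `n` from the definition of `words` (`IsChain` on a cons is the condition on the head and `IsChain` on the tail).  (2) the map `(β, a) ↦ β :: a` is injective, so the sum over the image is the sum over the filtered product.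
(3) `α⁻¹ ∈ E`, so `α⁻¹ * β⁻¹ ∈ Γ` for some `β ∈ R`, i.e. `β * α ∈ Γ`; two such `β, β'` satisfy `β * β'⁻¹ = (β α)(β' α)⁻¹ ∈ Γ`.  (4) lists.  (5) letters are in `E`.  (6) from (2) and (3): every word of length `n ≥ 1` has `card R - 1` extensions, the empty word `card R`. -/
def StWRD : Prop := ∀ S : Setup,
  (∀ (n : ℕ) (a : List SL(2, ℝ)), a ∈ words S.Γ S.R n ↔ a.length = n ∧ IsWord S.Γ S.R a) ∧
  (∀ (n : ℕ) (h : List SL(2, ℝ) → ℂ), ∑ a ∈ words S.Γ S.R (n + 1), h a = ∑ a ∈ words S.Γ S.R n, ∑ β ∈ S.R, if (∀ α ∈ a.head?, β * α ∉ S.Γ) then h (β :: a) else 0) ∧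
  (∀ α ∈ S.R, ∃ β ∈ S.R, β * α ∈ S.Γ ∧ ∀ β' ∈ S.R, β' * α ∈ S.Γ → β' = β) ∧
  (∀ (β : SL(2, ℝ)) (a : List SL(2, ℝ)) (i : ℕ), i ≤ a.length → vtx (β :: a) i = vtx a i) ∧
  (∀ a : List SL(2, ℝ), vtx a a.length = a.prod ∧ vtx a 0 = 1) ∧
  (∀ (n : ℕ), ∀ a ∈ words S.Γ S.R n, Walk S.Γ S.E n a.prod) ∧
  ∀ n : ℕ, (words S.Γ S.R (n + 1)).card = S.R.card * (S.R.card - 1) ^ n

open Classical in
/-- EXT (EASY; uses StPHA, StPHB, StWRD).  Extension of a path at the far end.  Proof: the sum over all `β ∈ R` is `l * phi m f z (α * g)` (PHB (1)); there is exactly one `β ∈ R` with `β * α ∈ Γ` (WRD (3)) and for it `phi m f z (β * (α * g)) = phi m f z ((β * α) * g) = phi m f z g` (PHA (1)). -/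
def StEXT : Prop := ∀ (S : Setup) (m : ℕ) (f : ℍ → ℂ) (l : ℂ), Form S.Γ m f → Eigen S.R m f l → ∀ α ∈ S.R, ∀ (z : ℍ) (g : SL(2, ℝ)),
  ∑ β ∈ S.R, (if β * α ∈ S.Γ then 0 else phi m f z (β * (α * g))) = l * phi m f z (α * g) - phi m f z g

/-- REC (MEDIUM; uses StWRD, StEXT, StPHB).  Recursion in the length of the paths.  Proof: pointwise in `z`: by WRD (2) and EXT, for `a = α :: a'` of length `L`, `Σ_{β ext} conj phi(β a.prod) = l conj phi(a.prod) - conj phi(a'.prod)` (`l` real), and `vtx (β :: a) i = vtx a i` (`i ≤ L`).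
`Σ_{a ∈ words L} y(vtx a i z) conj phi(a'.prod)`, `a = α :: a'`: `vtx a i = vtx a' i` as `i ≤ L - 1`, and the number of `α ∈ R` which extend `a'` is `card R - 1` (`a'` is not empty as `L ≥ 2`, WRD (3)).  All integrands are continuous with compact support, so the integral is linear. -/
def StREC : Prop := ∀ (S : Setup) (W : Weight S.Γ) (m : ℕ) (f : ℍ → ℂ) (l : ℝ) (y : ℍ → ℝ), Form S.Γ m f → Eigen S.R m f (l : ℂ) → Test S.Γ y → ∀ L i : ℕ, 2 ≤ L → i + 1 ≤ L →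
  NN S W m f y (L + 1) i = l * NN S W m f y L i - ((S.R.card : ℂ) - 1) * NN S W m f y (L - 1) i

/-- REV (MEDIUM; no hypotheses).  The reversed path.  Proof: `a = [α_L, …, α_1]`, `u_j = vtx a (L - j) * x⁻¹` (`0 ≤ j ≤ L`), `x = γ₀ * a.prod`; `u_0 = γ₀⁻¹ ∈ Γ`, `u_(j+1) = α_(L-j)⁻¹ u_j`.  Construct letters `β_1, …, β_L ∈ R` and `γ_j ∈ Γ` with `u_j = γ_j * (β_j ⋯ β_1)` by recursion: `γ_0 = u_0`;
`α_(L-j)⁻¹ * γ_j ∈ E` (`E` is stable under inverse and left multiplication by `Γ`, hence under right multiplication), so `α_(L-j)⁻¹ * γ_j = γ_(j+1) * β_(j+1)` with `β_(j+1) ∈ R` (`R_rep`).  `b = [β_L, …, β_1]`; `β_(j+1) β_j = w_(j+1) w_(j-1)⁻¹` with `w_j = β_j ⋯ β_1 = γ_j⁻¹ u_j`, and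
`u_(j+1) u_(j-1)⁻¹ = α_(L-j)⁻¹ α_(L-j+1)⁻¹ = (α_(L-j+1) α_(L-j))⁻¹ ∉ Γ`, so `β_(j+1) β_j ∉ Γ`.  (Or by induction on `a`.) -/
def StREV : Prop := ∀ (S : Setup) (a : List SL(2, ℝ)), IsWord S.Γ S.R a → ∀ γ₀ ∈ S.Γ, ∃ b : List SL(2, ℝ), IsWord S.Γ S.R b ∧ b.length = a.length ∧
  ∀ i ≤ a.length, ∃ γ ∈ S.Γ, vtx b (a.length - i) = γ * (vtx a i * (γ₀ * a.prod)⁻¹)

/-- MTP (MEDIUM; uses StVOL).  Mass transport.  Proof: let `K = tsupport w`, `F = {x ∈ P : x K ∩ K ≠ ∅}` (finite).  For `z ∈ K`, `Σ_{v ∈ V} h(z,v) = Σ_{v ∈ V} h(z,v) Σ_{γ ∈ Γ} w(γ v z) = Σ_{x ∈ F} w(x z) h(z,x)`: every `x ∈ P` is `γ v` for exactly one pair, `h(z, γ v) = h(z, v)`, and `w(x z) ≠ 0` with `z ∈ K` implies `x ∈ F`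
(the sum over `Γ` is a finite sum, `Weight.fin`).  So the left side is `Σ_{x ∈ F} ∫ w(z) w(x z) h(z,x)`.  The function `h'(z,x) = h(x z, x⁻¹)` has the same invariance, so the right side is `Σ_{x ∈ F} ∫ w(z) w(x z) h(x z, x⁻¹) dz`; substitute `z = x⁻¹ z'` (VOL) and `x → x⁻¹` (`F⁻¹ = F`).
All integrands are continuous with compact support. -/
def StMTP : Prop := ∀ (Γ : Subgroup SL(2, ℝ)) (W : Weight Γ) (P : Set SL(2, ℝ)) (V : Finset SL(2, ℝ)), (∀ x ∈ P, ∀ γ ∈ Γ, γ * x ∈ P) → (∀ x ∈ P, x⁻¹ ∈ P) → Reps Γ P V →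
  (∀ K : Set ℍ, IsCompact K → {x : SL(2, ℝ) | x ∈ P ∧ ∃ z ∈ K, x • z ∈ K}.Finite) → ∀ h : ℍ → SL(2, ℝ) → ℂ, (∀ x ∈ P, Continuous fun z => h z x) →
  (∀ x ∈ P, ∀ γ ∈ Γ, ∀ z, h z (γ * x) = h z x) → (∀ x ∈ P, ∀ γ ∈ Γ, ∀ z, h (γ • z) (x * γ⁻¹) = h z x) →
  ∫ z : ℍ, (W.w z : ℂ) * ∑ v ∈ V, h z v = ∫ z : ℍ, (W.w z : ℂ) * ∑ v ∈ V, h (v • z) v⁻¹

/-- SYM (MEDIUM-HARD; uses StMTP, StREV, StWRD, StPHA, StPHB).  Reversal symmetry.  Proof: `P = {γ * a.prod : γ ∈ Γ, a ∈ words L}`, `V = {a.prod : a ∈ words L}` (representatives by `S.inj`); for `x ∈ P` let `a(x)` be its word (unique by `S.inj`), `h(z,x) = y(vtx (a x) i z) phi_z(1) conj phi_z(x)`.  `P⁻¹ = P` by REV.  Left invariance: `a(γ x) = a(x)`, PHA (1).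
Invariance `h(γ z, x γ⁻¹) = h(z, x)`: REV applied twice gives `vtx (a (x γ⁻¹)) i ∈ Γ * (vtx (a x) i) * γ⁻¹`, and `phi_z(1) = u phi_(γz)(γ⁻¹) = u phi_(γz)(1)`, `phi_z(x) = u phi_(γz)(x γ⁻¹)`, `|u| = 1` (PHA).  Finiteness: `P ⊆ Walk (L+1)`, `S.fin`.  So MTP gives `NN L i = ∫ w Σ_v h(v z, v⁻¹)`, and
`h(v z, v⁻¹) = conj (y(vtx (a v) (L - i) z)...)`: precisely for `b = a(v⁻¹)`: `vtx b i ∈ Γ * vtx (a v) (L - i) * v⁻¹` (REV), so `y(vtx b i • (v z)) = y(vtx (a v) (L-i) z)`; `phi_(vz)(1) conj phi_(vz)(v⁻¹)`: `phi_z(v) = u phi_(vz)(1)`, `phi_z(1) = u phi_(vz)(v⁻¹)`, so it is `phi_z(v) conj phi_z(1)`. -/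
def StSYM : Prop := ∀ (S : Setup) (W : Weight S.Γ) (m : ℕ) (f : ℍ → ℂ) (y : ℍ → ℝ), Form S.Γ m f → Test S.Γ y → ∀ L i : ℕ, i ≤ L → NN S W m f y L i = conj (NN S W m f y L (L - i))

/-- RED (EASY; uses StSYM, StWRD, StPHA, StPHB).  The eigenvalue is real.  Proof: with `y = 1`: `NN 1 0 = ∫ w phi_z(1) conj (Σ_β phi_z(β)) = conj l ∫ w ‖phi_z(1)‖² = conj l`, `NN 1 1` is the same integral, and SYM gives `NN 1 0 = conj (NN 1 1)`. -/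
def StRED : Prop := ∀ (S : Setup) (W : Weight S.Γ) (m : ℕ) (f : ℍ → ℂ) (l : ℂ), Form S.Γ m f → Eigen S.R m f l → ∫ z : ℍ, W.w z * FF m f z ^ 2 = 1 → l.im = 0

/-- BAS (MEDIUM; uses StWRD, StEXT, StSYM, StPHA, StPHB).  The first case of the identity.  Write `Q y = ∫ w y FF²`, `d = card R`.  Proof: words of length 1 are `[α]`, of length 2 `[β, α]` with `β α ∉ Γ`.  `NN 1 0 = ∫ w y(z) phi(1) conj Σ_α phi(α) = l Q y` (`l` real, `|phi_z(1)|² = FF²`), so by SYM `NN 1 1 = conj (NN 1 0) = l Q y`.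
EXT with `g = 1`: `Σ_{β ext α} phi(β α) = l phi(α) - phi(1)`.  `NN 2 0 = ∫ w y(z) phi(1) conj Σ_α (l phi(α) - phi(1)) = (l² - d) Q y`; `NN 2 1 = ∫ w Σ_α y(α z) phi(1) conj (l phi(α) - phi(1)) = l NN 1 1 - ∫ w (Tf y) FF² = l² Q y - Q (Tf y)`.  Subtract. -/
def StBAS : Prop := ∀ (S : Setup) (W : Weight S.Γ) (m : ℕ) (f : ℍ → ℂ) (l : ℝ) (y : ℍ → ℝ), Form S.Γ m f → Eigen S.R m f (l : ℂ) → Test S.Γ y →
  (NN S W m f y 2 1).re - (NN S W m f y 2 0).re = ∫ z : ℍ, W.w z * (((S.R.card : ℝ) * y z - Tf S.R y z) * FF m f z ^ 2)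

/-- IDN (EASY; uses StREC, StSYM, StBAS): THE EXACT IDENTITY.  Proof: `r(L,i) = Re NN L i`, `δ = r(2n,n) - r(2n,n-1)`.  Induction on `n`, `n = 1` is BAS.  For `n ≥ 2`, REC with `L = 2n - 1`, `i = n` and `i = n - 1`: `r(2n,n) = l r(2n-1,n) - q r(2n-2,n)`, `r(2n,n-1) = l r(2n-1,n-1) - q r(2n-2,n-1)`; by SYM `r(2n-1,n) = r(2n-1,n-1)` and
`r(2n-2,n) = r(2n-2,n-2)`; so `δ_n = q (r(2n-2,n-1) - r(2n-2,n-2)) = q δ_(n-1)`. -/
def StIDN : Prop := ∀ (S : Setup) (W : Weight S.Γ) (m : ℕ) (f : ℍ → ℂ) (l : ℝ) (y : ℍ → ℝ), Form S.Γ m f → Eigen S.R m f (l : ℂ) → Test S.Γ y → ∀ n : ℕ, 1 ≤ n →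
  (NN S W m f y (2 * n) n).re - (NN S W m f y (2 * n) (n - 1)).re = ((S.R.card : ℝ) - 1) ^ (n - 1) * ∫ z : ℍ, W.w z * (((S.R.card : ℝ) * y z - Tf S.R y z) * FF m f z ^ 2)

/-- TFI (EASY-MEDIUM; uses StMTP).  (1) `Tf y` is a test function: continuity is clear; `Σ_β y(β γ z)`: `β γ ∈ E` (`E` is stable under inverse and left multiplication by `Γ`), `β γ = γ' β'` with `β' ∈ R`, and `β ↦ β'` is injective on `R` (if `β γ = γ' β'`, `β₁ γ = γ₁ β'` then `β β₁⁻¹ ∈ Γ`), so a bijection of `R`.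
(2) MTP with `P = E`, `V = R`, `h(z,x) = y(x z)` (real part): `∫ w Σ y(β z) = ∫ w Σ y(z) = d ∫ w y`; finiteness: `E ⊆ Walk 1`. -/
def StTFI : Prop := ∀ (S : Setup) (W : Weight S.Γ) (y : ℍ → ℝ), Test S.Γ y → Test S.Γ (Tf S.R y) ∧ ∫ z : ℍ, W.w z * Tf S.R y z = (S.R.card : ℝ) * ∫ z : ℍ, W.w z * y z

/-! ## C. The trace bound -/

/-- SMV (MEDIUM-HARD; no hypotheses).  Submean value inequality.  Proof (constant 21): `s = 1/(4 √m)`, `D = {u : |u - z| < s y}` (Euclidean, `y = im z`); for `u ∈ D`: `cosh (dist u z) = 1 + |u-z|²/(2 y im u) ≤ 1 + (2/3) s²` (Mathlib `UpperHalfPlane.cosh_dist`), so `dist u z < 2 s ≤ r` (`cosh t ≥ 1 + t²/2`), `D ⊆ ball z r`.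
`h(u) = ((u - conj z)/(2 i y))^(2m) f(u)` is holomorphic, `h(z) = f(z)`.  `|u - conj z|² = |u - z|² + 4 y im u` gives `FF(u)² = (im u)^(2m) |f(u)|² = |h(u)|² y^(2m) (1 - |u-z|²/|u - conj z|²)^(2m) ≥ |h(u)|² y^(2m) (1 - 2m s²/3) ≥ (1/2) |h(u)|² y^(2m)` (`|u - conj z| ≥ (2-s) y`, Bernoulli).
Mean value: `|h(z)|² ≤ (1/(π s² y²)) ∫_D |h|² dx dy` (circle averages of the holomorphic function `h²`: `Complex.circleIntegral...` / `DiffContOnCl` / `Real.circleAverage`; integrate over the radii with `Complex.integral_comp_polarCoord_symm`).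
`volume` on `ℍ` is `dx dy / y²` (`UpperHalfPlane.volume_def`), so `dx dy ≤ 2 y² dμ` on `D`. -/
def StSMV : Prop := ∃ C : ℝ, 0 < C ∧ ∀ (m : ℕ) (f : ℍ → ℂ), 1 ≤ m → MDifferentiable 𝓘(ℂ) 𝓘(ℂ) f → ∀ (z : ℍ) (r : ℝ), 0 < r → r ≤ 1 → 1 ≤ m * r ^ 2 →
  FF m f z ^ 2 ≤ C * m * ∫ u in Metric.ball z r, FF m f u ^ 2

/-- PCK (MEDIUM; uses StVOL, StPHA, StPHB).  Packing.  Proof: for `a ∈ V`, `B = ball (a.prod z) r`: `∫_B FF² = ∫ 1_B(u) FF(u)² Σ_γ w(γ u) du`; the sum over `Γ` is a finite sum uniformly on the compact closure of `B` (`Weight.fin`), exchange, substitute `u → γ⁻¹ u` (VOL, `FF` invariant), `γ → γ⁻¹`: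
`= ∫ w(u) FF(u)² #{γ ∈ Γ : γ u ∈ B} du` (write it as a finite sum over the `γ` with `γ⁻¹`-translates of `B` meeting the support of `w`).  Sum over `a ∈ V` and use the hypothesis. -/
def StPCK : Prop := ∀ (Γ : Subgroup SL(2, ℝ)) (W : Weight Γ) (m : ℕ) (f : ℍ → ℂ), Form Γ m f → ∀ (V : Finset (List SL(2, ℝ))) (z : ℍ) (r : ℝ) (M : ℕ),
  (∀ u : ℍ, W.w u ≠ 0 → {p : SL(2, ℝ) × List SL(2, ℝ) | p.1 ∈ Γ ∧ p.2 ∈ V ∧ dist (p.1 • u) (p.2.prod • z) < r}.encard ≤ M) →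
  ∑ a ∈ V, ∫ u in Metric.ball (a.prod • z) r, FF m f u ^ 2 ≤ M * ∫ u : ℍ, W.w u * FF m f u ^ 2

/-- BND (EASY-MEDIUM; no hypotheses).  Uniform bound for the multiplicities.  Proof: `K₁` = closed 1-neighbourhood of `K ∪ ⋃_(a ∈ V) a.prod K` (compact, `ℍ` is a proper space).  If `u, z ∈ K` and `dist (γ u) (a.prod z) < 1` then `u ∈ K₁` and `γ u ∈ K₁`, so `γ` belongs to the finite set `{x : Walk 1 x ∧ ∃ z ∈ K₁, x z ∈ K₁}` (`S.fin`); `M` = its cardinality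
times the cardinality of `V`. -/
def StBND : Prop := ∀ (S : Setup) (V : Finset (List SL(2, ℝ))) (K : Set ℍ), IsCompact K → ∃ M : ℕ, ∀ z ∈ K, ∀ u ∈ K, ∀ r ≤ (1 : ℝ),
  {p : SL(2, ℝ) × List SL(2, ℝ) | p.1 ∈ S.Γ ∧ p.2 ∈ V ∧ dist (p.1 • u) (p.2.prod • z) < r}.encard ≤ M

/-- BAD (MEDIUM; no hypotheses).  Outside a small set the translates are separated.  Proof: `F` = finite set of all `δ ≠ ±1` with `Walk N δ` (`N` large, products `(a'.prod)⁻¹ * γ * a.prod`, `a, a' ∈ V`, are in `Walk N`: inverses of elements of `E ∪ Γ` are in `E ∪ Γ`, pad with `1 ∈ Γ`) which move some point of `K₁` into `K₁`, `K₁` = closed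
2-neighbourhood of `K`.  `A_r = {z ∈ K : ∃ δ ∈ F, dist (δ z) z ≤ 2r}`, closed and decreasing to `{z ∈ K : ∃ δ ∈ F, δ z = z}`, a finite set (`δ ≠ ±1` in `SL(2,ℝ)` fixes at most one point of `ℍ`: `c z² + (d-a) z - b = 0`), of volume `0` (`volume` has no atoms), so `volume A_r → 0`
(`tendsto_measure_iInter_atTop`, `A_r ⊆ K` has finite volume).  If `z ∈ K \ A_r` and `(γ, a), (γ', a')` are in the set for `u` then `dist (γ u) (a.prod z) < r` and `dist (γ' u) (a'.prod z) < r` give, with `δ = (a'.prod)⁻¹ γ' γ⁻¹ a.prod`, `dist (δ z) z < 2r`, so `δ = ±1` (`z, δ z ∈ K₁`),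
`γ' γ⁻¹ a.prod = ± a'.prod`, so `a.prod * a'.prod⁻¹ ∈ Γ` (`-1 ∈ Γ`), `a = a'`, `γ' = ± γ`: at most two pairs. -/
def StBAD : Prop := ∀ (S : Setup) (V : Finset (List SL(2, ℝ))), (∀ a ∈ V, ∃ n, Walk S.Γ S.E n a.prod) → (∀ a ∈ V, ∀ b ∈ V, a.prod * b.prod⁻¹ ∈ S.Γ → a = b) →
  ∀ K : Set ℍ, IsCompact K → ∀ ε > (0 : ℝ), ∃ r : ℝ, 0 < r ∧ r ≤ 1 ∧ ∃ A : Set ℍ, IsClosed A ∧ A ⊆ K ∧ volume A ≤ ENNReal.ofReal ε ∧
    ∀ z ∈ K, z ∉ A → ∀ u : ℍ, {p : SL(2, ℝ) × List SL(2, ℝ) | p.1 ∈ S.Γ ∧ p.2 ∈ V ∧ dist (p.1 • u) (p.2.prod • z) < r}.encard ≤ 2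

/-- LIN (EASY; no hypotheses): forms are closed under linear combinations, products and multiplication by `1`-dimensional data.  (1) finite linear combinations; (2) products: weights add. -/
def StLIN : Prop := ∀ (Γ : Subgroup SL(2, ℝ)), (∀ (m : ℕ) (ι : Type) (s : Finset ι) (c : ι → ℂ) (f : ι → ℍ → ℂ), (∀ i ∈ s, Form Γ m (f i)) → Form Γ m (fun z => ∑ i ∈ s, c i * f i z)) ∧
  (∀ (m n : ℕ) (f g : ℍ → ℂ), Form Γ m f → Form Γ n g → Form Γ (m + n) (fun z => f z * g z)) ∧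
  ∀ (m n : ℕ) (f : ℍ → ℂ), Form Γ m f → Form Γ (n * m) (fun z => f z ^ n)

/-- BES (EASY-MEDIUM; uses StLIN, StPHB).  Duality.  Proof: `ℓ(g) = Σ_a c_a phi m g z a.prod` is linear in `g`.  `g = Σ_i conj(ℓ(f_i)) f_i` is a form (LIN), `ℓ(g) = Σ_i ‖ℓ(f_i)‖² =: s` and `∫ w FF(g)² = s` by orthonormality (`FF m g z ^ 2 = g z * conj (g z) * (im z)^(2m)`; expand the double sum; continuous integrands with compact support).  So `s² ≤ C s`, `s ≤ C`. -/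
def StBES : Prop := ∀ (Γ : Subgroup SL(2, ℝ)) (W : Weight Γ) (m : ℕ) (V : Finset (List SL(2, ℝ))) (c : List SL(2, ℝ) → ℂ) (z : ℍ) (C : ℝ), 0 ≤ C →
  (∀ g : ℍ → ℂ, Form Γ m g → ‖∑ a ∈ V, c a * phi m g z a.prod‖ ^ 2 ≤ C * ∫ u : ℍ, W.w u * FF m g u ^ 2) →
  ∀ (ι : Type) [Fintype ι] (f : ι → ℍ → ℂ), Ortho Γ W m f → ∑ i, ‖∑ a ∈ V, c a * phi m (f i) z a.prod‖ ^ 2 ≤ C

/-- PTW (EASY-MEDIUM; uses StSMV, StPCK, StBES, StPHA, StPHB).  Pointwise bound for the sum over an orthonormal family.  `C` = constant of SMV.  Proof: for a form `g`: `|Σ_a κ_a phi(g)(a.prod)|² ≤ (Σ κ_a²) Σ_a FF(g)(a.prod z)²` (Cauchy-Schwarz, PHA (3)) `≤ (Σ κ_a²) C m Σ_a ∫_(ball (a.prod z) r) FF(g)² ≤ (Σ κ_a²) C m M ∫ w FF(g)²`; then BES. -/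
def StPTW : Prop := ∃ C : ℝ, 0 < C ∧ ∀ (Γ : Subgroup SL(2, ℝ)) (W : Weight Γ) (V : Finset (List SL(2, ℝ))) (κ : List SL(2, ℝ) → ℝ) (z : ℍ) (r : ℝ) (M m : ℕ), 1 ≤ m → 0 < r → r ≤ 1 → 1 ≤ m * r ^ 2 →
  (∀ u : ℍ, W.w u ≠ 0 → {p : SL(2, ℝ) × List SL(2, ℝ) | p.1 ∈ Γ ∧ p.2 ∈ V ∧ dist (p.1 • u) (p.2.prod • z) < r}.encard ≤ M) →
  ∀ (ι : Type) [Fintype ι] (f : ι → ℍ → ℂ), Ortho Γ W m f → ∑ i, ‖∑ a ∈ V, (κ a : ℂ) * phi m (f i) z a.prod‖ ^ 2 ≤ C * m * M * ∑ a ∈ V, κ a ^ 2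

/-- TRC (MEDIUM; uses StPTW, StBAD, StBND, StPHB): THE TRACE BOUND.  Proof (constant `2 C`, `C` from PTW): `K = tsupport w`, `M₁` from BND for `K` and `V`, `B = sup w`, `M₂ = Σ_a M_a²`; `r, A` from BAD with `ε = η/(C M₁ M₂ B + 1)`; `m ≥ r⁻²`.  For `z ∈ K \ A` PTW with `M = 2`, for `z ∈ A` PTW with `M = M₁`; integrate
`w Σ_i ‖...‖² ≤ w (2 C m M₂ + 1_A C m M₁ M₂)`: `≤ 2 C m M₂ ∫ w + C m M₁ M₂ B volume(A)`.  (`BAD` and `BND` give the multiplicity bound for all `u` with `w u ≠ 0`, as then `u ∈ K`.) -/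
def StTRC : Prop := ∃ C : ℝ, 0 < C ∧ ∀ (S : Setup) (W : Weight S.Γ) (V : Finset (List SL(2, ℝ))), (∀ a ∈ V, ∃ n, Walk S.Γ S.E n a.prod) →
  (∀ a ∈ V, ∀ b ∈ V, a.prod * b.prod⁻¹ ∈ S.Γ → a = b) → ∀ (κ : List SL(2, ℝ) → ℍ → ℝ) (M : List SL(2, ℝ) → ℝ), (∀ a ∈ V, Continuous (κ a)) → (∀ a ∈ V, ∀ z, |κ a z| ≤ M a) →
  ∀ η > (0 : ℝ), ∃ m₀ : ℕ, ∀ m ≥ m₀, ∀ (ι : Type) [Fintype ι] (f : ι → ℍ → ℂ), Ortho S.Γ W m f →
    ∑ i, ∫ z : ℍ, W.w z * ‖∑ a ∈ V, (κ a z : ℂ) * phi m (f i) z a.prod‖ ^ 2 ≤ (C * (∫ z : ℍ, W.w z) * ∑ a ∈ V, M a ^ 2 + η) * m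

/-- CSI (EASY-MEDIUM; uses StIDN, StWRD, StPHA, StPHB, StRED).  From the exact identity to an inequality.  For `1 ≤ N` let `V = ⋃_(n=1..N) words (2n)` and `κ_a(z) = (1/N) q^(1-n) (y(vtx a n z) - y(vtx a (n-1) z))`, `n = a.length / 2`, `q = card R - 1`.  Averaging IDN over `n = 1..N` (`l` is real by RED):
`∫ w (d y - Tf y) FF² = Re ∫ w phi_z(1) conj (Σ_(a ∈ V) κ_a(z) phi_z(a.prod))` (the words of different lengths are different lists), so by Cauchy-Schwarz for integrals and `∫ w ‖phi_z(1)‖² = 1` its square is at most `∫ w ‖Σ κ_a phi_z(a.prod)‖²`. -/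
def StCSI : Prop := ∀ (S : Setup) (W : Weight S.Γ) (y : ℍ → ℝ), Test S.Γ y → ∀ N : ℕ, 1 ≤ N → ∀ (m : ℕ) (f : ℍ → ℂ) (l : ℂ), Form S.Γ m f → Eigen S.R m f l → ∫ z : ℍ, W.w z * FF m f z ^ 2 = 1 →
  (∫ z : ℍ, W.w z * (((S.R.card : ℝ) * y z - Tf S.R y z) * FF m f z ^ 2)) ^ 2 ≤
    ∫ z : ℍ, W.w z * ‖∑ a ∈ (Finset.Icc 1 N).biUnion (fun n => words S.Γ S.R (2 * n)),
      (((1 / (N : ℝ)) * ((S.R.card : ℝ) - 1) / ((S.R.card : ℝ) - 1) ^ (a.length / 2) * (y (vtx a (a.length / 2) • z) - y (vtx a (a.length / 2 - 1) • z)) : ℝ) : ℂ) * phi m f z a.prod‖ ^ 2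

/-- VAR (MEDIUM; uses StCSI, StTRC, StWRD): THE VARIANCE BOUND.  Proof: TRC for `V = ⋃_(n=1..N) words (2n)` (`S.inj` and WRD give the hypotheses), `κ` as in CSI, `M_a = (1/N) q^(1-n) 2B` for `a` of length `2n`; `card (words (2n)) = d q^(2n-1)` (WRD (6)), so
`Σ_a M_a² = (4B²/N²) Σ_(n=1..N) q^(2-2n) d q^(2n-1) = 4 B² d q/N`.  Constant `C' = 4 C d q ∫ w`. -/
def StVAR : Prop := ∀ (S : Setup) (W : Weight S.Γ), ∃ C : ℝ, 0 < C ∧ ∀ (y : ℍ → ℝ) (B : ℝ), Test S.Γ y → (∀ z, |y z| ≤ B) → ∀ N : ℕ, 1 ≤ N → ∀ η > (0 : ℝ), ∃ m₀ : ℕ, ∀ m ≥ m₀,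
  ∀ (ι : Type) [Fintype ι] (f : ι → ℍ → ℂ), Ortho S.Γ W m f → (∀ i, ∃ l : ℂ, Eigen S.R m (f i) l) →
    ∑ i, (∫ z : ℍ, W.w z * (((S.R.card : ℝ) * y z - Tf S.R y z) * FF m (f i) z ^ 2)) ^ 2 ≤ (C * B ^ 2 / N + η) * m

/-! ## D. Soft ergodicity -/

/-- UNI (MEDIUM; no hypotheses).  Uniform density of even walks.  Proof: let `E ≠ ∅` (`card R ≥ 3`), `e ∈ E`.  An even list can be lengthened by 2 without changing the product (append `e, e⁻¹`).  For `(z, w) ∈ K × K` `S.dense` gives an even list `l` with `dist (l.prod z) w < ε/2`, an open condition in `(z, w)`; by compactness of `K × K` finitely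
many lists suffice, lengthen them to a common length `2L ≥ 2`.  General `z, w`: `z = γ₁ z₁`, `w = γ₂ w₁` with `z₁, w₁ ∈ K`; for the list `l = l' ++ [e]` of `(z₁, w₁)` use `l' ++ [e * γ₁⁻¹]` (`E` is stable under right multiplication by `Γ`): its product moves `z` to `l.prod z₁`; `γ = γ₂` . -/
def StUNI : Prop := ∀ (S : Setup) (ε : ℝ), 0 < ε → ∃ L : ℕ, ∀ z w : ℍ, ∃ l : List SL(2, ℝ), l.length = 2 * L ∧ (∀ e ∈ l, e ∈ S.E) ∧ ∃ γ ∈ S.Γ, dist (γ • (l.prod • z)) w < ε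

/-- WLK (EASY; uses nothing but `Tf` of a test function being a test function, StTFI).  Iterates of the Hecke operator are sums over all walks.  Proof: induction on `l`: for `l = e :: l'`, `l.prod z = e (l'.prod z)`; `Tf^[n+1] y = Tf^[n] (Tf y)` and `Tf y ≤ d M`; by induction `Tf^[n] (Tf y) z ≤ (d^n - 1) d M + Tf y (l'.prod z)` and
`Tf y (u) ≤ (d - 1) M + y(e u)` because `y(e u) = y(α u)` for the representative `α ∈ R` of `e`.  Total `(d^(n+1) - 1) M + y(l.prod z)`. -/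
def StWLK : Prop := ∀ (S : Setup) (y : ℍ → ℝ), Test S.Γ y → ∀ M : ℝ, (∀ z, y z ≤ M) → ∀ l : List SL(2, ℝ), (∀ e ∈ l, e ∈ S.E) → ∀ z : ℍ,
  ((Tf S.R)^[l.length] y) z ≤ (((S.R.card : ℝ)) ^ l.length - 1) * M + y (l.prod • z)

/-- MOD (EASY-MEDIUM; uses StTFI).  Bounds and moduli of continuity.  (1) a test function is bounded (continuous on the compact `K`, invariant).  (2) uniform continuity: `K₁` = closed 1-neighbourhood of `K` is compact, `y` is uniformly continuous on it; move the first point into `K`.  (3) `Tf^[n]` multiplies bounds and moduli by at most `d^n`: `β` acts by isometries. -/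
def StMOD : Prop := ∀ (S : Setup) (y : ℍ → ℝ), Test S.Γ y → (∃ B, ∀ z, |y z| ≤ B) ∧ (∀ n, Test S.Γ ((Tf S.R)^[n] y)) ∧
  (∀ ε > (0 : ℝ), ∃ δ > (0 : ℝ), ∀ (n : ℕ) (z w : ℍ), dist z w < δ → |((Tf S.R)^[n] y) z - ((Tf S.R)^[n] y) w| ≤ ε * (S.R.card : ℝ) ^ n) ∧
  ∀ (B : ℝ) (n : ℕ), (∀ z, |y z| ≤ B) → ∀ z, |((Tf S.R)^[n] y) z| ≤ B * (S.R.card : ℝ) ^ n

/-- ERG (MEDIUM; uses StUNI, StWLK, StMOD, StTFI).  Soft ergodicity.  Proof: `u_n = Tf^[2n] ψ / d^(2n)`; all `u_n` have mean `0` (`∫ w u_n = 0`, TFI), one modulus of continuity and `M_n = sup |u_n|` decreases to `M` (MOD).  Suppose `M > 0`.  Choose `δ` with `|u_n z - u_n w| ≤ M/4` for `dist z w < δ`, `L` from UNI for `δ`, `n` with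
`M_n ≤ M + τ`, `τ = M/(8 d^(2L))`.  Choose `z` with `|u_(n+L)(z)| > M - τ` (as `M_(n+L) ≥ M`), say `u_(n+L)(z) > M - τ` (else replace `ψ` by `-ψ`).  For every `w` take `l, γ` from UNI: WLK for `y = u_n` gives `d^(2L) u_(n+L)(z) ≤ (d^(2L) - 1) M_n + u_n(l.prod z)`, so `u_n(l.prod z) ≥ d^(2L) (M - τ) - (d^(2L) - 1)(M + τ) ≥ M - 2 d^(2L) τ = 3M/4`,
and `u_n(w) ≥ M/2`.  So `∫ w u_n ≥ (M/2) ∫ w > 0`, a contradiction (`∫ w > 0`). -/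
def StERG : Prop := ∀ (S : Setup) (W : Weight S.Γ) (ψ : ℍ → ℝ), Test S.Γ ψ → ∫ z : ℍ, W.w z * ψ z = 0 → ∀ ε > (0 : ℝ), ∃ n : ℕ, ∀ z, |((Tf S.R)^[2 * n] ψ) z| ≤ ε * (S.R.card : ℝ) ^ (2 * n)

/-- COB (EASY; uses StERG, StMOD).  Proof: `n` from ERG, `y = Σ_(j < 2n) d^(-j-1) Tf^[j] ψ`; `d y - Tf y = Σ_j d^(-j) Tf^[j] ψ - Σ_j d^(-j-1) Tf^[j+1] ψ = ψ - d^(-2n) Tf^[2n] ψ` (`Tf` is linear). -/
def StCOB : Prop := ∀ (S : Setup) (W : Weight S.Γ) (ψ : ℍ → ℝ), Test S.Γ ψ → ∫ z : ℍ, W.w z * ψ z = 0 → ∀ ε > (0 : ℝ), ∃ y : ℍ → ℝ, Test S.Γ y ∧ ∀ z, |ψ z - ((S.R.card : ℝ) * y z - Tf S.R y z)| ≤ ε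

/-- QEV (EASY-MEDIUM; uses StVAR, StCOB, StMOD).  Few exceptions.  Proof: `y` from COB with `ε/2`, `B` from MOD; for an exceptional `i`: `|∫ w (d y - Tf y) FF²| > ε/2` as `∫ w FF² = 1`; by VAR the number is at most `(4/ε²) (C B²/N + η) m`; choose `N` large and `η` small. -/
def StQEV : Prop := ∀ (S : Setup) (W : Weight S.Γ) (ψ : ℍ → ℝ), Test S.Γ ψ → ∫ z : ℍ, W.w z * ψ z = 0 → ∀ ε > (0 : ℝ), ∃ m₀ : ℕ, ∀ m ≥ m₀, ∀ (ι : Type) [Fintype ι] (f : ι → ℍ → ℂ), Ortho S.Γ W m f → (∀ i, ∃ l : ℂ, Eigen S.R m (f i) l) →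
  (Set.ncard {i : ι | ε < |∫ z : ℍ, W.w z * (ψ z * FF m (f i) z ^ 2)|} : ℝ) ≤ ε * m

/-! ## E. Arithmetic of the order -/

/-- INT (MEDIUM; no hypotheses).  Reduced trace and norm are integers.  Proof: for `x ∈ O` left multiplication `L_x` on `M₂(ℝ)` has an integer matrix in the basis `Q.basis` (`x b_i ∈ O`), `trace L_x = 2 tr x`, `det L_x = (det x)²` (e.g. `L_x` in the standard basis is two copies of `x`; or compute: the matrix in the standard basis is a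
Kronecker product; or avoid `det L_x`: use the basis change).  So `2 tr x = a ∈ ℤ`, `2 tr (x²) = b ∈ ℤ`, `(det x)² ∈ ℤ` and `2 det x = (tr x)² - tr(x²)`, i.e. `det x = (a² - 2b)/8`.  If `a` is odd, `(a² - 2b)²` is odd and `(det x)² = (a²-2b)²/64` is not an integer.  So `a = 2t`, `det x = (2t² - b)/4`, and `(2t² - b)²/16 ∈ ℤ` forces `4 ∣ 2t² - b`.
`adjugate x = tr x • 1 - x ∈ O`. -/
def StINT : Prop := ∀ (Q : QuatOrder), ∀ x ∈ Q.O, (∃ t : ℤ, x.trace = t) ∧ (∃ n : ℤ, x.det = n) ∧ x.adjugate ∈ Q.O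

/-- GAM (EASY; uses StINT).  Consequences: `Γ` = elements of `O` of determinant one; `-1 ∈ Γ`; `E p` is stable under inverses and under multiplication by `Γ` on both sides.  Proof: the inverse in `SL(2,ℝ)` is the adjugate; `√p • (g⁻¹) = adjugate (√p • g)`. -/
def StGAM : Prop := ∀ (Q : QuatOrder), (∀ g : SL(2, ℝ), (g : Matrix (Fin 2) (Fin 2) ℝ) ∈ Q.O → g ∈ Q.Γ) ∧ (-1 : SL(2, ℝ)) ∈ Q.Γ ∧
  ∀ p : ℕ, (∀ x ∈ Q.E p, x⁻¹ ∈ Q.E p) ∧ (∀ γ ∈ Q.Γ, ∀ x ∈ Q.E p, γ * x ∈ Q.E p) ∧ (∀ γ ∈ Q.Γ, ∀ x ∈ Q.E p, x * γ ∈ Q.E p)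

/-- DSC (EASY-MEDIUM; no hypotheses).  `O` is discrete: finitely many elements with bounded entries.  Proof: the coordinates in the basis `Q.basis` are continuous (linear) functions, so they are bounded integers. -/
def StDSC : Prop := ∀ (Q : QuatOrder) (C : ℝ), {x : Matrix (Fin 2) (Fin 2) ℝ | x ∈ Q.O ∧ ∀ i j, |x i j| ≤ C}.Finite

/-- CLS (MEDIUM; uses StINT, StGAM).  Finitely many classes of elements of given reduced norm.  Proof: if `x, y ∈ O`, `det x = det y = n` and `y = x + n e` with `e ∈ O` then `y = x + e x* x = (1 + e x*) x` (`x* = adjugate x ∈ O`, `x* x = n`), `u = 1 + e x* ∈ O`, `det u = 1`.  The classes modulo `n O` are finitely many: the coordinates in `Q.basis` modulo `n`;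
choose one `v` (with `det v = n`) in every class which contains such an element. -/
def StCLS : Prop := ∀ (Q : QuatOrder) (n : ℤ), n ≠ 0 → ∃ V : Finset (Matrix (Fin 2) (Fin 2) ℝ), (∀ v ∈ V, v ∈ Q.O ∧ v.det = n) ∧
  ∀ x ∈ Q.O, x.det = n → ∃ v ∈ V, ∃ γ ∈ Q.Γ, x = (γ : Matrix (Fin 2) (Fin 2) ℝ) * v

/-- MNK (MEDIUM-HARD; no hypotheses).  Minkowski: for every `g ∈ SL(2,ℝ)` there is `x ∈ O`, `x ≠ 0`, such that the entries of `g⁻¹ x` are at most `C` in absolute value.  Proof: the lattice `g⁻¹ O` has the basis `g⁻¹ b_i`, left multiplication by `g⁻¹` on `M₂(ℝ) = ℝ⁴` has determinant `det(g⁻¹)² = 1`, so all these lattices have the same covolume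
(fundamental domain `ZSpan.fundamentalDomain`, image under a map of determinant one); `exists_ne_zero_mem_lattice_of_measure_mul_two_pow_lt_measure` for the cube of side `2C`.  Alternative: apply Minkowski to the fixed lattice `O` and the convex symmetric set `{x : |entries of g⁻¹ x| < C}`, of volume `(2C)⁴` (linear map of determinant one,
`MeasureTheory.Measure.addHaar_preimage_linearMap`). -/
def StMNK : Prop := ∀ (Q : QuatOrder), ∃ C : ℝ, ∀ g : SL(2, ℝ), ∃ x ∈ Q.O, x ≠ 0 ∧ ∀ i j, |(((g⁻¹ : SL(2, ℝ)) : Matrix (Fin 2) (Fin 2) ℝ) * x) i j| ≤ C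

/-- COC (MEDIUM; uses StMNK, StCLS, StINT).  Cocompactness.  Proof: `C` from MNK.  For `z ∈ ℍ` let `g • I = z` (`UpperHalfPlane.toSL2R`), `x` from MNK, `n = det x ∈ ℤ`, `n ≠ 0`, `|n| = |det (g⁻¹ x)| ≤ 2C²`; `x = γ v`, `v ∈ V_n` (CLS); `b = g⁻¹ γ v`, so `γ⁻¹ g = v b⁻¹` with `b` in the compact set `{b : |b_ij| ≤ C, det b = n}` of invertible matrices.
So `γ⁻¹ z = (v b⁻¹) I` lies in the compact set `⋃_(n, v) {(v b⁻¹) • I}` (continuous image of a compact set in `SL(2,ℝ)`: `v b⁻¹ = v adj(b)/n` depends continuously on `b`; e.g. its entries are bounded by `C'`, and `{g ∈ SL(2,ℝ) : |g_ij| ≤ C'}` is compact). -/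
def StCOC : Prop := ∀ (Q : QuatOrder), ∃ K : Set ℍ, IsCompact K ∧ ∀ z : ℍ, ∃ γ ∈ Q.Γ, γ • z ∈ K

/-- FIW (MEDIUM; uses StDSC).  Discreteness of walks.  Proof: `{x ∈ SL(2,ℝ) : ∃ z ∈ K, x z ∈ K}` is compact (the action is proper, `ProperSMul SL(2, ℝ) ℍ`), so the entries of such `x` are bounded; if `Walk Γ (E p) n x` then `(√p)^j x ∈ O` for some `j ≤ n` (products), and DSC. -/
def StFIW : Prop := ∀ (Q : QuatOrder) (p n : ℕ), 0 < p → ∀ K : Set ℍ, IsCompact K → {x : SL(2, ℝ) | Walk Q.Γ (Q.E p) n x ∧ ∃ z ∈ K, x • z ∈ K}.Finite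

/-- REP (MEDIUM; uses StCLS, StGAM).  Representatives.  Proof: `Quotient (Q.heckeSetoid p)` is finite (CLS with `n = p`: `x ↦ √p x`), `R` = image of `c ↦ (Quotient.out c : SL(2,ℝ))`, injective on classes; the `finsum` in `Q.T` is the sum over `R`. -/
def StREP : Prop := ∀ (Q : QuatOrder) (p : ℕ), p.Prime → ∃ R : Finset SL(2, ℝ), Reps Q.Γ (Q.E p) R ∧ R.card = Q.index p ∧
  ∀ (k : ℕ) (f : ℍ → ℂ) (z : ℍ), Q.T p k f z = ∑ β ∈ R, f (β • z) / jj β z ^ k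

/-- RKO (EASY; no hypotheses): matrices over a field `F`.  (1) if `det B = 0`, `A B ≠ 0`, `B C ≠ 0` (2 × 2 matrices) then `A B C ≠ 0`: `B = u vᵀ`.  (2) if `det X = 0`, `X ≠ 0`, `X = A x = B y` with `det x = det y = 0`, then `y = C x` for some matrix `C`: `X, x, y` have rank one and the same row space
(the row space of `X` is contained in those of `x` and `y`). -/
def StRKO : Prop := ∀ (F : Type) [Field F], (∀ A B C : Matrix (Fin 2) (Fin 2) F, B.det = 0 → A * B ≠ 0 → B * C ≠ 0 → A * B * C ≠ 0) ∧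
  ∀ A B x y X : Matrix (Fin 2) (Fin 2) F, X ≠ 0 → X = A * x → X = B * y → x.det = 0 → y.det = 0 → ∃ C : Matrix (Fin 2) (Fin 2) F, y = C * x

/-- NB1 (MEDIUM; uses StRKO, StINT, StGAM).  Reduced products are not divisible by `p`.  `φ` = reduction.  Proof: for `g ∈ E p`, `x = √p g ∈ O`, `x* x = p`; `φ x ≠ 0` (else `x = p y`, `p = det x = p² det y`, `det y ∈ ℤ`), `φ(x*) ≠ 0` likewise and `φ(x*) φ(x) = 0`, so `det φ(x) = 0`.  Induction on the word `a = [α_L, …, α_1]`, `X_a = (√p)^L a.prod ∈ O`: `φ(X_a) ≠ 0`, and `det φ(X_a) = 0`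
if `L ≥ 1`: `X_a = x_L x_(L-1) X''`; `φ(x_L x_(L-1)) ≠ 0` because `x_L x_(L-1) = p y` would give `y = α_L α_(L-1) ∈ O`, `∈ Γ`; `φ(x_(L-1) X'') ≠ 0` by induction; RKO (1) with `B = φ(x_(L-1))`. -/
def StNB1 : Prop := ∀ (Q : QuatOrder) (p : ℕ), p.Prime → ∀ φ : Q.O →+* Matrix (Fin 2) (Fin 2) (ZMod p), (∀ x : Q.O, φ x = 0 ↔ ∃ y : Q.O, x = (p : Q.O) * y) →
  ∀ a : List SL(2, ℝ), (∀ α ∈ a, α ∈ Q.E p) → a.IsChain (fun β α => β * α ∉ Q.Γ) →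
    ∃ X : Q.O, (X : Matrix (Fin 2) (Fin 2) ℝ) = Real.sqrt p ^ a.length • ((a.prod : SL(2, ℝ)) : Matrix (Fin 2) (Fin 2) ℝ) ∧ φ X ≠ 0 ∧ (a ≠ [] → (φ X).det = 0)

/-- NB2 (MEDIUM-HARD; uses StNB1, StRKO, StINT, StGAM).  Different words give different classes.  Proof: let `a.prod = γ * b.prod`, `L, M` the lengths, `L ≥ M` (symmetric).  `X_a = (√p)^(L-M) γ X_b`.  If `L - M = 2j > 0`, `X_a = p^j γ X_b`, `φ(X_a) = 0`, a contradiction; if `L - M` is odd: `det X_a = p^L`; the coordinates of `X_a` and of `p^j γ X_b` in `Q.basis`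
are integers and proportional with the irrational factor `√p`, so they vanish, contradiction.  So `L = M`; induct on `L`: `X_a = X' x_1`, `X_b = Y' y_1` with the first letters; `φ(X_a) = φ(γ) φ(X_b)`, RKO (2) gives `φ(y_1) = C φ(x_1)`; lift `C = φ(c)`: `y_1 - c x_1 = p e = e x_1* x_1`, so `y_1 = u x_1`, `u ∈ O`, `det u = 1`, `u ∈ Γ`: the letters
`α_1, β_1 ∈ R` are in the same class, so equal; cancel them (the rest of the words are words) and use the induction hypothesis.  (Lists have the last letter first, so use `List.reverseRecOn` / `dropLast`, or induct on a statement about `a ++ [α]`.) -/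
def StNB2 : Prop := ∀ (Q : QuatOrder) (p : ℕ), p.Prime → Q.Good p → ∀ R : Finset SL(2, ℝ), Reps Q.Γ (Q.E p) R →
  ∀ a b : List SL(2, ℝ), IsWord Q.Γ R a → IsWord Q.Γ R b → a.prod * b.prod⁻¹ ∈ Q.Γ → a = b

/-- HYP (MEDIUM; uses StINT, StGAM).  Two elements of `Γ` whose squares do not commute.  Proof: the discriminant `D(x) = (tr x)² - 4 det x` and the commutator `[x, y]` are continuous, homogeneous, `D(diag(1,-1)) > 0`, `D([[0,1],[1,0]]) > 0`, and these matrices do not commute.  For large `N` choose `x, y ∈ O` at bounded distance from `N diag(1,-1)`, `N [[0,1],[1,0]]`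
(round the coordinates in `Q.basis`); then `D(x), D(y) > 0`, `x y ≠ y x`.  `D = D(x)` is an integer, not a square: with `X₀ = 2x - tr x`, `X₀² = D`; if `D = s²` then `(X₀ - s)(X₀ + s) = 0`, so `X₀ = ± s` is scalar and commutes with `y`.  Pell (`Pell.exists_of_not_isSquare`): `u² - D v² = 1`, `v ≠ 0`; `ε = u + v X₀ ∈ O`, `det ε = u² - D v² = 1`;
`ε² = (u² + D v²) + 2 u v X₀`, `u v ≠ 0`.  The commutator of `ε_x²` and `ε_y²` is a nonzero multiple of `[x, y]`. -/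
def StHYP : Prop := ∀ Q : QuatOrder, ∃ γ₁ ∈ Q.Γ, ∃ γ₂ ∈ Q.Γ, γ₁ ^ 2 * γ₂ ^ 2 ≠ γ₂ ^ 2 * γ₁ ^ 2

/-- LNE (MEDIUM; uses StHYP).  `Γ` has no invariant line in `sl₂`.  Proof: let `Z ≠ 0`, `tr Z = 0`, `γ Z γ⁻¹ = χ(γ) Z`.  Determinants: `χ² det Z = det Z`.  If `det Z ≠ 0`, `χ(γ)² = 1`, so `γ₁²`, `γ₂²` commute with `Z`, which is not scalar; the centralizer of `Z` in `M₂(ℝ)` is `ℝ + ℝ Z`, commutative: contradiction with HYP.  If `det Z = 0`: `Z² = 0`, the kernel of `Z`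
is a line `ℝ v` and `γ v ∈ ℝ v` for all `γ`, so `(γ₁² γ₂² - γ₂² γ₁²) v = 0`, but this is a nonzero element of `O`, of nonzero determinant. -/
def StLNE : Prop := ∀ (Q : QuatOrder) (Z : Matrix (Fin 2) (Fin 2) ℝ), Z ≠ 0 → Z.trace = 0 →
  ¬ ∀ γ ∈ Q.Γ, ∃ c : ℝ, (γ : Matrix (Fin 2) (Fin 2) ℝ) * Z * ((γ⁻¹ : SL(2, ℝ)) : Matrix (Fin 2) (Fin 2) ℝ) = c • Z

/-- IRR (MEDIUM; uses StLNE).  Two conjugates of `X` with linearly independent velocities at `z`.  Proof: otherwise all `ev (γ X γ⁻¹) z` lie on a real line `ℝ w₀ ⊆ ℂ`, and `λ(Y) = (conj w₀ * ev Y z).im` (if all are `0` take any `w₀ ≠ 0`) is a nonzero linear functional on the trace zero matrices (`Y ↦ ev Y z` maps them onto `ℂ`), so `λ(Y) = tr(Y₀ Y)` on trace zero matrices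
with `Y₀ ≠ 0`, `tr Y₀ = 0`.  `U` = span of the `γ X γ⁻¹`, `U⊥ = {Y : tr Y = 0, tr(Y u) = 0 for u ∈ U}`, both nonzero (`X ∈ U`, `Y₀ ∈ U⊥`), `Γ`-invariant under conjugation, `dim U + dim U⊥ = 3` (nondegenerate form), so one of them has dimension one: an invariant line, contradiction with LNE. -/
def StIRR : Prop := ∀ (Q : QuatOrder) (X : Matrix (Fin 2) (Fin 2) ℝ), X ≠ 0 → X.trace = 0 → ∀ z : ℍ, ∃ γ₁ ∈ Q.Γ, ∃ γ₂ ∈ Q.Γ,
  (conj (ev ((γ₁ : Matrix (Fin 2) (Fin 2) ℝ) * X * ((γ₁⁻¹ : SL(2, ℝ)) : Matrix (Fin 2) (Fin 2) ℝ)) z) *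
    ev ((γ₂ : Matrix (Fin 2) (Fin 2) ℝ) * X * ((γ₂⁻¹ : SL(2, ℝ)) : Matrix (Fin 2) (Fin 2) ℝ)) z).im ≠ 0

/-- ONE (MEDIUM-HARD; no hypotheses).  A closed subgroup of `SL(2,ℝ)` which is not discrete contains a one-parameter subgroup.  Proof: `g_i ∈ L`, `g_i ≠ 1`, `a_i = g_i - 1 → 0`, `h_i = ‖a_i‖` (any norm making `M₂(ℝ)` a normed algebra, e.g. `Matrix.linftyOpNormedAlgebra`), `a_i / h_i → X` along a subsequence, `‖X‖ = 1`.  For `t ≥ 0`, `n_i = ⌊t/h_i⌋`: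
`g_i^(n_i) → exp(tX)`: `‖(1+a)^n - exp(a)^n‖ ≤ n ‖1 + a - exp a‖ e^(n‖a‖) ≤ n ‖a‖² e^((n+1)‖a‖) → 0` and `exp(a_i)^(n_i) = exp(n_i a_i) → exp(tX)`.  So `exp(tX)` is a limit of elements of `L`, has determinant one, and is in `L` (`L` closed, `SL(2,ℝ)` closed in `M₂(ℝ)`); for `t < 0` take the inverse.  Trace: `1 = det(1 + a) = 1 + tr a + det a`,
`|tr a_i| ≤ c h_i²`, so `tr X = 0`. -/
def StONE : Prop := ∀ L : Subgroup SL(2, ℝ), IsClosed (L : Set SL(2, ℝ)) → (∀ ε > (0 : ℝ), ∃ g ∈ L, g ≠ 1 ∧ ∀ i j, |(g : Matrix (Fin 2) (Fin 2) ℝ) i j - (1 : Matrix (Fin 2) (Fin 2) ℝ) i j| < ε) →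
  ∃ X : Matrix (Fin 2) (Fin 2) ℝ, X ≠ 0 ∧ X.trace = 0 ∧ ∀ t : ℝ, ∃ g ∈ L, (g : Matrix (Fin 2) (Fin 2) ℝ) = NormedSpace.exp (t • X)

/-- OPN (MEDIUM-HARD; no hypotheses).  Orbits are open.  Proof: the map `Φ(s,t) = ` Möbius action of the matrix `exp(sX) exp(tY)` on `z`, `ℝ² → ℂ`, is strictly differentiable at `0` with derivative `(s,t) ↦ s ev X z + t ev Y z` (`hasStrictDerivAt_exp_smul_const` or `hasStrictFDerivAt_exp_zero` entrywise; `(A z)' ` at `A = 1` in the direction `H` is `ev H z`), which is onto `ℂ`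
as `(conj (ev X z) * ev Y z).im ≠ 0`; `HasStrictFDerivAt.map_nhds_eq_of_surj`: the image of a neighbourhood of `0` is a neighbourhood of `z`, and it consists of points `g g' z` with `g, g' ∈ L`. -/
def StOPN : Prop := ∀ (L : Subgroup SL(2, ℝ)) (X Y : Matrix (Fin 2) (Fin 2) ℝ), (∀ t : ℝ, ∃ g ∈ L, (g : Matrix (Fin 2) (Fin 2) ℝ) = NormedSpace.exp (t • X)) →
  (∀ t : ℝ, ∃ g ∈ L, (g : Matrix (Fin 2) (Fin 2) ℝ) = NormedSpace.exp (t • Y)) → ∀ z : ℍ, (conj (ev X z) * ev Y z).im ≠ 0 → {w : ℍ | ∃ g ∈ L, g • z = w} ∈ 𝓝 z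

/-- NEA (MEDIUM; uses StNB2, StCOC, StREP, StGAM).  Even products of elements of `E p` arbitrarily close to `1`.  Proof: `R` from REP, `card R ≥ 3`, so there are words of every length (a word `a` with head `α` is extended by any `β ∈ R` with `β α ∉ Γ`; only one `β` is excluded); take one word `a_n` of length `2n` for every `n`.  `γ_n ∈ Γ` with `γ_n a_n.prod • I ∈ K` (COC); `g_n = γ_n a_n.prod`
are pairwise different (NB2) and lie in the compact set `{g : g • I ∈ K}` (`UpperHalfPlane.isProperMap_smul_I`), so some `g_n g_m⁻¹`, `n ≠ m`, is as close to `1` as we like (a sequence in a compact metrizable group subset has a Cauchy subsequence; `g_n → g_∞` along a subsequence, `g_n g_m⁻¹ → 1`).  It is an even product: `γ = (γ e) e⁻¹` for `e ∈ E p`. -/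
def StNEA : Prop := ∀ (Q : QuatOrder) (p : ℕ), p.Prime → Q.Good p → 3 ≤ Q.index p → ∀ ε > (0 : ℝ), ∃ l : List SL(2, ℝ), Even l.length ∧ (∀ e ∈ l, e ∈ Q.E p) ∧ l.prod ≠ 1 ∧
  ∀ i j, |((l.prod : SL(2, ℝ)) : Matrix (Fin 2) (Fin 2) ℝ) i j - (1 : Matrix (Fin 2) (Fin 2) ℝ) i j| < ε

/-- DEN (MEDIUM; uses StNEA, StONE, StOPN, StIRR, StGAM).  Density.  Proof: `Δ` = even products of elements of `E p`, a subgroup containing `Γ` (`γ = (γ e) e⁻¹`), `L` = its closure (`Subgroup.topologicalClosure`), not discrete by NEA.  `X` from ONE.  For `γ ∈ Γ`, `exp(t γ X γ⁻¹) = γ exp(tX) γ⁻¹ ∈ L` (`Matrix.exp_conj`).  For every `z` IRR and OPN show that the orbit `L z`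
is a neighbourhood of `z`, hence (apply this at the points of the orbit) open; orbits partition the connected space `ℍ`, so `L z = ℍ`.  For `w = g z`, `g ∈ L`, approximate `g` by elements of `Δ` (the action is continuous). -/
def StDEN : Prop := ∀ (Q : QuatOrder) (p : ℕ), p.Prime → Q.Good p → 3 ≤ Q.index p → ∀ z w : ℍ, ∀ ε > (0 : ℝ), ∃ l : List SL(2, ℝ), Even l.length ∧ (∀ e ∈ l, e ∈ Q.E p) ∧ dist (l.prod • z) w < ε

/-- STP (EASY-MEDIUM; uses StGAM, StCOC, StFIW, StREP, StNB2, StDEN).  Assembly of the `Setup`. -/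
def StSTP : Prop := ∀ (Q : QuatOrder) (p : ℕ), p.Prime → Q.Good p → 3 ≤ Q.index p → ∃ S : Setup, S.Γ = Q.Γ ∧ S.E = Q.E p ∧
  ∀ (k : ℕ) (f : ℍ → ℂ) (z : ℍ), Q.T p k f z = ∑ β ∈ S.R, f (β • z) / jj β z ^ k

/-- WGT (MEDIUM; no hypotheses).  Existence of a weight.  Proof: `u : ℍ → [0,1]` continuous with compact support, `u = 1` on `K` (`exists_continuous_one_zero_of_isCompact` or similar).  `U(z) = Σ_(γ ∈ Γ) u(γ z)` is locally a finite sum (finiteness hypothesis for the compact set (closed ball ∪ support)), continuous, `Γ`-invariant and `≥ 1`; `w = u/U`. -/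
def StWGT : Prop := ∀ Γ : Subgroup SL(2, ℝ), (∀ K : Set ℍ, IsCompact K → {γ : SL(2, ℝ) | γ ∈ Γ ∧ ∃ z ∈ K, γ • z ∈ K}.Finite) →
  (∃ K : Set ℍ, IsCompact K ∧ ∀ z : ℍ, ∃ γ ∈ Γ, γ • z ∈ K) → Nonempty (Weight Γ)

/-- FUN (MEDIUM-HARD; uses StVOL, StGAM, StFIW, StCOC).  Fundamental domains and weights.  `Γ` is countable (FIW: `ℍ` is a countable union of compact sets `K_n`, each `γ` maps some point of `K_n` into `K_n`); the set `P` of points fixed by some `γ ∈ Γ`, `γ ≠ ±1`, is countable (at most one fixed point each), so of measure `0`.  Proof for `h ≥ 0` measurable invariant (lintegral), then for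
bounded continuous `h`: `ℍ = ⋃_γ γ⁻¹ F`, and for `z ∉ P` exactly two `γ` (`γ` and `-γ`) have `γ z ∈ F`; so `∫ w h = ∫ w h (1/2) Σ_γ 1_F(γ z) = (1/2) Σ_γ ∫ w(z) h(z) 1_F(γ z) dz = (1/2) Σ_γ ∫_F w(γ⁻¹ z) h(z) dz = (1/2) ∫_F h`.  `h = 1`: `volume F = 2 ∫ w < ∞`; a continuous invariant function is bounded, so integrable on `F`. -/
def StFUN : Prop := ∀ (Q : QuatOrder) (W : Weight Q.Γ) (F : Set ℍ), Q.IsFund F → volume F < ⊤ ∧ 0 < (∫ z : ℍ, W.w z) ∧ (volume F).toReal = 2 * ∫ z : ℍ, W.w z ∧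
  (∀ h : ℍ → ℝ, Continuous h → (∀ γ ∈ Q.Γ, ∀ z : ℍ, h (γ • z) = h z) → ∫ z in F, h z = 2 * ∫ z : ℍ, W.w z * h z) ∧
  ∀ h : ℍ → ℂ, Continuous h → (∀ γ ∈ Q.Γ, ∀ z : ℍ, h (γ • z) = h z) → ∫ z in F, h z = 2 * ∫ z : ℍ, (W.w z : ℂ) * h z

/-! ## F. Dimension -/

/-- RHO (EASY-MEDIUM; no hypotheses).  Proof: `|z - conj z₀|² = |z - z₀|² + 4 y y₀`; so `0 < rho ≤ 1`, `rho = 1` iff `z = z₀`.  `rho z₀ z = 1/cosh²(dist z z₀ / 2)` (`UpperHalfPlane.cosh_half_dist`), so it is invariant: `rho (g z₀) (g z) = rho z₀ z`.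
(3) for `z = g I`, `z₀ = I`: `rho I (g I) = 4/(2 + ‖g‖²)`, `‖g‖²` = sum of the squares of the entries.  In general there is a constant `c`, locally uniform in `z`, with `rho z₀ (g z) ≤ c/‖g‖²`, `‖g‖²` = sum of squares (write `z = h I`, `z₀ = h₀ I`: `rho z₀ (g z) = 4/(2 + ‖h₀⁻¹ g h‖²)` and `‖g‖ ≤ ‖h₀‖ ‖h₀⁻¹ g h‖ ‖h⁻¹‖`). -/
def StRHO : Prop := (∀ z₀ z : ℍ, 0 < rho z₀ z ∧ rho z₀ z ≤ 1 ∧ (rho z₀ z = 1 → z = z₀)) ∧ (∀ z₀ : ℍ, Continuous (rho z₀)) ∧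
  ∀ (z₀ : ℍ) (K : Set ℍ), IsCompact K → ∃ c : ℝ, ∀ (g : SL(2, ℝ)), ∀ z ∈ K, rho z₀ (g • z) * ∑ i, ∑ j, (g : Matrix (Fin 2) (Fin 2) ℝ) i j ^ 2 ≤ c

/-- SUM (MEDIUM; uses StRHO, StDSC).  Summability.  Proof: `Γ ⊆ O`, a lattice of rank 4 in `ℝ⁴`, and `Σ_(0 ≠ x ∈ O) ‖x‖^(-6) < ∞` (`ZLattice.summable_norm_rpow` / `summable_norm_pow_inv` for the `ℤ`-span of `Q.basis`, with `M₂(ℝ)` normed in any way; all norms are equivalent), and RHO (3): `rho^3 ≤ c³ ‖g‖^(-6)`.  Uniformly on `K`: a summable majorant. -/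
def StSUM : Prop := ∀ (Q : QuatOrder) (z₀ : ℍ) (K : Set ℍ), IsCompact K → ∃ b : Q.Γ → ℝ, Summable b ∧ ∀ (γ : Q.Γ), ∀ z ∈ K, rho z₀ ((γ : SL(2, ℝ)) • z) ^ 3 ≤ b γ

/-- POI (MEDIUM-HARD; uses StSUM, StRHO, StJJ).  Poincaré series.  `h(z) = ((z - conj z₀)/(2 i y₀))^(-2m)`, `h(z₀) = 1`, `|h(z)| y^m = y₀^m rho z₀ z ^ m`.  `P(z) = Σ_γ h(γ z) jj γ z^(-2m)`; `|h(γ z) jj^(-2m)| y^m = y₀^m rho z₀ (γ z)^m ≤ y₀^m rho z₀ (γ z)^3` (`m ≥ 3`), so the series converges locally uniformly (SUM) and `P` is holomorphic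
(`differentiableOn_tsum_of_summable_norm` on small discs, `UpperHalfPlane.mdifferentiable_iff`), and `P(γ z) = jj γ z^(2m) P(z)` by the cocycle rule and reindexing (absolute convergence).  The last bound: the terms `γ = ±1` of `P(z₀)` are both `1`. -/
def StPOI : Prop := ∀ (Q : QuatOrder) (z₀ : ℍ) (m : ℕ), 3 ≤ m → ∃ P : ℍ → ℂ, Form Q.Γ m P ∧ (∀ z : ℍ, ‖P z‖ * z.im ^ m ≤ z₀.im ^ m * ∑' γ : Q.Γ, rho z₀ ((γ : SL(2, ℝ)) • z) ^ m) ∧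
  ‖P z₀ - 2‖ ≤ ∑' γ : {γ : Q.Γ // (γ : SL(2, ℝ)) ≠ 1 ∧ (γ : SL(2, ℝ)) ≠ -1}, rho z₀ ((γ : SL(2, ℝ)) • z₀) ^ m

/-- TWO (MEDIUM; uses StPOI, StSUM, StRHO, StFIW).  Two independent forms of every large weight.  Proof: `Γ` is countable; choose `z₀` not fixed by any `γ ≠ ±1` of `Γ` and `z₁` likewise and not in the orbit of `z₀` (countably many points are excluded; `ℍ` is uncountable).  `P₀, P₁` = Poincaré series.  As `m → ∞`: `Σ_(γ ≠ ±1) rho z₀ (γ z₀)^m → 0` and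
`Σ_γ rho z₀ (γ z₁)^m → 0` (each term tends to `0` as `rho < 1`, majorant `rho^3` by SUM: `tendsto_tsum_of_dominated_convergence`), and the same with `z₀, z₁` exchanged.  So for large `m`: `‖P₀ z₀‖ ≥ 3/2`, `‖P₁ z₁‖ ≥ 3/2`, `‖P₀ z₁‖ (y₁/y₀)^m ≤ 1/4`, `‖P₁ z₀‖ (y₀/y₁)^m ≤ 1/4`.  If `a P₀ + b P₁ = 0`, evaluate at `z₀` and `z₁`:
`(3/2)|a| ≤ |b| |P₁ z₀|`, `(3/2)|b| ≤ |a| |P₀ z₁|`, multiply: `(9/4)|a||b| ≤ |a||b|/16`; so `a = b = 0`. -/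
def StTWO : Prop := ∀ Q : QuatOrder, ∃ m₀ : ℕ, ∀ m ≥ m₀, ∃ P₀ P₁ : ℍ → ℂ, Form Q.Γ m P₀ ∧ Form Q.Γ m P₁ ∧ ∀ a b : ℂ, (∀ z, a * P₀ z + b * P₁ z = 0) → a = 0 ∧ b = 0

/-- MOI (MEDIUM; no hypotheses).  Monomials are independent.  Proof: let `Σ_i c_i P₀^i P₁^(n-i) h = 0` on `ℍ`.  The zero sets of `P₁` and `h` are discrete unless the function is `0` (identity theorem); choose a ball where `P₁ h ≠ 0`.  There the polynomial `Σ c_i t^i` vanishes at `t = P₀/P₁`.  If some `c_i ≠ 0`, `P₀/P₁` takes finitely many values on the ball (connected), so it is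
constant there, `P₀ = c P₁` on the ball, hence on `ℍ` (identity theorem), contradicting independence. -/
def StMOI : Prop := ∀ (P₀ P₁ h : ℍ → ℂ), MDifferentiable 𝓘(ℂ) 𝓘(ℂ) P₀ → MDifferentiable 𝓘(ℂ) 𝓘(ℂ) P₁ → MDifferentiable 𝓘(ℂ) 𝓘(ℂ) h → h ≠ 0 →
  (∀ a b : ℂ, (∀ z, a * P₀ z + b * P₁ z = 0) → a = 0 ∧ b = 0) → ∀ n : ℕ, LinearIndependent ℂ (fun (i : Fin (n + 1)) => fun z : ℍ => P₀ z ^ (i : ℕ) * P₁ z ^ (n - (i : ℕ)) * h z)

/-- DIM (EASY-MEDIUM; uses StTWO, StMOI, StLIN).  The dimension grows linearly.  Proof: `m₀ ≥ 1` from TWO, `P₀, P₁` of weight index `m₀`; for `m ≥ 2 m₀` write `m = n m₀ + r`, `m₀ ≤ r < 2 m₀` (`n = m / m₀ - 1`), `h ≠ 0` a form of index `r`; the `n + 1` forms `P₀^i P₁^(n-i) h` are independent.  `n + 1 ≥ m/m₀ - 1 ≥ m/(2 m₀)` for `m ≥ 2 m₀`. -/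
def StDIM : Prop := ∀ Q : QuatOrder, ∃ c : ℝ, 0 < c ∧ ∃ m₁ : ℕ, ∀ m ≥ m₁, ∃ n : ℕ, c * m ≤ n ∧ ∃ g : Fin n → ℍ → ℂ, (∀ i, Form Q.Γ m (g i)) ∧ LinearIndependent ℂ g

/-! ## G. Final assembly -/

open Classical in
/-- SEL (MEDIUM; no hypotheses).  Diagonal selection.  Proof: for `j ≥ 1` let `bad_j(m) = {f ∈ B m : ∃ i < j, 1/j < |D m f i|}`; for every `j` there is `K_j` with `card bad_j(m) ≤ card (B m)/j` for `m ≥ K_j` (use the hypothesis for `i < j` with `ε = min(1/j, c/j²)`).  We may take `K_j` strictly increasing.  `j(m)` = largest `j ≤ m` with `K_j ≤ m` (or `0`: then `G m = B m`),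
`G m = B m \ bad_(j(m))(m)`; `j(m) → ∞`, so `card (G m)/card (B m) ≥ 1 - 1/j(m) → 1` (`card (B m) > 0` eventually). -/
def StSEL : Prop := ∀ (B : ℕ → Finset (ℍ → ℂ)) (D : ℕ → (ℍ → ℂ) → ℕ → ℝ) (c : ℝ), 0 < c → (∀ᶠ m : ℕ in Filter.atTop, c * (m : ℝ) ≤ (B m).card) →
  (∀ i : ℕ, ∀ ε > (0 : ℝ), ∀ᶠ m : ℕ in Filter.atTop, (((B m).filter (fun f => ε < |D m f i|)).card : ℝ) ≤ ε * m) →
  ∃ G : ℕ → Finset (ℍ → ℂ), (∀ m, G m ⊆ B m) ∧ Filter.Tendsto (fun m => ((G m).card : ℝ) / ((B m).card : ℝ)) Filter.atTop (𝓝 1) ∧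
    ∀ i : ℕ, ∀ ε > (0 : ℝ), ∀ᶠ m : ℕ in Filter.atTop, ∀ f ∈ G m, |D m f i| ≤ ε

/-- SEP (MEDIUM; no hypotheses).  Separability of the test functions.  Proof: `C(ℍ, ℝ)` (compact-open topology) is second countable (`ContinuousMap.instSecondCountableTopology`), so the subset of invariant functions is separable; a dense sequence `ψ_i` in it (nonempty: `0`).  For a test function `φ` and `ε` the functions uniformly `ε`-close to `φ` on the compact `K` form a neighbourhood of `φ`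
(`ContinuousMap.tendsto_iff_forall_isCompact_tendstoUniformlyOn` or `ContinuousMap.hasBasis_nhds`); invariance gives closeness on `ℍ`. -/
def StSEP : Prop := ∀ (Γ : Subgroup SL(2, ℝ)) (K : Set ℍ), IsCompact K → (∀ z : ℍ, ∃ γ ∈ Γ, γ • z ∈ K) →
  ∃ ψ : ℕ → ℍ → ℝ, (∀ i, Test Γ (ψ i)) ∧ ∀ φ : ℍ → ℝ, Test Γ φ → ∀ ε > (0 : ℝ), ∃ i, ∀ z, |φ z - ψ i z| ≤ ε

open Classical in
/-- EQD (MEDIUM; uses StSTP, StWGT, StFIW, StCOC, StFUN, StQEV, StPHB).  Few exceptions, in terms of `Q` and of a fundamental domain.  Proof: `S` from STP, `W` from WGT (finiteness from FIW with `n = 1`: `γ ∈ Γ` is a walk of length 1; COC).  By FUN, `∫_F |f|² y^(2m) = 2 ∫ w FF²`, so the functions `√2 f`, `f ∈ B m`, form an orthonormal family for `W`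
(index type: the subtype `{f // f ∈ B m}`; the orthogonality integrals are handled by FUN with the continuous invariant function `f conj(g) y^(2m)`), eigenfunctions.  `ψ₀ = ψ - (∫_F ψ)/volume F` has `∫ w ψ₀ = 0`; QEV for `ψ₀`; `∫_F ψ |f|² y^(2m) - mean = ∫ w ψ₀ FF(√2 f)²`. -/
def StEQD : Prop := ∀ (Q : QuatOrder) (p : ℕ), p.Prime → Q.Good p → 3 ≤ Q.index p → ∀ F : Set ℍ, Q.IsFund F → ∀ B : ℕ → Finset (ℍ → ℂ), (∀ m, 0 < m → Q.IsHeckeBasis F p (2 * m) (B m)) →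
  ∀ ψ : ℍ → ℝ, Q.IsTest ψ → ∀ ε > (0 : ℝ), ∀ᶠ m : ℕ in Filter.atTop,
    (((B m).filter (fun f => ε < |(∫ z in F, ψ z * (‖f z‖ ^ 2 * z.im ^ (2 * m))) - (∫ z in F, ψ z) / (volume F).toReal|)).card : ℝ) ≤ ε * m

/-- MAI (MEDIUM; uses StEQD, StDIM, StSEL, StSEP, StCOC, StWGT, StFIW, StFUN, StPHB).  Proof: `ψ_i` from SEP; `D m f i` = discrepancy of `ψ_i`; the lower bound `c m ≤ card (B m)` from DIM (`n` independent forms lie in the span of `B m`).  SEL gives `G`.  For a test function `ψ` and `ε` choose `i` with `|ψ - ψ_i| ≤ ε/4`: the discrepancies of `ψ` and `ψ_i`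
differ by at most `ε/2` because `|f|² y^(2m)` and `1/volume F` are probability densities on `F` (`IsHeckeBasis.norm`; integrability on `F`: a continuous invariant function is bounded and `volume F < ∞`). -/
def StMAI : Prop := Main

end HQ
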