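import Mathlib
import Pool.Agent.Work.MP_d2a4bb_nt.QE.Stmts

open UpperHalfPlane MeasureTheory Matrix
open scoped MatrixGroups Manifold Topology ComplexConjugate

namespace HQ

namespace IJJ

theorem ne (g : SL(2, ℝ)) (z : ℍ) : jj g z ≠ 0 :=
  UpperHalfPlane.denom_ne_zero (g : GL (Fin 2) ℝ) z

theorem coe_smul (g : SL(2, ℝ)) (z : ℍ) :
    ((g • z : ℍ) : ℂ) = (((g 0 0 : ℝ) : ℂ) * (z : ℂ) + ((g 0 1 : ℝ) : ℂ)) / jj g z := by
  have h := UpperHalfPlane.coe_specialLinearGroup_apply g z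
  exact h

theorem mul (g h : SL(2, ℝ)) (z : ℍ) : jj (g * h) z = jj g (h • z) * jj h z := by
  have hne := ne h z
  have e1 : jj g (h • z) * jj h z = ((g 1 0 : ℝ) : ℂ) *
      (((h 0 0 : ℝ) : ℂ) * (z : ℂ) + ((h 0 1 : ℝ) : ℂ)) + ((g 1 1 : ℝ) : ℂ) * jj h z := by
    have h0 : jj g (h • z) = ((g 1 0 : ℝ) : ℂ) * ((h • z : ℍ) : ℂ) + ((g 1 1 : ℝ) : ℂ) := rfl
    rw [h0, coe_smul, add_mul, mul_assoc, div_mul_cancel₀ _ hne]
  have e2 : (g * h) 1 0 = g 1 0 * h 0 0 + g 1 1 * h 1 0 := by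
    rw [Matrix.SpecialLinearGroup.coe_mul, Matrix.mul_apply, Fin.sum_univ_two]
  have e3 : (g * h) 1 1 = g 1 0 * h 0 1 + g 1 1 * h 1 1 := by
    rw [Matrix.SpecialLinearGroup.coe_mul, Matrix.mul_apply, Fin.sum_univ_two]
  rw [e1]
  unfold jj
  rw [e2, e3]
  push_cast
  ring

theorem im (g : SL(2, ℝ)) (z : ℍ) : (g • z).im = z.im / ‖jj g z‖ ^ 2 := by
  have h := UpperHalfPlane.im_smul_eq_div_normSq (g : GL (Fin 2) ℝ) z
  have h1 : ((g : GL (Fin 2) ℝ) • z) = g • z := rfl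
  have h2 : ((g : GL (Fin 2) ℝ).det : ℝˣ).val = 1 := by
    exact g.det_coe
  have h3 : denom (g : GL (Fin 2) ℝ) (z : ℂ) = jj g z := rfl
  rw [h1, h2, h3, abs_one, one_mul, Complex.normSq_eq_norm_sq] at h
  exact h

theorem neg (g : SL(2, ℝ)) (z : ℍ) : jj (-g) z = - jj g z := by
  unfold jj
  have e1 : (-g) 1 0 = -(g 1 0) := by
    rw [Matrix.SpecialLinearGroup.coe_neg, Matrix.neg_apply]
  have e2 : (-g) 1 1 = -(g 1 1) := by
    rw [Matrix.SpecialLinearGroup.coe_neg, Matrix.neg_apply]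
  rw [e1, e2]
  push_cast
  ring

theorem neg_smul (g : SL(2, ℝ)) (z : ℍ) : (-g) • z = g • z := by
  apply UpperHalfPlane.ext
  rw [coe_smul, coe_smul, neg]
  have e1 : (-g) 0 0 = -(g 0 0) := by
    rw [Matrix.SpecialLinearGroup.coe_neg, Matrix.neg_apply]
  have e2 : (-g) 0 1 = -(g 0 1) := by
    rw [Matrix.SpecialLinearGroup.coe_neg, Matrix.neg_apply]
  rw [e1, e2]
  push_cast
  rw [← neg_div_neg_eq]
  congr 1
  ring_nf
  ring_nf

theorem one (z : ℍ) : jj 1 z = 1 := by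
  unfold jj
  have e1 : (1 : SL(2, ℝ)) 1 0 = 0 := by
    rw [Matrix.SpecialLinearGroup.coe_one]; rfl
  have e2 : (1 : SL(2, ℝ)) 1 1 = 1 := by
    rw [Matrix.SpecialLinearGroup.coe_one]; rfl
  rw [e1, e2]
  simp

theorem cont (g : SL(2, ℝ)) : Continuous fun z : ℍ => jj g z := by
  unfold jj
  exact (continuous_const.mul UpperHalfPlane.continuous_coe).add continuous_const

end IJJ

theorem prJJ : StJJ :=
  ⟨IJJ.ne, IJJ.mul, IJJ.im, IJJ.cont, IJJ.neg, IJJ.neg_smul, IJJ.one⟩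

end HQ
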