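import Pool.Agent.Work.MP_d2a4bb_nt.QE.Stmts

/-! Item LIN of block [d2a4bb QE]: forms are closed under finite linear combinations, products and
powers. -/

open UpperHalfPlane MeasureTheory Matrix
open scoped MatrixGroups Manifold Topology ComplexConjugate

namespace HQ

namespace ILIN

theorem mul_form (Γ : Subgroup SL(2, ℝ)) (m n : ℕ) (f g : ℍ → ℂ) (hf : Form Γ m f)
    (hg : Form Γ n g) : Form Γ (m + n) (fun z => f z * g z) := by
  refine ⟨hf.1.mul hg.1, ?_⟩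
  intro γ hγ z
  show f (γ • z) * g (γ • z) = jj γ z ^ (2 * (m + n)) * (f z * g z)
  rw [hf.2 γ hγ z, hg.2 γ hγ z, Nat.mul_add, pow_add]
  ring

theorem pow_form (Γ : Subgroup SL(2, ℝ)) (m n : ℕ) (f : ℍ → ℂ) (hf : Form Γ m f) :
    Form Γ (n * m) (fun z => f z ^ n) := by
  refine ⟨hf.1.pow n, ?_⟩
  intro γ hγ z
  show f (γ • z) ^ n = jj γ z ^ (2 * (n * m)) * f z ^ n
  have h2 : 2 * (n * m) = (2 * m) * n := by ring
  rw [hf.2 γ hγ z, mul_pow, ← pow_mul, h2]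

theorem sum_form (Γ : Subgroup SL(2, ℝ)) (m : ℕ) (ι : Type) (s : Finset ι) (c : ι → ℂ)
    (f : ι → ℍ → ℂ) (hf : ∀ i ∈ s, Form Γ m (f i)) : Form Γ m (fun z => ∑ i ∈ s, c i * f i z) := by
  refine ⟨?_, ?_⟩
  · have h1 : (fun z : ℍ => ∑ i ∈ s, c i * f i z) = ∑ i ∈ s, (c i • f i) := by
      funext z
      rw [Finset.sum_apply]
      rfl
    rw [h1]
    exact MDifferentiable.sum fun i hi => (hf i hi).1.const_smul (c i)
  · intro γ hγ z
    show ∑ i ∈ s, c i * f i (γ • z) = jj γ z ^ (2 * m) * ∑ i ∈ s, c i * f i z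
    rw [Finset.mul_sum]
    refine Finset.sum_congr rfl fun i hi => ?_
    rw [(hf i hi).2 γ hγ z]
    ring

end ILIN

/-- Item LIN. -/
theorem prLIN : StLIN := fun Γ =>
  ⟨ILIN.sum_form Γ, ILIN.mul_form Γ, ILIN.pow_form Γ⟩

end HQ
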