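import Pool.Agent.Work.MP_d2a4bb_nt.QE.Stmts

open UpperHalfPlane MeasureTheory Matrix
open scoped MatrixGroups Manifold Topology ComplexConjugate

namespace HQ
namespace IMAI

theorem form_of (Q : QuatOrder) (m : ℕ) (f : ℍ → ℂ) (h : Q.IsForm (2 * m) f) : Form Q.Γ m f := h

theorem isForm_of (Q : QuatOrder) (m : ℕ) (f : ℍ → ℂ) (h : Form Q.Γ m f) : Q.IsForm (2 * m) f := h

/-- the density of `f` as a square -/
theorem dens_eq (m : ℕ) (f : ℍ → ℂ) (z : ℍ) : ‖f z‖ ^ 2 * z.im ^ (2 * m) = FF m f z ^ 2 := by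
  unfold FF
  rw [mul_pow, ← pow_mul, mul_comm 2 m]

theorem card_ge (Q : QuatOrder) (F : Set ℍ) (p m n : ℕ) (B : Finset (ℍ → ℂ)) (hB : Q.IsHeckeBasis F p (2 * m) B)
    (g : Fin n → ℍ → ℂ) (hg : ∀ i, Form Q.Γ m (g i)) (hl : LinearIndependent ℂ g) : n ≤ B.card := by
  have h1 : Submodule.span ℂ (Set.range g) ≤ Submodule.span ℂ (B : Set (ℍ → ℂ)) := by
    rw [Submodule.span_le]
    rintro _ ⟨i, rfl⟩
    exact hB.span _ (isForm_of Q m _ (hg i))
  have h2 := Submodule.finrank_mono h1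
  rw [finrank_span_eq_card hl, Fintype.card_fin] at h2
  exact h2.trans (finrank_span_finset_le_card B)

/-- bounded -/
theorem bdd (Γ : Subgroup SL(2, ℝ)) (K : Set ℍ) (hK : IsCompact K) (hc : ∀ z : ℍ, ∃ γ ∈ Γ, γ • z ∈ K) (h : ℍ → ℝ)
    (hh : Continuous h) (hi : ∀ γ ∈ Γ, ∀ z : ℍ, h (γ • z) = h z) : ∃ C : ℝ, ∀ z, |h z| ≤ C := by
  obtain ⟨C, hC⟩ := hK.exists_bound_of_continuousOn hh.continuousOn
  refine ⟨C, fun z => ?_⟩
  obtain ⟨γ, hγ, hz⟩ := hc z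
  have := hC _ hz
  rwa [hi γ hγ z, Real.norm_eq_abs] at this

theorem intOn (Γ : Subgroup SL(2, ℝ)) (K : Set ℍ) (hK : IsCompact K) (hc : ∀ z : ℍ, ∃ γ ∈ Γ, γ • z ∈ K) (F : Set ℍ)
    (_hF : MeasurableSet F) (hv : volume F < ⊤) (h : ℍ → ℝ)
    (hh : Continuous h) (hi : ∀ γ ∈ Γ, ∀ z : ℍ, h (γ • z) = h z) : IntegrableOn h F volume := by
  obtain ⟨C, hC⟩ := bdd Γ K hK hc h hh hi
  exact Measure.integrableOn_of_bounded (M := C) hv.ne hh.aestronglyMeasurable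
    (Filter.Eventually.of_forall fun z => by rw [Real.norm_eq_abs]; exact hC z)

end IMAI

theorem prMAI (hEQD : StEQD) (hDIM : StDIM) (hSEL : StSEL) (hSEP : StSEP) (hCOC : StCOC) (hWGT : StWGT)
    (hFIW : StFIW) (hFUN : StFUN) (hPHA : StPHA) (hPHB : StPHB) : StMAI := by
  intro Q p hp hg hidx F hF B hB
  obtain ⟨K, hK, hKc⟩ := hCOC Q
  obtain ⟨ψ, hψ, hψd⟩ := hSEP Q.Γ K hK hKc
  have hfin : ∀ K : Set ℍ, IsCompact K → {γ : SL(2, ℝ) | γ ∈ Q.Γ ∧ ∃ z ∈ K, γ • z ∈ K}.Finite := by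
    intro K hK
    refine (hFIW Q p 1 hp.pos K hK).subset ?_
    rintro γ ⟨hγ, h⟩
    refine ⟨⟨[γ], rfl, ?_, ?_⟩, h⟩
    · intro e he
      rw [List.mem_singleton] at he
      exact Or.inr (he ▸ hγ)
    · simp
  obtain ⟨W⟩ := hWGT Q.Γ hfin ⟨K, hK, hKc⟩
  obtain ⟨hv, hwp, hvw, -, -⟩ := hFUN Q W F hF
  have hvpos : 0 < (volume F).toReal := by rw [hvw]; linarith
  obtain ⟨c, hc, m₁, hdim⟩ := hDIM Q
  obtain ⟨G, hGB, hGt, hGd⟩ := hSEL B (fun m f i => (∫ z in F, ψ i z * (‖f z‖ ^ 2 * z.im ^ (2 * m))) - (∫ z in F, ψ i z) / (volume F).toReal)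
    c hc (by
      filter_upwards [Filter.eventually_ge_atTop (max m₁ 1)] with m hm
      obtain ⟨n, hn, g, hg1, hg2⟩ := hdim m (le_trans (le_max_left _ _) hm)
      have h1 := IMAI.card_ge Q F p m n (B m) (hB m (lt_of_lt_of_le one_pos (le_trans (le_max_right _ _) hm))) g hg1 hg2
      exact hn.trans (by exact_mod_cast h1))
    (fun i ε hε => hEQD Q p hp hg hidx F hF B hB (ψ i) (hψ i) ε hε)
  refine ⟨G, hGB, hGt, ?_⟩
  intro φ hφ ε hε
  obtain ⟨i, hi⟩ := hψd φ hφ (ε / 4) (by linarith)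
  filter_upwards [hGd i (ε / 4) (by linarith), Filter.eventually_gt_atTop 0] with m hm hm0 f hf
  have h1 := hm f hf
  have hfB := hGB m hf
  have hform : Form Q.Γ m f := IMAI.form_of Q m f ((hB m hm0).form f hfB)
  have hcont : Continuous (FF m f) := (hPHB.2.2.1 Q.Γ m f hform).2
  have hinv : ∀ γ ∈ Q.Γ, ∀ z : ℍ, FF m f (γ • z) = FF m f z := hPHA.2.2.2.1 Q.Γ m f hform
  have hnorm : ∫ z in F, FF m f z ^ 2 = 1 := by
    rw [← (hB m hm0).norm f hfB]
    exact integral_congr_ae (Filter.Eventually.of_forall fun z => (IMAI.dens_eq m f z).symm)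
  have hI : ∀ h : ℍ → ℝ, Continuous h → (∀ γ ∈ Q.Γ, ∀ z : ℍ, h (γ • z) = h z) → IntegrableOn h F volume := fun h a b =>
    IMAI.intOn Q.Γ K hK hKc F hF.1 hv h a b
  have e1 : ∀ h : ℍ → ℝ, (∫ z in F, h z * (‖f z‖ ^ 2 * z.im ^ (2 * m))) = ∫ z in F, h z * FF m f z ^ 2 := fun h =>
    integral_congr_ae (Filter.Eventually.of_forall fun z => by simp only [IMAI.dens_eq])
  simp only [e1] at h1 ⊢
  have i1 : IntegrableOn (fun z => φ z * FF m f z ^ 2) F volume := hI _ (hφ.1.mul (hcont.pow 2)) (by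
    intro γ hγ z; simp only [hφ.2 γ hγ z, hinv γ hγ z])
  have i2 : IntegrableOn (fun z => ψ i z * FF m f z ^ 2) F volume := hI _ ((hψ i).1.mul (hcont.pow 2)) (by
    intro γ hγ z; simp only [(hψ i).2 γ hγ z, hinv γ hγ z])
  have i3 : IntegrableOn (fun z => FF m f z ^ 2) F volume := hI _ (hcont.pow 2) (by
    intro γ hγ z; simp only [hinv γ hγ z])
  have i4 : IntegrableOn φ F volume := hI _ hφ.1 hφ.2
  have i5 : IntegrableOn (ψ i) F volume := hI _ (hψ i).1 (hψ i).2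
  -- the first difference
  have d1 : |(∫ z in F, φ z * FF m f z ^ 2) - ∫ z in F, ψ i z * FF m f z ^ 2| ≤ ε / 4 := by
    rw [← integral_sub i1 i2]
    calc |∫ z in F, (φ z * FF m f z ^ 2 - ψ i z * FF m f z ^ 2)|
        ≤ ∫ z in F, |φ z * FF m f z ^ 2 - ψ i z * FF m f z ^ 2| := abs_integral_le_integral_abs
      _ ≤ ∫ z in F, ε / 4 * FF m f z ^ 2 := by
          refine integral_mono_ae (i1.sub i2).abs (i3.const_mul _) (Filter.Eventually.of_forall fun z => ?_)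
          have e2 : φ z * FF m f z ^ 2 - ψ i z * FF m f z ^ 2 = (φ z - ψ i z) * FF m f z ^ 2 := by ring
          simp only [e2, abs_mul, abs_of_nonneg (sq_nonneg (FF m f z))]
          exact mul_le_mul_of_nonneg_right (hi z) (sq_nonneg _)
      _ = ε / 4 := by rw [integral_const_mul, hnorm, mul_one]
  have d2 : |(∫ z in F, φ z) / (volume F).toReal - (∫ z in F, ψ i z) / (volume F).toReal| ≤ ε / 4 := by
    rw [← sub_div, abs_div, abs_of_pos hvpos, div_le_iff₀ hvpos, ← integral_sub i4 i5]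
    calc |∫ z in F, (φ z - ψ i z)| ≤ ∫ z in F, |φ z - ψ i z| := abs_integral_le_integral_abs
      _ ≤ ∫ z in F, ε / 4 := by
          refine integral_mono_ae (i4.sub i5).abs (integrableOn_const hv.ne) (Filter.Eventually.of_forall fun z => ?_)
          exact hi z
      _ = ε / 4 * (volume F).toReal := by
          rw [setIntegral_const, smul_eq_mul, mul_comm]; rfl
  rw [abs_le] at d1 d2 h1
  rw [abs_lt]
  constructor <;> linarith [d1.1, d1.2, d2.1, d2.2, h1.1, h1.2]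

end HQ
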