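import Mathlib
import Pool.Agent.Work.MP_d2a4bb_nt.QE.Stmts

/-!
# Block [d2a4bb QE], item TFI: the Hecke operator on test functions
-/

set_option autoImplicit false

open UpperHalfPlane MeasureTheory Matrix
open scoped MatrixGroups Manifold Topology ComplexConjugate

namespace HQ

namespace ITFI

/-- `E` is stable under right multiplication by `Γ` -/
theorem mul_right (S : Setup) {x γ : SL(2, ℝ)} (hx : x ∈ S.E) (hγ : γ ∈ S.Γ) : x * γ ∈ S.E := by
  have h1 := S.E_inv _ (S.E_mul γ⁻¹ (S.Γ.inv_mem hγ) x⁻¹ (S.E_inv x hx))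
  rwa [_root_.mul_inv_rev, inv_inv, inv_inv] at h1

/-- the Hecke operator maps test functions to test functions -/
theorem test (S : Setup) (y : ℍ → ℝ) (hy : Test S.Γ y) : Test S.Γ (Tf S.R y) := by
  refine ⟨?_, ?_⟩
  · unfold Tf
    exact continuous_finsetSum _ fun β _ => hy.1.comp (continuous_const_smul β)
  · intro γ hγ z
    unfold Tf
    have h : ∀ β ∈ S.R, ∃ α ∈ S.R, (β * γ) * α⁻¹ ∈ S.Γ := fun β hβ =>
      S.R_rep _ (mul_right S (S.R_mem β hβ) hγ)
    choose! σ hσ1 hσ2 using h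
    have hmaps : Set.MapsTo σ (S.R : Set SL(2, ℝ)) (S.R : Set SL(2, ℝ)) := fun β hβ => hσ1 β hβ
    have hinj : Set.InjOn σ (S.R : Set SL(2, ℝ)) := by
      intro β hβ β₁ hβ₁ he
      have h1 := hσ2 β hβ
      have h2 := hσ2 β₁ hβ₁
      rw [← he] at h2
      have h3 := S.Γ.mul_mem h1 (S.Γ.inv_mem h2)
      have e : β * γ * (σ β)⁻¹ * (β₁ * γ * (σ β)⁻¹)⁻¹ = β * β₁⁻¹ := by group
      rw [e] at h3
      exact S.R_inj β hβ β₁ hβ₁ h3
    have hsurj : Set.SurjOn σ (S.R : Set SL(2, ℝ)) (S.R : Set SL(2, ℝ)) :=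
      Finset.surjOn_of_injOn_of_card_le σ hmaps hinj le_rfl
    refine Finset.sum_nbij σ hσ1 hinj hsurj ?_
    intro β hβ
    have h1 := hy.2 _ (hσ2 β hβ) (σ β • z)
    rw [← h1, smul_smul, smul_smul]
    congr 2
    group

end ITFI

open ITFI in
theorem prTFI (hMTP : StMTP) : StTFI := by
  intro S W y hy
  refine ⟨test S y hy, ?_⟩
  have h := hMTP S.Γ W S.E S.R (fun x hx γ hγ => S.E_mul γ hγ x hx) S.E_inv
    ⟨S.R_mem, S.R_rep, S.R_inj⟩ (fun K hK => (S.fin 1 K hK).subset (fun x hx =>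
      ⟨⟨[x], rfl, fun e he => Or.inl (by rw [List.mem_singleton] at he; rw [he]; exact hx.1),
        by simp⟩, hx.2⟩)) (fun z x => ((y (x • z) : ℝ) : ℂ))
    (fun x _ => Complex.continuous_ofReal.comp (hy.1.comp (continuous_const_smul x)))
    (fun x _ γ hγ z => by rw [mul_smul, hy.2 γ hγ])
    (fun x _ γ _ z => by rw [smul_smul, inv_mul_cancel_right])
  have e1 : ∀ z : ℍ, (W.w z : ℂ) * ∑ v ∈ S.R, ((y (v • z) : ℝ) : ℂ) =
      ((W.w z * Tf S.R y z : ℝ) : ℂ) := by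
    intro z
    unfold Tf
    push_cast
    rfl
  have e2 : ∀ z : ℍ, (W.w z : ℂ) * ∑ v ∈ S.R, ((y (v⁻¹ • v • z) : ℝ) : ℂ) =
      (((S.R.card : ℝ) * (W.w z * y z) : ℝ) : ℂ) := by
    intro z
    simp only [inv_smul_smul, Finset.sum_const, nsmul_eq_mul]
    push_cast
    ring
  simp only [e1, e2, integral_complex_ofReal] at h
  have h2 := Complex.ofReal_injective h
  rw [h2, integral_const_mul]

end HQ
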