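import Pool.Agent.Work.MP_d2a4bb_nt.QE.Stmts
import Pool.Agent.Work.MP_d2a4bb_nt.QE.I_TFI

/-!
# Block [d2a4bb QE], item MOD: bounds and moduli of continuity of the iterates of the Hecke operator
-/

set_option autoImplicit false

open UpperHalfPlane MeasureTheory Matrix
open scoped MatrixGroups Manifold Topology ComplexConjugate

namespace HQ

namespace IMOD

/-- a test function is bounded -/
theorem bounded (S : Setup) (y : ℍ → ℝ) (hy : Test S.Γ y) : ∃ B, ∀ z, |y z| ≤ B := by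
  obtain ⟨B, hB⟩ := S.K_compact.exists_bound_of_continuousOn hy.1.continuousOn
  refine ⟨B, fun z => ?_⟩
  obtain ⟨γ, hγ, hz⟩ := S.K_cover z
  have h := hB _ hz
  rwa [hy.2 γ hγ z, Real.norm_eq_abs] at h

/-- a test function is uniformly continuous -/
theorem unif (S : Setup) (y : ℍ → ℝ) (hy : Test S.Γ y) (ε : ℝ) (hε : 0 < ε) :
    ∃ δ > (0 : ℝ), ∀ z w : ℍ, dist z w < δ → |y z - y w| ≤ ε := by
  have hK : IsCompact (Metric.cthickening 1 S.K) := S.K_compact.cthickening
  have hu : UniformContinuousOn y (Metric.cthickening 1 S.K) :=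
    hK.uniformContinuousOn_of_continuous hy.1.continuousOn
  obtain ⟨δ, hδ, h⟩ := Metric.uniformContinuousOn_iff.1 hu ε hε
  refine ⟨min δ 1, lt_min hδ one_pos, fun z w hzw => ?_⟩
  obtain ⟨γ, hγ, hz⟩ := S.K_cover z
  have hd : dist (γ • z) (γ • w) = dist z w := dist_smul γ z w
  have h1 : γ • z ∈ Metric.cthickening 1 S.K := Metric.self_subset_cthickening S.K hz
  have h2 : γ • w ∈ Metric.cthickening 1 S.K := by
    refine Metric.mem_cthickening_of_dist_le _ (γ • z) 1 S.K hz ?_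
    rw [dist_comm, hd]
    exact (hzw.trans_le (min_le_right _ _)).le
  have h3 := h _ h1 _ h2 (by rw [hd]; exact hzw.trans_le (min_le_left _ _))
  rw [hy.2 γ hγ, hy.2 γ hγ, Real.dist_eq] at h3
  exact h3.le

/-- the iterates multiply moduli by at most the number of letters -/
theorem iter_mod (R : Finset SL(2, ℝ)) (y : ℍ → ℝ) (ε δ : ℝ)
    (h : ∀ z w : ℍ, dist z w < δ → |y z - y w| ≤ ε) (n : ℕ) :
    ∀ z w : ℍ, dist z w < δ → |((Tf R)^[n] y) z - ((Tf R)^[n] y) w| ≤ ε * (R.card : ℝ) ^ n := by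
  induction n with
  | zero =>
    intro z w hzw
    simpa using h z w hzw
  | succ n ih =>
    intro z w hzw
    rw [Function.iterate_succ_apply']
    show |∑ β ∈ R, ((Tf R)^[n] y) (β • z) - ∑ β ∈ R, ((Tf R)^[n] y) (β • w)| ≤ _
    rw [← Finset.sum_sub_distrib]
    calc |∑ β ∈ R, (((Tf R)^[n] y) (β • z) - ((Tf R)^[n] y) (β • w))|
        ≤ ∑ β ∈ R, |((Tf R)^[n] y) (β • z) - ((Tf R)^[n] y) (β • w)| :=
          Finset.abs_sum_le_sum_abs _ _
      _ ≤ ∑ _β ∈ R, ε * (R.card : ℝ) ^ n :=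
          Finset.sum_le_sum fun β _ => ih _ _ (by rw [dist_smul]; exact hzw)
      _ = ε * (R.card : ℝ) ^ (n + 1) := by
          rw [Finset.sum_const, nsmul_eq_mul]
          ring

/-- the iterates multiply bounds by at most the number of letters -/
theorem iter_bound (R : Finset SL(2, ℝ)) (y : ℍ → ℝ) (B : ℝ) (h : ∀ z : ℍ, |y z| ≤ B) (n : ℕ) :
    ∀ z : ℍ, |((Tf R)^[n] y) z| ≤ B * (R.card : ℝ) ^ n := by
  induction n with
  | zero =>
    intro z
    simpa using h z
  | succ n ih =>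
    intro z
    rw [Function.iterate_succ_apply']
    show |∑ β ∈ R, ((Tf R)^[n] y) (β • z)| ≤ _
    calc |∑ β ∈ R, ((Tf R)^[n] y) (β • z)|
        ≤ ∑ β ∈ R, |((Tf R)^[n] y) (β • z)| := Finset.abs_sum_le_sum_abs _ _
      _ ≤ ∑ _β ∈ R, B * (R.card : ℝ) ^ n := Finset.sum_le_sum fun β _ => ih _
      _ = B * (R.card : ℝ) ^ (n + 1) := by
          rw [Finset.sum_const, nsmul_eq_mul]
          ring

end IMOD

/-- item MOD (no hypotheses are needed) -/
theorem prMOD : StMOD := by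
  intro S y hy
  refine ⟨IMOD.bounded S y hy, ?_, ?_, ?_⟩
  · intro n
    induction n with
    | zero => simpa using hy
    | succ n ih =>
      rw [Function.iterate_succ_apply']
      exact ITFI.test S _ ih
  · intro ε hε
    obtain ⟨δ, hδ, h⟩ := IMOD.unif S y hy ε hε
    exact ⟨δ, hδ, fun n => IMOD.iter_mod S.R y ε δ h n⟩
  · intro B n h
    exact IMOD.iter_bound S.R y B h n

end HQ
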