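import Pool.Agent.Work.MP_d2a4bb_nt.QE.Stmts

/-!
# Item MOI: monomials are independent
-/

set_option autoImplicit false

open UpperHalfPlane MeasureTheory Matrix
open scoped MatrixGroups Manifold Topology ComplexConjugate

namespace HQ

namespace IMOI

/-- holomorphic functions on the upper half plane -/
def Hol (f : ℍ → ℂ) : Prop := DifferentiableOn ℂ (f ∘ ofComplex) {z : ℂ | 0 < z.im}

theorem hol_iff (f : ℍ → ℂ) : MDifferentiable 𝓘(ℂ) 𝓘(ℂ) f ↔ Hol f :=
  UpperHalfPlane.mdifferentiable_iff

theorem preconn : IsPreconnected {z : ℂ | 0 < z.im} :=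
  (convex_halfSpace_im_gt 0).isPreconnected

/-- no zero divisors -/
theorem dom {f g : ℍ → ℂ} (hf : Hol f) (hg : Hol g) (h : ∀ z, f z * g z = 0) :
    (∀ z, f z = 0) ∨ ∀ z, g z = 0 := by
  have ho : IsOpen {z : ℂ | 0 < z.im} := Complex.isOpen_im_gt 0
  have hfa := hf.analyticOnNhd ho
  have hga := hg.analyticOnNhd ho
  rcases AnalyticOnNhd.eq_zero_or_eq_zero_of_mul_eq_zero hfa hga
    (fun z _ => h (ofComplex z)) preconn with h1 | h1
  · left
    intro z
    have h2 := h1 (z : ℂ) z.im_pos
    simpa using h2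
  · right
    intro z
    have h2 := h1 (z : ℂ) z.im_pos
    simpa using h2

/-- the homogeneous polynomial with coefficients `c` -/
def H (P₀ P₁ : ℍ → ℂ) (c : ℕ → ℂ) (n : ℕ) (z : ℍ) : ℂ :=
  ∑ i ∈ Finset.range (n + 1), c i * (P₀ z ^ i * P₁ z ^ (n - i))

theorem hol_H {P₀ P₁ : ℍ → ℂ} (h₀ : Hol P₀) (h₁ : Hol P₁) (c : ℕ → ℂ) (n : ℕ) :
    Hol (H P₀ P₁ c n) := by
  have h : DifferentiableOn ℂ (fun w => ∑ i ∈ Finset.range (n + 1),
      c i * ((P₀ ∘ ofComplex) w ^ i * (P₁ ∘ ofComplex) w ^ (n - i))) {z : ℂ | 0 < z.im} := by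
    apply DifferentiableOn.fun_sum
    intro i _
    exact (((h₀.pow i).mul (h₁.pow (n - i)))).const_mul (c i)
  exact h

theorem H_succ (P₀ P₁ : ℍ → ℂ) (c : ℕ → ℂ) (n : ℕ) (z : ℍ) :
    H P₀ P₁ c (n + 1) z = P₁ z * H P₀ P₁ c n z + c (n + 1) * P₀ z ^ (n + 1) := by
  unfold H
  rw [Finset.sum_range_succ, Nat.sub_self, pow_zero, mul_one, Finset.mul_sum]
  congr 1
  apply Finset.sum_congr rfl
  intro i hi
  rw [Finset.mem_range] at hi
  rw [show n + 1 - i = (n - i) + 1 by omega, pow_succ]
  ring

/-- division by a linear factor -/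
theorem H_div (P₀ P₁ : ℍ → ℂ) (c c' : ℕ → ℂ) (r : ℂ) (n : ℕ) (z : ℍ) (h0 : c 0 = -(r * c' 0))
    (hs : ∀ i, c (i + 1) = c' i - r * c' (i + 1)) (hn : c' (n + 1) = 0) :
    H P₀ P₁ c (n + 1) z = (P₀ z - r * P₁ z) * H P₀ P₁ c' n z := by
  have e1 : H P₀ P₁ c (n + 1) z = P₀ z * H P₀ P₁ c' n z - r * H P₀ P₁ c' (n + 1) z := by
    have e2 : H P₀ P₁ c' (n + 1) z =
        (∑ i ∈ Finset.range (n + 1), c' (i + 1) * (P₀ z ^ (i + 1) * P₁ z ^ (n - i))) +
          c' 0 * P₁ z ^ (n + 1) := by
      unfold H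
      rw [Finset.sum_range_succ' _ (n + 1)]
      simp only [pow_zero, one_mul, Nat.sub_zero, Nat.add_sub_add_right]
    have e3 : H P₀ P₁ c (n + 1) z =
        (∑ i ∈ Finset.range (n + 1), c (i + 1) * (P₀ z ^ (i + 1) * P₁ z ^ (n - i))) +
          c 0 * P₁ z ^ (n + 1) := by
      unfold H
      rw [Finset.sum_range_succ' _ (n + 1)]
      simp only [pow_zero, one_mul, Nat.sub_zero, Nat.add_sub_add_right]
    rw [e2, e3, h0]
    unfold H
    rw [mul_add, Finset.mul_sum, Finset.mul_sum]
    have e4 : ∑ i ∈ Finset.range (n + 1), c (i + 1) * (P₀ z ^ (i + 1) * P₁ z ^ (n - i)) =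
        (∑ i ∈ Finset.range (n + 1), P₀ z * (c' i * (P₀ z ^ i * P₁ z ^ (n - i)))) -
        ∑ i ∈ Finset.range (n + 1), r * (c' (i + 1) * (P₀ z ^ (i + 1) * P₁ z ^ (n - i))) := by
      rw [← Finset.sum_sub_distrib]
      apply Finset.sum_congr rfl
      intro i _
      rw [hs i]
      ring
    rw [e4]
    ring
  rw [e1, H_succ, hn]
  ring

/-- the coefficients of a vanishing form are zero -/
theorem coeff_zero {P₀ P₁ : ℍ → ℂ} (h₀ : Hol P₀) (h₁ : Hol P₁)
    (hind : ∀ a b : ℂ, (∀ z, a * P₀ z + b * P₁ z = 0) → a = 0 ∧ b = 0) (n : ℕ) :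
    ∀ c : ℕ → ℂ, (∀ z, H P₀ P₁ c n z = 0) → ∀ i ≤ n, c i = 0 := by
  induction n with
  | zero =>
    intro c hc i hi
    have h := hc I
    simp only [H, zero_add, Finset.range_one, Finset.sum_singleton, pow_zero, mul_one,
      Nat.sub_self] at h
    rw [Nat.le_zero.1 hi, h]
  | succ n ih =>
    intro c hc
    have hP₁ : ¬ ∀ z, P₁ z = 0 := by
      intro h
      have := (hind 0 1 (fun z => by rw [h z]; ring)).2
      exact one_ne_zero this
    by_cases hcn : c (n + 1) = 0
    · have h1 : ∀ z, P₁ z * H P₀ P₁ c n z = 0 := by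
        intro z
        have h2 := hc z
        rw [H_succ, hcn, zero_mul, add_zero] at h2
        exact h2
      rcases dom h₁ (hol_H h₀ h₁ c n) h1 with h3 | h3
      · exact absurd h3 hP₁
      · intro i hi
        rcases Nat.lt_or_ge i (n + 1) with h4 | h4
        · exact ih c h3 i (by omega)
        · rw [show i = n + 1 by omega, hcn]
    · exfalso
      -- a root
      set q : Polynomial ℂ := ∑ i ∈ Finset.range (n + 2), Polynomial.C (c i) * Polynomial.X ^ i
        with hq
      have hqc : ∀ i, q.coeff i = if i < n + 2 then c i else 0 := by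
        intro i
        rw [hq, Polynomial.finsetSum_coeff]
        simp only [Polynomial.coeff_C_mul, Polynomial.coeff_X_pow, mul_ite, mul_one, mul_zero]
        rw [Finset.sum_ite_eq (Finset.range (n + 2)) i c]
        simp only [Finset.mem_range]
      have hdeg : q.degree ≠ 0 := by
        intro h
        have h5 : q.coeff (n + 1) = 0 := by
          apply Polynomial.coeff_eq_zero_of_degree_lt
          rw [h]
          exact_mod_cast Nat.succ_pos n
        rw [hqc, if_pos (by omega)] at h5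
        exact hcn h5
      obtain ⟨r, hr⟩ := IsAlgClosed.exists_root q hdeg
      obtain ⟨q₁, hq₁⟩ := Polynomial.dvd_iff_isRoot.2 hr
      have hq0 : q ≠ 0 := by
        intro h
        have h5 : q.coeff (n + 1) = 0 := by rw [h, Polynomial.coeff_zero]
        rw [hqc, if_pos (by omega)] at h5
        exact hcn h5
      have hq10 : q₁ ≠ 0 := by
        rintro rfl
        rw [mul_zero] at hq₁
        exact hq0 hq₁
      have hnd : q₁.natDegree ≤ n := by
        have h6 : q.natDegree = 1 + q₁.natDegree := by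
          rw [hq₁, Polynomial.natDegree_mul (Polynomial.X_sub_C_ne_zero r) hq10,
            Polynomial.natDegree_X_sub_C]
        have h7 : q.natDegree ≤ n + 1 := by
          rw [Polynomial.natDegree_le_iff_coeff_eq_zero]
          intro N hN
          rw [hqc, if_neg (by omega)]
        omega
      have c0 : c 0 = -(r * q₁.coeff 0) := by
        have h8 : q.coeff 0 = -(r * q₁.coeff 0) := by
          rw [hq₁, Polynomial.mul_coeff_zero]
          simp
        rwa [hqc, if_pos (by omega)] at h8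
      have hcoef : ∀ i, q.coeff (i + 1) = q₁.coeff i - r * q₁.coeff (i + 1) := by
        intro i
        rw [hq₁, sub_mul, Polynomial.coeff_sub, Polynomial.coeff_X_mul, Polynomial.coeff_C_mul]
      -- replace `c` by the coefficients of `q`
      have hH : ∀ z, H P₀ P₁ c (n + 1) z = H P₀ P₁ q.coeff (n + 1) z := by
        intro z
        unfold H
        apply Finset.sum_congr rfl
        intro i hi
        rw [Finset.mem_range] at hi
        rw [hqc, if_pos (by omega)]
      have h9 : ∀ z, (P₀ z - r * P₁ z) * H P₀ P₁ q₁.coeff n z = 0 := by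
        intro z
        rw [← H_div P₀ P₁ q.coeff q₁.coeff r n z (by rw [hqc, if_pos (by omega), c0]) hcoef
          (Polynomial.coeff_eq_zero_of_natDegree_lt (by omega)), ← hH]
        exact hc z
      have hlin : Hol (fun z => P₀ z - r * P₁ z) := h₀.sub (h₁.const_mul r)
      rcases dom hlin (hol_H h₀ h₁ q₁.coeff n) h9 with h10 | h10
      · have := (hind 1 (-r) (fun z => by
          have h11 := h10 z
          rw [← h11]
          ring)).1
        exact one_ne_zero this
      · have h12 := ih q₁.coeff h10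
        apply hq10
        ext i
        rw [Polynomial.coeff_zero]
        rcases Nat.lt_or_ge n i with h13 | h13
        · exact Polynomial.coeff_eq_zero_of_natDegree_lt (by omega)
        · exact h12 i h13

end IMOI

theorem prMOI : StMOI := by
  intro P₀ P₁ h hP₀ hP₁ hh hh0 hind n
  rw [IMOI.hol_iff] at hP₀ hP₁ hh
  rw [Fintype.linearIndependent_iff]
  intro g hg
  set c : ℕ → ℂ := fun i => if hi : i < n + 1 then g ⟨i, hi⟩ else 0 with hc
  have h1 : ∀ z, IMOI.H P₀ P₁ c n z * h z = 0 := by
    intro z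
    have h2 := congrFun hg z
    rw [Finset.sum_apply] at h2
    simp only [Pi.smul_apply, smul_eq_mul, Pi.zero_apply] at h2
    rw [← h2]
    unfold IMOI.H
    rw [Finset.sum_range, Finset.sum_mul]
    apply Finset.sum_congr rfl
    intro i _
    have h3 : c i = g i := by
      rw [hc]
      simp only [i.2, dif_pos, Fin.eta]
    rw [h3]
    ring
  rcases IMOI.dom (IMOI.hol_H hP₀ hP₁ c n) hh h1 with h4 | h4
  · intro i
    have h5 := IMOI.coeff_zero hP₀ hP₁ hind n c h4 i (by omega)
    have h3 : c i = g i := by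
      rw [hc]
      simp only [i.2, dif_pos, Fin.eta]
    rw [← h3, h5]
  · exact absurd (funext h4) hh0

end HQ
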