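import Pool.Agent.Work.MP_d2a4bb_nt.QE.Stmts

set_option autoImplicit false

/-!
# Mass transport
-/

open UpperHalfPlane MeasureTheory Matrix
open scoped MatrixGroups Manifold Topology ComplexConjugate

namespace HQ

namespace IMTP

/-- unfolding of the sum over representatives -/
theorem unfold {Γ : Subgroup SL(2, ℝ)} (W : Weight Γ) {P : Set SL(2, ℝ)} {V : Finset SL(2, ℝ)}
    (hPl : ∀ x ∈ P, ∀ γ ∈ Γ, γ * x ∈ P) (hV : Reps Γ P V) (F : Finset SL(2, ℝ))
    (hF : ∀ x, x ∈ F ↔ x ∈ P ∧ ∃ z ∈ tsupport W.w, x • z ∈ tsupport W.w)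
    (H : ℍ → SL(2, ℝ) → ℂ) (hH : ∀ x ∈ P, ∀ γ ∈ Γ, ∀ z, H z (γ * x) = H z x) (z : ℍ) :
    (W.w z : ℂ) * ∑ v ∈ V, H z v = ∑ x ∈ F, (W.w z : ℂ) * (W.w (x • z) : ℂ) * H z x := by
  classical
  by_cases hz : W.w z = 0
  · simp [hz]
  have hzK : z ∈ tsupport W.w := subset_tsupport _ hz
  obtain ⟨hV1, hV2, hV3⟩ := hV
  choose! rep hrepV hrepΓ using hV2
  have hmap : ∀ x ∈ F, rep x ∈ V := fun x hx => hrepV x ((hF x).1 hx).1
  rw [← Finset.sum_fiberwise_of_maps_to hmap, Finset.mul_sum]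
  refine Finset.sum_congr rfl fun v hv => ?_
  have hvP := hV1 v hv
  have hone : ∑ x ∈ F with rep x = v, W.w (x • z) = 1 := by
    have h1 := W.sum (v • z)
    rw [finsum_subtype_eq_finsum_cond (f := fun γ : SL(2, ℝ) => W.w (γ • (v • z)))
      (fun γ => γ ∈ Γ)] at h1
    rw [← h1]
    have h2 : (finsum fun γ : SL(2, ℝ) => finsum fun _ : γ ∈ Γ => W.w (γ • v • z)) =
        ∑ γ ∈ (F.filter (fun x => rep x = v)).image (fun x => x * v⁻¹), W.w (γ • v • z) := by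
      refine finsum_mem_eq_sum_of_inter_support_eq (s := (Γ : Set SL(2, ℝ))) _ ?_
      ext γ
      simp only [Set.mem_inter_iff, Function.mem_support, Finset.coe_image, Finset.coe_filter,
        Set.mem_image, Set.mem_ofPred_eq, SetLike.mem_coe]
      constructor
      · rintro ⟨hγ, hw⟩
        refine ⟨⟨γ * v, ⟨?_, ?_⟩, by group⟩, hw⟩
        · rw [hF]
          refine ⟨hPl v hvP γ hγ, z, hzK, ?_⟩
          rw [mul_smul]
          exact subset_tsupport _ hw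
        · have hP' := hPl v hvP γ hγ
          refine (hV3 v hv _ (hrepV _ hP') ?_).symm
          have h3 : v * (rep (γ * v))⁻¹ = γ⁻¹ * (γ * v * (rep (γ * v))⁻¹) := by group
          rw [h3]
          exact Γ.mul_mem (Γ.inv_mem hγ) (hrepΓ _ hP')
      · rintro ⟨⟨x, ⟨hxF, hxv⟩, rfl⟩, hw⟩
        refine ⟨?_, hw⟩
        have := hrepΓ x ((hF x).1 hxF).1
        rwa [hxv] at this
    rw [h2, Finset.sum_image (fun a _ b _ hab => mul_right_cancel hab)]
    refine Finset.sum_congr rfl fun x _ => ?_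
    rw [mul_smul, inv_smul_smul]
  have hone' : ∑ x ∈ F with rep x = v, (W.w (x • z) : ℂ) = 1 := by
    exact_mod_cast congrArg (fun t : ℝ => (t : ℂ)) hone
  have h4 : ∀ x ∈ F.filter (fun x => rep x = v),
      (W.w z : ℂ) * (W.w (x • z) : ℂ) * H z x = (W.w (x • z) : ℂ) * ((W.w z : ℂ) * H z v) := by
    intro x hx
    rw [Finset.mem_filter] at hx
    have h5 := hrepΓ x ((hF x).1 hx.1).1
    rw [hx.2] at h5
    have h6 := hH v hvP _ h5 z
    rw [inv_mul_cancel_right] at h6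
    rw [h6]
    ring
  rw [Finset.sum_congr rfl h4, ← Finset.sum_mul, hone', one_mul]

theorem integrable {Γ : Subgroup SL(2, ℝ)} (W : Weight Γ) (x : SL(2, ℝ)) (f : ℍ → ℂ)
    (hf : Continuous f) :
    Integrable (fun z : ℍ => (W.w z : ℂ) * (W.w (x • z) : ℂ) * f z) := by
  have hc : Continuous fun z : ℍ => (W.w z : ℂ) := Complex.continuous_ofReal.comp W.cont
  have hc' : Continuous fun z : ℍ => (W.w (x • z) : ℂ) := hc.comp (continuous_const_smul x)
  refine ((hc.mul hc').mul hf).integrable_of_hasCompactSupport ?_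
  have hs : HasCompactSupport fun z : ℍ => (W.w z : ℂ) := W.supp.comp_left Complex.ofReal_zero
  exact (hs.mul_right).mul_right

end IMTP

/-- mass transport -/
theorem prMTP (hVOL : StVOL) : StMTP := by
  classical
  intro Γ W P V hPl hPi hV hfin h hc hl hr
  have hK : IsCompact (tsupport W.w) := W.supp
  set F : Finset SL(2, ℝ) := (hfin _ hK).toFinset with hFdef
  have hF : ∀ x, x ∈ F ↔ x ∈ P ∧ ∃ z ∈ tsupport W.w, x • z ∈ tsupport W.w := by
    intro x
    rw [hFdef, Set.Finite.mem_toFinset, Set.mem_ofPred_eq]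
  have hFi : ∀ x ∈ F, x⁻¹ ∈ F := by
    intro x hx
    rw [hF] at hx ⊢
    obtain ⟨hxP, z, hz, hxz⟩ := hx
    exact ⟨hPi x hxP, x • z, hxz, by rwa [inv_smul_smul]⟩
  have hl' : ∀ x ∈ P, ∀ γ ∈ Γ, ∀ z, (fun z x => h (x • z) x⁻¹) z (γ * x) =
      (fun z x => h (x • z) x⁻¹) z x := by
    intro x hx γ hγ z
    simp only
    rw [_root_.mul_inv_rev, mul_smul]
    exact hr x⁻¹ (hPi x hx) γ hγ (x • z)
  have e1 : ∫ z : ℍ, (W.w z : ℂ) * ∑ v ∈ V, h z v =
      ∑ x ∈ F, ∫ z : ℍ, (W.w z : ℂ) * (W.w (x • z) : ℂ) * h z x := by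
    rw [← integral_finsetSum _ (fun x hx => IMTP.integrable W x _ (hc x ((hF x).1 hx).1))]
    exact integral_congr_ae (Filter.Eventually.of_forall (IMTP.unfold W hPl hV F hF h hl))
  have hc2 : ∀ x ∈ F, Continuous fun z : ℍ => h (x • z) x⁻¹ := fun x hx =>
    (hc x⁻¹ (hPi x ((hF x).1 hx).1)).comp (continuous_const_smul x)
  have e2 : ∫ z : ℍ, (W.w z : ℂ) * ∑ v ∈ V, h (v • z) v⁻¹ =
      ∑ x ∈ F, ∫ z : ℍ, (W.w z : ℂ) * (W.w (x • z) : ℂ) * h (x • z) x⁻¹ := by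
    rw [← integral_finsetSum _ (fun x hx => IMTP.integrable W x _ (hc2 x hx))]
    exact integral_congr_ae (Filter.Eventually.of_forall
      (IMTP.unfold W hPl hV F hF (fun z x => h (x • z) x⁻¹) hl'))
  rw [e1, e2]
  refine Finset.sum_nbij' (fun x => x⁻¹) (fun x => x⁻¹) hFi hFi (fun x _ => inv_inv x)
    (fun x _ => inv_inv x) (fun x hx => ?_)
  have h3 := hVOL.2.1 x⁻¹ (fun z => (W.w z : ℂ) * (W.w (x • z) : ℂ) * h z x)
  rw [← h3]
  refine integral_congr_ae (Filter.Eventually.of_forall fun z => ?_)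
  simp only [smul_inv_smul, inv_inv]
  ring

end HQ
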