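import Pool.Agent.Work.MP_d2a4bb_nt.QE.Stmts

/-!
# PCK: packing
-/

open UpperHalfPlane MeasureTheory Matrix
open scoped MatrixGroups Manifold Topology ComplexConjugate

namespace HQ

namespace IPCK

theorem sumOne (Γ : Subgroup SL(2, ℝ)) (W : Weight Γ) (c : ℍ) (r : ℝ) :
    ∃ S : Finset SL(2, ℝ), (∀ γ ∈ S, γ ∈ Γ) ∧ ∀ u ∈ Metric.ball c r, ∑ γ ∈ S, W.w (γ • u) = 1 := by
  classical
  have hfin := W.fin (Metric.closedBall c r) (isCompact_closedBall c r)
  refine ⟨hfin.toFinset, ?_, ?_⟩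
  · intro γ hγ
    exact ((Set.Finite.mem_toFinset hfin).1 hγ).1
  · intro u hu
    have h1 : ∀ γ ∈ hfin.toFinset, γ ∈ Γ := fun γ hγ => ((Set.Finite.mem_toFinset hfin).1 hγ).1
    have h2 : ∑ γ ∈ hfin.toFinset.subtype (· ∈ Γ), W.w ((γ : SL(2, ℝ)) • u) =
        ∑ γ ∈ hfin.toFinset, W.w (γ • u) :=
      Finset.sum_subtype_of_mem (fun γ : SL(2, ℝ) => W.w (γ • u)) h1
    rw [← h2, ← W.sum u, finsum_eq_sum_of_support_subset]
    intro γ hγ
    rw [Finset.mem_coe, Finset.mem_subtype, Set.Finite.mem_toFinset]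
    exact ⟨γ.2, u, Metric.ball_subset_closedBall hu, hγ⟩

theorem one (hVOL : StVOL) (Γ : Subgroup SL(2, ℝ)) (W : Weight Γ) (G : ℍ → ℝ) (hGc : Continuous G)
    (hGi : ∀ γ ∈ Γ, ∀ z : ℍ, G (γ • z) = G z) (c : ℍ) (r : ℝ) :
    ∃ S : Finset SL(2, ℝ), (∀ γ ∈ S, γ ∈ Γ) ∧
      (∀ γ : SL(2, ℝ), Integrable ({v : ℍ | γ⁻¹ • v ∈ Metric.ball c r}.indicator
        (fun v : ℍ => W.w v * G v))) ∧
      ∫ u in Metric.ball c r, G u = ∑ γ ∈ S, ∫ v : ℍ,
        {v : ℍ | γ⁻¹ • v ∈ Metric.ball c r}.indicator (fun v : ℍ => W.w v * G v) v := by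
  obtain ⟨S, hS, hS1⟩ := sumOne Γ W c r
  have hwG : Integrable (fun v : ℍ => W.w v * G v) :=
    (W.cont.mul hGc).integrable_of_hasCompactSupport (W.supp.mul_right)
  have hmeas : ∀ γ : SL(2, ℝ), MeasurableSet {v : ℍ | γ⁻¹ • v ∈ Metric.ball c r} := by
    intro γ
    exact (Metric.isOpen_ball.preimage (continuous_const_smul γ⁻¹)).measurableSet
  refine ⟨S, hS, fun γ => hwG.indicator (hmeas γ), ?_⟩
  have hint : ∀ γ ∈ S, IntegrableOn (fun u : ℍ => W.w (γ • u) * G u) (Metric.ball c r) := by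
    intro γ hγ
    have hc : Continuous fun u : ℍ => W.w (γ • u) * G u :=
      (W.cont.comp (continuous_const_smul γ)).mul hGc
    exact (hc.continuousOn.integrableOn_compact (isCompact_closedBall c r)).mono_set
      Metric.ball_subset_closedBall
  have h1 : ∫ u in Metric.ball c r, G u =
      ∫ u in Metric.ball c r, ∑ γ ∈ S, W.w (γ • u) * G u := by
    apply setIntegral_congr_fun measurableSet_ball
    intro u hu
    show G u = ∑ γ ∈ S, W.w (γ • u) * G u
    rw [← Finset.sum_mul, hS1 u hu, one_mul]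
  rw [h1, integral_finsetSum _ hint]
  apply Finset.sum_congr rfl
  intro γ hγ
  rw [← integral_indicator measurableSet_ball,
    ← hVOL.2.2 γ ({v : ℍ | γ⁻¹ • v ∈ Metric.ball c r}.indicator (fun v : ℍ => W.w v * G v))]
  congr 1
  ext u
  by_cases hu : u ∈ Metric.ball c r
  · have h2 : γ • u ∈ {v : ℍ | γ⁻¹ • v ∈ Metric.ball c r} := by
      show γ⁻¹ • γ • u ∈ Metric.ball c r
      rwa [inv_smul_smul]
    rw [Set.indicator_of_mem hu, Set.indicator_of_mem h2, hGi γ (hS γ hγ) u]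
  · have h2 : γ • u ∉ {v : ℍ | γ⁻¹ • v ∈ Metric.ball c r} := by
      show ¬ γ⁻¹ • γ • u ∈ Metric.ball c r
      rwa [inv_smul_smul]
    rw [Set.indicator_of_notMem hu, Set.indicator_of_notMem h2]

end IPCK

theorem prPCK (hVOL : StVOL) (hPHA : StPHA) (hPHB : StPHB) : StPCK := by
  intro Γ W m f hf V z r M hM
  classical
  have hGc : Continuous (fun u : ℍ => FF m f u ^ 2) := (hPHB.2.2.1 Γ m f hf).2.pow 2
  have hGi : ∀ γ ∈ Γ, ∀ u : ℍ, FF m f (γ • u) ^ 2 = FF m f u ^ 2 := by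
    intro γ hγ u
    rw [hPHA.2.2.2.1 Γ m f hf γ hγ u]
  choose S hS hSi hSe using fun a : List SL(2, ℝ) =>
    IPCK.one hVOL Γ W (fun u : ℍ => FF m f u ^ 2) hGc hGi (a.prod • z) r
  have hwG : Integrable (fun v : ℍ => W.w v * FF m f v ^ 2) :=
    (W.cont.mul hGc).integrable_of_hasCompactSupport (W.supp.mul_right)
  rw [Finset.sum_congr rfl (fun a _ => hSe a)]
  rw [Finset.sum_sigma' V S (fun a γ => ∫ v : ℍ,
    {v : ℍ | γ⁻¹ • v ∈ Metric.ball (a.prod • z) r}.indicator (fun v : ℍ => W.w v * FF m f v ^ 2) v),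
    ← integral_finsetSum _ (fun x _ => hSi x.1 x.2), ← integral_const_mul]
  apply integral_mono (integrable_finsetSum _ (fun x _ => hSi x.1 x.2)) (hwG.const_mul _)
  intro v
  show ∑ x ∈ V.sigma S, {v : ℍ | x.2⁻¹ • v ∈ Metric.ball (x.1.prod • z) r}.indicator
      (fun v : ℍ => W.w v * FF m f v ^ 2) v ≤ (M : ℝ) * (W.w v * FF m f v ^ 2)
  have h0 : 0 ≤ W.w v * FF m f v ^ 2 := mul_nonneg (W.nonneg v) (sq_nonneg _)
  by_cases hv : W.w v = 0
  · rw [hv, zero_mul, mul_zero]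
    apply le_of_eq
    apply Finset.sum_eq_zero
    intro x _
    by_cases hx : v ∈ {v : ℍ | x.2⁻¹ • v ∈ Metric.ball (x.1.prod • z) r}
    · rw [Set.indicator_of_mem hx, hv, zero_mul]
    · rw [Set.indicator_of_notMem hx]
  · have h1 : ∑ x ∈ V.sigma S, {v : ℍ | x.2⁻¹ • v ∈ Metric.ball (x.1.prod • z) r}.indicator
        (fun v : ℍ => W.w v * FF m f v ^ 2) v =
        ∑ x ∈ (V.sigma S).filter (fun x => x.2⁻¹ • v ∈ Metric.ball (x.1.prod • z) r),
          W.w v * FF m f v ^ 2 := by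
      rw [Finset.sum_filter]
      apply Finset.sum_congr rfl
      intro x _
      rfl
    rw [h1, Finset.sum_const, nsmul_eq_mul]
    apply mul_le_mul_of_nonneg_right _ h0
    have h2 : (((V.sigma S).filter (fun x => x.2⁻¹ • v ∈ Metric.ball (x.1.prod • z) r)).card : ℕ∞) ≤
        M := by
      refine le_trans ?_ (hM v hv)
      have hinj : Function.Injective (fun x : (_ : List SL(2, ℝ)) × SL(2, ℝ) =>
          ((x.2⁻¹, x.1) : SL(2, ℝ) × List SL(2, ℝ))) := by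
        rintro ⟨a, b⟩ ⟨a', b'⟩ h
        have h3 : b⁻¹ = b'⁻¹ := congrArg Prod.fst h
        have h4 : a = a' := congrArg Prod.snd h
        obtain rfl := inv_injective h3
        obtain rfl := h4
        rfl
      rw [← Finset.card_image_of_injective _ hinj, ← Set.encard_coe_eq_coe_finsetCard]
      apply Set.encard_le_encard
      intro p hp
      rw [Finset.mem_coe, Finset.mem_image] at hp
      obtain ⟨x, hx, rfl⟩ := hp
      rw [Finset.mem_filter, Finset.mem_sigma] at hx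
      exact ⟨Γ.inv_mem (hS _ _ hx.1.2), hx.1.1, hx.2⟩
    exact_mod_cast h2

end HQ
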