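import Pool.Agent.Work.MP_d2a4bb_nt.QE.Stmts

/-! Block [d2a4bb QE], item PHA. -/

open UpperHalfPlane MeasureTheory Matrix
open scoped MatrixGroups Manifold Topology ComplexConjugate

namespace HQ

namespace IPHA

theorem one (hJJ : StJJ) (Γ : Subgroup SL(2, ℝ)) (m : ℕ) (f : ℍ → ℂ) (hf : Form Γ m f)
    (γ : SL(2, ℝ)) (hγ : γ ∈ Γ) (z : ℍ) (g : SL(2, ℝ)) : phi m f z (γ * g) = phi m f z g := by
  unfold phi
  rw [mul_smul, hf.2 γ hγ, hJJ.2.1, mul_pow, mul_div_mul_left]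
  exact pow_ne_zero _ (hJJ.1 _ _)

theorem two (hJJ : StJJ) (m : ℕ) (h : SL(2, ℝ)) (z : ℍ) : ∃ u : ℂ, ‖u‖ = 1 ∧
    ∀ (f : ℍ → ℂ) (g : SL(2, ℝ)), phi m f z (g * h) = u * phi m f (h • z) g := by
  have hj : jj h z ≠ 0 := hJJ.1 h z
  have hn : ((‖jj h z‖ : ℝ) : ℂ) ≠ 0 := by
    rw [Complex.ofReal_ne_zero]
    exact norm_ne_zero_iff.2 hj
  refine ⟨(((‖jj h z‖ : ℝ) : ℂ) ^ 2 / jj h z ^ 2) ^ m, ?_, ?_⟩
  · rw [norm_pow, norm_div, norm_pow, norm_pow, Complex.norm_real, norm_norm,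
      div_self (pow_ne_zero _ (norm_ne_zero_iff.2 hj)), one_pow]
  · intro f g
    unfold phi
    have hg : jj g (h • z) ≠ 0 := hJJ.1 _ _
    rw [mul_smul, hJJ.2.1, hJJ.2.2.1 h z, mul_pow, pow_mul (jj h z), pow_mul (jj g (h • z))]
    push_cast
    rw [div_pow, div_pow]
    have h1 : (jj g (h • z) ^ 2) ^ m ≠ 0 := pow_ne_zero _ (pow_ne_zero _ hg)
    have h2 : (jj h z ^ 2) ^ m ≠ 0 := pow_ne_zero _ (pow_ne_zero _ hj)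
    have h3 : (((‖jj h z‖ : ℝ) : ℂ) ^ 2) ^ m ≠ 0 := pow_ne_zero _ (pow_ne_zero _ hn)
    field_simp

theorem three (hJJ : StJJ) (m : ℕ) (f : ℍ → ℂ) (z : ℍ) (g : SL(2, ℝ)) :
    ‖phi m f z g‖ = FF m f (g • z) := by
  unfold phi FF
  rw [hJJ.2.2.1 g z, norm_mul, norm_div, norm_pow, norm_pow, Complex.norm_real, Real.norm_eq_abs,
    abs_of_pos z.im_pos, div_pow, pow_mul]
  have h3 : (‖jj g z‖ ^ 2) ^ m ≠ 0 := pow_ne_zero _ (pow_ne_zero _ (norm_ne_zero_iff.2 (hJJ.1 g z)))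
  field_simp

theorem five (hJJ : StJJ) (m : ℕ) (f : ℍ → ℂ) (z : ℍ) :
    phi m f z 1 = f z * ((z.im : ℝ) : ℂ) ^ m := by
  unfold phi
  rw [one_smul, hJJ.2.2.2.2.2.2 z, one_pow, div_one]

theorem four (hJJ : StJJ) (Γ : Subgroup SL(2, ℝ)) (m : ℕ) (f : ℍ → ℂ) (hf : Form Γ m f)
    (γ : SL(2, ℝ)) (hγ : γ ∈ Γ) (z : ℍ) : FF m f (γ • z) = FF m f z := by
  rw [← three hJJ m f z γ]
  have h1 := one hJJ Γ m f hf γ hγ z 1
  rw [mul_one] at h1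
  rw [h1, three hJJ m f z 1, one_smul]

end IPHA

theorem prPHA (hJJ : StJJ) : StPHA :=
  ⟨IPHA.one hJJ, IPHA.two hJJ, IPHA.three hJJ, IPHA.four hJJ, IPHA.five hJJ⟩

end HQ
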