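import Pool.Agent.Work.MP_d2a4bb_nt.QE.Stmts

/-!
# MP_d2a4bb_nt, block QE, item PHB.  Author: helper73
-/

open UpperHalfPlane MeasureTheory Matrix
open scoped MatrixGroups Manifold Topology ComplexConjugate

namespace HQ

theorem prPHB (hJJ : StJJ) : StPHB := by
  obtain ⟨hne, hco, -, hct, -, -, -⟩ := hJJ
  have hsm : ∀ g : SL(2, ℝ), Continuous fun z : ℍ => g • z := fun g => continuous_const_smul g
  have him : Continuous fun z : ℍ => ((z.im : ℝ) : ℂ) :=
    Complex.continuous_ofReal.comp UpperHalfPlane.continuous_im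
  refine ⟨?_, ?_, ?_, ?_⟩
  · intro R m f l h z g
    have h0 := h (g • z)
    unfold phi
    calc ∑ β ∈ R, f ((β * g) • z) / jj (β * g) z ^ (2 * m) * ((z.im : ℝ) : ℂ) ^ m
        = ∑ β ∈ R, (f (β • (g • z)) / jj β (g • z) ^ (2 * m)) *
            ((jj g z ^ (2 * m))⁻¹ * ((z.im : ℝ) : ℂ) ^ m) := by
          apply Finset.sum_congr rfl
          intro β _
          rw [hco, mul_smul, mul_pow, div_mul_eq_div_div]
          ring
      _ = (∑ β ∈ R, f (β • (g • z)) / jj β (g • z) ^ (2 * m)) *
            ((jj g z ^ (2 * m))⁻¹ * ((z.im : ℝ) : ℂ) ^ m) := by rw [Finset.sum_mul]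
      _ = l * (f (g • z) / jj g z ^ (2 * m) * ((z.im : ℝ) : ℂ) ^ m) := by
          rw [h0]
          ring
  · intro m f hf g
    unfold phi
    exact ((hf.comp (hsm g)).div ((hct g).pow (2 * m)) (fun z => pow_ne_zero _ (hne g z))).mul
      (him.pow m)
  · intro Γ m f hf
    have hc : Continuous f := hf.1.continuous
    refine ⟨hc, ?_⟩
    unfold FF
    exact hc.norm.mul (UpperHalfPlane.continuous_im.pow m)
  · intro m ι s c f z g
    unfold phi
    rw [Finset.sum_div, Finset.sum_mul]
    apply Finset.sum_congr rfl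
    intro i _
    ring

end HQ
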