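import Pool.Agent.Work.MP_d2a4bb_nt.QE.Stmts

/-!
# Item POI: Poincare series
-/

open UpperHalfPlane MeasureTheory Matrix
open scoped MatrixGroups Manifold Topology ComplexConjugate

namespace HQ

namespace IPOI

/-- `(a w + b) - conj z₀ (c w + d)`. -/
noncomputable def D (z₀ : ℍ) (g : SL(2, ℝ)) (w : ℂ) : ℂ :=
  (((g 0 0 : ℝ) : ℂ) * w + ((g 0 1 : ℝ) : ℂ)) -
    conj (z₀ : ℂ) * (((g 1 0 : ℝ) : ℂ) * w + ((g 1 1 : ℝ) : ℂ))

/-- The terms of the series. -/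
noncomputable def tm (z₀ : ℍ) (m : ℕ) (g : SL(2, ℝ)) (w : ℂ) : ℂ :=
  ((2 * Complex.I * ((z₀.im : ℝ) : ℂ)) / D z₀ g w) ^ (2 * m)

theorem sub_ne (z₀ z : ℍ) : (z : ℂ) - conj (z₀ : ℂ) ≠ 0 := by
  intro h
  have h1 := congrArg Complex.im h
  simp only [Complex.sub_im, Complex.conj_im, Complex.zero_im] at h1
  have h2 : 0 < (z : ℂ).im := z.im_pos
  have h3 : 0 < (z₀ : ℂ).im := z₀.im_pos
  linarith

theorem D_eq (hJJ : StJJ) (z₀ : ℍ) (g : SL(2, ℝ)) (z : ℍ) :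
    D z₀ g z = jj g z * (((g • z : ℍ) : ℂ) - conj (z₀ : ℂ)) := by
  have hj := hJJ.1 g z
  have h1 : ((g • z : ℍ) : ℂ) = (((g 0 0 : ℝ) : ℂ) * z + ((g 0 1 : ℝ) : ℂ)) / jj g z :=
    coe_specialLinearGroup_apply g z
  rw [h1, mul_sub, mul_div_cancel₀ _ hj, D, mul_comm (jj g z)]
  rfl

theorem D_ne (hJJ : StJJ) (z₀ : ℍ) (g : SL(2, ℝ)) (z : ℍ) : D z₀ g z ≠ 0 := by
  rw [D_eq hJJ]
  exact mul_ne_zero (hJJ.1 g z) (sub_ne z₀ _)

theorem D_smul (hJJ : StJJ) (z₀ : ℍ) (g h : SL(2, ℝ)) (z : ℍ) :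
    D z₀ g ((h • z : ℍ) : ℂ) * jj h z = D z₀ (g * h) z := by
  rw [D_eq hJJ, D_eq hJJ, hJJ.2.1, mul_smul]
  ring

theorem tm_smul (hJJ : StJJ) (z₀ : ℍ) (m : ℕ) (g h : SL(2, ℝ)) (z : ℍ) :
    tm z₀ m g ((h • z : ℍ) : ℂ) = jj h z ^ (2 * m) * tm z₀ m (g * h) z := by
  rw [tm, tm, ← D_smul hJJ, ← mul_pow]
  congr 1
  have h1 := hJJ.1 h z
  have h2 := D_ne hJJ z₀ g (h • z)
  field_simp

theorem norm_tm (hJJ : StJJ) (z₀ : ℍ) (m : ℕ) (g : SL(2, ℝ)) (z : ℍ) :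
    ‖tm z₀ m g z‖ * z.im ^ m = z₀.im ^ m * rho z₀ (g • z) ^ m := by
  have hj : 0 < ‖jj g z‖ := norm_pos_iff.2 (hJJ.1 g z)
  have hs : 0 < ‖((g • z : ℍ) : ℂ) - conj (z₀ : ℂ)‖ := norm_pos_iff.2 (sub_ne z₀ _)
  have h1 : ‖tm z₀ m g z‖ = (4 * z₀.im ^ 2 / (‖jj g z‖ * ‖((g • z : ℍ) : ℂ) - conj (z₀ : ℂ)‖) ^ 2) ^ m := by
    rw [tm, D_eq hJJ, norm_pow, norm_div, norm_mul, norm_mul, norm_mul, Complex.norm_I,
      Complex.norm_real, Real.norm_of_nonneg z₀.im_pos.le, pow_mul]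
    congr 1
    rw [div_pow]
    congr 1
    norm_num
    ring
  rw [h1, rho, hJJ.2.2.1 g z, ← mul_pow, ← mul_pow]
  congr 1
  field_simp

theorem summ_rho (hSUM : StSUM) (hRHO : StRHO) (Q : QuatOrder) (z₀ z : ℍ) {m : ℕ} (hm : 3 ≤ m) :
    Summable fun γ : Q.Γ => rho z₀ ((γ : SL(2, ℝ)) • z) ^ m := by
  obtain ⟨b, hb, hb'⟩ := hSUM Q z₀ {z} isCompact_singleton
  refine Summable.of_nonneg_of_le (fun γ => pow_nonneg (hRHO.1 z₀ _).1.le m) (fun γ => ?_) hb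
  exact (pow_le_pow_of_le_one (hRHO.1 z₀ _).1.le (hRHO.1 z₀ _).2.1 hm).trans
    (hb' γ z (Set.mem_singleton z))

theorem norm_tm' (hJJ : StJJ) (z₀ : ℍ) (m : ℕ) (g : SL(2, ℝ)) (z : ℍ) :
    ‖tm z₀ m g z‖ = (z₀.im / z.im) ^ m * rho z₀ (g • z) ^ m := by
  have h := norm_tm hJJ z₀ m g z
  have hz : 0 < z.im ^ m := pow_pos z.im_pos m
  rw [div_pow, div_mul_eq_mul_div, eq_div_iff hz.ne', h]

theorem summ_tm (hSUM : StSUM) (hRHO : StRHO) (hJJ : StJJ) (Q : QuatOrder) (z₀ z : ℍ) {m : ℕ}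
    (hm : 3 ≤ m) : Summable fun γ : Q.Γ => tm z₀ m (γ : SL(2, ℝ)) z := by
  refine Summable.of_norm ?_
  simp_rw [norm_tm' hJJ]
  exact (summ_rho hSUM hRHO Q z₀ z hm).mul_left _

theorem isCompact_K {w : ℂ} (h : 0 < w.im) :
    IsCompact (ofComplex '' Metric.closedBall w (w.im / 2)) := by
  refine (isCompact_closedBall w _).image_of_continuousOn fun v hv => ?_
  have hv' : 0 < v.im := by
    have h1 : |(v - w).im| ≤ ‖v - w‖ := Complex.abs_im_le_norm _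
    rw [Metric.mem_closedBall, dist_eq_norm] at hv
    rw [Complex.sub_im] at h1
    have h2 := abs_le.1 (h1.trans hv)
    linarith [h2.1]
  exact (mdifferentiableAt_ofComplex hv').continuousAt.continuousWithinAt

theorem im_ge {v w : ℂ} (hv : v ∈ Metric.closedBall w (w.im / 2)) : w.im / 2 ≤ v.im := by
  have h1 : |(v - w).im| ≤ ‖v - w‖ := Complex.abs_im_le_norm _
  rw [Metric.mem_closedBall, dist_eq_norm] at hv
  rw [Complex.sub_im] at h1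
  have h2 := abs_le.1 (h1.trans hv)
  linarith [h2.1]

theorem diff_tm (hJJ : StJJ) (z₀ : ℍ) (m : ℕ) (g : SL(2, ℝ)) {w : ℂ} (hw : 0 < w.im) :
    DifferentiableAt ℂ (tm z₀ m g) w := by
  have hD : D z₀ g w ≠ 0 := D_ne hJJ z₀ g ⟨w, hw⟩
  have h1 : DifferentiableAt ℂ (D z₀ g) w := by
    unfold D
    fun_prop
  exact ((differentiableAt_const _).div h1 hD).pow _

theorem holo (hSUM : StSUM) (hRHO : StRHO) (hJJ : StJJ) (Q : QuatOrder) (z₀ : ℍ) {m : ℕ}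
    (hm : 3 ≤ m) :
    MDifferentiable 𝓘(ℂ) 𝓘(ℂ) (fun z : ℍ => ∑' γ : Q.Γ, tm z₀ m (γ : SL(2, ℝ)) z) := by
  rw [UpperHalfPlane.mdifferentiable_iff]
  intro w hw
  have hw' : 0 < w.im := hw
  obtain ⟨b, hb, hb'⟩ := hSUM Q z₀ _ (isCompact_K hw')
  have h1 : DifferentiableOn ℂ (fun v => ∑' γ : Q.Γ, tm z₀ m (γ : SL(2, ℝ)) v)
      (Metric.ball w (w.im / 2)) := by
    refine Complex.differentiableOn_tsum_of_summable_norm
      (hb.mul_left ((z₀.im / (w.im / 2)) ^ m)) (fun γ v hv => ?_) Metric.isOpen_ball ?_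
    · have hv' := im_ge (Metric.ball_subset_closedBall hv)
      exact (diff_tm hJJ z₀ m _ (by linarith)).differentiableWithinAt
    · intro γ v hv
      have hv0 := Metric.ball_subset_closedBall hv
      have hv' := im_ge hv0
      have hvp : 0 < v.im := by linarith
      have e1 : (((⟨v, hvp⟩ : ℍ) : ℍ) : ℂ) = v := rfl
      have e2 := norm_tm' hJJ z₀ m (γ : SL(2, ℝ)) ⟨v, hvp⟩
      rw [e1] at e2
      rw [e2]
      have e3 : (⟨v, hvp⟩ : ℍ) ∈ ofComplex '' Metric.closedBall w (w.im / 2) :=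
        ⟨v, hv0, ofComplex_apply_of_im_pos hvp⟩
      have e4 := hb' γ _ e3
      have e5 : rho z₀ ((γ : SL(2, ℝ)) • (⟨v, hvp⟩ : ℍ)) ^ m ≤ b γ :=
        (pow_le_pow_of_le_one (hRHO.1 z₀ _).1.le (hRHO.1 z₀ _).2.1 hm).trans e4
      have e6 : (z₀.im / (⟨v, hvp⟩ : ℍ).im) ^ m ≤ (z₀.im / (w.im / 2)) ^ m := by
        refine pow_le_pow_left₀ (div_nonneg z₀.im_pos.le hvp.le) ?_ m
        exact div_le_div_of_nonneg_left z₀.im_pos.le (by linarith) hv'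
      exact mul_le_mul e6 e5 (pow_nonneg (hRHO.1 z₀ _).1.le m)
        (pow_nonneg (div_nonneg z₀.im_pos.le (by linarith)) m)
  have h2 : DifferentiableAt ℂ (fun v => ∑' γ : Q.Γ, tm z₀ m (γ : SL(2, ℝ)) v) w :=
    (h1 w (Metric.mem_ball_self (by linarith))).differentiableAt
      (Metric.ball_mem_nhds w (by linarith))
  refine (h2.congr_of_eventuallyEq ?_).differentiableWithinAt
  filter_upwards [isOpen_upperHalfPlaneSet.mem_nhds hw] with v hv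
  have hv' : 0 < v.im := hv
  simp only [Function.comp_apply]
  rw [ofComplex_apply_of_im_pos hv']

theorem neg_one_mem (Q : QuatOrder) : (-1 : SL(2, ℝ)) ∈ Q.Γ := by
  have h1 : ((-1 : SL(2, ℝ)) : Matrix (Fin 2) (Fin 2) ℝ) ∈ Q.O := by
    have : ((-1 : SL(2, ℝ)) : Matrix (Fin 2) (Fin 2) ℝ) = -1 := by
      simp
    rw [this]
    exact Q.O.neg_mem Q.O.one_mem
  have h2 : ((-1 : SL(2, ℝ)))⁻¹ = -1 := by
    refine inv_eq_of_mul_eq_one_right ?_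
    rw [neg_mul_neg, one_mul]
  refine ⟨h1, ?_⟩
  rw [h2]
  exact h1

theorem tm_one (z₀ : ℍ) (m : ℕ) : tm z₀ m 1 z₀ = 1 := by
  have h : D z₀ 1 z₀ = 2 * Complex.I * ((z₀.im : ℝ) : ℂ) := by
    have h1 : (z₀ : ℂ) - conj (z₀ : ℂ) = 2 * Complex.I * ((z₀.im : ℝ) : ℂ) := by
      rw [Complex.sub_conj]
      push_cast
      have : (z₀ : ℂ).im = z₀.im := rfl
      rw [this]
      ring
    rw [← h1, D]
    simp
  have hne : (2 * Complex.I * ((z₀.im : ℝ) : ℂ)) ≠ 0 := by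
    have : ((z₀.im : ℝ) : ℂ) ≠ 0 := by exact_mod_cast z₀.im_pos.ne'
    simp [this]
  rw [tm, h, div_self hne, one_pow]

theorem D_neg (z₀ : ℍ) (g : SL(2, ℝ)) (w : ℂ) : D z₀ (-g) w = - D z₀ g w := by
  have e : ∀ i j, (-g) i j = - g i j := fun i j => by
    rw [SpecialLinearGroup.coe_neg]; rfl
  simp only [D, e]
  push_cast
  ring

theorem tm_neg (z₀ : ℍ) (m : ℕ) (g : SL(2, ℝ)) (w : ℂ) : tm z₀ m (-g) w = tm z₀ m g w := by
  rw [tm, tm, D_neg, div_neg, Even.neg_pow (even_two_mul m)]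

theorem one_ne_neg_one : (1 : SL(2, ℝ)) ≠ -1 := by
  intro h
  have h1 := congrArg (fun g : SL(2, ℝ) => (g : Matrix (Fin 2) (Fin 2) ℝ) 0 0) h
  simp at h1
  norm_num at h1

end IPOI

open IPOI in
theorem prPOI (hSUM : StSUM) (hRHO : StRHO) (hJJ : StJJ) : StPOI := by
  classical
  intro Q z₀ m hm
  refine ⟨fun z : ℍ => ∑' γ : Q.Γ, tm z₀ m (γ : SL(2, ℝ)) z,
    ⟨holo hSUM hRHO hJJ Q z₀ hm, ?_⟩, ?_, ?_⟩
  · intro γ hγ z
    simp only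
    have h1 : ∀ g : Q.Γ, tm z₀ m (g : SL(2, ℝ)) ((γ • z : ℍ) : ℂ) =
        jj γ z ^ (2 * m) * tm z₀ m ((g * ⟨γ, hγ⟩ : Q.Γ) : SL(2, ℝ)) z := fun g => by
      rw [tm_smul hJJ]
      rfl
    simp_rw [h1]
    rw [tsum_mul_left]
    congr 1
    exact (Equiv.mulRight (⟨γ, hγ⟩ : Q.Γ)).tsum_eq
      (fun g : Q.Γ => tm z₀ m (g : SL(2, ℝ)) z)
  · intro z
    have hs := summ_tm hSUM hRHO hJJ Q z₀ z hm
    have hn : Summable fun γ : Q.Γ => ‖tm z₀ m (γ : SL(2, ℝ)) z‖ := by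
      simp_rw [norm_tm' hJJ]
      exact (summ_rho hSUM hRHO Q z₀ z hm).mul_left _
    calc ‖∑' γ : Q.Γ, tm z₀ m (γ : SL(2, ℝ)) z‖ * z.im ^ m
        ≤ (∑' γ : Q.Γ, ‖tm z₀ m (γ : SL(2, ℝ)) z‖) * z.im ^ m :=
          mul_le_mul_of_nonneg_right (norm_tsum_le_tsum_norm hn) (pow_pos z.im_pos m).le
      _ = z₀.im ^ m * ∑' γ : Q.Γ, rho z₀ ((γ : SL(2, ℝ)) • z) ^ m := by
          rw [← tsum_mul_right, ← tsum_mul_left]
          exact tsum_congr fun γ => norm_tm hJJ z₀ m _ z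
  · have hs := summ_tm hSUM hRHO hJJ Q z₀ z₀ hm
    have hn : Summable fun γ : Q.Γ => ‖tm z₀ m (γ : SL(2, ℝ)) z₀‖ := by
      simp_rw [norm_tm' hJJ]
      exact (summ_rho hSUM hRHO Q z₀ z₀ hm).mul_left _
    set e1 : Q.Γ := ⟨1, Q.Γ.one_mem⟩ with he1
    set e2 : Q.Γ := ⟨-1, neg_one_mem Q⟩ with he2
    have hne : e1 ≠ e2 := fun h => one_ne_neg_one (congrArg Subtype.val h)
    set s : Finset Q.Γ := {e1, e2} with hsdef
    have hsum : ∑ x ∈ s, tm z₀ m (x : SL(2, ℝ)) z₀ = 2 := by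
      rw [hsdef, Finset.sum_pair hne]
      simp only [he1, he2]
      rw [tm_neg, tm_one]
      norm_num
    have hsplit := hs.sum_add_tsum_compl (s := s)
    rw [hsum] at hsplit
    have hset : ((s : Set Q.Γ)ᶜ) = {γ : Q.Γ | (γ : SL(2, ℝ)) ≠ 1 ∧ (γ : SL(2, ℝ)) ≠ -1} := by
      ext γ
      simp only [hsdef, Set.mem_compl_iff, Finset.mem_coe, Finset.mem_insert,
        Finset.mem_singleton, Set.mem_ofPred_eq, not_or, he1, he2, Subtype.ext_iff, ne_eq]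
    rw [hset] at hsplit
    simp only
    rw [← hsplit, add_sub_cancel_left]
    have hn' : Summable fun γ : {γ : Q.Γ // (γ : SL(2, ℝ)) ≠ 1 ∧ (γ : SL(2, ℝ)) ≠ -1} =>
        ‖tm z₀ m ((γ : Q.Γ) : SL(2, ℝ)) z₀‖ := hn.subtype _
    refine (norm_tsum_le_tsum_norm hn').trans (le_of_eq (tsum_congr fun γ => ?_))
    rw [norm_tm' hJJ, div_self z₀.im_pos.ne', one_pow, one_mul]

end HQ
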