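import Pool.Agent.Work.MP_d2a4bb_nt.QE.Stmts

/-!
# Item PTW of the block [d2a4bb QE]: pointwise bound for the sum over an orthonormal family.
-/

open UpperHalfPlane MeasureTheory Matrix
open scoped MatrixGroups Manifold Topology ComplexConjugate

namespace HQ

theorem prPTW (hSMV : StSMV) (hPCK : StPCK) (hBES : StBES) (hPHA : StPHA) : StPTW := by
  obtain ⟨C, hC, hS⟩ := hSMV
  refine ⟨C, hC, fun Γ W V κ z r M m hm hr hr1 hmr hM ι _ f hf => ?_⟩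
  have hκ : 0 ≤ ∑ a ∈ V, κ a ^ 2 := Finset.sum_nonneg fun a _ => sq_nonneg _
  refine hBES Γ W m V (fun a => (κ a : ℂ)) z (C * m * M * ∑ a ∈ V, κ a ^ 2) (by positivity) ?_ ι f hf
  intro g hg
  have h1 : ‖∑ a ∈ V, (κ a : ℂ) * phi m g z a.prod‖ ≤ ∑ a ∈ V, |κ a| * FF m g (a.prod • z) := by
    refine (norm_sum_le _ _).trans (Finset.sum_le_sum fun a _ => ?_)
    rw [norm_mul, hPHA.2.2.1, Complex.norm_real, Real.norm_eq_abs]
  have h2 : ‖∑ a ∈ V, (κ a : ℂ) * phi m g z a.prod‖ ^ 2 ≤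
      (∑ a ∈ V, κ a ^ 2) * ∑ a ∈ V, FF m g (a.prod • z) ^ 2 := by
    refine (pow_le_pow_left₀ (norm_nonneg _) h1 2).trans ?_
    refine (Finset.sum_mul_sq_le_sq_mul_sq V (fun a => |κ a|) (fun a => FF m g (a.prod • z))).trans_eq ?_
    simp only [sq_abs]
  have h3 : ∑ a ∈ V, FF m g (a.prod • z) ^ 2 ≤ C * m * (M * ∫ u : ℍ, W.w u * FF m g u ^ 2) := by
    calc ∑ a ∈ V, FF m g (a.prod • z) ^ 2
        ≤ ∑ a ∈ V, C * m * ∫ u in Metric.ball (a.prod • z) r, FF m g u ^ 2 :=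
          Finset.sum_le_sum fun a _ => hS m g hm hg.1 (a.prod • z) r hr hr1 hmr
      _ = C * m * ∑ a ∈ V, ∫ u in Metric.ball (a.prod • z) r, FF m g u ^ 2 := by rw [Finset.mul_sum]
      _ ≤ C * m * (M * ∫ u : ℍ, W.w u * FF m g u ^ 2) :=
          mul_le_mul_of_nonneg_left (hPCK Γ W m g hg V z r M hM) (by positivity)
  calc ‖∑ a ∈ V, (κ a : ℂ) * phi m g z a.prod‖ ^ 2
      ≤ (∑ a ∈ V, κ a ^ 2) * ∑ a ∈ V, FF m g (a.prod • z) ^ 2 := h2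
    _ ≤ (∑ a ∈ V, κ a ^ 2) * (C * m * (M * ∫ u : ℍ, W.w u * FF m g u ^ 2)) :=
        mul_le_mul_of_nonneg_left h3 hκ
    _ = C * m * M * (∑ a ∈ V, κ a ^ 2) * ∫ u : ℍ, W.w u * FF m g u ^ 2 := by ring

end HQ
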