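import Pool.Agent.Work.MP_d2a4bb_nt.QE.Stmts

open UpperHalfPlane MeasureTheory Matrix
open scoped MatrixGroups Manifold Topology ComplexConjugate

namespace HQ
namespace IREC

/-- The integrand of `NN` at the point `z`. -/
noncomputable def GG (S : Setup) (m : ℕ) (f : ℍ → ℂ) (y : ℍ → ℝ) (L i : ℕ) (z : ℍ) : ℂ :=
  ∑ a ∈ words S.Γ S.R L, (y (vtx a i • z) : ℂ) * (phi m f z 1 * conj (phi m f z a.prod))

theorem NN_eq (S : Setup) (W : Weight S.Γ) (m : ℕ) (f : ℍ → ℂ) (y : ℍ → ℝ) (L i : ℕ) :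
    NN S W m f y L i = ∫ z : ℍ, (W.w z : ℂ) * GG S m f y L i z := rfl

/-- The number of letters which do not cancel a given letter is `card R - 1`. -/
theorem count (hWRD : StWRD) (S : Setup) (α : SL(2, ℝ)) (hα : α ∈ S.R) (c : ℂ) :
    (∑ β ∈ S.R, (open Classical in if β * α ∈ S.Γ then (0 : ℂ) else c)) = ((S.R.card : ℂ) - 1) * c := by
  classical
  obtain ⟨β₀, hβ₀, hm, hu⟩ := (hWRD S).2.2.1 α hα
  have h1 : (∑ β ∈ S.R, (if β * α ∈ S.Γ then (0 : ℂ) else c)) =
      ∑ β ∈ S.R, (c - if β = β₀ then c else 0) := by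
    refine Finset.sum_congr rfl fun β hβ => ?_
    by_cases h : β * α ∈ S.Γ
    · rw [if_pos h, if_pos (hu β hβ h), sub_self]
    · have : β ≠ β₀ := fun h2 => h (h2 ▸ hm)
      rw [if_neg h, if_neg this, sub_zero]
  have h2 : (∑ β ∈ S.R, (c - if β = β₀ then c else 0)) = ((S.R.card : ℂ) - 1) * c := by
    rw [Finset.sum_sub_distrib, Finset.sum_const, Finset.sum_ite_eq' S.R β₀, if_pos hβ₀, nsmul_eq_mul]
    ring
  convert h1.trans h2

/-- The pointwise recursion. -/
theorem point (hWRD : StWRD) (hEXT : StEXT) (S : Setup) (m : ℕ) (f : ℍ → ℂ) (l : ℝ) (y : ℍ → ℝ)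
    (hf : Form S.Γ m f) (hl : Eigen S.R m f (l : ℂ)) (L i : ℕ) (hL : 2 ≤ L) (hi : i + 1 ≤ L) (z : ℍ) :
    GG S m f y (L + 1) i z = l * GG S m f y L i z - ((S.R.card : ℂ) - 1) * GG S m f y (L - 1) i z := by
  classical
  have hw := hWRD S
  -- first step
  have e1 : GG S m f y (L + 1) i z = ∑ a ∈ words S.Γ S.R L,
      (l * ((y (vtx a i • z) : ℂ) * (phi m f z 1 * conj (phi m f z a.prod))) -
        (y (vtx a i • z) : ℂ) * (phi m f z 1 * conj (phi m f z a.tail.prod))) := by
    unfold GG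
    rw [hw.2.1 L (fun a => (y (vtx a i • z) : ℂ) * (phi m f z 1 * conj (phi m f z a.prod)))]
    refine Finset.sum_congr rfl fun a ha => ?_
    obtain ⟨hlen, hword⟩ := (hw.1 L a).1 ha
    rcases a with _ | ⟨α, a'⟩
    · simp at hlen; omega
    · have hα : α ∈ S.R := hword.1 α (by simp)
      have hv : ∀ β : SL(2, ℝ), vtx (β :: α :: a') i = vtx (α :: a') i := fun β =>
        hw.2.2.2.1 β (α :: a') i (by rw [hlen]; omega)
      have e2 := hEXT S m f (l : ℂ) hf hl α hα z a'.prod
      have e3 : (∑ β ∈ S.R, if (∀ α_1 ∈ (α :: a').head?, β * α_1 ∉ S.Γ) then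
          (y (vtx (β :: α :: a') i • z) : ℂ) * (phi m f z 1 * conj (phi m f z (β :: α :: a').prod)) else 0) =
          (y (vtx (α :: a') i • z) : ℂ) * (phi m f z 1 *
            conj (∑ β ∈ S.R, (if β * α ∈ S.Γ then 0 else phi m f z (β * (α * a'.prod))))) := by
        rw [map_sum, Finset.mul_sum, Finset.mul_sum]
        refine Finset.sum_congr rfl fun β hβ => ?_
        rw [hv β]
        by_cases h : β * α ∈ S.Γ
        · rw [if_pos h, if_neg (by simpa using h)]; simp
        · rw [if_neg h, if_pos (by simpa using h)]; simp [List.prod_cons]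
      rw [e3]
      have e4 : (∑ β ∈ S.R, (if β * α ∈ S.Γ then 0 else phi m f z (β * (α * a'.prod)))) =
          (l : ℂ) * phi m f z (α * a'.prod) - phi m f z a'.prod := by
        convert e2
      rw [e4, map_sub, map_mul, Complex.conj_ofReal, List.prod_cons, List.tail_cons]
      ring
  rw [e1, Finset.sum_sub_distrib, ← Finset.mul_sum]
  congr 1
  -- second step
  obtain ⟨n, rfl⟩ : ∃ n, L = n + 1 := ⟨L - 1, by omega⟩
  rw [hw.2.1 n (fun a => (y (vtx a i • z) : ℂ) * (phi m f z 1 * conj (phi m f z a.tail.prod)))]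
  rw [Nat.add_sub_cancel]
  unfold GG
  rw [Finset.mul_sum]
  refine Finset.sum_congr rfl fun a ha => ?_
  obtain ⟨hlen, hword⟩ := (hw.1 n a).1 ha
  rcases a with _ | ⟨α, a'⟩
  · simp at hlen; omega
  · have hα : α ∈ S.R := hword.1 α (by simp)
    have hv : ∀ β : SL(2, ℝ), vtx (β :: α :: a') i = vtx (α :: a') i := fun β =>
      hw.2.2.2.1 β (α :: a') i (by rw [hlen]; omega)
    rw [← count hWRD S α hα ((y (vtx (α :: a') i • z) : ℂ) * (phi m f z 1 * conj (phi m f z (α :: a').prod)))]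
    refine Finset.sum_congr rfl fun β hβ => ?_
    rw [hv β, List.tail_cons]
    by_cases h : β * α ∈ S.Γ
    · rw [if_pos h, if_neg (by simpa using h)]
    · rw [if_neg h, if_pos (by simpa using h)]

/-- Continuity of the integrand. -/
theorem contGG (hPHB : StPHB) (S : Setup) (m : ℕ) (f : ℍ → ℂ) (y : ℍ → ℝ)
    (hf : Form S.Γ m f) (hy : Test S.Γ y) (L i : ℕ) : Continuous (GG S m f y L i) := by
  have hc : Continuous f := (hPHB.2.2.1 S.Γ m f hf).1
  unfold GG
  refine continuous_finsetSum _ fun a _ => ?_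
  refine Continuous.mul ?_ (Continuous.mul (hPHB.2.1 m f hc 1) ?_)
  · exact Complex.continuous_ofReal.comp (hy.1.comp (continuous_const_smul _))
  · exact Complex.continuous_conj.comp (hPHB.2.1 m f hc a.prod)

theorem integ (hPHB : StPHB) (S : Setup) (W : Weight S.Γ) (m : ℕ) (f : ℍ → ℂ) (y : ℍ → ℝ)
    (hf : Form S.Γ m f) (hy : Test S.Γ y) (L i : ℕ) :
    Integrable (fun z : ℍ => (W.w z : ℂ) * GG S m f y L i z) := by
  refine Continuous.integrable_of_hasCompactSupport ?_ ?_
  · exact (Complex.continuous_ofReal.comp W.cont).mul (contGG hPHB S m f y hf hy L i)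
  · refine HasCompactSupport.mul_right ?_
    exact W.supp.comp_left (g := fun x : ℝ => (x : ℂ)) (by simp)

end IREC

theorem prREC (hWRD : StWRD) (hEXT : StEXT) (hPHB : StPHB) : StREC := by
  intro S W m f l y hf hl hy L i hL hi
  rw [IREC.NN_eq, IREC.NN_eq, IREC.NN_eq, ← integral_const_mul, ← integral_const_mul, ← integral_sub]
  · refine integral_congr_ae (Filter.Eventually.of_forall fun z => ?_)
    show (W.w z : ℂ) * IREC.GG S m f y (L + 1) i z = _
    rw [IREC.point hWRD hEXT S m f l y hf hl L i hL hi z]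
    ring
  · exact (IREC.integ hPHB S W m f y hf hy L i).const_mul _
  · exact (IREC.integ hPHB S W m f y hf hy (L - 1) i).const_mul _

end HQ
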