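import Pool.Agent.Work.MP_d2a4bb_nt.QE.Stmts

/-!
# Item RED: the eigenvalue is real
-/

set_option autoImplicit false

open UpperHalfPlane MeasureTheory Matrix
open scoped MatrixGroups Manifold Topology ComplexConjugate

namespace HQ

/-- item RED -/
theorem prRED (hSYM : StSYM) (hWRD : StWRD) (hPHA : StPHA) (hPHB : StPHB) : StRED := by
  intro S W m f l hF hE h1
  have hy : Test S.Γ (fun _ => (1 : ℝ)) := ⟨continuous_const, fun _ _ _ => rfl⟩
  have hs := hSYM S W m f (fun _ => 1) hF hy 1 0 (by norm_num)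
  have key : ∀ i, NN S W m f (fun _ => 1) 1 i = conj l := by
    intro i
    have hz : ∀ z : ℍ, (W.w z : ℂ) * ∑ a ∈ words S.Γ S.R 1,
        (((fun _ => (1 : ℝ)) (vtx a i • z) : ℝ) : ℂ) *
          (phi m f z 1 * conj (phi m f z a.prod)) =
        conj l * ((W.w z * FF m f z ^ 2 : ℝ) : ℂ) := by
      intro z
      have e1 := (hWRD S).2.1 0 (fun a => (((fun _ => (1 : ℝ)) (vtx a i • z) : ℝ) : ℂ) *
          (phi m f z 1 * conj (phi m f z a.prod)))
      have e2 : ∑ a ∈ words S.Γ S.R 1, (((fun _ => (1 : ℝ)) (vtx a i • z) : ℝ) : ℂ) *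
          (phi m f z 1 * conj (phi m f z a.prod)) =
          ∑ β ∈ S.R, phi m f z 1 * conj (phi m f z β) := by
        rw [show (1 : ℕ) = 0 + 1 from rfl, e1]
        simp [words]
      rw [e2]
      have e3 : ∑ β ∈ S.R, phi m f z 1 * conj (phi m f z β) =
          conj l * (phi m f z 1 * conj (phi m f z 1)) := by
        have e4 := hPHB.1 S.R m f l hE z 1
        simp only [mul_one] at e4
        rw [← Finset.mul_sum, ← map_sum, e4, map_mul]
        ring
      rw [e3, Complex.mul_conj, Complex.normSq_eq_norm_sq, hPHA.2.2.1 m f z 1, one_smul]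
      push_cast
      ring
    have hN : NN S W m f (fun _ => 1) 1 i =
        ∫ z : ℍ, conj l * ((W.w z * FF m f z ^ 2 : ℝ) : ℂ) := by
      unfold NN
      exact integral_congr_ae (Filter.Eventually.of_forall hz)
    rw [hN, integral_const_mul, integral_complex_ofReal, h1, Complex.ofReal_one, mul_one]
  rw [key, key] at hs
  have := congrArg Complex.im hs
  simp at this
  linarith

end HQ
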