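import Pool.Agent.Work.MP_d2a4bb_nt.QE.Stmts

/-!
# Block QE, item REV: the reversed path
-/

open UpperHalfPlane MeasureTheory Matrix
open scoped MatrixGroups Manifold Topology ComplexConjugate

namespace HQ

namespace IREV

theorem vtx_append (b : List SL(2, ℝ)) (β : SL(2, ℝ)) {j : ℕ} (hj : j ≤ b.length) :
    vtx (b ++ [β]) (j + 1) = vtx b j * β := by
  unfold vtx
  have h1 : (b ++ [β]).length - (j + 1) = b.length - j := by
    rw [List.length_append, List.length_singleton]; omega
  rw [h1, List.drop_append_of_le_length (Nat.sub_le _ _), List.prod_append, List.prod_singleton]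

theorem vtx_cons (α : SL(2, ℝ)) (a : List SL(2, ℝ)) {i : ℕ} (hi : i ≤ a.length) :
    vtx (α :: a) i = vtx a i := by
  unfold vtx
  have h1 : (α :: a).length - i = (a.length - i) + 1 := by
    rw [List.length_cons]; omega
  rw [h1, List.drop_succ_cons]

theorem vtx_full (a : List SL(2, ℝ)) : vtx a a.length = a.prod := by
  unfold vtx
  rw [Nat.sub_self, List.drop_zero]

theorem vtx_zero (a : List SL(2, ℝ)) : vtx a 0 = 1 := by
  unfold vtx
  rw [Nat.sub_zero, List.drop_length, List.prod_nil]

end IREV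

theorem prREV : StREV := by
  intro S a
  induction a with
  | nil =>
    intro _ γ₀ hγ₀
    refine ⟨[], ⟨by simp, by simp⟩, rfl, ?_⟩
    intro i hi
    have hi0 : i = 0 := Nat.le_zero.1 hi
    subst hi0
    refine ⟨γ₀, hγ₀, ?_⟩
    rw [IREV.vtx_zero, List.length_nil, Nat.sub_zero, IREV.vtx_zero, List.prod_nil, mul_one,
      one_mul, mul_inv_cancel]
  | cons α a ih =>
    intro hw γ₀ hγ₀
    have hw' : IsWord S.Γ S.R a :=
      ⟨fun x hx => hw.1 x (List.mem_cons_of_mem _ hx), hw.2.of_cons⟩
    have hαE : α ∈ S.E := S.R_mem α (hw.1 α List.mem_cons_self)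
    -- the first letter of the reversed path
    have hE : α⁻¹ * γ₀⁻¹ ∈ S.E := by
      have h1 : γ₀ * α ∈ S.E := S.E_mul γ₀ hγ₀ α hαE
      have h2 := S.E_inv _ h1
      rwa [_root_.mul_inv_rev] at h2
    obtain ⟨β, hβ, hβ1⟩ := S.R_rep _ hE
    set γ₁ : SL(2, ℝ) := α⁻¹ * γ₀⁻¹ * β⁻¹ with hγ₁
    have hγβ : γ₁ * β = α⁻¹ * γ₀⁻¹ := by rw [hγ₁, inv_mul_cancel_right]
    obtain ⟨b, hb, hbl, hbv⟩ := ih hw' γ₁⁻¹ (S.Γ.inv_mem hβ1)
    have hx : (γ₁⁻¹ * a.prod)⁻¹ * β = (γ₀ * (α :: a).prod)⁻¹ := by
      rw [List.prod_cons, _root_.mul_inv_rev, inv_inv, mul_assoc, hγβ, _root_.mul_inv_rev,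
        _root_.mul_inv_rev, mul_assoc]
    refine ⟨b ++ [β], ⟨?_, ?_⟩, ?_, ?_⟩
    · intro x hxm
      rcases List.mem_append.1 hxm with h | h
      · exact hb.1 x h
      · rw [List.mem_singleton] at h
        rw [h]; exact hβ
    · rw [List.isChain_append]
      refine ⟨hb.2, List.isChain_singleton _, ?_⟩
      intro x hxl y hyl
      simp only [List.head?_cons, Option.mem_def, Option.some.injEq] at hyl
      subst hyl
      -- x is the first letter of the path b
      obtain ⟨c, hc⟩ : ∃ c, b = c ++ [x] := by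
        rw [Option.mem_def] at hxl
        exact List.getLast?_eq_some_iff.1 hxl
      have hb1 : vtx b 1 = x := by
        rw [hc, IREV.vtx_append c x (Nat.zero_le _), IREV.vtx_zero, one_mul]
      cases a with
      | nil =>
        exfalso
        have : b.length = 0 := hbl
        rw [hc] at this
        simp at this
      | cons α' a' =>
        obtain ⟨γ, hγ, h1⟩ := hbv a'.length (by simp)
        have h2 : (α' :: a').length - a'.length = 1 := by simp
        rw [h2, hb1, IREV.vtx_cons α' a' (le_refl _), IREV.vtx_full, List.prod_cons,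
          _root_.mul_inv_rev, _root_.mul_inv_rev, inv_inv] at h1
        have h3 : x = γ * (α'⁻¹ * γ₁) := by
          rw [h1]; group
        have h4 : α * α' ∉ S.Γ := (List.isChain_cons_cons.1 hw.2).1
        intro h5
        apply h4
        rw [h3, mul_assoc, mul_assoc, hγβ] at h5
        have h6 : α * α' = γ₀⁻¹ * (γ * (α'⁻¹ * (α⁻¹ * γ₀⁻¹)))⁻¹ * γ := by group
        rw [h6]
        exact S.Γ.mul_mem (S.Γ.mul_mem (S.Γ.inv_mem hγ₀) (S.Γ.inv_mem h5)) hγ
    · rw [List.length_append, List.length_singleton, List.length_cons, hbl]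
    · intro i hi
      rw [List.length_cons] at hi
      rcases Nat.le_or_eq_of_le_succ hi with h | h
      · obtain ⟨γ, hγ, h1⟩ := hbv i h
        refine ⟨γ, hγ, ?_⟩
        have h2 : (α :: a).length - i = (a.length - i) + 1 := by
          rw [List.length_cons]; omega
        rw [h2, IREV.vtx_append b β (by omega), h1, IREV.vtx_cons α a h, ← hx]
        simp only [mul_assoc]
      · refine ⟨γ₀, hγ₀, ?_⟩
        have h2 : (α :: a).length - i = 0 := by
          rw [List.length_cons]; omega
        have h3 : i = (α :: a).length := by rw [List.length_cons]; exact h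
        rw [h2, IREV.vtx_zero, h3, IREV.vtx_full]
        group

end HQ
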