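import Mathlib
import Pool.Agent.Work.MP_d2a4bb_nt.QE.Stmts

/-!
# Block [d2a4bb QE], item RHO: the function `rho`
-/

set_option autoImplicit false

open UpperHalfPlane MeasureTheory Matrix
open scoped MatrixGroups Manifold Topology ComplexConjugate

namespace HQ

namespace IRHO

/-- the denominator -/
noncomputable def nn (z₀ z : ℍ) : ℝ := Complex.normSq ((z : ℂ) - conj (z₀ : ℂ))

theorem rho_eq (z₀ z : ℍ) : rho z₀ z = 4 * z.im * z₀.im / nn z₀ z := by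
  unfold rho nn
  rw [Complex.normSq_eq_norm_sq]

theorem nn_eq (z₀ z : ℍ) : nn z₀ z = ((z.re - z₀.re) ^ 2 + (z.im - z₀.im) ^ 2) +
    4 * z.im * z₀.im := by
  unfold nn
  rw [Complex.normSq_apply]
  simp only [Complex.sub_re, Complex.sub_im, Complex.conj_re, Complex.conj_im, coe_re, coe_im]
  ring

theorem nn_pos (z₀ z : ℍ) : 0 < nn z₀ z := by
  rw [nn_eq]
  have h1 := z.im_pos
  have h2 := z₀.im_pos
  positivity

theorem first (z₀ z : ℍ) : 0 < rho z₀ z ∧ rho z₀ z ≤ 1 ∧ (rho z₀ z = 1 → z = z₀) := by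
  have h1 := z.im_pos
  have h2 := z₀.im_pos
  have h3 := nn_pos z₀ z
  rw [rho_eq]
  refine ⟨by positivity, ?_, ?_⟩
  · rw [div_le_one h3, nn_eq]
    have : 0 ≤ (z.re - z₀.re) ^ 2 + (z.im - z₀.im) ^ 2 := by positivity
    linarith
  · intro h
    rw [div_eq_one_iff_eq h3.ne', nn_eq] at h
    have h4 : (z.re - z₀.re) ^ 2 + (z.im - z₀.im) ^ 2 = 0 := by linarith
    have h5 : (z.re - z₀.re) ^ 2 = 0 := by nlinarith [sq_nonneg (z.re - z₀.re), sq_nonneg (z.im - z₀.im)]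
    have h6 : (z.im - z₀.im) ^ 2 = 0 := by nlinarith [sq_nonneg (z.re - z₀.re), sq_nonneg (z.im - z₀.im)]
    have h7 : z.re = z₀.re := sub_eq_zero.1 (pow_eq_zero_iff (two_ne_zero)|>.1 h5)
    have h8 : z.im = z₀.im := sub_eq_zero.1 (pow_eq_zero_iff (two_ne_zero)|>.1 h6)
    apply UpperHalfPlane.ext
    apply Complex.ext
    · exact h7
    · exact h8

theorem cont (z₀ : ℍ) : Continuous (rho z₀) := by
  have e : rho z₀ = fun z => 4 * z.im * z₀.im / nn z₀ z := funext fun z => rho_eq z₀ z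
  rw [e]
  refine Continuous.div ?_ ?_ (fun z => (nn_pos z₀ z).ne')
  · exact (continuous_const.mul continuous_im).mul continuous_const
  · unfold nn
    exact Complex.continuous_normSq.comp (continuous_coe.sub continuous_const)

/-- the Möbius action -/
theorem smul_coe (g : SL(2, ℝ)) (z : ℍ) : ((g • z : ℍ) : ℂ) =
    (((g 0 0 : ℝ) : ℂ) * z + ((g 0 1 : ℝ) : ℂ)) / (((g 1 0 : ℝ) : ℂ) * z + ((g 1 1 : ℝ) : ℂ)) := by
  rw [coe_specialLinearGroup_apply]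
  rfl

/-- the denominator at `g z` -/
noncomputable def N (g : SL(2, ℝ)) (z₀ z : ℍ) : ℝ :=
  (g 0 0 * z.re + g 0 1 - z₀.re * (g 1 0 * z.re + g 1 1) - z₀.im * g 1 0 * z.im) ^ 2 +
    (g 0 0 * z.im - z₀.re * g 1 0 * z.im + z₀.im * (g 1 0 * z.re + g 1 1)) ^ 2

theorem det_eq (g : SL(2, ℝ)) : g 0 0 * g 1 1 - g 0 1 * g 1 0 = 1 := by
  have h := g.det_coe
  rwa [Matrix.det_fin_two] at h

theorem rho_smul (g : SL(2, ℝ)) (z₀ z : ℍ) : 0 < N g z₀ z ∧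
    rho z₀ (g • z) = 4 * z.im * z₀.im / N g z₀ z := by
  set D : ℂ := ((g 1 0 : ℝ) : ℂ) * z + ((g 1 1 : ℝ) : ℂ) with hD
  set n : ℂ := ((g 0 0 : ℝ) : ℂ) * z + ((g 0 1 : ℝ) : ℂ) with hn
  have hdet := det_eq g
  have hz := z.im_pos
  have hDr : D.re = g 1 0 * z.re + g 1 1 := by simp [hD]
  have hDi : D.im = g 1 0 * z.im := by simp [hD]
  have hnr : n.re = g 0 0 * z.re + g 0 1 := by simp [hn]
  have hni : n.im = g 0 0 * z.im := by simp [hn]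
  have hD0 : 0 < Complex.normSq D := by
    rw [Complex.normSq_apply, hDr, hDi]
    rcases eq_or_ne (g 1 0) 0 with h0 | h0
    · have h1 : g 1 1 ≠ 0 := by
        intro h1
        rw [h0, h1] at hdet
        simp at hdet
      rw [h0]
      simp only [zero_mul, zero_add, mul_zero, add_zero]
      exact mul_self_pos.2 h1
    · have h1 : g 1 0 * z.im ≠ 0 := mul_ne_zero h0 hz.ne'
      have h2 := mul_self_pos.2 h1
      have h3 := mul_self_nonneg (g 1 0 * z.re + g 1 1)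
      linarith
  have hDne : D ≠ 0 := Complex.normSq_pos.1 hD0
  have hw : ((g • z : ℍ) : ℂ) * D = n := by
    rw [smul_coe, div_mul_cancel₀ _ hDne]
  have him : (g • z).im * Complex.normSq D = z.im := by
    have h1 : ((g • z : ℍ) : ℂ) * (D * conj D) = n * conj D := by rw [← mul_assoc, hw]
    rw [Complex.mul_conj] at h1
    have h2 := congrArg Complex.im h1
    rw [Complex.im_mul_ofReal, Complex.mul_im, Complex.conj_re, Complex.conj_im, hDr, hDi, hnr,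
      hni] at h2
    change (g • z).im * Complex.normSq D = _ at h2
    rw [h2]
    linear_combination z.im * hdet
  have hN : Complex.normSq D * nn z₀ (g • z) = N g z₀ z := by
    unfold nn
    rw [← Complex.normSq_mul, mul_sub]
    have h1 : D * ((g • z : ℍ) : ℂ) = n := by rw [mul_comm, hw]
    rw [h1, Complex.normSq_apply]
    simp only [Complex.sub_re, Complex.sub_im, Complex.mul_re, Complex.mul_im, Complex.conj_re,
      Complex.conj_im, hDr, hDi, hnr, hni, coe_re, coe_im]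
    unfold N
    ring
  have hNpos : 0 < N g z₀ z := by
    rw [← hN]
    exact mul_pos hD0 (nn_pos _ _)
  refine ⟨hNpos, ?_⟩
  rw [rho_eq, ← hN, div_eq_div_iff (nn_pos _ _).ne' (mul_pos hD0 (nn_pos _ _)).ne']
  linear_combination 4 * z₀.im * nn z₀ (g • z) * him

theorem sq_sub_le (p q : ℝ) : (p - q) ^ 2 ≤ 2 * p ^ 2 + 2 * q ^ 2 := by
  nlinarith [sq_nonneg (p + q)]

theorem sq_add_le (p q : ℝ) : (p + q) ^ 2 ≤ 2 * p ^ 2 + 2 * q ^ 2 := by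
  nlinarith [sq_nonneg (p - q)]

/-- the bound for the entries, main part -/
theorem key1 (A B P Q c d x y y₀ u v M : ℝ) (hy : 0 < y) (hy₀ : 0 < y₀) (hu : u * y = 1)
    (hv : v * y₀ = 1) (hP : P = A * x + B) (hQ : Q = c * x + d)
    (hMe : M = P ^ 2 + A ^ 2 * y ^ 2 + y₀ ^ 2 * (Q ^ 2 + c ^ 2 * y ^ 2) + 2 * y * y₀) :
    A ^ 2 ≤ u ^ 2 * M ∧ c ^ 2 ≤ u ^ 2 * v ^ 2 * M ∧ B ^ 2 ≤ (2 + 2 * x ^ 2 * u ^ 2) * M ∧
      d ^ 2 ≤ (2 * v ^ 2 + 2 * x ^ 2 * (u ^ 2 * v ^ 2)) * M := by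
  have hyy : 0 < 2 * y * y₀ := by positivity
  have e1 : P ^ 2 ≤ M := by
    have : 0 ≤ A ^ 2 * y ^ 2 + y₀ ^ 2 * (Q ^ 2 + c ^ 2 * y ^ 2) := by positivity
    linarith
  have e2 : (A * y) ^ 2 ≤ M := by
    have : 0 ≤ P ^ 2 + y₀ ^ 2 * (Q ^ 2 + c ^ 2 * y ^ 2) := by positivity
    have h : (A * y) ^ 2 = A ^ 2 * y ^ 2 := by ring
    linarith
  have e3 : (y₀ * Q) ^ 2 ≤ M := by
    have : 0 ≤ P ^ 2 + A ^ 2 * y ^ 2 + y₀ ^ 2 * (c ^ 2 * y ^ 2) := by positivity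
    have h : (y₀ * Q) ^ 2 = y₀ ^ 2 * Q ^ 2 := by ring
    linarith
  have e4 : (c * y * y₀) ^ 2 ≤ M := by
    have : 0 ≤ P ^ 2 + A ^ 2 * y ^ 2 + y₀ ^ 2 * Q ^ 2 := by positivity
    have h : (c * y * y₀) ^ 2 = y₀ ^ 2 * (c ^ 2 * y ^ 2) := by ring
    linarith
  clear hMe hyy
  have f2 : A ^ 2 ≤ u ^ 2 * M := by
    have h : A ^ 2 = u ^ 2 * (A * y) ^ 2 := by
      have : u ^ 2 * (A * y) ^ 2 = A ^ 2 * (u * y) ^ 2 := by ring
      rw [this, hu]; ring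
    rw [h]
    exact mul_le_mul_of_nonneg_left e2 (sq_nonneg u)
  have f3 : Q ^ 2 ≤ v ^ 2 * M := by
    have h : Q ^ 2 = v ^ 2 * (y₀ * Q) ^ 2 := by
      have : v ^ 2 * (y₀ * Q) ^ 2 = Q ^ 2 * (v * y₀) ^ 2 := by ring
      rw [this, hv]; ring
    rw [h]
    exact mul_le_mul_of_nonneg_left e3 (sq_nonneg v)
  have f4 : c ^ 2 ≤ u ^ 2 * v ^ 2 * M := by
    have h : c ^ 2 = u ^ 2 * v ^ 2 * (c * y * y₀) ^ 2 := by
      have : u ^ 2 * v ^ 2 * (c * y * y₀) ^ 2 = c ^ 2 * (u * y) ^ 2 * (v * y₀) ^ 2 := by ring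
      rw [this, hu, hv]; ring
    rw [h]
    exact mul_le_mul_of_nonneg_left e4 (by positivity)
  have hx := sq_nonneg x
  refine ⟨f2, f4, ?_, ?_⟩
  · have h : B = P - A * x := by rw [hP]; ring
    have h1 := sq_sub_le P (A * x)
    rw [← h] at h1
    have h2 := mul_le_mul_of_nonneg_left f2 hx
    calc B ^ 2 ≤ 2 * P ^ 2 + 2 * (A * x) ^ 2 := h1
      _ = 2 * P ^ 2 + 2 * (x ^ 2 * A ^ 2) := by ring
      _ ≤ 2 * M + 2 * (x ^ 2 * (u ^ 2 * M)) := by linarith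
      _ = _ := by ring
  · have h : d = Q - c * x := by rw [hQ]; ring
    have h1 := sq_sub_le Q (c * x)
    rw [← h] at h1
    have h2 := mul_le_mul_of_nonneg_left f4 hx
    calc d ^ 2 ≤ 2 * Q ^ 2 + 2 * (c * x) ^ 2 := h1
      _ = 2 * Q ^ 2 + 2 * (x ^ 2 * c ^ 2) := by ring
      _ ≤ 2 * (v ^ 2 * M) + 2 * (x ^ 2 * (u ^ 2 * v ^ 2 * M)) := by linarith
      _ = _ := by ring

/-- the bound for the entries -/
theorem key (a b c d x y x₀ y₀ u v M : ℝ) (hy : 0 < y) (hy₀ : 0 < y₀) (hu : u * y = 1)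
    (hv : v * y₀ = 1) (hdet : a * d - b * c = 1)
    (hM : M = (a * x + b - x₀ * (c * x + d) - y₀ * c * y) ^ 2 +
        (a * y - x₀ * c * y + y₀ * (c * x + d)) ^ 2) :
    a ^ 2 + b ^ 2 + (c ^ 2 + d ^ 2) ≤ (2 * u ^ 2 + 2 * x₀ ^ 2 * (u ^ 2 * v ^ 2) +
      2 * (2 + 2 * x ^ 2 * u ^ 2) + 2 * x₀ ^ 2 * (2 * v ^ 2 + 2 * x ^ 2 * (u ^ 2 * v ^ 2)) +
      u ^ 2 * v ^ 2 + (2 * v ^ 2 + 2 * x ^ 2 * (u ^ 2 * v ^ 2))) * M := by
  have hMe : M = ((a - x₀ * c) * x + (b - x₀ * d)) ^ 2 + (a - x₀ * c) ^ 2 * y ^ 2 +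
      y₀ ^ 2 * ((c * x + d) ^ 2 + c ^ 2 * y ^ 2) + 2 * y * y₀ := by
    rw [hM]
    linear_combination 2 * y * y₀ * hdet
  obtain ⟨f2, f4, g1, g2⟩ := key1 (a - x₀ * c) (b - x₀ * d) _ _ c d x y y₀ u v M hy hy₀ hu hv rfl
    rfl hMe
  clear hMe hM
  have hx := sq_nonneg x₀
  have g3 : a ^ 2 ≤ (2 * u ^ 2 + 2 * x₀ ^ 2 * (u ^ 2 * v ^ 2)) * M := by
    have h1 := sq_add_le (a - x₀ * c) (x₀ * c)
    have h2 := mul_le_mul_of_nonneg_left f4 hx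
    calc a ^ 2 = (a - x₀ * c + x₀ * c) ^ 2 := by ring
      _ ≤ 2 * (a - x₀ * c) ^ 2 + 2 * (x₀ * c) ^ 2 := h1
      _ = 2 * (a - x₀ * c) ^ 2 + 2 * (x₀ ^ 2 * c ^ 2) := by rw [mul_pow]
      _ ≤ 2 * (u ^ 2 * M) + 2 * (x₀ ^ 2 * (u ^ 2 * v ^ 2 * M)) := by linarith
      _ = _ := by ring
  have g4 : b ^ 2 ≤ (2 * (2 + 2 * x ^ 2 * u ^ 2) +
      2 * x₀ ^ 2 * (2 * v ^ 2 + 2 * x ^ 2 * (u ^ 2 * v ^ 2))) * M := by
    have h1 := sq_add_le (b - x₀ * d) (x₀ * d)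
    have h2 := mul_le_mul_of_nonneg_left g2 hx
    calc b ^ 2 = (b - x₀ * d + x₀ * d) ^ 2 := by ring
      _ ≤ 2 * (b - x₀ * d) ^ 2 + 2 * (x₀ * d) ^ 2 := h1
      _ = 2 * (b - x₀ * d) ^ 2 + 2 * (x₀ ^ 2 * d ^ 2) := by rw [mul_pow]
      _ ≤ 2 * ((2 + 2 * x ^ 2 * u ^ 2) * M) +
          2 * (x₀ ^ 2 * ((2 * v ^ 2 + 2 * x ^ 2 * (u ^ 2 * v ^ 2)) * M)) := by linarith
      _ = _ := by ring
  calc a ^ 2 + b ^ 2 + (c ^ 2 + d ^ 2) ≤ _ := add_le_add (add_le_add g3 g4) (add_le_add f4 g2)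
    _ = _ := by ring

end IRHO

open IRHO in
theorem prRHO : StRHO := by
  refine ⟨first, cont, ?_⟩
  intro z₀ K hK
  set f : ℍ → ℝ := fun z => 4 * z.im * z₀.im * (2 * (z.im)⁻¹ ^ 2 +
      2 * z₀.re ^ 2 * ((z.im)⁻¹ ^ 2 * (z₀.im)⁻¹ ^ 2) +
      2 * (2 + 2 * z.re ^ 2 * (z.im)⁻¹ ^ 2) + 2 * z₀.re ^ 2 * (2 * (z₀.im)⁻¹ ^ 2 +
      2 * z.re ^ 2 * ((z.im)⁻¹ ^ 2 * (z₀.im)⁻¹ ^ 2)) +
      (z.im)⁻¹ ^ 2 * (z₀.im)⁻¹ ^ 2 + (2 * (z₀.im)⁻¹ ^ 2 +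
      2 * z.re ^ 2 * ((z.im)⁻¹ ^ 2 * (z₀.im)⁻¹ ^ 2))) with hf
  have hi : Continuous fun z : ℍ => (z.im)⁻¹ := continuous_im.inv₀ fun z => z.im_pos.ne'
  have hr : Continuous fun z : ℍ => z.re := continuous_re
  have hm : Continuous fun z : ℍ => z.im := continuous_im
  have hfc : Continuous f := by
    rw [hf]
    fun_prop
  obtain ⟨c, hc⟩ := hK.bddAbove_image hfc.continuousOn
  refine ⟨c, fun g z hz => ?_⟩
  refine le_trans ?_ (hc ⟨z, hz, rfl⟩)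
  obtain ⟨hN, hrho⟩ := rho_smul g z₀ z
  have hk := key (g 0 0) (g 0 1) (g 1 0) (g 1 1) z.re z.im z₀.re z₀.im (z.im)⁻¹ (z₀.im)⁻¹
    (N g z₀ z) z.im_pos z₀.im_pos (inv_mul_cancel₀ z.im_pos.ne') (inv_mul_cancel₀ z₀.im_pos.ne')
    (det_eq g) rfl
  rw [hrho, div_mul_eq_mul_div, div_le_iff₀ hN]
  have h4 : 0 ≤ 4 * z.im * z₀.im := by
    have h1 := z.im_pos
    have h2 := z₀.im_pos
    positivity
  have h5 := mul_le_mul_of_nonneg_left hk h4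
  simp only [Fin.sum_univ_two]
  rw [hf]
  exact h5.trans (le_of_eq (by rw [← mul_assoc]))

end HQ
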