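import Pool.Agent.Work.MP_d2a4bb_nt.QE.Stmts

set_option autoImplicit false

/-!
# [d2a4bb QE SEL] Diagonal selection
-/

open UpperHalfPlane MeasureTheory Matrix
open scoped MatrixGroups Manifold Topology ComplexConjugate

namespace HQ

namespace ISEL

/-- diagonal argument -/
lemma diag (P : ℕ → ℕ → Prop) (h0 : ∀ m, P 0 m) (h : ∀ j, ∀ᶠ m : ℕ in Filter.atTop, P j m) :
    ∃ s : ℕ → ℕ, Filter.Tendsto s Filter.atTop Filter.atTop ∧ ∀ m, P (s m) m := by
  classical
  have h1 : ∀ j, ∃ K : ℕ, ∀ m ≥ K, P j m := fun j => Filter.eventually_atTop.mp (h j)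
  choose K hK using h1
  refine ⟨fun m => Nat.findGreatest (fun j => j = 0 ∨ K j ≤ m) m, ?_, ?_⟩
  · refine Filter.tendsto_atTop.mpr fun J => ?_
    refine Filter.eventually_atTop.mpr ⟨max J (K J), fun m hm => ?_⟩
    exact Nat.le_findGreatest (le_trans (le_max_left _ _) hm)
      (Or.inr (le_trans (le_max_right _ _) hm))
  · intro m
    have h2 := Nat.findGreatest_spec (P := fun j => j = 0 ∨ K j ≤ m) (Nat.zero_le m) (Or.inl rfl)
    show P (Nat.findGreatest (fun j => j = 0 ∨ K j ≤ m) m) m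
    rcases h2 with h2 | h2
    · rw [h2]; exact h0 m
    · exact hK _ m h2

open Classical in
/-- few bad elements -/
lemma few (B : ℕ → Finset (ℍ → ℂ)) (D : ℕ → (ℍ → ℂ) → ℕ → ℝ) (c : ℝ) (hc : 0 < c)
    (hB : ∀ᶠ m : ℕ in Filter.atTop, c * (m : ℝ) ≤ (B m).card)
    (h : ∀ i : ℕ, ∀ ε > (0 : ℝ), ∀ᶠ m : ℕ in Filter.atTop,
      (((B m).filter (fun f => ε < |D m f i|)).card : ℝ) ≤ ε * m) (j : ℕ) :
    ∀ᶠ m : ℕ in Filter.atTop, (((B m).filter (fun f => ∃ i < j, 1 / ((j : ℝ) + 1) < |D m f i|)).card : ℝ) ≤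
      (B m).card / ((j : ℝ) + 1) := by
  have hj : (0 : ℝ) < (j : ℝ) + 1 := by positivity
  set ε : ℝ := min (1 / ((j : ℝ) + 1)) (c / ((j : ℝ) + 1) ^ 2) with hε
  have hε0 : 0 < ε := lt_min (by positivity) (by positivity)
  have h1 : ∀ᶠ m : ℕ in Filter.atTop, ∀ i ∈ Finset.range j,
      (((B m).filter (fun f => ε < |D m f i|)).card : ℝ) ≤ ε * m :=
    (Filter.eventually_all_finset (Finset.range j)).mpr fun i _ => h i ε hε0
  filter_upwards [h1, hB] with m hm hBm
  have h2 : (B m).filter (fun f => ∃ i < j, 1 / ((j : ℝ) + 1) < |D m f i|) ⊆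
      (Finset.range j).biUnion (fun i => (B m).filter (fun f => ε < |D m f i|)) := by
    intro f hf
    rw [Finset.mem_filter] at hf
    obtain ⟨hf1, i, hi, hfi⟩ := hf
    rw [Finset.mem_biUnion]
    refine ⟨i, Finset.mem_range.mpr hi, ?_⟩
    rw [Finset.mem_filter]
    exact ⟨hf1, lt_of_le_of_lt (min_le_left _ _) hfi⟩
  have h3 : (((B m).filter (fun f => ∃ i < j, 1 / ((j : ℝ) + 1) < |D m f i|)).card : ℝ) ≤
      ∑ i ∈ Finset.range j, (((B m).filter (fun f => ε < |D m f i|)).card : ℝ) := by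
    have h4 := (Finset.card_le_card h2).trans Finset.card_biUnion_le
    exact_mod_cast h4
  have h5 : ∑ i ∈ Finset.range j, (((B m).filter (fun f => ε < |D m f i|)).card : ℝ) ≤
      ∑ _i ∈ Finset.range j, (B m).card / ((j : ℝ) + 1) ^ 2 := by
    refine Finset.sum_le_sum fun i hi => (hm i hi).trans ?_
    have h6 : ε * m ≤ c / ((j : ℝ) + 1) ^ 2 * m :=
      mul_le_mul_of_nonneg_right (min_le_right _ _) (Nat.cast_nonneg m)
    refine h6.trans ?_
    rw [div_mul_eq_mul_div]
    exact div_le_div_of_nonneg_right hBm (by positivity)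
  refine h3.trans (h5.trans ?_)
  rw [Finset.sum_const, Finset.card_range, nsmul_eq_mul]
  have h7 : ((B m).card : ℝ) / ((j : ℝ) + 1) = ((j : ℝ) + 1) * ((B m).card / ((j : ℝ) + 1) ^ 2) := by
    field_simp
  rw [h7]
  exact mul_le_mul_of_nonneg_right (by linarith) (by positivity)

end ISEL

/-- [d2a4bb QE SEL] -/
theorem prSEL : StSEL := by
  classical
  intro B D c hc hB h
  obtain ⟨s, hs, hP⟩ := ISEL.diag (fun j m => ((((B m).filter
      (fun f => ∃ i < j, 1 / ((j : ℝ) + 1) < |D m f i|)).card : ℝ) ≤ (B m).card / ((j : ℝ) + 1)))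
    (fun m => by simp) (fun j => ISEL.few B D c hc hB h j)
  refine ⟨fun m => (B m).filter (fun f => ¬ ∃ i < s m, 1 / ((s m : ℝ) + 1) < |D m f i|),
    fun m => Finset.filter_subset _ _, ?_, ?_⟩
  · have hlow : Filter.Tendsto (fun m : ℕ => 1 - 1 / ((s m : ℝ) + 1)) Filter.atTop (𝓝 1) := by
      have h1 : Filter.Tendsto (fun m : ℕ => 1 / ((s m : ℝ) + 1)) Filter.atTop (𝓝 0) :=
        (tendsto_one_div_add_atTop_nhds_zero_nat (𝕜 := ℝ)).comp hs
      simpa using tendsto_const_nhds.sub h1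
    have hpos : ∀ᶠ m : ℕ in Filter.atTop, (0 : ℝ) < (B m).card := by
      filter_upwards [hB, Filter.eventually_ge_atTop 1] with m hm hm1
      have h2 : (0 : ℝ) < c * m := by
        have h3 : (1 : ℝ) ≤ m := by exact_mod_cast hm1
        positivity
      linarith
    refine tendsto_of_tendsto_of_tendsto_of_le_of_le' hlow tendsto_const_nhds ?_ ?_
    · filter_upwards [hpos] with m hm
      rw [le_div_iff₀ hm]
      have h4 := Finset.card_filter_add_card_filter_not (s := B m)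
        (fun f => ∃ i < s m, 1 / ((s m : ℝ) + 1) < |D m f i|)
      have h5 : (((B m).filter (fun f => ∃ i < s m, 1 / ((s m : ℝ) + 1) < |D m f i|)).card : ℝ) +
          (((B m).filter (fun f => ¬ ∃ i < s m, 1 / ((s m : ℝ) + 1) < |D m f i|)).card : ℝ) =
          (B m).card := by exact_mod_cast h4
      have h6 := hP m
      have h7 : (1 - 1 / ((s m : ℝ) + 1)) * ((B m).card : ℝ) =
          (B m).card - (B m).card / ((s m : ℝ) + 1) := by ring
      rw [h7]
      linarith
    · filter_upwards [hpos] with m hm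
      rw [div_le_one hm]
      exact_mod_cast Finset.card_le_card (Finset.filter_subset _ _)
  · intro i ε hε
    have h1 : Filter.Tendsto (fun m : ℕ => 1 / ((s m : ℝ) + 1)) Filter.atTop (𝓝 0) :=
      (tendsto_one_div_add_atTop_nhds_zero_nat (𝕜 := ℝ)).comp hs
    filter_upwards [h1.eventually (gt_mem_nhds hε), hs.eventually_gt_atTop i] with m hm1 hm2
    intro f hf
    rw [Finset.mem_filter] at hf
    have h2 := hf.2
    push Not at h2
    exact (h2 i hm2).trans hm1.le

end HQ
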