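import Pool.Agent.Work.MP_d2a4bb_nt.QE.Stmts

/-!
# Block QE, item SMV (helper57): the submean value inequality
-/

open UpperHalfPlane MeasureTheory Matrix
open scoped MatrixGroups Manifold Topology ComplexConjugate

namespace HQ

namespace ISMV

lemma circle_mean_le {F : ℂ → ℂ} {U : Set ℂ} (hF : DifferentiableOn ℂ F U) (c : ℂ) (u : ℝ)
    (hu : 0 ≤ u) (hs : Metric.closedBall c u ⊆ U) :
    2 * Real.pi * ‖F c‖ ≤ ∫ θ in (-Real.pi)..Real.pi, ‖F (c + u * Complex.exp (θ * Complex.I))‖ := by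
  have h1 : Real.circleAverage F c u = F c := by
    have h0 : DiffContOnCl ℂ F (Metric.ball c |u|) := by
      rw [abs_of_nonneg hu]
      exact hF.diffContOnCl_ball hs
    exact h0.circleAverage
  rw [Real.circleAverage_eq_integral_add (-Real.pi)] at h1
  have h2 : ∫ θ in (0 : ℝ)..2 * Real.pi, F (circleMap c u (θ + -Real.pi)) =
      ∫ θ in (-Real.pi)..Real.pi, F (circleMap c u θ) := by
    rw [intervalIntegral.integral_comp_add_right (fun θ => F (circleMap c u θ))]
    congr 1 <;> ring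
  rw [h2] at h1
  have h3 : ‖F c‖ ≤ (2 * Real.pi)⁻¹ * ∫ θ in (-Real.pi)..Real.pi, ‖F (c + u * Complex.exp (θ * Complex.I))‖ := by
    rw [← h1, norm_smul, Real.norm_eq_abs, abs_of_pos (by positivity)]
    gcongr
    refine (intervalIntegral.norm_integral_le_integral_norm (by linarith [Real.pi_pos])).trans ?_
    exact le_of_eq rfl
  calc 2 * Real.pi * ‖F c‖ ≤ 2 * Real.pi * ((2 * Real.pi)⁻¹ *
        ∫ θ in (-Real.pi)..Real.pi, ‖F (c + u * Complex.exp (θ * Complex.I))‖) := by gcongr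
    _ = _ := by
        rw [← mul_assoc, mul_inv_cancel₀ (by positivity), one_mul]

lemma submean {F : ℂ → ℂ} {U : Set ℂ} (hF : DifferentiableOn ℂ F U) (c : ℂ) {r : ℝ} (hr : 0 < r)
    (hs : Metric.closedBall c r ⊆ U) :
    Real.pi * r ^ 2 * ‖F c‖ ≤ ∫ z in Metric.ball c r, ‖F z‖ := by
  have hcont : ContinuousOn F (Metric.closedBall c r) := hF.continuousOn.mono hs
  -- translate
  have h1 : ∫ z in Metric.ball c r, ‖F z‖ =
      ∫ z : ℂ, (Metric.ball (0 : ℂ) r).indicator (fun z => ‖F (c + z)‖) z := by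
    rw [← integral_indicator Metric.isOpen_ball.measurableSet,
      ← integral_add_left_eq_self (μ := volume)
        (f := fun z : ℂ => (Metric.ball c r).indicator (fun z => ‖F z‖) z) c]
    refine integral_congr_ae (Filter.Eventually.of_forall (fun z => ?_))
    simp only [Set.indicator, Metric.mem_ball, dist_eq_norm, add_sub_cancel_left, sub_zero]
  rw [h1, ← Complex.integral_comp_polarCoord_symm]
  set P : ℝ × ℝ → ℝ := fun p => p.1 * ‖F (c + p.1 * Complex.exp (p.2 * Complex.I))‖ with hP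
  have hPcont : ContinuousOn P ((Set.Icc (0 : ℝ) r) ×ˢ (Set.Icc (-Real.pi) Real.pi)) := by
    have hm : Set.MapsTo (fun p : ℝ × ℝ => c + p.1 * Complex.exp (p.2 * Complex.I))
        ((Set.Icc (0 : ℝ) r) ×ˢ (Set.Icc (-Real.pi) Real.pi)) (Metric.closedBall c r) := by
      rintro p ⟨hp1, -⟩
      rw [Metric.mem_closedBall, dist_eq_norm, add_sub_cancel_left, norm_mul,
        Complex.norm_exp_ofReal_mul_I, mul_one, Complex.norm_real, Real.norm_eq_abs,
        abs_of_nonneg hp1.1]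
      exact hp1.2
    have hc2 : ContinuousOn (fun p : ℝ × ℝ => c + p.1 * Complex.exp (p.2 * Complex.I))
        ((Set.Icc (0 : ℝ) r) ×ˢ (Set.Icc (-Real.pi) Real.pi)) := by
      apply Continuous.continuousOn
      fun_prop
    exact continuous_fst.continuousOn.mul ((hcont.comp hc2 hm).norm)
  have h2 : ∫ p in polarCoord.target, p.1 • (Metric.ball (0 : ℂ) r).indicator
      (fun z => ‖F (c + z)‖) (Complex.polarCoord.symm p) =
      ∫ p in (Set.Ioo 0 r) ×ˢ (Set.Ioo (-Real.pi) Real.pi), P p := by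
    have hsub : (Set.Ioo 0 r) ×ˢ (Set.Ioo (-Real.pi) Real.pi) ⊆ polarCoord.target := by
      intro p hp
      simp only [polarCoord_target, Set.mem_prod, Set.mem_Ioo, Set.mem_Ioi] at hp ⊢
      exact ⟨hp.1.1, hp.2⟩
    have hmeas : MeasurableSet ((Set.Ioo (0 : ℝ) r) ×ˢ (Set.Ioo (-Real.pi) Real.pi)) :=
      measurableSet_Ioo.prod measurableSet_Ioo
    rw [← integral_indicator hmeas, ← integral_indicator polarCoord.open_target.measurableSet]
    refine integral_congr_ae (Filter.Eventually.of_forall (fun p => ?_))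
    simp only [Set.indicator]
    by_cases hp : p ∈ polarCoord.target
    · rw [if_pos hp]
      have hp' := hp
      simp only [polarCoord_target, Set.mem_prod, Set.mem_Ioo, Set.mem_Ioi] at hp'
      have e1 : (Complex.polarCoord.symm p : ℂ) = p.1 * Complex.exp (p.2 * Complex.I) := by
        rw [Complex.polarCoord_symm_apply, Complex.exp_mul_I]
        push_cast; rfl
      rw [e1]
      have e2 : ‖(p.1 : ℂ) * Complex.exp (p.2 * Complex.I)‖ = p.1 := by
        rw [norm_mul, Complex.norm_exp_ofReal_mul_I, mul_one, Complex.norm_real,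
          Real.norm_eq_abs, abs_of_pos hp'.1]
      by_cases hr' : p.1 < r
      · rw [if_pos (by rw [mem_ball_zero_iff, e2]; exact hr'),
          if_pos (by simp only [Set.mem_prod, Set.mem_Ioo]; exact ⟨⟨hp'.1, hr'⟩, hp'.2⟩)]
        simp only [hP, smul_eq_mul]
      · rw [if_neg (by rw [mem_ball_zero_iff, e2]; exact hr'),
          if_neg (by simp only [Set.mem_prod, Set.mem_Ioo]; exact fun h => hr' h.1.2)]
        simp
    · rw [if_neg hp, if_neg (fun h => hp (hsub h))]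
  rw [h2]
  have hint : IntegrableOn P ((Set.Ioo 0 r) ×ˢ (Set.Ioo (-Real.pi) Real.pi)) (volume.prod volume) := by
    have hK : IsCompact ((Set.Icc (0 : ℝ) r) ×ˢ (Set.Icc (-Real.pi) Real.pi)) :=
      isCompact_Icc.prod isCompact_Icc
    have := hPcont.integrableOn_compact (μ := (volume : Measure (ℝ × ℝ))) hK
    exact this.mono_set (Set.prod_mono Set.Ioo_subset_Icc_self Set.Ioo_subset_Icc_self)
  have h3 : ∫ p in (Set.Ioo 0 r) ×ˢ (Set.Ioo (-Real.pi) Real.pi), P p =
      ∫ u in Set.Ioo 0 r, ∫ θ in Set.Ioo (-Real.pi) Real.pi, P (u, θ) :=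
    setIntegral_prod P hint
  rw [h3]
  have h4 : ∀ u ∈ Set.Ioo 0 r, u * (2 * Real.pi * ‖F c‖) ≤
      ∫ θ in Set.Ioo (-Real.pi) Real.pi, P (u, θ) := by
    intro u hu
    have := circle_mean_le hF c u hu.1.le ((Metric.closedBall_subset_closedBall hu.2.le).trans hs)
    rw [intervalIntegral.integral_of_le (by linarith [Real.pi_pos]),
      integral_Ioc_eq_integral_Ioo] at this
    simp only [hP]
    rw [integral_const_mul]
    exact mul_le_mul_of_nonneg_left this hu.1.le
  have h5 : ∫ u in Set.Ioo 0 r, u * (2 * Real.pi * ‖F c‖) = Real.pi * r ^ 2 * ‖F c‖ := by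
    rw [← integral_Ioc_eq_integral_Ioo, ← intervalIntegral.integral_of_le hr.le,
      intervalIntegral.integral_mul_const, integral_id]
    ring
  rw [← h5]
  refine setIntegral_mono_on ?_ ?_ measurableSet_Ioo h4
  · exact (Continuous.integrableOn_Icc (by fun_prop)).mono_set Set.Ioo_subset_Icc_self
  · have hint2 : Integrable P ((volume.restrict (Set.Ioo 0 r)).prod
        (volume.restrict (Set.Ioo (-Real.pi) Real.pi))) := by
      rw [Measure.prod_restrict]; exact hint
    exact hint2.integral_prod_left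

/-- integrals over the upper half-plane as integrals over the complex plane -/
lemma integral_coe (G : ℂ → ℝ) (s : Set ℂ) (hs : ∀ w ∈ s, 0 < w.im) (hsm : MeasurableSet s) :
    ∫ u in ((↑) : ℍ → ℂ) ⁻¹' s, G u = ∫ w in s, (1 / w.im) ^ 2 * G w := by
  have hm : MeasurableSet (((↑) : ℍ → ℂ) ⁻¹' s) := measurable_coe hsm
  have hd : Measurable (fun z : ℍ => ((1 / NNReal.mk z.im z.im_pos.le : NNReal) ^ 2)) := by
    apply Continuous.measurable
    refine .pow (.div₀ continuous_const ?_ ?_) _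
    · exact continuous_im.subtype_mk _
    · exact fun x ↦ NNReal.ne_iff.mp x.im_ne_zero
  rw [volume_def, setIntegral_withDensity_eq_setIntegral_smul hd _ hm]
  have e1 : ∀ u : ℍ, ((1 / NNReal.mk u.im u.im_pos.le : NNReal) ^ 2) • G u =
      (fun w : ℂ => (1 / w.im) ^ 2 * G w) (u : ℂ) := by
    intro u
    rw [NNReal.smul_def, smul_eq_mul]
    push_cast
    rfl
  simp_rw [e1]
  have h1 := measurableEmbedding_coe.setIntegral_map (μ := volume.comap UpperHalfPlane.coe)
    (fun w : ℂ => (1 / w.im) ^ 2 * G w) s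
  rw [← h1, measurableEmbedding_coe.map_comap, Measure.restrict_restrict hsm]
  congr 2
  ext w
  constructor
  · rintro ⟨h, -⟩
    exact h
  · intro h
    exact ⟨h, ⟨⟨w, hs w h⟩, rfl⟩⟩

lemma cosh_ge (x : ℝ) (hx : 0 ≤ x) : 1 + x ^ 2 / 2 ≤ Real.cosh x := by
  have h1 : Real.cosh x = 1 + 2 * Real.sinh (x / 2) ^ 2 := by
    have h2 := Real.cosh_two_mul (x / 2)
    have h3 := Real.cosh_sq (x / 2)
    rw [show 2 * (x / 2) = x by ring] at h2
    rw [h2, h3]
    ring
  have h4 : x / 2 ≤ Real.sinh (x / 2) := Real.self_le_sinh_iff.2 (by linarith)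
  have h5 : (x / 2) ^ 2 ≤ Real.sinh (x / 2) ^ 2 := pow_le_pow_left₀ (by linarith) h4 2
  rw [h1]
  nlinarith

lemma mem_facts (z : ℍ) (s : ℝ) (w : ℂ) (hw : w ∈ Metric.closedBall (z : ℂ) (s * z.im)) :
    (1 - s) * z.im ≤ w.im ∧ w.im ≤ (1 + s) * z.im := by
  rw [Metric.mem_closedBall, dist_eq_norm] at hw
  have h1 := Complex.abs_im_le_norm (w - z)
  rw [Complex.sub_im] at h1
  have h2 : ((z : ℂ)).im = z.im := rfl
  rw [h2] at h1
  have h3 := abs_le.1 (h1.trans hw)
  constructor <;> nlinarith [h3.1, h3.2]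

lemma A_eq (z : ℍ) (w : ℂ) : ‖w - conj (z : ℂ)‖ ^ 2 = ‖w - z‖ ^ 2 + 4 * z.im * w.im := by
  rw [← Complex.normSq_eq_norm_sq, ← Complex.normSq_eq_norm_sq, Complex.normSq_apply,
    Complex.normSq_apply]
  simp only [Complex.sub_re, Complex.sub_im, Complex.conj_re, Complex.conj_im,
    UpperHalfPlane.coe_re, UpperHalfPlane.coe_im]
  ring

/-- the pointwise comparison -/
lemma ptw (m : ℕ) (hm : 1 ≤ m) (z : ℍ) (s : ℝ) (hs0 : 0 < s) (hs1 : s ≤ 1 / 4)
    (hs : s ^ 2 = 1 / (16 * m)) (w : ℂ) (hw : w ∈ Metric.closedBall (z : ℂ) (s * z.im)) (G : ℂ) :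
    8 / 25 * (z.im ^ (2 * m) / z.im ^ 2) *
      ‖(((w - conj (z : ℂ)) / (2 * Complex.I * z.im)) ^ (2 * m) * G) ^ 2‖ ≤
      (1 / w.im) ^ 2 * (‖G‖ * w.im ^ m) ^ 2 := by
  have hy : 0 < z.im := z.im_pos
  obtain ⟨h1, h2⟩ := mem_facts z s w hw
  have hwi : 0 < w.im := lt_of_lt_of_le (by nlinarith) h1
  have hA := A_eq z w
  set A := ‖w - conj (z : ℂ)‖ ^ 2 with hAdef
  have hd : ‖w - z‖ ≤ s * z.im := by
    rw [← dist_eq_norm]
    exact hw
  have hd2 : ‖w - z‖ ^ 2 ≤ s ^ 2 * z.im ^ 2 := by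
    have := pow_le_pow_left₀ (norm_nonneg _) hd 2
    nlinarith
  have hA3 : 3 * z.im ^ 2 ≤ A := by
    rw [hA]
    have : 3 / 4 * z.im ≤ w.im := le_trans (by nlinarith) h1
    nlinarith [sq_nonneg ‖w - z‖]
  have hApos : 0 < A := lt_of_lt_of_le (by positivity) hA3
  -- the ratio
  set ρ := 4 * z.im * w.im / A with hρ
  have hρ1 : ρ = 1 + -(‖w - z‖ ^ 2 / A) := by
    rw [hρ, div_eq_iff hApos.ne', add_mul, neg_mul, div_mul_cancel₀ _ hApos.ne', hA]
    ring
  have hm0 : (0 : ℝ) < m := by exact_mod_cast hm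
  have hq : ‖w - z‖ ^ 2 / A ≤ s ^ 2 / 3 := by
    rw [div_le_div_iff₀ hApos (by norm_num)]
    nlinarith [sq_nonneg s]
  have hq0 : 0 ≤ ‖w - z‖ ^ 2 / A := by positivity
  have hs2 : s ^ 2 ≤ 1 / 16 := by nlinarith
  have hρm : 1 / 2 ≤ ρ ^ (2 * m) := by
    have h3 := one_add_mul_le_pow (a := -(‖w - z‖ ^ 2 / A)) (by linarith) (2 * m)
    rw [← hρ1] at h3
    refine le_trans ?_ h3
    have h4 : ((2 * m : ℕ) : ℝ) * (s ^ 2 / 3) = 1 / 24 := by
      rw [hs]
      push_cast
      field_simp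
      norm_num
    have h5 : ((2 * m : ℕ) : ℝ) * (‖w - z‖ ^ 2 / A) ≤ ((2 * m : ℕ) : ℝ) * (s ^ 2 / 3) :=
      mul_le_mul_of_nonneg_left hq (by positivity)
    linarith
  -- the norm
  have hN : ‖(((w - conj (z : ℂ)) / (2 * Complex.I * z.im)) ^ (2 * m) * G) ^ 2‖ =
      (A / (4 * z.im ^ 2)) ^ (2 * m) * ‖G‖ ^ 2 := by
    rw [norm_pow, norm_mul, norm_pow, norm_div, norm_mul, norm_mul, Complex.norm_I,
      Complex.norm_real, Real.norm_eq_abs, abs_of_pos hy, Complex.norm_ofNat, mul_pow, ← pow_mul,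
      mul_comm (2 * m) 2, pow_mul, div_pow]
    congr 2
    rw [hAdef]
    ring
  rw [hN]
  have hwm : w.im ^ (2 * m) = ρ ^ (2 * m) * ((A / (4 * z.im ^ 2)) ^ (2 * m) * z.im ^ (2 * m)) := by
    rw [← mul_pow, ← mul_pow]
    congr 1
    rw [hρ]
    field_simp
  have hR : (1 / w.im) ^ 2 * (‖G‖ * w.im ^ m) ^ 2 =
      (1 / w.im ^ 2) * (ρ ^ (2 * m) * ((A / (4 * z.im ^ 2)) ^ (2 * m) * z.im ^ (2 * m) * ‖G‖ ^ 2)) := by
    have e : (‖G‖ * w.im ^ m) ^ 2 = ‖G‖ ^ 2 * w.im ^ (2 * m) := by ring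
    rw [e, hwm]
    ring
  rw [hR]
  set B := (A / (4 * z.im ^ 2)) ^ (2 * m) * z.im ^ (2 * m) * ‖G‖ ^ 2 with hB
  have hB0 : 0 ≤ B := by positivity
  have hL : 8 / 25 * (z.im ^ (2 * m) / z.im ^ 2) * ((A / (4 * z.im ^ 2)) ^ (2 * m) * ‖G‖ ^ 2) =
      (16 / 25 / z.im ^ 2) * (1 / 2 * B) := by
    rw [hB]
    ring
  rw [hL]
  have h6 : 16 / 25 / z.im ^ 2 ≤ 1 / w.im ^ 2 := by
    rw [div_le_div_iff₀ (by positivity) (by positivity)]
    have : w.im ≤ 5 / 4 * z.im := le_trans h2 (by nlinarith)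
    nlinarith
  have h7 : 1 / 2 * B ≤ ρ ^ (2 * m) * B := mul_le_mul_of_nonneg_right hρm hB0
  exact mul_le_mul h6 h7 (by positivity) (by positivity)

end ISMV

open ISMV in
theorem prSMV : StSMV := by
  refine ⟨16, by norm_num, ?_⟩
  intro m f hm hf z r hr hr1 hmr
  have hy : 0 < z.im := z.im_pos
  have hm0 : (0 : ℝ) < m := by exact_mod_cast hm
  have hm1 : (1 : ℝ) ≤ m := by exact_mod_cast hm
  set s : ℝ := 1 / (4 * √m) with hsdef
  have hsm : √(m : ℝ) ^ 2 = m := Real.sq_sqrt hm0.le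
  have hsq1 : 1 ≤ √(m : ℝ) := by
    rw [Real.one_le_sqrt]
    exact hm1
  have hs0 : 0 < s := by positivity
  have hs1 : s ≤ 1 / 4 := by
    rw [hsdef]
    exact one_div_le_one_div_of_le (by norm_num) (by linarith)
  have hs2 : s ^ 2 = 1 / (16 * m) := by
    rw [hsdef, div_pow, mul_pow, hsm]
    norm_num
  set c : ℂ := (z : ℂ) with hc
  set R : ℝ := s * z.im with hR
  have hR0 : 0 < R := by positivity
  set U : Set ℂ := {w | 0 < w.im} with hU
  have hKU : Metric.closedBall c R ⊆ U := by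
    intro w hw
    have h1 := (mem_facts z s w hw).1
    exact lt_of_lt_of_le (by nlinarith) h1
  set g : ℂ → ℂ := f ∘ ofComplex with hg
  have hgd : DifferentiableOn ℂ g U := UpperHalfPlane.mdifferentiable_iff.1 hf
  have hgu : ∀ u : ℍ, g u = f u := fun u => by
    rw [hg, Function.comp_apply, ofComplex_apply]
  set H : ℂ → ℂ := fun w => (((w - conj (z : ℂ)) / (2 * Complex.I * z.im)) ^ (2 * m) * g w) ^ 2
    with hH
  have hHd : DifferentiableOn ℂ H U := by
    have h1 : Differentiable ℂ (fun w : ℂ => ((w - conj (z : ℂ)) / (2 * Complex.I * z.im)) ^ (2 * m)) := by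
      fun_prop
    exact (h1.differentiableOn.mul hgd).pow 2
  have hsub := submean hHd c hR0 hKU
  -- value at the centre
  have hHc : ‖H c‖ = ‖f z‖ ^ 2 := by
    have h1 : (c - conj (z : ℂ)) / (2 * Complex.I * z.im) = 1 := by
      have h2 : c - conj (z : ℂ) = 2 * Complex.I * z.im := by
        rw [hc, Complex.sub_conj]
        push_cast
        rw [UpperHalfPlane.coe_im]
        ring
      rw [h2, div_self]
      have : (z.im : ℂ) ≠ 0 := by exact_mod_cast hy.ne'
      simp [this]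
    rw [hH]
    simp only [h1, one_pow, one_mul]
    rw [norm_pow, hc, hgu]
  rw [hHc] at hsub
  -- comparison of the integrals over the disc
  have hHc2 : ContinuousOn (fun w => ‖H w‖) (Metric.closedBall c R) :=
    (hHd.continuousOn.mono hKU).norm
  have hGc : ContinuousOn (fun w : ℂ => (1 / w.im) ^ 2 * (‖g w‖ * w.im ^ m) ^ 2)
      (Metric.closedBall c R) := by
    have h1 : ContinuousOn (fun w : ℂ => 1 / w.im) (Metric.closedBall c R) :=
      continuousOn_const.div Complex.continuous_im.continuousOn (fun w hw => (hKU hw).ne')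
    exact (h1.pow 2).mul ((((hgd.continuousOn.mono hKU).norm).mul
      (Complex.continuous_im.continuousOn.pow m)).pow 2)
  have hKc : IsCompact (Metric.closedBall c R) := isCompact_closedBall c R
  have hcmp : 8 / 25 * (z.im ^ (2 * m) / z.im ^ 2) * ∫ w in Metric.ball c R, ‖H w‖ ≤
      ∫ w in Metric.ball c R, (1 / w.im) ^ 2 * (‖g w‖ * w.im ^ m) ^ 2 := by
    rw [← integral_const_mul]
    refine setIntegral_mono_on ?_ ?_ Metric.isOpen_ball.measurableSet ?_
    · exact ((hHc2.integrableOn_compact hKc).mono_set Metric.ball_subset_closedBall).const_mul _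
    · exact (hGc.integrableOn_compact hKc).mono_set Metric.ball_subset_closedBall
    · intro w hw
      exact ptw m hm z s hs0 hs1 hs2 w (Metric.ball_subset_closedBall hw) (g w)
  -- back to the upper half-plane
  have hback : ∫ w in Metric.ball c R, (1 / w.im) ^ 2 * (‖g w‖ * w.im ^ m) ^ 2 =
      ∫ u in ((↑) : ℍ → ℂ) ⁻¹' Metric.ball c R, FF m f u ^ 2 := by
    have h1 := integral_coe (fun w => (‖g w‖ * w.im ^ m) ^ 2) (Metric.ball c R)
      (fun w hw => hKU (Metric.ball_subset_closedBall hw)) Metric.isOpen_ball.measurableSet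
    rw [← h1]
    congr 1
    funext u
    rw [hgu]
    rfl
  -- inclusion
  have hincl : ((↑) : ℍ → ℂ) ⁻¹' Metric.ball c R ⊆ Metric.ball z r := by
    intro u hu
    have hu' : (u : ℂ) ∈ Metric.ball c R := hu
    obtain ⟨h1, -⟩ := mem_facts z s u (Metric.ball_subset_closedBall hu')
    rw [Metric.mem_ball] at hu' ⊢
    have h1' : (1 - s) * z.im ≤ u.im := h1
    have h2 : 3 / 4 * z.im ≤ u.im := le_trans (by nlinarith) h1'
    have h3 : Real.cosh (dist u z) < Real.cosh r := by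
      rw [UpperHalfPlane.cosh_dist]
      have h4 : dist (u : ℂ) z ^ 2 < s ^ 2 * z.im ^ 2 := by
        have := pow_lt_pow_left₀ hu' dist_nonneg (n := 2) (by norm_num)
        rw [hR, mul_pow] at this
        exact this
      have h5 : dist (u : ℂ) z ^ 2 / (2 * u.im * z.im) < r ^ 2 / 2 := by
        rw [div_lt_iff₀ (by have := u.im_pos; positivity)]
        have h6 : s ^ 2 ≤ r ^ 2 / 16 := by
          rw [hs2, div_le_div_iff₀ (by positivity) (by norm_num)]
          nlinarith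
        have h7 : s ^ 2 * z.im ^ 2 ≤ r ^ 2 / 16 * z.im ^ 2 :=
          mul_le_mul_of_nonneg_right h6 (by positivity)
        have h8 : 3 / 4 * z.im * z.im ≤ u.im * z.im := mul_le_mul_of_nonneg_right h2 hy.le
        have h9 : r ^ 2 * (3 / 4 * z.im * z.im) ≤ r ^ 2 * (u.im * z.im) :=
          mul_le_mul_of_nonneg_left h8 (by positivity)
        nlinarith [sq_nonneg (r * z.im)]
      have := cosh_ge r hr.le
      linarith
    have h4 := Real.cosh_lt_cosh.1 h3
    rwa [abs_of_nonneg dist_nonneg, abs_of_pos hr] at h4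
  -- integrability on the hyperbolic ball
  have hfc : Continuous (fun u : ℍ => FF m f u ^ 2) := by
    have h1 : Continuous f := hf.continuous
    unfold FF
    exact ((h1.norm).mul (UpperHalfPlane.continuous_im.pow m)).pow 2
  have hint : IntegrableOn (fun u : ℍ => FF m f u ^ 2) (Metric.ball z r) :=
    (hfc.continuousOn.integrableOn_compact (isCompact_closedBall z r)).mono_set
      Metric.ball_subset_closedBall
  have hfin : ∫ u in ((↑) : ℍ → ℂ) ⁻¹' Metric.ball c R, FF m f u ^ 2 ≤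
      ∫ u in Metric.ball z r, FF m f u ^ 2 := by
    refine setIntegral_mono_set hint ?_ ?_
    · exact Filter.Eventually.of_forall fun u => sq_nonneg _
    · exact (LE.le.eventuallyLE hincl)
  set J := ∫ u in Metric.ball z r, FF m f u ^ 2 with hJ
  have hJ0 : 0 ≤ J := integral_nonneg fun u => sq_nonneg _
  have hkey : 8 / 25 * (z.im ^ (2 * m) / z.im ^ 2) * (Real.pi * R ^ 2 * ‖f z‖ ^ 2) ≤ J := by
    have h1 : 8 / 25 * (z.im ^ (2 * m) / z.im ^ 2) * (Real.pi * R ^ 2 * ‖f z‖ ^ 2) ≤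
        8 / 25 * (z.im ^ (2 * m) / z.im ^ 2) * ∫ w in Metric.ball c R, ‖H w‖ :=
      mul_le_mul_of_nonneg_left hsub (by positivity)
    rw [hback] at hcmp
    exact h1.trans (hcmp.trans hfin)
  have hFF : FF m f z ^ 2 = ‖f z‖ ^ 2 * z.im ^ (2 * m) := by
    unfold FF
    ring
  have hkey2 : Real.pi / (50 * m) * FF m f z ^ 2 ≤ J := by
    have e : 8 / 25 * (z.im ^ (2 * m) / z.im ^ 2) * (Real.pi * R ^ 2 * ‖f z‖ ^ 2) =
        Real.pi / (50 * m) * FF m f z ^ 2 := by
      rw [hFF, hR, mul_pow, hs2]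
      field_simp
      ring
    rw [← e]
    exact hkey
  have hpi := Real.pi_gt_d2
  have h1 : FF m f z ^ 2 = (50 * m / Real.pi) * (Real.pi / (50 * m) * FF m f z ^ 2) := by
    field_simp
  rw [h1]
  calc (50 * m / Real.pi) * (Real.pi / (50 * m) * FF m f z ^ 2) ≤ (50 * m / Real.pi) * J :=
        mul_le_mul_of_nonneg_left hkey2 (by positivity)
    _ ≤ 16 * m * J := by
        apply mul_le_mul_of_nonneg_right _ hJ0
        rw [div_le_iff₀ Real.pi_pos]
        nlinarith

end HQ
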