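import Pool.Agent.Work.MP_d2a4bb_nt.QE.Stmts

/-!
# Item SUM (helper61): summability over the group
-/

set_option autoImplicit false

open UpperHalfPlane MeasureTheory Matrix
open scoped MatrixGroups Manifold Topology ComplexConjugate

namespace HQ

namespace ISUM

/-- The basis of the order, in the space of functions of two indices with the maximum norm. -/
noncomputable def bb (Q : QuatOrder) : Module.Basis (Fin 4) ℝ (Fin 2 → Fin 2 → ℝ) :=
  Q.basis.map (Matrix.ofLinearEquiv ℝ).symm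

/-- The lattice. -/
noncomputable def LL (Q : QuatOrder) : Submodule ℤ (Fin 2 → Fin 2 → ℝ) :=
  Submodule.span ℤ (Set.range (bb Q))

theorem mem_LL (Q : QuatOrder) (x : Matrix (Fin 2) (Fin 2) ℝ) (hx : x ∈ Q.O) :
    (Matrix.ofLinearEquiv ℝ).symm x ∈ LL Q := by
  obtain ⟨c, hc⟩ := (Q.mem_iff x).1 hx
  rw [hc, map_sum]
  refine Submodule.sum_mem _ fun i _ => ?_
  rw [map_smul]
  have h1 : ((c i : ℤ) : ℝ) • (Matrix.ofLinearEquiv ℝ).symm (Q.basis i) = c i • bb Q i := by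
    rw [bb, Module.Basis.map_apply, Int.cast_smul_eq_zsmul]
  rw [h1]
  exact Submodule.smul_mem _ _ (Submodule.subset_span ⟨i, rfl⟩)

theorem summ (Q : QuatOrder) : Summable fun z : LL Q => (‖z‖ ^ 6)⁻¹ := by
  have : DiscreteTopology (LL Q) := by
    unfold LL
    infer_instance
  have : IsZLattice ℝ (LL Q) := by
    unfold LL
    infer_instance
  have hr : Module.finrank ℤ (LL Q) < 6 := by
    rw [ZLattice.rank ℝ (LL Q), Module.finrank_eq_card_basis (bb Q)]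
    norm_num
  have h := ZLattice.summable_norm_pow_inv (L := LL Q) 6 hr
  simpa only [inv_pow] using h

/-- The element of the lattice of an element of the group. -/
noncomputable def emb (Q : QuatOrder) (γ : Q.Γ) : LL Q :=
  ⟨(Matrix.ofLinearEquiv ℝ).symm ((γ : SL(2, ℝ)) : Matrix (Fin 2) (Fin 2) ℝ),
    mem_LL Q _ γ.2.1⟩

theorem emb_inj (Q : QuatOrder) : Function.Injective (emb Q) := by
  intro a b h
  have h1 := congrArg Subtype.val h
  have h2 := (Matrix.ofLinearEquiv ℝ).symm.injective h1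
  apply Subtype.ext
  exact Subtype.ext h2

theorem norm_sq_le (x : Fin 2 → Fin 2 → ℝ) : ‖x‖ ^ 2 ≤ ∑ i, ∑ j, x i j ^ 2 := by
  have h0 : 0 ≤ ∑ i, ∑ j, x i j ^ 2 :=
    Finset.sum_nonneg fun i _ => Finset.sum_nonneg fun j _ => sq_nonneg _
  have h1 : ‖x‖ ≤ √(∑ i, ∑ j, x i j ^ 2) := by
    rw [pi_norm_le_iff_of_nonneg (Real.sqrt_nonneg _)]
    intro i
    rw [pi_norm_le_iff_of_nonneg (Real.sqrt_nonneg _)]
    intro j
    rw [Real.norm_eq_abs]
    apply Real.abs_le_sqrt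
    calc x i j ^ 2 ≤ ∑ j, x i j ^ 2 :=
          Finset.single_le_sum (f := fun j => x i j ^ 2) (fun j _ => sq_nonneg _) (Finset.mem_univ j)
      _ ≤ ∑ i, ∑ j, x i j ^ 2 :=
          Finset.single_le_sum (f := fun i => ∑ j, x i j ^ 2)
            (fun i _ => Finset.sum_nonneg fun j _ => sq_nonneg _) (Finset.mem_univ i)
  calc ‖x‖ ^ 2 ≤ √(∑ i, ∑ j, x i j ^ 2) ^ 2 := pow_le_pow_left₀ (norm_nonneg _) h1 2
    _ = _ := Real.sq_sqrt h0

end ISUM

theorem prSUM (hRHO : StRHO) : StSUM := by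
  intro Q z₀ K hK
  obtain ⟨c, hc⟩ := hRHO.2.2 z₀ K hK
  refine ⟨fun γ => c ^ 3 * (‖ISUM.emb Q γ‖ ^ 6)⁻¹,
    ((ISUM.summ Q).comp_injective (ISUM.emb_inj Q)).mul_left (c ^ 3), ?_⟩
  intro γ z hz
  have h1 := hc (γ : SL(2, ℝ)) z hz
  have h2 : ‖ISUM.emb Q γ‖ ^ 2 ≤
      ∑ i, ∑ j, (((γ : SL(2, ℝ)) : Matrix (Fin 2) (Fin 2) ℝ) i j) ^ 2 :=
    ISUM.norm_sq_le _
  have hρ := (hRHO.1 z₀ ((γ : SL(2, ℝ)) • z)).1
  have hpos : 0 < ‖ISUM.emb Q γ‖ := by
    rw [norm_pos_iff]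
    intro h0
    have h3 : ((γ : SL(2, ℝ)) : Matrix (Fin 2) (Fin 2) ℝ) = 0 := by
      have h4 := congrArg Subtype.val h0
      exact (Matrix.ofLinearEquiv ℝ).symm.injective (h4.trans (map_zero _).symm)
    have h5 := (γ : SL(2, ℝ)).det_coe
    rw [h3, Matrix.det_zero] at h5
    exact zero_ne_one h5
  have hsq : 0 < ‖ISUM.emb Q γ‖ ^ 2 := pow_pos hpos 2
  have h3 : rho z₀ ((γ : SL(2, ℝ)) • z) ≤ c / ‖ISUM.emb Q γ‖ ^ 2 := by
    rw [le_div_iff₀ hsq]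
    exact (mul_le_mul_of_nonneg_left h2 hρ.le).trans h1
  calc rho z₀ ((γ : SL(2, ℝ)) • z) ^ 3 ≤ (c / ‖ISUM.emb Q γ‖ ^ 2) ^ 3 :=
        pow_le_pow_left₀ hρ.le h3 3
    _ = c ^ 3 * (‖ISUM.emb Q γ‖ ^ 6)⁻¹ := by
        rw [div_pow, ← pow_mul, div_eq_mul_inv]

end HQ
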