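import Pool.Agent.Work.MP_d2a4bb_nt.QE.Stmts

open UpperHalfPlane MeasureTheory Matrix
open scoped MatrixGroups Manifold Topology ComplexConjugate

namespace HQ

namespace ITRC

/-- A bound for a nonnegative weight with compact support. -/
theorem exists_bound {Γ : Subgroup SL(2, ℝ)} (W : Weight Γ) : ∃ B : ℝ, 0 ≤ B ∧ ∀ z, W.w z ≤ B := by
  obtain ⟨B, hB⟩ := W.supp.exists_bound_of_continuous W.cont
  refine ⟨B, (norm_nonneg _).trans (hB UpperHalfPlane.I), fun z => ?_⟩
  exact (le_abs_self _).trans (hB z)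

/-- The inner function is continuous. -/
theorem cont_inner (hPHB : StPHB) {Γ : Subgroup SL(2, ℝ)} (V : Finset (List SL(2, ℝ)))
    (κ : List SL(2, ℝ) → ℍ → ℝ) (hκ : ∀ a ∈ V, Continuous (κ a)) (m : ℕ) (f : ℍ → ℂ) (hf : Form Γ m f) :
    Continuous fun z : ℍ => ‖∑ a ∈ V, (κ a z : ℂ) * phi m f z a.prod‖ ^ 2 := by
  have hc : Continuous f := (hPHB.2.2.1 Γ m f hf).1
  have : Continuous fun z : ℍ => ∑ a ∈ V, (κ a z : ℂ) * phi m f z a.prod := by
    refine continuous_finsetSum V (fun a ha => ?_)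
    exact (Complex.continuous_ofReal.comp (hκ a ha)).mul (hPHB.2.1 m f hc a.prod)
  exact this.norm.pow 2

theorem integrable_inner (hPHB : StPHB) {Γ : Subgroup SL(2, ℝ)} (W : Weight Γ) (V : Finset (List SL(2, ℝ)))
    (κ : List SL(2, ℝ) → ℍ → ℝ) (hκ : ∀ a ∈ V, Continuous (κ a)) (m : ℕ) (f : ℍ → ℂ) (hf : Form Γ m f) :
    Integrable fun z : ℍ => W.w z * ‖∑ a ∈ V, (κ a z : ℂ) * phi m f z a.prod‖ ^ 2 := by
  refine Continuous.integrable_of_hasCompactSupport ?_ ?_
  · exact W.cont.mul (cont_inner hPHB V κ hκ m f hf)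
  · exact W.supp.mul_right

end ITRC

open ITRC in
theorem prTRC (hPTW : StPTW) (hBAD : StBAD) (hBND : StBND) (hPHB : StPHB) : StTRC := by
  obtain ⟨C, hC, hP⟩ := hPTW
  refine ⟨2 * C, by positivity, ?_⟩
  intro S W V hwalk hinj κ M hκ hM η hη
  obtain ⟨B, hB0, hB⟩ := exists_bound W
  have hKc : IsCompact (tsupport W.w) := W.supp
  obtain ⟨M₁, hM₁⟩ := hBND S V (tsupport W.w) hKc
  set M₂ : ℝ := ∑ a ∈ V, M a ^ 2 with hM₂
  have hM₂0 : 0 ≤ M₂ := Finset.sum_nonneg (fun a _ => sq_nonneg _)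
  set D : ℝ := C * M₁ * M₂ * B with hD
  have hD0 : 0 ≤ D := by positivity
  obtain ⟨r, hr0, hr1, A, hAc, hAK, hAv, hA2⟩ := hBAD S V hwalk hinj (tsupport W.w) hKc (η / (D + 1)) (by positivity)
  obtain ⟨m₁, hm₁⟩ := exists_nat_ge (1 / r ^ 2)
  refine ⟨max 1 m₁, ?_⟩
  intro m hm ι _ f hf
  have hm1 : 1 ≤ m := le_trans (le_max_left _ _) hm
  have hmm : m₁ ≤ m := le_trans (le_max_right _ _) hm
  have hr2 : 0 < r ^ 2 := by positivity
  have hmr : 1 ≤ (m : ℝ) * r ^ 2 := by
    have h1 : 1 / r ^ 2 ≤ (m : ℝ) := hm₁.trans (by exact_mod_cast hmm)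
    rwa [div_le_iff₀ hr2] at h1
  have hmpos : (0 : ℝ) ≤ m := Nat.cast_nonneg m
  -- the sum of squares of the coefficients
  have hsq : ∀ z : ℍ, ∑ a ∈ V, κ a z ^ 2 ≤ M₂ := by
    intro z
    refine Finset.sum_le_sum (fun a ha => ?_)
    have h1 := hM a ha z
    rw [← sq_abs]
    exact pow_le_pow_left₀ (abs_nonneg _) h1 2
  have hsq0 : ∀ z : ℍ, 0 ≤ ∑ a ∈ V, κ a z ^ 2 := fun z => Finset.sum_nonneg (fun a _ => sq_nonneg _)
  -- pointwise bounds
  have hgood : ∀ z ∈ tsupport W.w, z ∉ A →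
      ∑ i, ‖∑ a ∈ V, (κ a z : ℂ) * phi m (f i) z a.prod‖ ^ 2 ≤ 2 * C * m * M₂ := by
    intro z hz hzA
    have h := hP S.Γ W V (fun a => κ a z) z r 2 m hm1 hr0 hr1 hmr (fun u _ => by
      exact_mod_cast hA2 z hz hzA u) ι f hf
    refine h.trans ?_
    have h2 := hsq z
    have h3 : (0 : ℝ) ≤ C * m * 2 := by positivity
    push_cast
    calc C * (m : ℝ) * 2 * ∑ a ∈ V, κ a z ^ 2 ≤ C * m * 2 * M₂ := mul_le_mul_of_nonneg_left h2 h3
      _ = 2 * C * m * M₂ := by ring
  have hbad : ∀ z ∈ tsupport W.w,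
      ∑ i, ‖∑ a ∈ V, (κ a z : ℂ) * phi m (f i) z a.prod‖ ^ 2 ≤ C * m * M₁ * M₂ := by
    intro z hz
    have h := hP S.Γ W V (fun a => κ a z) z r M₁ m hm1 hr0 hr1 hmr (fun u hu => by
      exact hM₁ z hz u (subset_tsupport _ hu) r hr1) ι f hf
    refine h.trans ?_
    have h2 := hsq z
    have h3 : (0 : ℝ) ≤ C * m * M₁ := by positivity
    exact mul_le_mul_of_nonneg_left h2 h3
  -- the pointwise bound with the weight
  have hpt : ∀ z : ℍ, W.w z * ∑ i, ‖∑ a ∈ V, (κ a z : ℂ) * phi m (f i) z a.prod‖ ^ 2 ≤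
      2 * C * m * M₂ * W.w z + A.indicator (fun _ => D * m) z := by
    intro z
    by_cases hz : z ∈ tsupport W.w
    · by_cases hzA : z ∈ A
      · rw [Set.indicator_of_mem hzA]
        have h1 := hbad z hz
        have h2 : W.w z * ∑ i, ‖∑ a ∈ V, (κ a z : ℂ) * phi m (f i) z a.prod‖ ^ 2 ≤ B * (C * m * M₁ * M₂) :=
          mul_le_mul (hB z) h1 (Finset.sum_nonneg (fun i _ => sq_nonneg _)) hB0
        have h3 : 0 ≤ 2 * C * m * M₂ * W.w z := by
          have := W.nonneg z
          positivity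
        have h4 : B * (C * m * M₁ * M₂) = D * m := by rw [hD]; ring
        linarith
      · rw [Set.indicator_of_notMem hzA, add_zero]
        have h1 := mul_le_mul_of_nonneg_left (hgood z hz hzA) (W.nonneg z)
        linarith [mul_comm (W.w z) (2 * C * m * M₂)]
    · have h0 : W.w z = 0 := image_eq_zero_of_notMem_tsupport hz
      rw [h0]
      have : 0 ≤ A.indicator (fun _ => D * (m : ℝ)) z := Set.indicator_nonneg (fun _ _ => by positivity) z
      simpa using this
  have hAm : MeasurableSet A := hAc.measurableSet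
  have hAfin : volume A < ⊤ := lt_of_le_of_lt hAv ENNReal.ofReal_lt_top
  have hwint : Integrable W.w := W.cont.integrable_of_hasCompactSupport W.supp
  have hind : Integrable (A.indicator (fun _ => D * (m : ℝ))) := by
    rw [integrable_indicator_iff hAm]
    exact integrableOn_const hAfin.ne
  have hint : ∀ i ∈ (Finset.univ : Finset ι), Integrable fun z : ℍ =>
      W.w z * ‖∑ a ∈ V, (κ a z : ℂ) * phi m (f i) z a.prod‖ ^ 2 := fun i _ =>
    integrable_inner hPHB W V κ hκ m (f i) (hf.1 i)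
  calc ∑ i, ∫ z : ℍ, W.w z * ‖∑ a ∈ V, (κ a z : ℂ) * phi m (f i) z a.prod‖ ^ 2
      = ∫ z : ℍ, ∑ i, W.w z * ‖∑ a ∈ V, (κ a z : ℂ) * phi m (f i) z a.prod‖ ^ 2 :=
        (integral_finsetSum _ hint).symm
    _ ≤ ∫ z : ℍ, (2 * C * m * M₂ * W.w z + A.indicator (fun _ => D * (m : ℝ)) z) := by
        refine integral_mono (integrable_finsetSum _ hint) ((hwint.const_mul _).add hind) (fun z => ?_)
        have := hpt z
        rw [Finset.mul_sum] at this
        exact this
    _ = 2 * C * m * M₂ * (∫ z : ℍ, W.w z) + (volume A).toReal * (D * m) := by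
        rw [integral_add (hwint.const_mul _) hind, integral_const_mul, integral_indicator hAm,
          setIntegral_const]
        rfl
    _ ≤ (2 * C * (∫ z : ℍ, W.w z) * M₂ + η) * m := by
        have h1 : (volume A).toReal ≤ η / (D + 1) := by
          refine ENNReal.toReal_le_of_le_ofReal (by positivity) hAv
        have h2 : (volume A).toReal * D ≤ η := by
          calc (volume A).toReal * D ≤ η / (D + 1) * D := mul_le_mul_of_nonneg_right h1 hD0
            _ = η * (D / (D + 1)) := by ring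
            _ ≤ η * 1 := by
                refine mul_le_mul_of_nonneg_left ?_ hη.le
                rw [div_le_one (by positivity)]
                linarith
            _ = η := mul_one η
        have h3 := mul_le_mul_of_nonneg_right h2 hmpos
        have h4 : (volume A).toReal * (D * m) = (volume A).toReal * D * m := by ring
        rw [h4]
        have h5 : (2 * C * (∫ z : ℍ, W.w z) * M₂ + η) * m = 2 * C * m * M₂ * (∫ z : ℍ, W.w z) + η * m := by ring
        rw [h5]
        linarith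

end HQ
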