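import Pool.Agent.Work.MP_d2a4bb_nt.QE.Stmts

open UpperHalfPlane MeasureTheory Matrix
open scoped MatrixGroups Manifold Topology ComplexConjugate

namespace HQ
namespace ITWO

/-- The group `Γ` is countable. -/
theorem countableΓ (Q : QuatOrder) : Countable Q.Γ := by
  have h1 : (Set.range fun c : Fin 4 → ℤ => ∑ i, (c i : ℝ) • Q.basis i).Countable :=
    Set.countable_range _
  have h2 : (Q.O : Set (Matrix (Fin 2) (Fin 2) ℝ)).Countable := by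
    refine h1.mono ?_
    intro x hx
    obtain ⟨c, hc⟩ := (Q.mem_iff x).1 hx
    exact ⟨c, hc.symm⟩
  have h3 : Countable Q.O := h2.to_subtype
  let φ : Q.Γ → Q.O := fun γ => ⟨((γ : SL(2, ℝ)) : Matrix (Fin 2) (Fin 2) ℝ), γ.2.1⟩
  have hφ : Function.Injective φ := by
    intro a b hab
    have h4 : ((a : SL(2, ℝ)) : Matrix (Fin 2) (Fin 2) ℝ) = ((b : SL(2, ℝ)) : Matrix (Fin 2) (Fin 2) ℝ) :=
      congrArg (fun x : Q.O => (x : Matrix (Fin 2) (Fin 2) ℝ)) hab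
    exact Subtype.ext (Subtype.ext h4)
  exact hφ.countable

/-- The equations of a fixed point. -/
theorem fix_eq (g : SL(2, ℝ)) (z : ℍ) (h : g • z = z) :
    2 * g 1 0 * z.re = g 0 0 - g 1 1 ∧ g 1 0 * (z.re ^ 2 + z.im ^ 2) = - g 0 1 := by
  have h1 : ((g • z : ℍ) : ℂ) = ((g 0 0 : ℝ) * (z : ℂ) + (g 0 1 : ℝ)) / ((g 1 0 : ℝ) * (z : ℂ) + (g 1 1 : ℝ)) :=
    UpperHalfPlane.coe_specialLinearGroup_apply g z
  have hden : ((g 1 0 : ℝ) : ℂ) * (z : ℂ) + ((g 1 1 : ℝ) : ℂ) ≠ 0 := by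
    intro h0
    have h2 : (z : ℂ) = 0 := by
      have := h1
      rw [h, h0, div_zero] at this
      exact this
    have h3 := z.im_pos
    have h4 : (z : ℂ).im = 0 := by rw [h2]; simp
    have h5 : (z : ℂ).im = z.im := rfl
    linarith
  rw [h, eq_div_iff hden] at h1
  have hre := congrArg Complex.re h1
  have him := congrArg Complex.im h1
  have e1 : (z : ℂ).re = z.re := rfl
  have e2 : (z : ℂ).im = z.im := rfl
  simp only [Complex.mul_re, Complex.mul_im, Complex.add_re, Complex.add_im, Complex.ofReal_re, Complex.ofReal_im,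
    e1, e2] at hre him
  have hy := z.im_pos
  have k1 : z.im * (2 * g 1 0 * z.re - (g 0 0 - g 1 1)) = 0 := by linarith
  have k2 : 2 * g 1 0 * z.re - (g 0 0 - g 1 1) = 0 := by
    rcases mul_eq_zero.1 k1 with h | h
    · exact absurd h (ne_of_gt hy)
    · exact h
  refine ⟨by linarith, ?_⟩
  have k3 : g 0 0 = 2 * g 1 0 * z.re + g 1 1 := by linarith
  rw [k3] at hre
  nlinarith

/-- An element different from `1` and `-1` fixes at most one point. -/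
theorem fix_unique (g : SL(2, ℝ)) (h1 : g ≠ 1) (h2 : g ≠ -1) (z w : ℍ) (hz : g • z = z) (hw : g • w = w) : z = w := by
  obtain ⟨a1, a2⟩ := fix_eq g z hz
  obtain ⟨b1, b2⟩ := fix_eq g w hw
  have hdet : g 0 0 * g 1 1 - g 0 1 * g 1 0 = 1 := by
    have := g.det_coe
    rw [Matrix.det_fin_two] at this
    exact this
  by_cases hc : g 1 0 = 0
  · exfalso
    have d1 : g 0 0 = g 1 1 := by rw [hc] at a1; linarith
    have d2 : g 0 1 = 0 := by rw [hc] at a2; linarith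
    have d3 : g 0 0 ^ 2 = 1 := by rw [← d1, d2, hc] at hdet; linarith [sq (g 0 0)]
    rcases sq_eq_one_iff.1 d3 with h | h
    · apply h1
      ext i j
      fin_cases i <;> fin_cases j <;> simp [d2, hc, h, ← d1]
    · apply h2
      ext i j
      fin_cases i <;> fin_cases j <;> simp [d2, hc, h, ← d1]
  · have r : z.re = w.re := by
      have : g 1 0 * z.re = g 1 0 * w.re := by linarith
      exact mul_left_cancel₀ hc this
    have q : z.im ^ 2 = w.im ^ 2 := by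
      have : g 1 0 * (z.re ^ 2 + z.im ^ 2) = g 1 0 * (w.re ^ 2 + w.im ^ 2) := by linarith
      have := mul_left_cancel₀ hc this
      rw [r] at this
      linarith
    have q2 : z.im = w.im := by
      have hz := z.im_pos
      have hw := w.im_pos
      exact (pow_left_inj₀ hz.le hw.le two_ne_zero).1 q
    exact UpperHalfPlane.ext (Complex.ext r q2)

/-- The point `t + i`. -/
noncomputable def pt (t : ℝ) : ℍ := ⟨⟨t, 1⟩, by simp⟩

theorem pt_inj : Function.Injective pt := by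
  intro a b h
  have := congrArg (fun z : ℍ => (z : ℂ).re) h
  exact this

theorem exists_pt (s : Set ℍ) (hs : s.Countable) : ∃ t : ℝ, pt t ∉ s := by
  by_contra hcon
  push Not at hcon
  have h1 : (pt ⁻¹' s).Countable := hs.preimage pt_inj
  have h2 : pt ⁻¹' s = Set.univ := Set.eq_univ_of_forall hcon
  rw [h2] at h1
  exact Cardinal.not_countable_real h1

/-- The powers of the terms of a convergent series tend to zero. -/
theorem tsum_pow_tendsto {ι : Type} (r b : ι → ℝ) (h0 : ∀ i, 0 ≤ r i) (h1 : ∀ i, r i < 1) (hb : Summable b)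
    (hrb : ∀ i, r i ^ 3 ≤ b i) : Filter.Tendsto (fun m : ℕ => ∑' i, r i ^ m) Filter.atTop (𝓝 0) := by
  have h2 : Filter.Tendsto (fun m : ℕ => ∑' i, r i ^ m) Filter.atTop (𝓝 (∑' _ : ι, (0 : ℝ))) := by
    refine tendsto_tsum_of_dominated_convergence hb ?_ ?_
    · intro i
      exact tendsto_pow_atTop_nhds_zero_of_lt_one (h0 i) (h1 i)
    · filter_upwards [Filter.eventually_ge_atTop 3] with m hm i
      rw [Real.norm_of_nonneg (pow_nonneg (h0 i) m)]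
      exact (pow_le_pow_of_le_one (h0 i) (h1 i).le hm).trans (hrb i)
  simpa using h2

end ITWO

open ITWO in
theorem prTWO (hPOI : StPOI) (hSUM : StSUM) (hRHO : StRHO) : StTWO := by
  intro Q
  have hcΓ : Countable Q.Γ := countableΓ Q
  -- the bad set
  let bad : Set ℍ := ⋃ γ : Q.Γ, {z : ℍ | (γ : SL(2, ℝ)) ≠ 1 ∧ (γ : SL(2, ℝ)) ≠ -1 ∧ (γ : SL(2, ℝ)) • z = z}
  have hbad : bad.Countable := by
    refine Set.countable_iUnion fun γ => ?_
    refine Set.Subsingleton.countable ?_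
    rintro z ⟨hz1, hz2, hz3⟩ w ⟨_, _, hw3⟩
    exact fix_unique _ hz1 hz2 z w hz3 hw3
  obtain ⟨t₀, ht₀⟩ := exists_pt bad hbad
  have horb : (Set.range fun γ : Q.Γ => (γ : SL(2, ℝ)) • pt t₀).Countable := Set.countable_range _
  obtain ⟨t₁, ht₁⟩ := exists_pt (bad ∪ Set.range fun γ : Q.Γ => (γ : SL(2, ℝ)) • pt t₀) (hbad.union horb)
  rw [Set.mem_union, not_or] at ht₁
  obtain ⟨ht₁, ht₂⟩ := ht₁
  have hfix : ∀ t : ℝ, pt t ∉ bad → ∀ γ : Q.Γ, (γ : SL(2, ℝ)) ≠ 1 → (γ : SL(2, ℝ)) ≠ -1 → rho (pt t) ((γ : SL(2, ℝ)) • pt t) < 1 := by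
    intro t ht γ h1 h2
    refine lt_of_le_of_ne (hRHO.1 _ _).2.1 fun h3 => ht ?_
    exact Set.mem_iUnion.2 ⟨γ, h1, h2, (hRHO.1 _ _).2.2 h3⟩
  have him : ∀ t : ℝ, (pt t).im = 1 := fun t => rfl
  have key : ∀ s t : ℝ, (∀ γ : Q.Γ, rho (pt s) ((γ : SL(2, ℝ)) • pt t) < 1) →
      Filter.Tendsto (fun m : ℕ => ∑' γ : Q.Γ, rho (pt s) ((γ : SL(2, ℝ)) • pt t) ^ m) Filter.atTop (𝓝 0) := by
    intro s t h
    obtain ⟨b, hb, hb2⟩ := hSUM Q (pt s) {pt t} isCompact_singleton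
    exact tsum_pow_tendsto _ b (fun γ => (hRHO.1 _ _).1.le) h hb (fun γ => hb2 γ _ rfl)
  have key2 : ∀ t : ℝ, pt t ∉ bad → Filter.Tendsto (fun m : ℕ => ∑' γ : {γ : Q.Γ // (γ : SL(2, ℝ)) ≠ 1 ∧ (γ : SL(2, ℝ)) ≠ -1},
      rho (pt t) ((γ : SL(2, ℝ)) • pt t) ^ m) Filter.atTop (𝓝 0) := by
    intro t h
    obtain ⟨b, hb, hb2⟩ := hSUM Q (pt t) {pt t} isCompact_singleton
    exact tsum_pow_tendsto _ (fun γ => b γ.1) (fun γ => (hRHO.1 _ _).1.le) (fun γ => hfix t h γ.1 γ.2.1 γ.2.2)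
      (hb.comp_injective Subtype.val_injective) (fun γ => hb2 γ.1 _ rfl)
  have h01 : ∀ γ : Q.Γ, rho (pt t₀) ((γ : SL(2, ℝ)) • pt t₁) < 1 := by
    intro γ
    refine lt_of_le_of_ne (hRHO.1 _ _).2.1 fun h3 => ht₂ ?_
    have h4 := (hRHO.1 _ _).2.2 h3
    refine ⟨γ⁻¹, ?_⟩
    show ((γ⁻¹ : Q.Γ) : SL(2, ℝ)) • pt t₀ = pt t₁
    rw [← h4, Subgroup.coe_inv, inv_smul_smul]
  have h10 : ∀ γ : Q.Γ, rho (pt t₁) ((γ : SL(2, ℝ)) • pt t₀) < 1 := by
    intro γ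
    refine lt_of_le_of_ne (hRHO.1 _ _).2.1 fun h3 => ht₂ ?_
    exact ⟨γ, (hRHO.1 _ _).2.2 h3⟩
  have q4 : (0 : ℝ) < 1 / 4 := by norm_num
  have E1 := (key _ _ h01).eventually (gt_mem_nhds q4)
  have E2 := (key _ _ h10).eventually (gt_mem_nhds q4)
  have E3 := (key2 _ ht₀).eventually (gt_mem_nhds q4)
  have E4 := (key2 _ ht₁).eventually (gt_mem_nhds q4)
  obtain ⟨m₀, hm₀⟩ := Filter.eventually_atTop.1 (E1.and (E2.and (E3.and (E4.and (Filter.eventually_ge_atTop 3)))))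
  refine ⟨m₀, fun m hm => ?_⟩
  obtain ⟨e1, e2, e3, e4, e5⟩ := hm₀ m hm
  obtain ⟨P₀, hP₀, hP₀b, hP₀c⟩ := hPOI Q (pt t₀) m e5
  obtain ⟨P₁, hP₁, hP₁b, hP₁c⟩ := hPOI Q (pt t₁) m e5
  refine ⟨P₀, P₁, hP₀, hP₁, fun a b hab => ?_⟩
  have f1 : ‖P₀ (pt t₁)‖ ≤ 1 / 4 := by
    have := hP₀b (pt t₁)
    rw [him, him, one_pow, one_mul, mul_one] at this
    exact this.trans e1.le
  have f2 : ‖P₁ (pt t₀)‖ ≤ 1 / 4 := by
    have := hP₁b (pt t₀)
    rw [him, him, one_pow, one_mul, mul_one] at this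
    exact this.trans e2.le
  have f3 : 7 / 4 ≤ ‖P₀ (pt t₀)‖ := by
    have h1 := hP₀c.trans e3.le
    have h2 : ‖(2 : ℂ)‖ ≤ ‖P₀ (pt t₀)‖ + ‖P₀ (pt t₀) - 2‖ := by
      have := norm_sub_le (P₀ (pt t₀)) (P₀ (pt t₀) - 2)
      rwa [sub_sub_cancel] at this
    rw [Complex.norm_ofNat] at h2
    linarith
  have f4 : 7 / 4 ≤ ‖P₁ (pt t₁)‖ := by
    have h1 := hP₁c.trans e4.le
    have h2 : ‖(2 : ℂ)‖ ≤ ‖P₁ (pt t₁)‖ + ‖P₁ (pt t₁) - 2‖ := by
      have := norm_sub_le (P₁ (pt t₁)) (P₁ (pt t₁) - 2)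
      rwa [sub_sub_cancel] at this
    rw [Complex.norm_ofNat] at h2
    linarith
  have g1 : ‖a‖ * ‖P₀ (pt t₀)‖ = ‖b‖ * ‖P₁ (pt t₀)‖ := by
    rw [← norm_mul, ← norm_mul, eq_neg_of_add_eq_zero_left (hab (pt t₀)), norm_neg]
  have g2 : ‖a‖ * ‖P₀ (pt t₁)‖ = ‖b‖ * ‖P₁ (pt t₁)‖ := by
    rw [← norm_mul, ← norm_mul, eq_neg_of_add_eq_zero_left (hab (pt t₁)), norm_neg]
  have na := norm_nonneg a
  have nb := norm_nonneg b
  have k1 : ‖a‖ * (7 / 4) ≤ ‖b‖ * (1 / 4) :=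
    (mul_le_mul_of_nonneg_left f3 na).trans (g1.le.trans (mul_le_mul_of_nonneg_left f2 nb))
  have k2 : ‖b‖ * (7 / 4) ≤ ‖a‖ * (1 / 4) :=
    (mul_le_mul_of_nonneg_left f4 nb).trans (g2.symm.le.trans (mul_le_mul_of_nonneg_left f1 na))
  have a0 : ‖a‖ = 0 := by linarith
  have b0 : ‖b‖ = 0 := by linarith
  exact ⟨norm_eq_zero.1 a0, norm_eq_zero.1 b0⟩

end HQ
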