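import Pool.Agent.Work.MP_d2a4bb_nt.QE.Stmts

/-!
# Item UNI of the block [d2a4bb QE]: uniform density of even walks
-/

open UpperHalfPlane MeasureTheory Matrix
open scoped MatrixGroups Manifold Topology ComplexConjugate

namespace HQ

namespace IUNI

/-- `E` is stable under right multiplication by `Γ`. -/
theorem E_mul_right (S : Setup) {x γ : SL(2, ℝ)} (hx : x ∈ S.E) (hγ : γ ∈ S.Γ) : x * γ ∈ S.E := by
  have h := S.E_inv _ (S.E_mul _ (S.Γ.inv_mem hγ) _ (S.E_inv _ hx))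
  rwa [_root_.mul_inv_rev, inv_inv, inv_inv] at h

/-- `E` is not empty. -/
theorem E_nonempty (S : Setup) : ∃ e : SL(2, ℝ), e ∈ S.E := by
  have h : 0 < S.R.card := lt_of_lt_of_le (by norm_num) S.card
  obtain ⟨α, hα⟩ := Finset.card_pos.1 h
  exact ⟨α, S.R_mem α hα⟩

/-- A list of letters can be lengthened by `2 k` letters without changing the product. -/
theorem lengthen (S : Setup) (l : List SL(2, ℝ)) (hl : ∀ e ∈ l, e ∈ S.E) (k : ℕ) :
    ∃ l' : List SL(2, ℝ), l'.length = l.length + 2 * k ∧ (∀ e ∈ l', e ∈ S.E) ∧ l'.prod = l.prod := by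
  obtain ⟨e, he⟩ := E_nonempty S
  induction k with
  | zero => exact ⟨l, by simp, hl, rfl⟩
  | succ k ih =>
    obtain ⟨l', h1, h2, h3⟩ := ih
    refine ⟨e :: e⁻¹ :: l', ?_, ?_, ?_⟩
    · simp only [List.length_cons, h1]; ring
    · intro x hx
      rcases List.mem_cons.1 hx with rfl | hx
      · exact he
      · rcases List.mem_cons.1 hx with rfl | hx
        · exact S.E_inv _ he
        · exact h2 x hx
    · rw [List.prod_cons, List.prod_cons, mul_inv_cancel_left, h3]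

/-- The compactness step: on `K × K` lists of one even length suffice. -/
theorem compact_step (S : Setup) (ε : ℝ) (hε : 0 < ε) : ∃ L : ℕ, ∀ z ∈ S.K, ∀ w ∈ S.K,
    ∃ l : List SL(2, ℝ), l.length = 2 * (L + 1) ∧ (∀ e ∈ l, e ∈ S.E) ∧ dist (l.prod • z) w < ε := by
  classical
  let ι := {l : List SL(2, ℝ) // Even l.length ∧ ∀ e ∈ l, e ∈ S.E}
  let U : ι → Set (ℍ × ℍ) := fun l => {p | dist ((l : List SL(2, ℝ)).prod • p.1) p.2 < ε}
  have hU : ∀ l : ι, IsOpen (U l) := by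
    intro l
    have h1 : Continuous fun p : ℍ × ℍ => (l : List SL(2, ℝ)).prod • p.1 :=
      (continuous_const_smul _).comp continuous_fst
    exact isOpen_lt (h1.dist continuous_snd) continuous_const
  have hcov : S.K ×ˢ S.K ⊆ ⋃ l : ι, U l := by
    rintro ⟨z, w⟩ -
    obtain ⟨l, h1, h2, h3⟩ := S.dense z w ε hε
    exact Set.mem_iUnion.2 ⟨⟨l, h1, h2⟩, h3⟩
  obtain ⟨t, ht⟩ := (S.K_compact.prod S.K_compact).elim_finite_subcover U hU hcov
  refine ⟨t.sup fun l => (l : List SL(2, ℝ)).length, fun z hz w hw => ?_⟩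
  have h := ht (Set.mk_mem_prod hz hw)
  obtain ⟨l, hl, hlU⟩ := Set.mem_iUnion₂.1 h
  have hle : (l : List SL(2, ℝ)).length ≤ t.sup fun l => (l : List SL(2, ℝ)).length :=
    Finset.le_sup (f := fun l : ι => (l : List SL(2, ℝ)).length) hl
  obtain ⟨m, hm⟩ := l.2.1
  set N := t.sup fun l => (l : List SL(2, ℝ)).length with hN
  obtain ⟨l', h1, h2, h3⟩ := lengthen S l l.2.2 (N + 1 - m)
  refine ⟨l', ?_, h2, ?_⟩
  · rw [h1]; omega
  · rw [h3]; exact hlU

end IUNI

open IUNI in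
/-- UNI: uniform density of even walks. -/
theorem prUNI : StUNI := by
  intro S ε hε
  obtain ⟨L, hL⟩ := compact_step S ε hε
  refine ⟨L + 1, fun z w => ?_⟩
  obtain ⟨γ₁, hγ₁, h₁⟩ := S.K_cover z
  obtain ⟨γ₂, hγ₂, h₂⟩ := S.K_cover w
  obtain ⟨l, hl1, hl2, hl3⟩ := hL _ h₁ _ h₂
  have hne : l ≠ [] := by
    rintro rfl
    simp at hl1
  obtain ⟨l', e, rfl⟩ : ∃ (l' : List SL(2, ℝ)) (e : SL(2, ℝ)), l = l' ++ [e] :=
    ⟨l.dropLast, l.getLast hne, (List.dropLast_append_getLast hne).symm⟩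
  refine ⟨l' ++ [e * γ₁], ?_, ?_, γ₂⁻¹, S.Γ.inv_mem hγ₂, ?_⟩
  · rw [← hl1, List.length_append, List.length_append]; rfl
  · intro x hx
    rcases List.mem_append.1 hx with hx | hx
    · exact hl2 x (List.mem_append_left _ hx)
    · rw [List.mem_singleton] at hx
      subst hx
      exact E_mul_right S (hl2 e (List.mem_append_right _ (List.mem_singleton.2 rfl))) hγ₁
  · have h1 : (l' ++ [e * γ₁]).prod = (l' ++ [e]).prod * γ₁ := by
      rw [List.prod_append, List.prod_append, List.prod_singleton, List.prod_singleton, mul_assoc]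
    have h2 : dist (γ₂⁻¹ • ((l' ++ [e]).prod • (γ₁ • z))) (γ₂⁻¹ • (γ₂ • w)) < ε := by
      rw [dist_smul]; exact hl3
    rw [inv_smul_smul] at h2
    rw [h1, mul_smul]
    exact h2

end HQ
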