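import Pool.Agent.Work.MP_d2a4bb_nt.QE.Stmts

/-!
# Item VAR: the variance bound
-/

set_option autoImplicit false

open UpperHalfPlane MeasureTheory Matrix
open scoped MatrixGroups Manifold Topology ComplexConjugate

namespace HQ

namespace IVAR

/-- the weights of the paths -/
noncomputable def cf (q : ℝ) (N : ℕ) (a : List SL(2, ℝ)) : ℝ :=
  (1 / (N : ℝ)) * q / q ^ (a.length / 2)

theorem cf_nonneg {q : ℝ} (hq : 0 < q) (N : ℕ) (a : List SL(2, ℝ)) : 0 ≤ cf q N a := by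
  unfold cf
  positivity

/-- the sum of the squares -/
theorem sum_sq (hWRD : StWRD) (S : Setup) (N : ℕ) (hN : 1 ≤ N) (B : ℝ) :
    ∑ a ∈ (Finset.Icc 1 N).biUnion (fun n => words S.Γ S.R (2 * n)),
      (cf ((S.R.card : ℝ) - 1) N a * (2 * B)) ^ 2 =
    4 * B ^ 2 * ((S.R.card : ℝ) * ((S.R.card : ℝ) - 1)) / N := by
  have hd : (3 : ℝ) ≤ S.R.card := by exact_mod_cast S.card
  have hq : 0 < (S.R.card : ℝ) - 1 := by linarith
  have hN0 : (N : ℝ) ≠ 0 := by positivity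
  rw [Finset.sum_biUnion]
  · have h1 : ∀ n ∈ Finset.Icc 1 N, ∑ a ∈ words S.Γ S.R (2 * n),
        (cf ((S.R.card : ℝ) - 1) N a * (2 * B)) ^ 2 =
        4 * B ^ 2 * ((S.R.card : ℝ) * ((S.R.card : ℝ) - 1)) / (N : ℝ) ^ 2 := by
      intro n hn
      obtain ⟨hn1, -⟩ := Finset.mem_Icc.mp hn
      have h2 : ∀ a ∈ words S.Γ S.R (2 * n), (cf ((S.R.card : ℝ) - 1) N a * (2 * B)) ^ 2 =
          ((1 / (N : ℝ)) * ((S.R.card : ℝ) - 1) / ((S.R.card : ℝ) - 1) ^ n * (2 * B)) ^ 2 := by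
        intro a ha
        have h3 : a.length = 2 * n := (((hWRD S).1 (2 * n) a).mp ha).1
        unfold cf
        rw [h3, Nat.mul_div_cancel_left n (by norm_num)]
      rw [Finset.sum_congr rfl h2, Finset.sum_const, nsmul_eq_mul]
      obtain ⟨k, rfl⟩ : ∃ k, n = k + 1 := ⟨n - 1, by omega⟩
      have h4 : (words S.Γ S.R (2 * (k + 1))).card = S.R.card * (S.R.card - 1) ^ (2 * k + 1) := by
        have := (hWRD S).2.2.2.2.2.2 (2 * k + 1)
        rw [show 2 * (k + 1) = 2 * k + 1 + 1 by ring]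
        exact this
      have h5 : ((S.R.card - 1 : ℕ) : ℝ) = (S.R.card : ℝ) - 1 := by
        have := S.card
        push_cast [Nat.cast_sub (by omega : 1 ≤ S.R.card)]
        ring
      rw [h4]
      push_cast
      rw [h5]
      have hqn : ((S.R.card : ℝ) - 1) ≠ 0 := hq.ne'
      field_simp
      ring
    rw [Finset.sum_congr rfl h1, Finset.sum_const, nsmul_eq_mul, Nat.card_Icc]
    have : ((N + 1 - 1 : ℕ) : ℝ) = N := by simp
    rw [this]
    field_simp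
  · intro n _ n' _ hne
    rw [Function.onFun, Finset.disjoint_left]
    intro a ha ha'
    have h3 : a.length = 2 * n := (((hWRD S).1 (2 * n) a).mp ha).1
    have h4 : a.length = 2 * n' := (((hWRD S).1 (2 * n') a).mp ha').1
    exact hne (by omega)

end IVAR

open IVAR in
/-- item VAR -/
theorem prVAR (hCSI : StCSI) (hTRC : StTRC) (hWRD : StWRD) : StVAR := by
  intro S W
  obtain ⟨C, hC, hT⟩ := hTRC
  have hd : (3 : ℝ) ≤ S.R.card := by exact_mod_cast S.card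
  have hq : 0 < (S.R.card : ℝ) - 1 := by linarith
  have hI : 0 ≤ ∫ z : ℍ, W.w z := integral_nonneg W.nonneg
  refine ⟨4 * C * (∫ z : ℍ, W.w z) * ((S.R.card : ℝ) * ((S.R.card : ℝ) - 1)) + 1, ?_, ?_⟩
  · have : 0 ≤ 4 * C * (∫ z : ℍ, W.w z) * ((S.R.card : ℝ) * ((S.R.card : ℝ) - 1)) :=
      mul_nonneg (mul_nonneg (by linarith) hI) (mul_nonneg (by linarith) hq.le)
    linarith
  intro y B hy hB N hN η hη
  have hN0 : (0 : ℝ) < N := by exact_mod_cast hN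
  have hB0 : 0 ≤ B := (abs_nonneg _).trans (hB UpperHalfPlane.I)
  set V : Finset (List SL(2, ℝ)) :=
    (Finset.Icc 1 N).biUnion (fun n => words S.Γ S.R (2 * n)) with hV
  have hmem : ∀ a ∈ V, ∃ n, a ∈ words S.Γ S.R n := by
    intro a ha
    rw [hV, Finset.mem_biUnion] at ha
    obtain ⟨n, -, hn⟩ := ha
    exact ⟨2 * n, hn⟩
  have hw : ∀ a ∈ V, IsWord S.Γ S.R a := by
    intro a ha
    obtain ⟨n, hn⟩ := hmem a ha
    exact (((hWRD S).1 n a).mp hn).2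
  have h1 : ∀ a ∈ V, ∃ n, Walk S.Γ S.E n a.prod := by
    intro a ha
    obtain ⟨n, hn⟩ := hmem a ha
    exact ⟨n, (hWRD S).2.2.2.2.2.1 n a hn⟩
  have h2 : ∀ a ∈ V, ∀ b ∈ V, a.prod * b.prod⁻¹ ∈ S.Γ → a = b :=
    fun a ha b hb h => S.inj a b (hw a ha) (hw b hb) h
  let κ : List SL(2, ℝ) → ℍ → ℝ := fun a z => cf ((S.R.card : ℝ) - 1) N a *
    (y (vtx a (a.length / 2) • z) - y (vtx a (a.length / 2 - 1) • z))
  have h3 : ∀ a ∈ V, Continuous (κ a) := by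
    intro a _
    refine continuous_const.mul (Continuous.sub ?_ ?_)
    · exact hy.1.comp (continuous_const_smul _)
    · exact hy.1.comp (continuous_const_smul _)
  have h4 : ∀ a ∈ V, ∀ z, |κ a z| ≤ cf ((S.R.card : ℝ) - 1) N a * (2 * B) := by
    intro a _ z
    show |cf ((S.R.card : ℝ) - 1) N a * _| ≤ _
    rw [abs_mul, abs_of_nonneg (cf_nonneg hq N a)]
    refine mul_le_mul_of_nonneg_left ?_ (cf_nonneg hq N a)
    have e1 := abs_le.mp (hB (vtx a (a.length / 2) • z))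
    have e2 := abs_le.mp (hB (vtx a (a.length / 2 - 1) • z))
    rw [abs_le]
    constructor <;> linarith [e1.1, e1.2, e2.1, e2.2]
  obtain ⟨m₀, hm₀⟩ := hT S W V h1 h2 κ _ h3 h4 η hη
  refine ⟨m₀, ?_⟩
  intro m hm ι _ f hf hE
  have h5 := hm₀ m hm ι f hf
  have h6 : ∑ i, (∫ z : ℍ, W.w z * (((S.R.card : ℝ) * y z - Tf S.R y z) * FF m (f i) z ^ 2)) ^ 2 ≤
      ∑ i, ∫ z : ℍ, W.w z * ‖∑ a ∈ V, (κ a z : ℂ) * phi m (f i) z a.prod‖ ^ 2 := by
    refine Finset.sum_le_sum fun i _ => ?_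
    obtain ⟨l, hl⟩ := hE i
    exact hCSI S W y hy N hN m (f i) l (hf.1 i) hl (hf.2.2 i)
  refine (h6.trans h5).trans ?_
  have hm0 : (0 : ℝ) ≤ m := Nat.cast_nonneg m
  refine mul_le_mul_of_nonneg_right ?_ hm0
  rw [hV, sum_sq hWRD S N hN B]
  have e3 : C * (∫ z : ℍ, W.w z) * (4 * B ^ 2 * ((S.R.card : ℝ) * ((S.R.card : ℝ) - 1)) / N) =
      4 * C * (∫ z : ℍ, W.w z) * ((S.R.card : ℝ) * ((S.R.card : ℝ) - 1)) * B ^ 2 / N := by
    ring
  rw [e3]
  have e4 : 4 * C * (∫ z : ℍ, W.w z) * ((S.R.card : ℝ) * ((S.R.card : ℝ) - 1)) * B ^ 2 / N ≤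
      (4 * C * (∫ z : ℍ, W.w z) * ((S.R.card : ℝ) * ((S.R.card : ℝ) - 1)) + 1) * B ^ 2 / N := by
    refine div_le_div_of_nonneg_right ?_ hN0.le
    nlinarith [sq_nonneg B]
  linarith

end HQ
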