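import Pool.Agent.Work.MP_d2a4bb_nt.QE.Stmts

/-!
# Item WGT: existence of a weight
-/

set_option autoImplicit false

open UpperHalfPlane MeasureTheory Matrix
open scoped MatrixGroups Manifold Topology ComplexConjugate

namespace HQ

namespace IWGT

variable {Γ : Subgroup SL(2, ℝ)} {u : ℍ → ℝ}

/-- local finiteness -/
theorem fin_of (hfin : ∀ K : Set ℍ, IsCompact K →
      {γ : SL(2, ℝ) | γ ∈ Γ ∧ ∃ z ∈ K, γ • z ∈ K}.Finite) (hu : HasCompactSupport u)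
    (L : Set ℍ) (hL : IsCompact L) : {γ : SL(2, ℝ) | γ ∈ Γ ∧ ∃ z ∈ L, u (γ • z) ≠ 0}.Finite := by
  refine (hfin (L ∪ tsupport u) (hL.union hu)).subset ?_
  rintro γ ⟨hγ, z, hz, hne⟩
  exact ⟨hγ, z, Or.inl hz, Or.inr (subset_tsupport u hne)⟩

theorem fin_of' (hfin : ∀ K : Set ℍ, IsCompact K →
      {γ : SL(2, ℝ) | γ ∈ Γ ∧ ∃ z ∈ K, γ • z ∈ K}.Finite) (hu : HasCompactSupport u)
    (L : Set ℍ) (hL : IsCompact L) : {γ : Γ | ∃ z ∈ L, u ((γ : SL(2, ℝ)) • z) ≠ 0}.Finite := by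
  refine Set.Finite.of_finite_image ((fin_of hfin hu L hL).subset ?_)
    (f := fun γ : Γ => (γ : SL(2, ℝ))) (Subtype.val_injective.injOn)
  rintro _ ⟨γ, hγ, rfl⟩
  exact ⟨γ.2, hγ⟩

theorem supp_fin (hfin : ∀ K : Set ℍ, IsCompact K →
      {γ : SL(2, ℝ) | γ ∈ Γ ∧ ∃ z ∈ K, γ • z ∈ K}.Finite) (hu : HasCompactSupport u) (z : ℍ) :
    (Function.support fun γ : Γ => u ((γ : SL(2, ℝ)) • z)).Finite := by
  refine (fin_of' hfin hu {z} isCompact_singleton).subset ?_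
  intro γ hγ
  exact ⟨z, rfl, hγ⟩

theorem cont_U (hfin : ∀ K : Set ℍ, IsCompact K →
      {γ : SL(2, ℝ) | γ ∈ Γ ∧ ∃ z ∈ K, γ • z ∈ K}.Finite) (huc : Continuous u)
    (hu : HasCompactSupport u) :
    Continuous fun z : ℍ => ∑ᶠ γ : Γ, u ((γ : SL(2, ℝ)) • z) := by
  refine continuous_finsum (fun γ => huc.comp (continuous_const_smul (γ : SL(2, ℝ)))) ?_
  intro z
  refine ⟨Metric.closedBall z 1, Metric.closedBall_mem_nhds z one_pos, ?_⟩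
  refine (fin_of' hfin hu (Metric.closedBall z 1) (isCompact_closedBall z 1)).subset ?_
  rintro γ ⟨w, hw, hwK⟩
  exact ⟨w, hwK, hw⟩

theorem inv_U (δ : Γ) (z : ℍ) :
    ∑ᶠ γ : Γ, u ((γ : SL(2, ℝ)) • ((δ : SL(2, ℝ)) • z)) = ∑ᶠ γ : Γ, u ((γ : SL(2, ℝ)) • z) := by
  rw [← finsum_comp_equiv (Equiv.mulRight δ) (f := fun γ : Γ => u ((γ : SL(2, ℝ)) • z))]
  refine finsum_congr fun γ => ?_
  rw [Equiv.coe_mulRight, Subgroup.coe_mul, mul_smul]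

end IWGT

open IWGT

/-- Item WGT. -/
theorem prWGT : StWGT := by
  rintro Γ hfin ⟨K, hK, hcov⟩
  obtain ⟨u, hu1, -, hus, hu01⟩ := exists_continuous_one_zero_of_isCompact (X := ℍ) hK
    isClosed_empty (Set.disjoint_empty K)
  have hU1 : ∀ z : ℍ, 1 ≤ ∑ᶠ γ : Γ, u ((γ : SL(2, ℝ)) • z) := by
    intro z
    obtain ⟨γ, hγ, hγK⟩ := hcov z
    have h1 : u (γ • z) = 1 := hu1 hγK
    rw [← h1]
    exact single_le_finsum (⟨γ, hγ⟩ : Γ) (supp_fin hfin hus z) (fun δ => (hu01 _).1)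
  have hU0 : ∀ z : ℍ, (∑ᶠ γ : Γ, u ((γ : SL(2, ℝ)) • z)) ≠ 0 := fun z => by
    have := hU1 z
    linarith
  refine ⟨{ w := fun z => u z / ∑ᶠ γ : Γ, u ((γ : SL(2, ℝ)) • z)
            cont := u.continuous.div (cont_U hfin u.continuous hus) hU0
            nonneg := fun z => div_nonneg (hu01 z).1 (by linarith [hU1 z])
            supp := ?_
            fin := ?_
            sum := ?_ }⟩
  · have h2 : HasCompactSupport (fun z => u z * (∑ᶠ γ : Γ, u ((γ : SL(2, ℝ)) • z))⁻¹) :=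
      hus.mul_right
    exact h2
  · intro L hL
    refine (fin_of hfin hus L hL).subset ?_
    rintro γ ⟨hγ, z, hz, hne⟩
    refine ⟨hγ, z, hz, fun h0 => hne ?_⟩
    simp only [h0, zero_div]
  · intro z
    have h3 : ∀ δ : Γ, u ((δ : SL(2, ℝ)) • z) /
        (∑ᶠ γ : Γ, u ((γ : SL(2, ℝ)) • ((δ : SL(2, ℝ)) • z))) =
        u ((δ : SL(2, ℝ)) • z) * (∑ᶠ γ : Γ, u ((γ : SL(2, ℝ)) • z))⁻¹ := by
      intro δ
      rw [inv_U δ z, div_eq_mul_inv]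
    rw [finsum_congr h3, ← finsum_mul]
    exact mul_inv_cancel₀ (hU0 z)

end HQ
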