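import Pool.Agent.Work.MP_d2a4bb_nt.QE.Stmts

/-!
# Item WLK of the block [d2a4bb QE]: iterates of the Hecke operator are sums over all walks
-/

open UpperHalfPlane MeasureTheory Matrix
open scoped MatrixGroups Manifold Topology ComplexConjugate

namespace HQ

namespace IWLK

theorem E_mul_right (S : Setup) {x γ : SL(2, ℝ)} (hx : x ∈ S.E) (hγ : γ ∈ S.Γ) : x * γ ∈ S.E := by
  have h1 : γ⁻¹ * x⁻¹ ∈ S.E := S.E_mul _ (S.Γ.inv_mem hγ) _ (S.E_inv _ hx)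
  have h2 := S.E_inv _ h1
  rwa [_root_.mul_inv_rev, inv_inv, inv_inv] at h2

/-- invariance of `Tf y` -/
theorem Tf_inv (S : Setup) (y : ℍ → ℝ) (hy : ∀ γ ∈ S.Γ, ∀ z : ℍ, y (γ • z) = y z) :
    ∀ γ ∈ S.Γ, ∀ z : ℍ, Tf S.R y (γ • z) = Tf S.R y z := by
  intro γ hγ z
  have hex : ∀ β ∈ S.R, ∃ β' ∈ S.R, β * γ * β'⁻¹ ∈ S.Γ := fun β hβ =>
    S.R_rep _ (E_mul_right S (S.R_mem β hβ) hγ)
  choose! i hiR hiΓ using hex
  unfold Tf
  refine Finset.sum_bij (fun β _ => i β) (fun β hβ => hiR β hβ) ?_ ?_ ?_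
  · intro β hβ β₁ hβ₁ h
    apply S.R_inj β hβ β₁ hβ₁
    have h1 := hiΓ β hβ
    have h2 := S.Γ.inv_mem (hiΓ β₁ hβ₁)
    have h3 := S.Γ.mul_mem h1 h2
    have h' : i β = i β₁ := h
    rw [h'] at h3
    have h4 : β * γ * (i β₁)⁻¹ * (β₁ * γ * (i β₁)⁻¹)⁻¹ = β * β₁⁻¹ := by group
    rwa [h4] at h3
  · intro β' hβ'
    obtain ⟨β, hβ, hb⟩ := S.R_rep _ (E_mul_right S (S.R_mem β' hβ') (S.Γ.inv_mem hγ))
    refine ⟨β, hβ, ?_⟩
    show i β = β'
    symm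
    apply S.R_inj β' hβ' (i β) (hiR β hβ)
    have h3 := S.Γ.mul_mem hb (hiΓ β hβ)
    have h4 : β' * γ⁻¹ * β⁻¹ * (β * γ * (i β)⁻¹) = β' * (i β)⁻¹ := by group
    rwa [h4] at h3
  · intro β hβ
    show y (β • γ • z) = y (i β • z)
    have h4 : β • γ • z = (β * γ * (i β)⁻¹) • (i β • z) := by
      rw [← mul_smul, ← mul_smul]
      congr 1
      group
    rw [h4, hy _ (hiΓ β hβ)]

/-- one step -/
theorem step (S : Setup) (y : ℍ → ℝ) (hy : ∀ γ ∈ S.Γ, ∀ z : ℍ, y (γ • z) = y z) (M : ℝ)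
    (hM : ∀ z, y z ≤ M) (e : SL(2, ℝ)) (he : e ∈ S.E) (u : ℍ) :
    Tf S.R y u ≤ ((S.R.card : ℝ) - 1) * M + y (e • u) := by
  classical
  obtain ⟨α, hα, hΓ⟩ := S.R_rep e he
  have h1 : y (e • u) = y (α • u) := by
    have h4 : e • u = (e * α⁻¹) • (α • u) := by
      rw [← mul_smul]
      congr 1
      group
    rw [h4, hy _ hΓ]
  have h2 : Tf S.R y u = y (α • u) + ∑ β ∈ S.R.erase α, y (β • u) :=
    (Finset.add_sum_erase S.R (fun β => y (β • u)) hα).symm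
  have h3 : ∑ β ∈ S.R.erase α, y (β • u) ≤ ((S.R.erase α).card : ℝ) * M := by
    have := Finset.sum_le_card_nsmul (S.R.erase α) (fun β => y (β • u)) M (fun β _ => hM _)
    rwa [nsmul_eq_mul] at this
  have h5 : ((S.R.erase α).card : ℝ) = (S.R.card : ℝ) - 1 := by
    rw [Finset.card_erase_of_mem hα, Nat.cast_sub (Finset.card_pos.2 ⟨α, hα⟩), Nat.cast_one]
  rw [h5] at h3
  rw [h1, h2]
  linarith

theorem bound (S : Setup) (y : ℍ → ℝ) (M : ℝ) (hM : ∀ z, y z ≤ M) (u : ℍ) :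
    Tf S.R y u ≤ (S.R.card : ℝ) * M := by
  have := Finset.sum_le_card_nsmul S.R (fun β => y (β • u)) M (fun β _ => hM _)
  rwa [nsmul_eq_mul] at this

theorem main (S : Setup) (l : List SL(2, ℝ)) (hl : ∀ e ∈ l, e ∈ S.E) : ∀ (y : ℍ → ℝ),
    (∀ γ ∈ S.Γ, ∀ z : ℍ, y (γ • z) = y z) → ∀ M : ℝ, (∀ z, y z ≤ M) → ∀ z : ℍ,
    ((Tf S.R)^[l.length] y) z ≤ (((S.R.card : ℝ)) ^ l.length - 1) * M + y (l.prod • z) := by
  induction l with
  | nil =>
    intro y _ M _ z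
    simp
  | cons e l ih =>
    intro y hy M hM z
    have h1 := ih (fun e' he' => hl e' (List.mem_cons_of_mem _ he')) (Tf S.R y) (Tf_inv S y hy)
      ((S.R.card : ℝ) * M) (fun z => bound S y M hM z) z
    have h2 := step S y hy M hM e (hl e List.mem_cons_self) (l.prod • z)
    rw [List.length_cons, Function.iterate_succ_apply, List.prod_cons, mul_smul, pow_succ]
    calc ((Tf S.R)^[l.length] (Tf S.R y)) z
        ≤ ((S.R.card : ℝ) ^ l.length - 1) * ((S.R.card : ℝ) * M) + Tf S.R y (l.prod • z) := h1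
      _ ≤ ((S.R.card : ℝ) ^ l.length - 1) * ((S.R.card : ℝ) * M) +
          (((S.R.card : ℝ) - 1) * M + y (e • l.prod • z)) := by linarith
      _ = ((S.R.card : ℝ) ^ l.length * (S.R.card : ℝ) - 1) * M + y (e • l.prod • z) := by ring

end IWLK

theorem prWLK : StWLK := fun S y hy M hM l hl z => IWLK.main S l hl y hy.2 M hM z

end HQ
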