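import Pool.Agent.Work.MP_d2a4bb_nt.QE.Stmts

/-!
# Block [d2a4bb QE], item WRD: non-backtracking words
-/

open UpperHalfPlane MeasureTheory Matrix
open scoped MatrixGroups Manifold Topology ComplexConjugate

namespace HQ

namespace IWRD

theorem mem_words_iff (Γ : Subgroup SL(2, ℝ)) (R : Finset SL(2, ℝ)) (n : ℕ) (a : List SL(2, ℝ)) :
    a ∈ words Γ R n ↔ a.length = n ∧ IsWord Γ R a := by
  classical
  induction n generalizing a with
  | zero =>
    constructor
    · intro h
      have : a = [] := by simpa [words] using h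
      subst this
      exact ⟨rfl, by simp, by simp⟩
    · rintro ⟨h, -⟩
      have : a = [] := List.length_eq_zero_iff.mp h
      subst this
      simp [words]
  | succ n ih =>
    constructor
    · intro h
      simp only [words, Finset.mem_image, Finset.mem_filter, Finset.mem_product] at h
      obtain ⟨⟨β, b⟩, ⟨⟨hβ, hb⟩, hc⟩, rfl⟩ := h
      obtain ⟨hl, hw⟩ := (ih b).mp hb
      refine ⟨by simp [hl], ?_, ?_⟩
      · intro α hα
        rcases List.mem_cons.mp hα with rfl | h1
        · exact hβ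
        · exact hw.1 α h1
      · rw [List.isChain_cons]
        exact ⟨hc, hw.2⟩
    · rintro ⟨hl, hw⟩
      cases a with
      | nil => simp at hl
      | cons β b =>
        simp only [words, Finset.mem_image, Finset.mem_filter, Finset.mem_product]
        have h2 := hw.2
        rw [List.isChain_cons] at h2
        refine ⟨(β, b), ⟨⟨hw.1 β (by simp), (ih b).mpr ⟨by simpa using hl, ?_, h2.2⟩⟩, h2.1⟩, rfl⟩
        intro α hα
        exact hw.1 α (by simp [hα])

open Classical in
theorem sum_words {A : Type*} [AddCommMonoid A] (Γ : Subgroup SL(2, ℝ)) (R : Finset SL(2, ℝ)) (n : ℕ)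
    (h : List SL(2, ℝ) → A) :
    ∑ a ∈ words Γ R (n + 1), h a =
      ∑ a ∈ words Γ R n, ∑ β ∈ R, if (∀ α ∈ a.head?, β * α ∉ Γ) then h (β :: a) else 0 := by
  have e : words Γ R (n + 1) = ((R ×ˢ words Γ R n).filter
      (fun p => ∀ α ∈ p.2.head?, p.1 * α ∉ Γ)).image (fun p => p.1 :: p.2) := by
    simp only [words]
  rw [e, Finset.sum_image, Finset.sum_filter, Finset.sum_product_right]
  rintro ⟨β, b⟩ _ ⟨β', b'⟩ _ h
  simpa using h

theorem back (S : Setup) : ∀ α ∈ S.R, ∃ β ∈ S.R, β * α ∈ S.Γ ∧ ∀ β' ∈ S.R, β' * α ∈ S.Γ → β' = β := by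
  intro α hα
  obtain ⟨β, hβ, h⟩ := S.R_rep α⁻¹ (S.E_inv α (S.R_mem α hα))
  have h1 : β * α ∈ S.Γ := by
    have h2 := S.Γ.inv_mem h
    have h3 : (α⁻¹ * β⁻¹)⁻¹ = β * α := by group
    rwa [h3] at h2
  refine ⟨β, hβ, h1, ?_⟩
  intro β' hβ' h'
  apply S.R_inj β' hβ' β hβ
  have h2 := S.Γ.mul_mem h' (S.Γ.inv_mem h1)
  have h3 : β' * α * (β * α)⁻¹ = β' * β⁻¹ := by group
  rwa [h3] at h2

theorem vtx_cons (β : SL(2, ℝ)) (a : List SL(2, ℝ)) (i : ℕ) (hi : i ≤ a.length) :
    vtx (β :: a) i = vtx a i := by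
  unfold vtx
  have h : (β :: a).length - i = (a.length - i) + 1 := by
    simp only [List.length_cons]
    omega
  rw [h, List.drop_succ_cons]

open Classical in
theorem card_ext (S : Setup) (α : SL(2, ℝ)) (hα : α ∈ S.R) :
    (S.R.filter (fun β => β * α ∉ S.Γ)).card = S.R.card - 1 := by
  obtain ⟨β, hβ, h1, h2⟩ := back S α hα
  have h3 : S.R.filter (fun β => β * α ∉ S.Γ) = S.R.erase β := by
    ext γ
    simp only [Finset.mem_filter, Finset.mem_erase]
    constructor
    · rintro ⟨hγ, h⟩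
      refine ⟨?_, hγ⟩
      rintro rfl
      exact h h1
    · rintro ⟨hne, hγ⟩
      exact ⟨hγ, fun h => hne (h2 γ hγ h)⟩
  rw [h3, Finset.card_erase_of_mem hβ]

open Classical in
theorem card_words (S : Setup) (n : ℕ) :
    (words S.Γ S.R (n + 1)).card = S.R.card * (S.R.card - 1) ^ n := by
  induction n with
  | zero =>
    rw [Finset.card_eq_sum_ones, sum_words]
    simp [words]
  | succ n ih =>
    rw [Finset.card_eq_sum_ones, sum_words]
    have h1 : ∀ a ∈ words S.Γ S.R (n + 1),
        (∑ β ∈ S.R, if (∀ α ∈ a.head?, β * α ∉ S.Γ) then 1 else 0) = S.R.card - 1 := by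
      intro a ha
      obtain ⟨hl, hw⟩ := (mem_words_iff S.Γ S.R (n + 1) a).mp ha
      cases a with
      | nil => simp at hl
      | cons α b =>
        rw [← card_ext S α (hw.1 α (by simp)), Finset.card_filter]
        apply Finset.sum_congr rfl
        intro β _
        simp
    rw [Finset.sum_congr rfl h1, Finset.sum_const, ih, smul_eq_mul, pow_succ]
    ring

end IWRD

theorem prWRD : StWRD := by
  intro S
  refine ⟨IWRD.mem_words_iff S.Γ S.R, ?_, IWRD.back S, fun β a i hi => IWRD.vtx_cons β a i hi, ?_, ?_,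
    IWRD.card_words S⟩
  · intro n h
    exact IWRD.sum_words S.Γ S.R n h
  · intro a
    simp [vtx]
  · intro n a ha
    obtain ⟨hl, hw⟩ := (IWRD.mem_words_iff S.Γ S.R n a).mp ha
    exact ⟨a, hl, fun e he => Or.inl (S.R_mem e (hw.1 e he)), rfl⟩

end HQ
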