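import Pool.Agent.Work.MP_d2a4bb_nt.QE.I_VOL
import Pool.Agent.Work.MP_d2a4bb_nt.QE.I_JJ
import Pool.Agent.Work.MP_d2a4bb_nt.QE.I_PHA
import Pool.Agent.Work.MP_d2a4bb_nt.QE.I_PHB
import Pool.Agent.Work.MP_d2a4bb_nt.QE.I_WRD
import Pool.Agent.Work.MP_d2a4bb_nt.QE.I_EXT
import Pool.Agent.Work.MP_d2a4bb_nt.QE.I_REC
import Pool.Agent.Work.MP_d2a4bb_nt.QE.I_REV
import Pool.Agent.Work.MP_d2a4bb_nt.QE.I_MTP
import Pool.Agent.Work.MP_d2a4bb_nt.QE.I_SYM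
import Pool.Agent.Work.MP_d2a4bb_nt.QE.I_RED
import Pool.Agent.Work.MP_d2a4bb_nt.QE.I_BAS
import Pool.Agent.Work.MP_d2a4bb_nt.QE.I_IDN
import Pool.Agent.Work.MP_d2a4bb_nt.QE.I_TFI
import Pool.Agent.Work.MP_d2a4bb_nt.QE.I_SMV
import Pool.Agent.Work.MP_d2a4bb_nt.QE.I_PCK
import Pool.Agent.Work.MP_d2a4bb_nt.QE.I_BND
import Pool.Agent.Work.MP_d2a4bb_nt.QE.I_BAD
import Pool.Agent.Work.MP_d2a4bb_nt.QE.I_LIN
import Pool.Agent.Work.MP_d2a4bb_nt.QE.I_BES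
import Pool.Agent.Work.MP_d2a4bb_nt.QE.I_PTW
import Pool.Agent.Work.MP_d2a4bb_nt.QE.I_TRC
import Pool.Agent.Work.MP_d2a4bb_nt.QE.I_CSI
import Pool.Agent.Work.MP_d2a4bb_nt.QE.I_VAR
import Pool.Agent.Work.MP_d2a4bb_nt.QE.I_UNI
import Pool.Agent.Work.MP_d2a4bb_nt.QE.I_WLK
import Pool.Agent.Work.MP_d2a4bb_nt.QE.I_MOD
import Pool.Agent.Work.MP_d2a4bb_nt.QE.I_ERG
import Pool.Agent.Work.MP_d2a4bb_nt.QE.I_COB
import Pool.Agent.Work.MP_d2a4bb_nt.QE.I_QEV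
import Pool.Agent.Work.MP_d2a4bb_nt.QE.I_WGT
import Pool.Agent.Work.MP_d2a4bb_nt.QE.I_FUN
import Pool.Agent.Work.MP_d2a4bb_nt.QE.I_RHO
import Pool.Agent.Work.MP_d2a4bb_nt.QE.I_SUM
import Pool.Agent.Work.MP_d2a4bb_nt.QE.I_POI
import Pool.Agent.Work.MP_d2a4bb_nt.QE.I_TWO
import Pool.Agent.Work.MP_d2a4bb_nt.QE.I_MOI
import Pool.Agent.Work.MP_d2a4bb_nt.QE.I_DIM
import Pool.Agent.Work.MP_d2a4bb_nt.QE.I_SEL
import Pool.Agent.Work.MP_d2a4bb_nt.QE.I_SEP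
import Pool.Agent.Work.MP_d2a4bb_nt.QE.I_EQD
import Pool.Agent.Work.MP_d2a4bb_nt.QE.I_MAI

/-!
# Assembly of the block [d2a4bb QE]: `Main` from the four statements of the arithmetic half
-/

namespace HQ

theorem main_of (GAM : StGAM) (COC : StCOC) (FIW : StFIW) (STP : StSTP) : Main := by
  have VOL : StVOL := prVOL
  have JJ : StJJ := prJJ
  have PHA : StPHA := prPHA JJ
  have PHB : StPHB := prPHB JJ
  have WRD : StWRD := prWRD
  have EXT : StEXT := prEXT PHA PHB WRD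
  have REC : StREC := prREC WRD EXT PHB
  have REV : StREV := prREV
  have MTP : StMTP := prMTP VOL
  have SYM : StSYM := prSYM MTP REV WRD PHA PHB
  have RED : StRED := prRED SYM WRD PHA PHB
  have BAS : StBAS := prBAS WRD EXT SYM PHA PHB
  have IDN : StIDN := prIDN REC SYM BAS
  have TFI : StTFI := prTFI MTP
  have SMV : StSMV := prSMV
  have PCK : StPCK := prPCK VOL PHA PHB
  have BND : StBND := prBND
  have BAD : StBAD := prBAD
  have LIN : StLIN := prLIN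
  have BES : StBES := prBES LIN PHB
  have PTW : StPTW := prPTW SMV PCK BES PHA
  have TRC : StTRC := prTRC PTW BAD BND PHB
  have CSI : StCSI := prCSI IDN WRD PHA PHB RED
  have VAR : StVAR := prVAR CSI TRC WRD
  have UNI : StUNI := prUNI
  have WLK : StWLK := prWLK
  have MOD : StMOD := prMOD
  have ERG : StERG := prERG UNI WLK MOD TFI
  have COB : StCOB := prCOB ERG MOD
  have QEV : StQEV := prQEV VAR COB MOD
  have WGT : StWGT := prWGT
  have FUN : StFUN := prFUN VOL GAM FIW COC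
  have RHO : StRHO := prRHO
  have SUM : StSUM := prSUM RHO
  have POI : StPOI := prPOI SUM RHO JJ
  have TWO : StTWO := prTWO POI SUM RHO
  have MOI : StMOI := prMOI
  have DIM : StDIM := prDIM TWO MOI LIN
  have SEL : StSEL := prSEL
  have SEP : StSEP := prSEP
  have EQD : StEQD := prEQD STP WGT FIW COC FUN QEV PHA PHB
  exact prMAI EQD DIM SEL SEP COC WGT FIW FUN PHA PHB

end HQ
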