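import Pool.Agent.Work.MP_d2a4bb_nt.QE.Stmts

open UpperHalfPlane MeasureTheory Matrix
open scoped MatrixGroups Manifold Topology ComplexConjugate

namespace HQ

namespace IBES

theorem integrable_aux {Γ : Subgroup SL(2, ℝ)} (W : Weight Γ) (h : ℍ → ℂ) (hh : Continuous h) :
    Integrable (fun u : ℍ => (W.w u : ℂ) * h u) := by
  refine Continuous.integrable_of_hasCompactSupport ?_ ?_
  · exact (Complex.continuous_ofReal.comp W.cont).mul hh
  · have h1 : HasCompactSupport (fun u : ℍ => (W.w u : ℂ)) := W.supp.comp_left Complex.ofReal_zero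
    exact h1.mul_right

theorem FF_sq (m : ℕ) (g : ℍ → ℂ) (u : ℍ) :
    ((FF m g u ^ 2 : ℝ) : ℂ) = g u * conj (g u) * ((u.im : ℝ) : ℂ) ^ (2 * m) := by
  rw [FF, mul_pow, Complex.mul_conj, Complex.normSq_eq_norm_sq]
  push_cast
  ring

end IBES

open IBES

theorem prBES (hLIN : StLIN) (hPHB : StPHB) : StBES := by
  intro Γ W m V c z C hC hb ι _ f hf
  obtain ⟨hForm, hOrth, hNorm⟩ := hf
  obtain ⟨-, -, hcont, hlin⟩ := hPHB
  set l : ι → ℂ := fun i => ∑ a ∈ V, c a * phi m (f i) z a.prod with hl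
  set g : ℍ → ℂ := fun u => ∑ i, conj (l i) * f i u with hg
  have hgF : Form Γ m g := (hLIN Γ).1 m ι Finset.univ (fun i => conj (l i)) f (fun i _ => hForm i)
  have h1 : ∑ a ∈ V, c a * phi m g z a.prod = ((∑ i, ‖l i‖ ^ 2 : ℝ) : ℂ) := by
    have h2 : ∀ a ∈ V, c a * phi m g z a.prod =
        ∑ i, conj (l i) * (c a * phi m (f i) z a.prod) := by
      intro a _
      rw [hg, hlin m ι Finset.univ (fun i => conj (l i)) f z a.prod, Finset.mul_sum]
      refine Finset.sum_congr rfl fun i _ => ?_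
      ring
    rw [Finset.sum_congr rfl h2, Finset.sum_comm]
    push_cast
    refine Finset.sum_congr rfl fun i _ => ?_
    rw [← Finset.mul_sum]
    change conj (l i) * l i = _
    rw [mul_comm, Complex.mul_conj, Complex.normSq_eq_norm_sq]
    push_cast
    ring
  have hfc : ∀ i, Continuous (f i) := fun i => (hcont Γ m (f i) (hForm i)).1
  have hcc : ∀ i j, Continuous (fun u : ℍ => f i u * conj (f j u) * ((u.im : ℝ) : ℂ) ^ (2 * m)) := by
    intro i j
    have h3 : Continuous (fun u : ℍ => ((u.im : ℝ) : ℂ)) :=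
      Complex.continuous_ofReal.comp UpperHalfPlane.continuous_im
    exact ((hfc i).mul (Complex.continuous_conj.comp (hfc j))).mul (h3.pow _)
  have h4 : ((∫ u : ℍ, W.w u * FF m g u ^ 2 : ℝ) : ℂ) = ((∑ i, ‖l i‖ ^ 2 : ℝ) : ℂ) := by
    rw [← integral_complex_ofReal]
    have h5 : ∀ u : ℍ, ((W.w u * FF m g u ^ 2 : ℝ) : ℂ) = ∑ i, ∑ j, (conj (l i) * l j) *
        ((W.w u : ℂ) * (f i u * conj (f j u) * ((u.im : ℝ) : ℂ) ^ (2 * m))) := by
      intro u
      rw [Complex.ofReal_mul, FF_sq, hg]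
      simp only [map_sum, map_mul, Complex.conj_conj]
      rw [Finset.sum_mul_sum]
      simp only [Finset.sum_mul, Finset.mul_sum]
      refine Finset.sum_congr rfl fun i _ => Finset.sum_congr rfl fun j _ => ?_
      ring
    simp only [h5]
    rw [integral_finset_sum _ (fun i _ => integrable_finset_sum _ fun j _ =>
      (integrable_aux W _ (hcc i j)).const_mul _)]
    push_cast
    refine Finset.sum_congr rfl fun i _ => ?_
    rw [integral_finset_sum _ (fun j _ => (integrable_aux W _ (hcc i j)).const_mul _)]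
    rw [Finset.sum_eq_single i]
    · rw [integral_const_mul]
      have h6 : ∫ u : ℍ, (W.w u : ℂ) * (f i u * conj (f i u) * ((u.im : ℝ) : ℂ) ^ (2 * m)) = 1 := by
        have h7 := congrArg (fun x : ℝ => (x : ℂ)) (hNorm i)
        simp only [← integral_complex_ofReal] at h7
        rw [Complex.ofReal_one] at h7
        rw [← h7]
        refine integral_congr_ae (Filter.Eventually.of_forall fun u => ?_)
        simp only
        rw [Complex.ofReal_mul, FF_sq]
      rw [h6, mul_one, mul_comm, Complex.mul_conj, Complex.normSq_eq_norm_sq]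
      push_cast
      ring
    · intro j _ hji
      rw [integral_const_mul, hOrth i j (Ne.symm hji), mul_zero]
    · intro h
      exact absurd (Finset.mem_univ i) h
  have h4' : ∫ u : ℍ, W.w u * FF m g u ^ 2 = ∑ i, ‖l i‖ ^ 2 := by exact_mod_cast h4
  have h8 := hb g hgF
  rw [h1, h4', Complex.norm_real, Real.norm_eq_abs, sq_abs] at h8
  change ∑ i, ‖l i‖ ^ 2 ≤ C
  set s := ∑ i, ‖l i‖ ^ 2 with hs
  have hs0 : 0 ≤ s := Finset.sum_nonneg fun i _ => by positivity
  rcases hs0.eq_or_lt with h0 | h0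
  · rw [← h0]; exact hC
  · nlinarith

end HQ
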