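import Pool.Agent.Work.MP_d2a4bb_nt.QE.Stmts

/-!
# Item QEV of the block [d2a4bb QE]

Few exceptions: from the variance bound to the number of exceptional forms.
-/

open UpperHalfPlane MeasureTheory Matrix
open scoped MatrixGroups Manifold Topology ComplexConjugate

namespace HQ

namespace IQEV

theorem cont_FF {Γ : Subgroup SL(2, ℝ)} {m : ℕ} {f : ℍ → ℂ} (h : Form Γ m f) :
    Continuous (FF m f) := by
  have h1 : Continuous f := h.1.continuous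
  have h2 : Continuous fun z : ℍ => ‖f z‖ * z.im ^ m :=
    h1.norm.mul (UpperHalfPlane.continuous_im.pow m)
  exact h2

theorem integ {Γ : Subgroup SL(2, ℝ)} (W : Weight Γ) {g : ℍ → ℝ} (hg : Continuous g) :
    Integrable (fun z : ℍ => W.w z * g z) volume :=
  (W.cont.mul hg).integrable_of_hasCompactSupport (W.supp.mul_right)

/-- replacing `ψ` by a function `v` uniformly close to it changes the integral by little -/
theorem close {Γ : Subgroup SL(2, ℝ)} (W : Weight Γ) {ψ v F : ℍ → ℝ} (hψ : Continuous ψ)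
    (hv : Continuous v) (hF : Continuous F) {δ : ℝ} (h : ∀ z, |ψ z - v z| ≤ δ)
    (h1 : ∫ z : ℍ, W.w z * F z ^ 2 = 1) :
    |(∫ z : ℍ, W.w z * (ψ z * F z ^ 2)) - ∫ z : ℍ, W.w z * (v z * F z ^ 2)| ≤ δ := by
  have hi1 : Integrable (fun z : ℍ => W.w z * (ψ z * F z ^ 2)) volume :=
    integ W (hψ.mul (hF.pow 2))
  have hi2 : Integrable (fun z : ℍ => W.w z * (v z * F z ^ 2)) volume :=
    integ W (hv.mul (hF.pow 2))
  have hi3 : Integrable (fun z : ℍ => W.w z * F z ^ 2) volume := integ W (hF.pow 2)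
  rw [← integral_sub hi1 hi2]
  have h2 : ∫ z : ℍ, δ * (W.w z * F z ^ 2) = δ := by
    rw [integral_const_mul, h1, mul_one]
  have h3 : ‖∫ z : ℍ, (W.w z * (ψ z * F z ^ 2) - W.w z * (v z * F z ^ 2))‖ ≤
      ∫ z : ℍ, δ * (W.w z * F z ^ 2) := by
    refine norm_integral_le_of_norm_le (hi3.const_mul δ) ?_
    refine Filter.Eventually.of_forall fun z => ?_
    have h4 : W.w z * (ψ z * F z ^ 2) - W.w z * (v z * F z ^ 2) =
        (ψ z - v z) * (W.w z * F z ^ 2) := by ring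
    have h5 : 0 ≤ W.w z * F z ^ 2 := mul_nonneg (W.nonneg z) (sq_nonneg _)
    rw [Real.norm_eq_abs, h4, abs_mul, abs_of_nonneg h5]
    exact mul_le_mul_of_nonneg_right (h z) h5
  rw [h2, Real.norm_eq_abs] at h3
  exact h3

end IQEV

theorem prQEV (hVAR : StVAR) (hCOB : StCOB) (hMOD : StMOD) : StQEV := by
  intro S W ψ hψ hmean ε hε
  obtain ⟨y, hy, hyψ⟩ := hCOB S W ψ hψ hmean (ε / 2) (by positivity)
  obtain ⟨⟨B, hB⟩, hT, -, -⟩ := hMOD S y hy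
  have hTy : Continuous (Tf S.R y) := (hT 1).1
  obtain ⟨C, hC, hV⟩ := hVAR S W
  have hε3 : 0 < ε ^ 3 := by positivity
  obtain ⟨N, hN1, hN⟩ : ∃ N : ℕ, 1 ≤ N ∧ C * B ^ 2 / (N : ℝ) ≤ ε ^ 3 / 8 := by
    obtain ⟨N, hN⟩ := exists_nat_ge (8 * (C * B ^ 2) / ε ^ 3)
    refine ⟨N + 1, by omega, ?_⟩
    have hpos : (0 : ℝ) < ((N + 1 : ℕ) : ℝ) := by positivity
    rw [div_le_iff₀ hpos]
    rw [div_le_iff₀ hε3] at hN
    push_cast
    nlinarith
  obtain ⟨m₀, hm₀⟩ := hV y B hy hB N hN1 (ε ^ 3 / 8) (by positivity)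
  refine ⟨m₀, fun m hm ι _ f hf hE => ?_⟩
  have hsum := hm₀ m hm ι f hf hE
  classical
  set s : Finset ι := Finset.univ.filter
    (fun i => ε < |∫ z : ℍ, W.w z * (ψ z * FF m (f i) z ^ 2)|) with hs
  have hset : {i : ι | ε < |∫ z : ℍ, W.w z * (ψ z * FF m (f i) z ^ 2)|} = (s : Set ι) := by
    ext i
    simp [hs]
  rw [hset, Set.ncard_coe_finset]
  have hv : Continuous fun z : ℍ => (S.R.card : ℝ) * y z - Tf S.R y z :=
    (continuous_const.mul hy.1).sub hTy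
  have hkey : ∀ i ∈ s, (ε / 2) ^ 2 ≤
      (∫ z : ℍ, W.w z * (((S.R.card : ℝ) * y z - Tf S.R y z) * FF m (f i) z ^ 2)) ^ 2 := by
    intro i hi
    have hi' : ε < |∫ z : ℍ, W.w z * (ψ z * FF m (f i) z ^ 2)| := (Finset.mem_filter.mp hi).2
    have h1 := IQEV.close W hψ.1 hv (IQEV.cont_FF (hf.1 i)) hyψ (hf.2.2 i)
    have h2 := abs_sub_abs_le_abs_sub (∫ z : ℍ, W.w z * (ψ z * FF m (f i) z ^ 2))
      (∫ z : ℍ, W.w z * (((S.R.card : ℝ) * y z - Tf S.R y z) * FF m (f i) z ^ 2))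
    rw [← sq_abs (∫ z : ℍ, W.w z * (((S.R.card : ℝ) * y z - Tf S.R y z) * FF m (f i) z ^ 2))]
    exact pow_le_pow_left₀ (by positivity) (by linarith) 2
  have h1 : (s.card : ℝ) * (ε / 2) ^ 2 ≤
      ∑ i, (∫ z : ℍ, W.w z * (((S.R.card : ℝ) * y z - Tf S.R y z) * FF m (f i) z ^ 2)) ^ 2 := by
    calc (s.card : ℝ) * (ε / 2) ^ 2 = ∑ _i ∈ s, (ε / 2) ^ 2 := by
          rw [Finset.sum_const, nsmul_eq_mul]
      _ ≤ ∑ i ∈ s, (∫ z : ℍ,
            W.w z * (((S.R.card : ℝ) * y z - Tf S.R y z) * FF m (f i) z ^ 2)) ^ 2 :=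
          Finset.sum_le_sum hkey
      _ ≤ _ := Finset.sum_le_sum_of_subset_of_nonneg (Finset.subset_univ _)
          (fun _ _ _ => sq_nonneg _)
  have hm0 : (0 : ℝ) ≤ (m : ℝ) := Nat.cast_nonneg m
  have h2 : (C * B ^ 2 / (N : ℝ) + ε ^ 3 / 8) * (m : ℝ) ≤ (ε ^ 3 / 4) * m :=
    mul_le_mul_of_nonneg_right (by linarith) hm0
  have h3 : (s.card : ℝ) * (ε / 2) ^ 2 ≤ (ε * m) * (ε / 2) ^ 2 := by
    have h4 : (ε * (m : ℝ)) * (ε / 2) ^ 2 = (ε ^ 3 / 4) * m := by ring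
    rw [h4]
    linarith
  exact le_of_mul_le_mul_right h3 (by positivity)

end HQ
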