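import Pool.Agent.Work.MP_d2a4bb_nt.QE.Stmts

/-!
# Item SEP of the block [d2a4bb QE]: separability of the test functions
-/

open UpperHalfPlane MeasureTheory Matrix
open scoped MatrixGroups Manifold Topology ComplexConjugate

namespace HQ

/-- SEP. -/
theorem prSEP : StSEP := by
  intro Γ K hK hcov
  have hKc : CompactSpace K := isCompact_iff_compactSpace.mp hK
  let I : Set C(ℍ, ℝ) := {g | ∀ γ ∈ Γ, ∀ z : ℍ, g (γ • z) = g z}
  have hne : Nonempty I := ⟨⟨0, fun _ _ _ => rfl⟩⟩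
  obtain ⟨u, hu⟩ := TopologicalSpace.exists_dense_seq I
  refine ⟨fun i z => (u i : C(ℍ, ℝ)) z, fun i => ⟨(u i : C(ℍ, ℝ)).continuous, (u i).2⟩, ?_⟩
  intro φ hφ ε hε
  let φ' : I := ⟨⟨φ, hφ.1⟩, hφ.2⟩
  have hr : Continuous fun g : I => (g : C(ℍ, ℝ)).restrict K :=
    (ContinuousMap.continuous_restrict K).comp continuous_subtype_val
  have hn : (fun g : I => (g : C(ℍ, ℝ)).restrict K) ⁻¹'
      Metric.ball ((φ' : C(ℍ, ℝ)).restrict K) ε ∈ 𝓝 φ' :=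
    hr.continuousAt.preimage_mem_nhds (Metric.ball_mem_nhds _ hε)
  obtain ⟨i, hi⟩ := hu.mem_nhds hn
  refine ⟨i, fun z => ?_⟩
  obtain ⟨γ, hγ, hz⟩ := hcov z
  have h1 : dist ((u i : C(ℍ, ℝ)).restrict K) ((φ' : C(ℍ, ℝ)).restrict K) < ε := hi
  have h2 := ContinuousMap.dist_apply_le_dist (f := (u i : C(ℍ, ℝ)).restrict K)
    (g := (φ' : C(ℍ, ℝ)).restrict K) ⟨γ • z, hz⟩
  have h3 : dist ((u i : C(ℍ, ℝ)) (γ • z)) (φ (γ • z)) < ε := h2.trans_lt h1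
  have h4 : (u i : C(ℍ, ℝ)) (γ • z) = (u i : C(ℍ, ℝ)) z := (u i).2 γ hγ z
  rw [h4, hφ.2 γ hγ z, dist_comm, Real.dist_eq] at h3
  exact h3.le

end HQ
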