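import Pool.Agent.Work.MP_d2a4bb_nt.QE.Stmts

/-! Block [d2a4bb QE], item SYM: reversal symmetry of the correlation integrals. -/

set_option autoImplicit false

open UpperHalfPlane MeasureTheory Matrix
open scoped MatrixGroups Manifold Topology ComplexConjugate

namespace HQ

namespace ISYM

/-- The elements `γ * a.prod` with `a` a word of length `L`. -/
def PP (S : Setup) (L : ℕ) : Set SL(2, ℝ) :=
  {x | ∃ a : List SL(2, ℝ), IsWord S.Γ S.R a ∧ a.length = L ∧ ∃ γ ∈ S.Γ, x = γ * a.prod}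

open Classical in
/-- The word of an element of `PP`. -/
noncomputable def AA (S : Setup) (L : ℕ) (x : SL(2, ℝ)) : List SL(2, ℝ) :=
  if h : x ∈ PP S L then Classical.choose h else []

theorem AA_spec (S : Setup) (L : ℕ) (x : SL(2, ℝ)) (h : x ∈ PP S L) :
    IsWord S.Γ S.R (AA S L x) ∧ (AA S L x).length = L ∧ ∃ γ ∈ S.Γ, x = γ * (AA S L x).prod := by
  unfold AA
  rw [dif_pos h]
  exact Classical.choose_spec h

theorem AA_eq (S : Setup) (L : ℕ) (x : SL(2, ℝ)) (a : List SL(2, ℝ)) (ha : IsWord S.Γ S.R a)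
    (hl : a.length = L) (γ : SL(2, ℝ)) (hγ : γ ∈ S.Γ) (hx : x = γ * a.prod) : AA S L x = a := by
  have hP : x ∈ PP S L := ⟨a, ha, hl, γ, hγ, hx⟩
  obtain ⟨h1, _, γ', hγ', h3⟩ := AA_spec S L x hP
  refine S.inj _ _ h1 ha ?_
  have e : (AA S L x).prod * a.prod⁻¹ = γ'⁻¹ * γ := by
    have e1 : (AA S L x).prod = γ'⁻¹ * x := by
      conv_rhs => rw [h3]
      rw [inv_mul_cancel_left]
    rw [e1, hx]
    group
  rw [e]
  exact S.Γ.mul_mem (S.Γ.inv_mem hγ') hγ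

theorem AA_mul (S : Setup) (L : ℕ) (x : SL(2, ℝ)) (h : x ∈ PP S L) (γ : SL(2, ℝ)) (hγ : γ ∈ S.Γ) :
    AA S L (γ * x) = AA S L x := by
  obtain ⟨h1, h2, γ', hγ', h3⟩ := AA_spec S L x h
  refine AA_eq S L (γ * x) (AA S L x) h1 h2 (γ * γ') (S.Γ.mul_mem hγ hγ') ?_
  rw [mul_assoc, ← h3]

/-- Reversal in terms of `AA`. -/
theorem rev (hREV : StREV) (hWRD : StWRD) (S : Setup) (L : ℕ) (x : SL(2, ℝ)) (h : x ∈ PP S L) :
    x⁻¹ ∈ PP S L ∧ ∀ i ≤ L, ∃ γ ∈ S.Γ, vtx (AA S L x⁻¹) (L - i) = γ * (vtx (AA S L x) i * x⁻¹) := by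
  obtain ⟨h1, h2, γ₀, hγ₀, h3⟩ := AA_spec S L x h
  obtain ⟨b, hb, hbl, hb2⟩ := hREV S (AA S L x) h1 γ₀ hγ₀
  rw [h2] at hbl hb2
  rw [← h3] at hb2
  obtain ⟨γ₁, hγ₁, e1⟩ := hb2 0 (Nat.zero_le _)
  have e2 : b.prod = γ₁ * x⁻¹ := by
    have e3 := ((hWRD S).2.2.2.2.1 b).1
    have e4 := ((hWRD S).2.2.2.2.1 (AA S L x)).2
    rw [hbl] at e3
    rw [Nat.sub_zero, e3, e4, one_mul] at e1
    exact e1
  have e5 : x⁻¹ = γ₁⁻¹ * b.prod := by rw [e2, inv_mul_cancel_left]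
  have hP : x⁻¹ ∈ PP S L := ⟨b, hb, hbl, γ₁⁻¹, S.Γ.inv_mem hγ₁, e5⟩
  have e6 : AA S L x⁻¹ = b := AA_eq S L _ b hb hbl γ₁⁻¹ (S.Γ.inv_mem hγ₁) e5
  refine ⟨hP, ?_⟩
  rw [e6]
  exact hb2

theorem conjmul {u : ℂ} (hu : ‖u‖ = 1) : u * conj u = 1 := by
  rw [Complex.mul_conj, Complex.normSq_eq_norm_sq, hu]
  norm_num

end ISYM

open ISYM in
open Classical in
theorem prSYM (hMTP : StMTP) (hREV : StREV) (hWRD : StWRD) (hPHA : StPHA) (hPHB : StPHB) :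
    StSYM := by
  intro S W m f y hF hy L i hi
  have hcf := (hPHB.2.2.1 S.Γ m f hF).1
  set h : ℍ → SL(2, ℝ) → ℂ := fun z x =>
    (y (vtx (AA S L x) i • z) : ℂ) * (phi m f z 1 * conj (phi m f z x)) with hh
  set V : Finset SL(2, ℝ) := (words S.Γ S.R L).image List.prod with hV
  have hmem : ∀ a, a ∈ words S.Γ S.R L ↔ a.length = L ∧ IsWord S.Γ S.R a := (hWRD S).1 L
  have hVP : ∀ a ∈ words S.Γ S.R L, a.prod ∈ PP S L := by
    intro a ha
    obtain ⟨h1, h2⟩ := (hmem a).1 ha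
    exact ⟨a, h2, h1, 1, S.Γ.one_mem, (one_mul _).symm⟩
  have hAA : ∀ a ∈ words S.Γ S.R L, AA S L a.prod = a := by
    intro a ha
    obtain ⟨h1, h2⟩ := (hmem a).1 ha
    exact AA_eq S L _ a h2 h1 1 S.Γ.one_mem (one_mul _).symm
  have hinj : ∀ a ∈ words S.Γ S.R L, ∀ b ∈ words S.Γ S.R L, a.prod = b.prod → a = b := by
    intro a ha b hb e
    rw [← hAA a ha, ← hAA b hb, e]
  -- the hypotheses of the mass transport principle
  have c1 : ∀ x ∈ PP S L, ∀ γ ∈ S.Γ, γ * x ∈ PP S L := by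
    rintro x ⟨a, ha, hl, γ', hγ', hx⟩ γ hγ
    exact ⟨a, ha, hl, γ * γ', S.Γ.mul_mem hγ hγ', by rw [hx, mul_assoc]⟩
  have c2 : ∀ x ∈ PP S L, x⁻¹ ∈ PP S L := fun x hx => (rev hREV hWRD S L x hx).1
  have c3 : Reps S.Γ (PP S L) V := by
    refine ⟨?_, ?_, ?_⟩
    · intro α hα
      obtain ⟨a, ha, rfl⟩ := Finset.mem_image.1 hα
      exact hVP a ha
    · intro x hx
      obtain ⟨h1, h2, γ, hγ, h3⟩ := AA_spec S L x hx
      refine ⟨(AA S L x).prod, Finset.mem_image.2 ⟨_, (hmem _).2 ⟨h2, h1⟩, rfl⟩, ?_⟩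
      have : x * (AA S L x).prod⁻¹ = γ := by
        conv_lhs => rw [h3]
        have : AA S L (γ * (AA S L x).prod) = AA S L x := by rw [← h3]
        rw [this, mul_inv_cancel_right]
      rw [this]
      exact hγ
    · intro α hα β hβ hαβ
      obtain ⟨a, ha, rfl⟩ := Finset.mem_image.1 hα
      obtain ⟨b, hb, rfl⟩ := Finset.mem_image.1 hβ
      rw [S.inj a b ((hmem a).1 ha).2 ((hmem b).1 hb).2 hαβ]
  have c4 : ∀ K : Set ℍ, IsCompact K → {x : SL(2, ℝ) | x ∈ PP S L ∧ ∃ z ∈ K, x • z ∈ K}.Finite := by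
    intro K hK
    refine (S.fin (L + 1) K hK).subset ?_
    rintro x ⟨⟨a, ha, hl, γ, hγ, hx⟩, hz⟩
    refine ⟨⟨γ :: a, by rw [List.length_cons, hl], ?_, by rw [List.prod_cons, hx]⟩, hz⟩
    intro e he
    rcases List.mem_cons.1 he with rfl | he
    · exact Or.inr hγ
    · exact Or.inl (S.R_mem _ (ha.1 e he))
  have c5 : ∀ x ∈ PP S L, Continuous fun z => h z x := by
    intro x _
    have k1 : Continuous fun z : ℍ => ((y (vtx (AA S L x) i • z) : ℝ) : ℂ) :=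
      Complex.continuous_ofReal.comp (hy.1.comp (continuous_const_smul _))
    have k2 := hPHB.2.1 m f hcf 1
    have k3 := hPHB.2.1 m f hcf x
    exact k1.mul (k2.mul (Complex.continuous_conj.comp k3))
  have c6 : ∀ x ∈ PP S L, ∀ γ ∈ S.Γ, ∀ z, h z (γ * x) = h z x := by
    intro x hx γ hγ z
    simp only [hh]
    rw [AA_mul S L x hx γ hγ, hPHA.1 S.Γ m f hF γ hγ z x]
  have c7 : ∀ x ∈ PP S L, ∀ γ ∈ S.Γ, ∀ z, h (γ • z) (x * γ⁻¹) = h z x := by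
    intro x hx γ hγ z
    obtain ⟨hx', r1⟩ := rev hREV hWRD S L x hx
    have hx'' : γ * x⁻¹ ∈ PP S L := c1 _ hx' γ hγ
    obtain ⟨_, r2⟩ := rev hREV hWRD S L (γ * x⁻¹) hx''
    have e0 : (γ * x⁻¹)⁻¹ = x * γ⁻¹ := by group
    rw [e0] at r2
    obtain ⟨γ₁, hγ₁, e1⟩ := r1 i hi
    obtain ⟨γ₂, hγ₂, e2⟩ := r2 (L - i) (Nat.sub_le _ _)
    rw [Nat.sub_sub_self hi, AA_mul S L _ hx' γ hγ, e1] at e2
    have e3 : vtx (AA S L (x * γ⁻¹)) i = (γ₂ * γ₁) * (vtx (AA S L x) i * γ⁻¹) := by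
      rw [e2]; group
    have e4 : y (vtx (AA S L (x * γ⁻¹)) i • γ • z) = y (vtx (AA S L x) i • z) := by
      rw [e3, mul_smul, hy.2 _ (S.Γ.mul_mem hγ₂ hγ₁), mul_smul, inv_smul_smul]
    obtain ⟨u, hu, hu2⟩ := hPHA.2.1 m γ z
    have e5 : phi m f z 1 = u * phi m f (γ • z) 1 := by
      rw [← hu2 f 1, one_mul, ← hPHA.1 S.Γ m f hF γ hγ z 1, mul_one]
    have e6 : phi m f z x = u * phi m f (γ • z) (x * γ⁻¹) := by
      rw [← hu2 f (x * γ⁻¹), inv_mul_cancel_right]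
    simp only [hh]
    rw [e4, e5, e6, map_mul]
    have := conjmul hu
    linear_combination (-((y (vtx (AA S L x) i • z) : ℝ) : ℂ) * phi m f (γ • z) 1 *
      conj (phi m f (γ • z) (x * γ⁻¹))) * this
  have key := hMTP S.Γ W (PP S L) V c1 c2 c3 c4 h c5 c6 c7
  -- the left side
  have hl : ∫ z : ℍ, (W.w z : ℂ) * ∑ v ∈ V, h z v = NN S W m f y L i := by
    unfold NN
    refine integral_congr_ae (Filter.Eventually.of_forall fun z => ?_)
    simp only [hh, hV]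
    rw [Finset.sum_image hinj]
    congr 1
    refine Finset.sum_congr rfl fun a ha => ?_
    rw [hAA a ha]
  have hr : ∫ z : ℍ, (W.w z : ℂ) * ∑ v ∈ V, h (v • z) v⁻¹ = conj (NN S W m f y L (L - i)) := by
    unfold NN
    rw [← integral_conj]
    refine integral_congr_ae (Filter.Eventually.of_forall fun z => ?_)
    simp only [hh, hV]
    rw [Finset.sum_image hinj, map_mul, Complex.conj_ofReal, map_sum]
    congr 1
    refine Finset.sum_congr rfl fun a ha => ?_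
    obtain ⟨_, r1⟩ := rev hREV hWRD S L a.prod (hVP a ha)
    obtain ⟨γ, hγ, e1⟩ := r1 (L - i) (Nat.sub_le _ _)
    rw [Nat.sub_sub_self hi, hAA a ha] at e1
    have e2 : y (vtx (AA S L a.prod⁻¹) i • a.prod • z) = y (vtx a (L - i) • z) := by
      rw [e1, mul_smul, hy.2 _ hγ, mul_smul, inv_smul_smul]
    obtain ⟨u, hu, hu2⟩ := hPHA.2.1 m a.prod z
    have e3 : phi m f z a.prod = u * phi m f (a.prod • z) 1 := by
      rw [← hu2 f 1, one_mul]
    have e4 : phi m f z 1 = u * phi m f (a.prod • z) a.prod⁻¹ := by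
      rw [← hu2 f a.prod⁻¹, inv_mul_cancel]
    rw [e2, e3, e4]
    simp only [map_mul, Complex.conj_ofReal, Complex.conj_conj]
    have := conjmul hu
    linear_combination (-((y (vtx a (L - i) • z) : ℝ) : ℂ) * phi m f (a.prod • z) 1 *
      conj (phi m f (a.prod • z) a.prod⁻¹)) * this
  rw [← hl, key, hr]

end HQ
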