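import Mathlib
import Pool.Agent.Work.MP_d2a4bb_nt.QE.Stmts

set_option autoImplicit false

/-!
# Block [d2a4bb QE], item VOL: the action of `SL(2, ℝ)` preserves the volume
-/

open UpperHalfPlane MeasureTheory Matrix
open scoped MatrixGroups Manifold Topology ComplexConjugate

namespace HQ

namespace IVOL

theorem mp (g : SL(2, ℝ)) : MeasurePreserving (fun z : ℍ => g • z) volume volume := by
  have h := measurePreserving_smul (Matrix.SpecialLinearGroup.mapGL ℝ g : GL (Fin 2) ℝ)
    (volume : Measure ℍ)
  exact h

end IVOL

theorem prVOL : StVOL := by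
  refine ⟨IVOL.mp, fun g h => ?_, fun g h => ?_⟩
  · exact (IVOL.mp g).integral_comp (Homeomorph.smul g).measurableEmbedding h
  · exact (IVOL.mp g).integral_comp (Homeomorph.smul g).measurableEmbedding h

end HQ
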